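import Pool.Agent.Lib.MP_211f72_nt.Defs

/-!
# MP_211f72_nt: small counting lemmas used in several files
-/

namespace MP_211f72_nt

/-- a `σ`-separated finite set of reals in an interval of length `r` has at most `r/σ + 1` elements -/
theorem sep_card_le (S : Finset ℝ) (σ a r : ℝ) (hσ : 0 < σ) (hr : 0 ≤ r)
    (hsep : ∀ x ∈ S, ∀ y ∈ S, x ≠ y → σ ≤ |x - y|) (hin : ∀ x ∈ S, a ≤ x ∧ x ≤ a + r) :
    (S.card : ℝ) ≤ r / σ + 1 := by
  have hinj : Set.InjOn (fun x : ℝ => ⌊(x - a) / σ⌋₊) (S : Set ℝ) := by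
    intro x hx y hy hxy
    by_contra hne
    have hx0 : 0 ≤ (x - a) / σ := div_nonneg (by linarith [(hin x hx).1]) hσ.le
    have hy0 : 0 ≤ (y - a) / σ := div_nonneg (by linarith [(hin y hy).1]) hσ.le
    have h1 := Nat.floor_le hx0
    have h2 := Nat.lt_floor_add_one ((x - a) / σ)
    have h3 := Nat.floor_le hy0
    have h4 := Nat.lt_floor_add_one ((y - a) / σ)
    simp only at hxy
    rw [hxy] at h1 h2
    have hlt : |(x - a) / σ - (y - a) / σ| < 1 := by rw [abs_lt]; constructor <;> linarith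
    have he : (x - a) / σ - (y - a) / σ = (x - y) / σ := by ring
    rw [he, abs_div, abs_of_pos hσ, div_lt_one hσ] at hlt
    exact absurd (hsep x hx y hy hne) (not_le.mpr hlt)
  have hsub : S.image (fun x : ℝ => ⌊(x - a) / σ⌋₊) ⊆ Finset.range (⌊r / σ⌋₊ + 1) := by
    intro n hn
    obtain ⟨x, hx, rfl⟩ := Finset.mem_image.mp hn
    rw [Finset.mem_range, Nat.lt_succ_iff]
    apply Nat.floor_le_floor
    apply div_le_div_of_nonneg_right _ hσ.le
    linarith [(hin x hx).2]
  have hc := Finset.card_le_card hsub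
  rw [Finset.card_image_of_injOn hinj, Finset.card_range] at hc
  have : (S.card : ℝ) ≤ (⌊r / σ⌋₊ : ℝ) + 1 := by exact_mod_cast hc
  have h5 := Nat.floor_le (div_nonneg hr hσ.le)
  linarith

/-- the number of integers in an interval of length `r` is at most `r + 1` -/
theorem int_card_le (S : Finset ℤ) (a r : ℝ) (hr : 0 ≤ r)
    (hin : ∀ n ∈ S, a ≤ (n : ℝ) ∧ (n : ℝ) ≤ a + r) : (S.card : ℝ) ≤ r + 1 := by
  have h := sep_card_le (S.image (fun n : ℤ => (n : ℝ))) 1 a r one_pos hr ?_ ?_
  · rw [Finset.card_image_of_injective _ Int.cast_injective] at h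
    simpa using h
  · intro x hx y hy hxy
    obtain ⟨m, _, rfl⟩ := Finset.mem_image.mp hx
    obtain ⟨n, _, rfl⟩ := Finset.mem_image.mp hy
    have hmn : m ≠ n := fun h => hxy (by rw [h])
    have h1 : (1 : ℤ) ≤ |m - n| := Int.one_le_abs (sub_ne_zero.mpr hmn)
    exact_mod_cast h1
  · intro x hx
    obtain ⟨m, hm, rfl⟩ := Finset.mem_image.mp hx
    exact hin m hm

/-- a set all of whose finite subsets have at most `B` elements is finite, with at most `B` elements -/
theorem exists_finset_of_card_le {α : Type*} (A : Set α) (B : ℝ)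
    (h : ∀ S : Finset α, (∀ x ∈ S, x ∈ A) → (S.card : ℝ) ≤ B) :
    ∃ S : Finset α, (∀ x, x ∈ S ↔ x ∈ A) ∧ (S.card : ℝ) ≤ B := by
  have hfin : A.Finite := by
    by_contra hinf
    obtain ⟨S, hS, hc⟩ := Set.Infinite.exists_subset_card_eq hinf (⌊B⌋₊ + 1)
    have h1 := h S (fun x hx => hS hx)
    rw [hc] at h1
    push_cast at h1
    have h2 := Nat.lt_floor_add_one B
    linarith
  refine ⟨hfin.toFinset, fun x => by simp, h _ (fun x hx => by simpa using hx)⟩

/-- the number of pairs `(m,n)` of a product set bounded by the product of the bounds, real version -/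
theorem card_le_mul_card_image_real {α β : Type*} [DecidableEq β] (S : Finset α) (f : α → β) (B : ℝ)
    (h : ∀ b ∈ S.image f, (((S.filter fun x => f x = b).card : ℕ) : ℝ) ≤ B) :
    (S.card : ℝ) ≤ B * (S.image f).card := by
  rw [Finset.card_eq_sum_card_image f S]
  push_cast
  calc (∑ b ∈ S.image f, (((S.filter fun x => f x = b).card : ℕ) : ℝ))
      ≤ ∑ _b ∈ S.image f, B := Finset.sum_le_sum h
    _ = B * (S.image f).card := by rw [Finset.sum_const, nsmul_eq_mul, mul_comm]

end MP_211f72_nt
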