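import Pool.Agent.Lib.MP_211f72_nt.Spec
import Pool.Agent.Lib.MP_211f72_nt.Basic

/-!
# MP_211f72_nt: the avoidance lemma
-/

namespace MP_211f72_nt

open scoped Classical in
/-- mass of the balls of a cover which meet the interval `[u,v]` -/
noncomputable def Smass (τ : ℝ) (c r : ℕ → ℝ) (u v : ℝ) : ENNReal :=
  ∑' i, if c i - r i ≤ v ∧ u ≤ c i + r i then ENNReal.ofReal (r i ^ τ) else 0

theorem Smass_mono {τ : ℝ} {c r : ℕ → ℝ} {u v u' v' : ℝ} (hu : u ≤ u') (hv : v' ≤ v) :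
    Smass τ c r u' v' ≤ Smass τ c r u v := by
  unfold Smass
  refine ENNReal.tsum_le_tsum fun i => ?_
  by_cases h : c i - r i ≤ v' ∧ u' ≤ c i + r i
  · rw [if_pos h, if_pos ⟨h.1.trans hv, hu.trans h.2⟩]
  · rw [if_neg h]; exact bot_le

theorem le_Smass {τ : ℝ} {c r : ℕ → ℝ} {u v : ℝ} (i : ℕ) (h : c i - r i ≤ v ∧ u ≤ c i + r i) :
    ENNReal.ofReal (r i ^ τ) ≤ Smass τ c r u v := by
  have h1 := ENNReal.le_tsum (f := fun i => if c i - r i ≤ v ∧ u ≤ c i + r i then
    ENNReal.ofReal (r i ^ τ) else 0) i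
  simp only [if_pos h] at h1
  exact h1

/-- one ball: the proportion of children hit, weighted -/
theorem ball_card {K u v t τ κ L l : ℝ} {C : Finset ℝ} (hK : 0 < K) (hu : 0 ≤ u) (huv : u < v)
    (hv : v ≤ 1) (hτ : 0 < τ) (hτt : τ ≤ t) (ht : t ≤ 1) (hκ : 0 < κ) (hκ1 : κ ≤ 1) (hL : 0 < L)
    (hl : 0 < l) (hl1 : l ≤ 1)
    (hsep : ∀ c ∈ C, ∀ c' ∈ C, c ≠ c' → 2 * l < |c - c'|)
    (hcard : L ≤ C.card * l ^ t)
    (hwin : ∀ p r : ℝ, l ≤ r →
      ((C.filter fun c => p ≤ c ∧ c ≤ p + r).card : ℝ) ≤ (K * r / (v - u) + r ^ t) * C.card)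
    {z r : ℝ} (hr : 0 < r) (hrS : r ^ τ < κ * (v - u) ^ τ) :
    ((C.filter fun c => z - r ≤ c + l ∧ c ≤ z + r).card : ℝ) *
      (if l ≤ r then 1 else r ^ τ / (κ * l ^ τ)) ≤
      ((3 * K + 3) + 5 / 2 / (κ * L)) * (C.card / (v - u) ^ τ) * r ^ τ := by
  have hℓ : 0 < v - u := by linarith
  have hℓ1 : v - u ≤ 1 := by linarith
  have hℓτ : 0 < (v - u) ^ τ := Real.rpow_pos_of_pos hℓ _
  have hℓτ1 : (v - u) ^ τ ≤ 1 := Real.rpow_le_one hℓ.le hℓ1 hτ.le
  have hrτ : 0 < r ^ τ := Real.rpow_pos_of_pos hr _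
  have hC0 : (0 : ℝ) ≤ C.card := Nat.cast_nonneg _
  have hrℓ : r < v - u := by
    have h1 : r ^ τ < (v - u) ^ τ := lt_of_lt_of_le hrS (by nlinarith)
    exact (Real.rpow_lt_rpow_iff hr.le hℓ.le hτ).mp h1
  have hr1 : r ≤ 1 := by linarith
  have hq0 : 0 < r / (v - u) := div_pos hr hℓ
  have hq1 : r / (v - u) ≤ 1 := by rw [div_le_one hℓ]; exact hrℓ.le
  have hqe : (r / (v - u)) ^ τ = r ^ τ / (v - u) ^ τ := Real.div_rpow hr.le hℓ.le _
  by_cases hlr : l ≤ r
  · rw [if_pos hlr, mul_one]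
    have hsub : (C.filter fun c => z - r ≤ c + l ∧ c ≤ z + r) ⊆
        (C.filter fun c => z - r - l ≤ c ∧ c ≤ (z - r - l) + 3 * r) := by
      intro c hc
      rw [Finset.mem_filter] at hc ⊢
      exact ⟨hc.1, by linarith [hc.2.1], by linarith [hc.2.2]⟩
    have h1 : ((C.filter fun c => z - r ≤ c + l ∧ c ≤ z + r).card : ℝ) ≤
        ((C.filter fun c => z - r - l ≤ c ∧ c ≤ (z - r - l) + 3 * r).card : ℝ) := by
      exact_mod_cast Finset.card_le_card hsub
    have h2 := hwin (z - r - l) (3 * r) (by linarith)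
    have h3 : (3 * r) ^ t ≤ 3 * r ^ t := by
      rw [Real.mul_rpow (by norm_num) hr.le]
      have : (3 : ℝ) ^ t ≤ 3 ^ (1 : ℝ) := Real.rpow_le_rpow_of_exponent_le (by norm_num) ht
      rw [Real.rpow_one] at this
      exact mul_le_mul_of_nonneg_right this (Real.rpow_nonneg hr.le _)
    have h4 : r ^ t ≤ r ^ τ := Real.rpow_le_rpow_of_exponent_ge hr hr1 hτt
    have h5 : r ^ τ ≤ r ^ τ / (v - u) ^ τ := by
      rw [le_div_iff₀ hℓτ]; nlinarith
    have h6 : r / (v - u) ≤ r ^ τ / (v - u) ^ τ := by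
      rw [← hqe]
      have := Real.rpow_le_rpow_of_exponent_ge hq0 hq1 (hτt.trans ht)
      rwa [Real.rpow_one] at this
    have h7 : K * (3 * r) / (v - u) + (3 * r) ^ t ≤ (3 * K + 3) * (r ^ τ / (v - u) ^ τ) := by
      have e : K * (3 * r) / (v - u) = 3 * K * (r / (v - u)) := by ring
      rw [e]
      have : 3 * K * (r / (v - u)) ≤ 3 * K * (r ^ τ / (v - u) ^ τ) :=
        mul_le_mul_of_nonneg_left h6 (by positivity)
      nlinarith
    have h8 : (K * (3 * r) / (v - u) + (3 * r) ^ t) * C.card ≤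
        (3 * K + 3) * (r ^ τ / (v - u) ^ τ) * C.card := mul_le_mul_of_nonneg_right h7 hC0
    have h9 : (3 * K + 3) * (r ^ τ / (v - u) ^ τ) * C.card =
        (3 * K + 3) * (C.card / (v - u) ^ τ) * r ^ τ := by ring
    have h10 : (3 * K + 3) * (C.card / (v - u) ^ τ) * r ^ τ ≤
        ((3 * K + 3) + 5 / 2 / (κ * L)) * (C.card / (v - u) ^ τ) * r ^ τ := by
      apply mul_le_mul_of_nonneg_right _ hrτ.le
      apply mul_le_mul_of_nonneg_right _ (by positivity)
      have : 0 < 5 / 2 / (κ * L) := by positivity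
      linarith
    linarith
  · rw [if_neg hlr]
    push Not at hlr
    have h1 : ((C.filter fun c => z - r ≤ c + l ∧ c ≤ z + r).card : ℝ) ≤ (3 * l) / (2 * l) + 1 := by
      apply sep_card_le _ (2 * l) (z - r - l) (3 * l) (by positivity) (by positivity)
      · intro x hx y hy hxy
        exact (hsep x (Finset.mem_filter.mp hx).1 y (Finset.mem_filter.mp hy).1 hxy).le
      · intro x hx
        have := (Finset.mem_filter.mp hx).2
        constructor <;> linarith [this.1, this.2]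
    have h2 : (3 * l) / (2 * l) + 1 = 5 / 2 := by field_simp; norm_num
    rw [h2] at h1
    have hlτ : 0 < l ^ τ := Real.rpow_pos_of_pos hl _
    have hlt : l ^ t ≤ l ^ τ := Real.rpow_le_rpow_of_exponent_ge hl hl1 hτt
    have h3 : L * (v - u) ^ τ ≤ C.card * l ^ τ := by
      have a1 : L * (v - u) ^ τ ≤ L * 1 := mul_le_mul_of_nonneg_left hℓτ1 hL.le
      have a2 : C.card * l ^ t ≤ C.card * l ^ τ := mul_le_mul_of_nonneg_left hlt hC0
      linarith
    have h4 : 1 / l ^ τ ≤ (1 / L) * (C.card / (v - u) ^ τ) := by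
      have e : (1 / L) * (C.card / (v - u) ^ τ) = C.card / (L * (v - u) ^ τ) := by
        field_simp
      rw [e, div_le_div_iff₀ hlτ (by positivity)]
      linarith
    have hw0 : 0 ≤ r ^ τ / (κ * l ^ τ) := by positivity
    calc ((C.filter fun c => z - r ≤ c + l ∧ c ≤ z + r).card : ℝ) * (r ^ τ / (κ * l ^ τ))
        ≤ 5 / 2 * (r ^ τ / (κ * l ^ τ)) := mul_le_mul_of_nonneg_right h1 hw0
      _ = 5 / 2 / κ * r ^ τ * (1 / l ^ τ) := by field_simp
      _ ≤ 5 / 2 / κ * r ^ τ * ((1 / L) * (C.card / (v - u) ^ τ)) :=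
          mul_le_mul_of_nonneg_left h4 (by positivity)
      _ = (5 / 2 / (κ * L)) * (C.card / (v - u) ^ τ) * r ^ τ := by field_simp
      _ ≤ ((3 * K + 3) + 5 / 2 / (κ * L)) * (C.card / (v - u) ^ τ) * r ^ τ := by
          apply mul_le_mul_of_nonneg_right _ hrτ.le
          apply mul_le_mul_of_nonneg_right _ (by positivity)
          linarith

open scoped Classical in
/-- one cover: the number of bad children -/
theorem bad_card {K u v t τ κ L l : ℝ} {C : Finset ℝ} {c r : ℕ → ℝ}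
    (hK : 0 < K) (hu : 0 ≤ u) (huv : u < v)
    (hv : v ≤ 1) (hτ : 0 < τ) (hτt : τ ≤ t) (ht : t ≤ 1) (hκ : 0 < κ) (hκ1 : κ ≤ 1) (hL : 0 < L)
    (hl : 0 < l) (hl1 : l ≤ 1)
    (hin : ∀ x ∈ C, u ≤ x ∧ x + l ≤ v)
    (hsep : ∀ c ∈ C, ∀ c' ∈ C, c ≠ c' → 2 * l < |c - c'|)
    (hcard : L ≤ C.card * l ^ t)
    (hwin : ∀ p r : ℝ, l ≤ r →
      ((C.filter fun c => p ≤ c ∧ c ≤ p + r).card : ℝ) ≤ (K * r / (v - u) + r ^ t) * C.card)
    (hr : ∀ i, 0 < r i)
    (hS : Smass τ c r u v < ENNReal.ofReal (κ * (v - u) ^ τ)) :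
    ((C.filter fun x => ¬ (Smass τ c r x (x + l) < ENNReal.ofReal (κ * l ^ τ))).card : ℝ) ≤
      ((3 * K + 3) * κ + 5 / 2 / L) * C.card := by
  have hℓ : 0 < v - u := by linarith
  have hℓτ : 0 < (v - u) ^ τ := Real.rpow_pos_of_pos hℓ _
  have hlτ : 0 < l ^ τ := Real.rpow_pos_of_pos hl _
  have hC0 : (0 : ℝ) ≤ C.card := Nat.cast_nonneg _
  set w : ℕ → ℝ := fun i => if l ≤ r i then 1 else r i ^ τ / (κ * l ^ τ) with hw
  have hw0 : ∀ i, 0 ≤ w i := by
    intro i
    simp only [hw]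
    split_ifs
    · exact zero_le_one
    · exact div_nonneg (Real.rpow_nonneg (hr i).le _) (by positivity)
  set A : ℝ := ((3 * K + 3) + 5 / 2 / (κ * L)) * (C.card / (v - u) ^ τ) with hA
  have hA0 : 0 ≤ A := by positivity
  set hit : ℝ → ℕ → Prop := fun x i => c i - r i ≤ x + l ∧ x ≤ c i + r i with hhit
  set B := C.filter fun x => ¬ (Smass τ c r x (x + l) < ENNReal.ofReal (κ * l ^ τ)) with hB
  -- each bad child has weight at least one
  have hone : ∀ x ∈ B, (1 : ENNReal) ≤ ∑' i, if hit x i then ENNReal.ofReal (w i) else 0 := by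
    intro x hx
    rw [hB, Finset.mem_filter] at hx
    obtain ⟨-, hx⟩ := hx
    push Not at hx
    by_cases hbig : ∃ i, hit x i ∧ l ≤ r i
    · obtain ⟨i, hi, hli⟩ := hbig
      have h1 := ENNReal.le_tsum (f := fun i => if hit x i then ENNReal.ofReal (w i) else 0) i
      simp only [if_pos hi, hw, if_pos hli, ENNReal.ofReal_one] at h1
      exact h1
    · push Not at hbig
      have h1 : ∀ i, (if hit x i then ENNReal.ofReal (w i) else 0) =
          (if c i - r i ≤ x + l ∧ x ≤ c i + r i then ENNReal.ofReal (r i ^ τ) else 0) *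
            ENNReal.ofReal (1 / (κ * l ^ τ)) := by
        intro i
        by_cases hi : hit x i
        · rw [if_pos hi]
          have hi' : c i - r i ≤ x + l ∧ x ≤ c i + r i := hi
          rw [if_pos hi', ← ENNReal.ofReal_mul (Real.rpow_nonneg (hr i).le _)]
          simp only [hw]
          rw [if_neg (not_le.mpr (hbig i hi))]
          congr 1
          ring
        · rw [if_neg hi]
          have hi' : ¬ (c i - r i ≤ x + l ∧ x ≤ c i + r i) := hi
          rw [if_neg hi', zero_mul]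
      simp_rw [h1]
      rw [ENNReal.tsum_mul_right]
      have h2 : ENNReal.ofReal (κ * l ^ τ) * ENNReal.ofReal (1 / (κ * l ^ τ)) = 1 := by
        rw [← ENNReal.ofReal_mul (by positivity)]
        rw [mul_one_div_cancel (by positivity), ENNReal.ofReal_one]
      calc (1 : ENNReal) = ENNReal.ofReal (κ * l ^ τ) * ENNReal.ofReal (1 / (κ * l ^ τ)) := h2.symm
        _ ≤ Smass τ c r x (x + l) * ENNReal.ofReal (1 / (κ * l ^ τ)) := by gcongr
        _ = _ := rfl
  -- for each ball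
  have hball : ∀ i, (∑ x ∈ C, if hit x i then ENNReal.ofReal (w i) else 0) ≤
      ENNReal.ofReal A * (if c i - r i ≤ v ∧ u ≤ c i + r i then ENNReal.ofReal (r i ^ τ) else 0) := by
    intro i
    by_cases hi : c i - r i ≤ v ∧ u ≤ c i + r i
    · rw [if_pos hi, ← ENNReal.ofReal_mul hA0]
      have hrS : r i ^ τ < κ * (v - u) ^ τ := by
        have h1 := lt_of_le_of_lt (le_Smass (τ := τ) i hi) hS
        exact (ENNReal.ofReal_lt_ofReal_iff (by positivity)).mp h1
      have h2 := ball_card (z := c i) hK hu huv hv hτ hτt ht hκ hκ1 hL hl hl1 hsep hcard hwin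
        (hr i) hrS
      rw [← Finset.sum_filter, Finset.sum_const, nsmul_eq_mul]
      rw [← ENNReal.ofReal_natCast, ← ENNReal.ofReal_mul (Nat.cast_nonneg _)]
      apply ENNReal.ofReal_le_ofReal
      have e1 : (C.filter fun x => hit x i) = C.filter fun x => c i - r i ≤ x + l ∧ x ≤ c i + r i := by
        apply Finset.filter_congr
        intro x _
        rfl
      rw [e1]
      exact h2
    · rw [if_neg hi, mul_zero]
      apply le_of_eq
      apply Finset.sum_eq_zero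
      intro x hx
      rw [if_neg]
      intro h
      exact hi ⟨h.1.trans (hin x hx).2, (hin x hx).1.trans h.2⟩
  have hsum : (B.card : ENNReal) ≤ ENNReal.ofReal A * Smass τ c r u v := by
    calc (B.card : ENNReal) = ∑ x ∈ B, (1 : ENNReal) := by simp
      _ ≤ ∑ x ∈ B, ∑' i, (if hit x i then ENNReal.ofReal (w i) else 0) :=
          Finset.sum_le_sum hone
      _ ≤ ∑ x ∈ C, ∑' i, (if hit x i then ENNReal.ofReal (w i) else 0) :=
          Finset.sum_le_sum_of_subset (Finset.filter_subset _ _)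
      _ = ∑' i, ∑ x ∈ C, (if hit x i then ENNReal.ofReal (w i) else 0) := by
          rw [Summable.tsum_finsetSum (fun _ _ => ENNReal.summable)]
      _ ≤ ∑' i, ENNReal.ofReal A *
            (if c i - r i ≤ v ∧ u ≤ c i + r i then ENNReal.ofReal (r i ^ τ) else 0) :=
          ENNReal.tsum_le_tsum hball
      _ = ENNReal.ofReal A * Smass τ c r u v := by rw [ENNReal.tsum_mul_left]; rfl
  have h2 : (B.card : ENNReal) ≤ ENNReal.ofReal (A * (κ * (v - u) ^ τ)) := by
    rw [ENNReal.ofReal_mul hA0]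
    exact hsum.trans (by gcongr)
  have h3 : (B.card : ℝ) ≤ A * (κ * (v - u) ^ τ) := by
    rw [← ENNReal.ofReal_natCast] at h2
    exact (ENNReal.ofReal_le_ofReal_iff (by positivity)).mp h2
  have h4 : A * (κ * (v - u) ^ τ) = ((3 * K + 3) * κ + 5 / 2 / L) * C.card := by
    rw [hA]; field_simp
  linarith

/-- the data of a stage -/
structure St where
  u : ℝ
  v : ℝ
  c : ℕ → ℕ → ℝ
  r : ℕ → ℕ → ℝ

/-- the constants `2^(-k-3)/(3K+4)` -/
noncomputable def kap (K : ℝ) (k : ℕ) : ℝ := (1 / 2) ^ (k + 3) / (3 * K + 4)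

theorem kap_pos {K : ℝ} (hK : 0 < K) (k : ℕ) : 0 < kap K k := by unfold kap; positivity

theorem kap_le_one {K : ℝ} (hK : 0 < K) (k : ℕ) : kap K k ≤ 1 := by
  unfold kap
  rw [div_le_one (by positivity)]
  have : ((1 : ℝ) / 2) ^ (k + 3) ≤ 1 := pow_le_one₀ (by norm_num) (by norm_num)
  linarith

theorem kap_mul {K : ℝ} (hK : 0 < K) (k : ℕ) : (3 * K + 3) * kap K k ≤ (1 / 2) ^ (k + 3) := by
  unfold kap
  rw [← mul_div_assoc, div_le_iff₀ (by positivity)]
  have : (0 : ℝ) < (1 / 2) ^ (k + 3) := by positivity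
  nlinarith

theorem sum_half (m : ℕ) : ∑ k ∈ Finset.range (m + 1), ((1 : ℝ) / 2) ^ (k + 3) ≤ 1 / 4 := by
  have h : ∀ m : ℕ, ∑ k ∈ Finset.range m, ((1 : ℝ) / 2) ^ (k + 3) = 1 / 4 - (1 / 2) ^ (m + 2) := by
    intro m
    induction m with
    | zero => norm_num
    | succ n ih => rw [Finset.sum_range_succ, ih]; ring
  rw [h]
  have : (0 : ℝ) < (1 / 2) ^ (m + 1 + 2) := by positivity
  linarith

/-- the invariant of the construction -/
def Inv (K : ℝ) (N : ℕ → Set ℝ) (τ : ℕ → ℝ) (m : ℕ) (S : St) : Prop :=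
  0 ≤ S.u ∧ S.u < S.v ∧ S.v ≤ 1 ∧ ∀ k < m, (∀ i, 0 < S.r k i) ∧
    N k ⊆ (⋃ i, Set.Icc (S.c k i - S.r k i) (S.c k i + S.r k i)) ∧
    Smass (τ k) (S.c k) (S.r k) S.u S.v < ENNReal.ofReal (kap K k * (S.v - S.u) ^ τ k)

/-- the step of the construction -/
theorem step {K s : ℝ} (hK : 0 < K) (hs1 : s ≤ 1) {G : ℕ → ℝ → Prop}
    (hG : ∀ (u v t L : ℝ) (M : ℕ), 0 ≤ u → u < v → v ≤ 1 → 0 < t → t < s → HasKids K (G M) u v t L)
    {N : ℕ → Set ℝ} {τ : ℕ → ℝ} (hτ : ∀ k, 0 < τ k ∧ τ k < s) (hN : ∀ k, CZ (τ k) (N k))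
    (m : ℕ) (S : St) (hS : Inv K N τ m S) : ∃ S' : St, Inv K N τ (m + 1) S' ∧
      S.u ≤ S'.u ∧ S'.v ≤ S.v ∧ S'.v - S'.u ≤ (S.v - S.u) / 2 ∧
      (∀ ξ ∈ Set.Icc S'.u S'.v, G m ξ) ∧ (∀ k < m, S'.c k = S.c k ∧ S'.r k = S.r k) := by
  obtain ⟨hu, huv, hv, hcov⟩ := hS
  have hℓ : 0 < S.v - S.u := by linarith
  -- the new cover
  obtain ⟨cn, rn, hrn, hsn, hNn⟩ := hN m (kap K m * (S.v - S.u) ^ τ m / 2)
    (by have := kap_pos hK m; have := Real.rpow_pos_of_pos hℓ (τ m); positivity)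
  have hnew : Smass (τ m) cn rn S.u S.v < ENNReal.ofReal (kap K m * (S.v - S.u) ^ τ m) := by
    have h1 : Smass (τ m) cn rn S.u S.v ≤ ∑' i, ENNReal.ofReal (rn i ^ τ m) := by
      unfold Smass
      refine ENNReal.tsum_le_tsum fun i => ?_
      split_ifs
      · exact le_rfl
      · exact bot_le
    refine lt_of_le_of_lt (h1.trans hsn) ?_
    have hp : 0 < kap K m * (S.v - S.u) ^ τ m :=
      mul_pos (kap_pos hK m) (Real.rpow_pos_of_pos hℓ _)
    rw [ENNReal.ofReal_lt_ofReal_iff hp]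
    linarith
  -- the covers
  set c' : ℕ → ℕ → ℝ := Function.update S.c m cn with hc'
  set r' : ℕ → ℕ → ℝ := Function.update S.r m rn with hr'
  have hcm : c' m = cn := by simp [hc']
  have hrm : r' m = rn := by simp [hr']
  have hck : ∀ k < m, c' k = S.c k := fun k hk => by simp [hc', hk.ne]
  have hrk : ∀ k < m, r' k = S.r k := fun k hk => by simp [hr', hk.ne]
  have hall : ∀ k < m + 1, (∀ i, 0 < r' k i) ∧
      N k ⊆ (⋃ i, Set.Icc (c' k i - r' k i) (c' k i + r' k i)) ∧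
      Smass (τ k) (c' k) (r' k) S.u S.v < ENNReal.ofReal (kap K k * (S.v - S.u) ^ τ k) := by
    intro k hk
    rcases Nat.lt_succ_iff_lt_or_eq.mp hk with h | h
    · rw [hck k h, hrk k h]; exact hcov k h
    · subst h
      rw [hcm, hrm]; exact ⟨hrn, hNn, hnew⟩
  -- the exponent
  obtain ⟨t, ht0, hts, hτt⟩ : ∃ t : ℝ, 0 < t ∧ t < s ∧ ∀ k < m + 1, τ k ≤ t := by
    have hne : (Finset.range (m + 1)).Nonempty := ⟨0, by simp⟩
    refine ⟨(Finset.range (m + 1)).sup' hne τ, ?_, ?_, ?_⟩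
    · exact lt_of_lt_of_le (hτ 0).1 (Finset.le_sup' τ (by simp))
    · rw [Finset.sup'_lt_iff]
      intro k _
      exact (hτ k).2
    · intro k hk
      exact Finset.le_sup' τ (Finset.mem_range.mpr hk)
  have ht1 : t ≤ 1 := by linarith
  set L : ℝ := 16 * (m + 1) with hL
  have hL0 : 0 < L := by rw [hL]; positivity
  obtain ⟨l, C, hl, hin, hP, hsep, hcard, hwin⟩ := hG S.u S.v t L m hu huv hv ht0 hts
  have hCne : C.Nonempty := by
    rw [Finset.nonempty_iff_ne_empty]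
    rintro rfl
    simp at hcard
    linarith
  have hl1 : l ≤ 1 := by
    obtain ⟨x, hx⟩ := hCne
    have := hin x hx
    linarith [this.1, this.2]
  have hlt1 : l ^ t ≤ 1 := Real.rpow_le_one hl.le hl1 ht0.le
  have hC16 : (16 : ℝ) ≤ C.card := by
    have h1 : (C.card : ℝ) * l ^ t ≤ C.card := by
      have : (0 : ℝ) ≤ C.card := Nat.cast_nonneg _
      nlinarith
    have h2 : (0 : ℝ) ≤ m := Nat.cast_nonneg _
    linarith
  have hl2 : l ≤ (S.v - S.u) / 2 := by
    have h1 : 1 < C.card := by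
      have : (1 : ℝ) < C.card := by linarith
      exact_mod_cast this
    obtain ⟨x, hx, y, hy, hxy⟩ := Finset.one_lt_card.mp h1
    have h2 := hsep x hx y hy hxy
    have h3 := hin x hx
    have h4 := hin y hy
    have h5 : |x - y| ≤ S.v - S.u := by
      rw [abs_le]; constructor <;> linarith [h3.1, h3.2, h4.1, h4.2]
    linarith
  -- the bad children
  classical
  set bad : ℕ → Finset ℝ := fun k => C.filter fun x =>
    ¬ (Smass (τ k) (c' k) (r' k) x (x + l) < ENNReal.ofReal (kap K k * l ^ τ k)) with hbad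
  have hb : ∀ k ∈ Finset.range (m + 1), ((bad k).card : ℝ) ≤
      ((1 / 2) ^ (k + 3) + 5 / 2 / L) * C.card := by
    intro k hk
    rw [Finset.mem_range] at hk
    have h1 := bad_card (C := C) hK hu huv hv (hτ k).1 (hτt k hk) ht1 (kap_pos hK k)
      (kap_le_one hK k) hL0 hl hl1 hin hsep hcard hwin (hall k hk).1 (hall k hk).2.2
    have h2 := kap_mul hK k
    have h3 : (0 : ℝ) ≤ C.card := Nat.cast_nonneg _
    have h4 : ((3 * K + 3) * kap K k + 5 / 2 / L) * C.card ≤
        ((1 / 2) ^ (k + 3) + 5 / 2 / L) * C.card :=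
      mul_le_mul_of_nonneg_right (by linarith) h3
    refine le_trans (le_of_eq ?_) (h1.trans h4)
    simp only [hbad]
  have htot : (((Finset.range (m + 1)).biUnion bad).card : ℝ) < C.card := by
    have h1 : (((Finset.range (m + 1)).biUnion bad).card : ℝ) ≤
        ∑ k ∈ Finset.range (m + 1), ((bad k).card : ℝ) := by
      exact_mod_cast Finset.card_biUnion_le
    have h2 : ∑ k ∈ Finset.range (m + 1), ((bad k).card : ℝ) ≤
        ∑ k ∈ Finset.range (m + 1), ((1 / 2) ^ (k + 3) + 5 / 2 / L) * (C.card : ℝ) :=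
      Finset.sum_le_sum hb
    rw [← Finset.sum_mul, Finset.sum_add_distrib, Finset.sum_const, Finset.card_range,
      nsmul_eq_mul] at h2
    have h3 := sum_half m
    have h4 : ((m + 1 : ℕ) : ℝ) * (5 / 2 / L) = 5 / 32 := by
      rw [hL]; push_cast; field_simp; norm_num
    rw [h4] at h2
    nlinarith
  obtain ⟨x, hxC, hxb⟩ : ∃ x ∈ C, x ∉ (Finset.range (m + 1)).biUnion bad := by
    by_contra hcon
    push Not at hcon
    have h1 : C ⊆ (Finset.range (m + 1)).biUnion bad := hcon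
    have h2 : (C.card : ℝ) ≤ ((Finset.range (m + 1)).biUnion bad).card := by
      exact_mod_cast Finset.card_le_card h1
    linarith
  refine ⟨⟨x, x + l, c', r'⟩, ⟨?_, ?_, ?_, ?_⟩, ?_, ?_, ?_, ?_, ?_⟩
  · exact hu.trans (hin x hxC).1
  · simp only; linarith
  · exact (hin x hxC).2.trans hv
  · intro k hk
    refine ⟨(hall k hk).1, (hall k hk).2.1, ?_⟩
    simp only
    have e : x + l - x = l := by ring
    rw [e]
    by_contra hcon
    apply hxb
    rw [Finset.mem_biUnion]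
    exact ⟨k, Finset.mem_range.mpr hk, Finset.mem_filter.mpr ⟨hxC, hcon⟩⟩
  · exact (hin x hxC).1
  · exact (hin x hxC).2
  · simp only; linarith
  · exact hP x hxC
  · intro k hk
    exact ⟨hck k hk, hrk k hk⟩

theorem avoid : Avoid := by
  intro K s hK hs hs1 G hG N τ hτ hN
  have hstep := fun m S => step hK hs1 hG hτ hN m S
  choose! f hf using hstep
  let seq : ℕ → St := fun n => Nat.rec ⟨0, 1, fun _ _ => 0, fun _ _ => 0⟩ (fun m S => f m S) n
  have hseq0 : seq 0 = ⟨0, 1, fun _ _ => 0, fun _ _ => 0⟩ := rfl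
  have hseqs : ∀ n, seq (n + 1) = f n (seq n) := fun n => rfl
  have hinv : ∀ n, Inv K N τ n (seq n) := by
    intro n
    induction n with
    | zero =>
      rw [hseq0]
      refine ⟨le_rfl, one_pos, le_rfl, ?_⟩
      intro k hk
      exact absurd hk (Nat.not_lt_zero k)
    | succ n ih => rw [hseqs]; exact (hf n (seq n) ih).1
  have hnext := fun n => (hf n (seq n) (hinv n)).2
  simp_rw [← hseqs] at hnext
  have hu_mono : Monotone fun n => (seq n).u := monotone_nat_of_le_succ fun n => (hnext n).1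
  have hv_anti : Antitone fun n => (seq n).v := antitone_nat_of_succ_le fun n => (hnext n).2.1
  have hlen : ∀ n, (seq n).v - (seq n).u ≤ (1 / 2) ^ n := by
    intro n
    induction n with
    | zero => rw [hseq0]; norm_num
    | succ n ih =>
      have := (hnext n).2.2.1
      rw [pow_succ]
      linarith
  have hcr : ∀ k n, k < n → (seq n).c k = (seq (k + 1)).c k ∧ (seq n).r k = (seq (k + 1)).r k := by
    intro k n hkn
    induction n with
    | zero => exact absurd hkn (Nat.not_lt_zero k)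
    | succ n ih =>
      rcases Nat.lt_succ_iff_lt_or_eq.mp hkn with h | h
      · have h1 := (hnext n).2.2.2.2 k h
        exact ⟨h1.1.trans (ih h).1, h1.2.trans (ih h).2⟩
      · subst h; exact ⟨rfl, rfl⟩
  have hle : ∀ m n, (seq m).u ≤ (seq n).v := by
    intro m n
    have h1 : (seq m).u ≤ (seq (max m n)).u := hu_mono (le_max_left m n)
    have h2 : (seq (max m n)).v ≤ (seq n).v := hv_anti (le_max_right m n)
    have h3 := (hinv (max m n)).2.1
    linarith
  have hbdd : BddAbove (Set.range fun n => (seq n).u) := ⟨(seq 0).v, by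
    rintro _ ⟨n, rfl⟩; exact hle n 0⟩
  set ξ : ℝ := ⨆ n, (seq n).u with hξ
  have hξu : ∀ n, (seq n).u ≤ ξ := fun n => le_ciSup hbdd n
  have hξv : ∀ n, ξ ≤ (seq n).v := fun n => ciSup_le fun m => hle m n
  refine ⟨ξ, ?_, ?_, ?_, ?_⟩
  · have := hξu 0; rw [hseq0] at this; exact this
  · have := hξv 0; rw [hseq0] at this; exact this
  · intro M
    exact (hnext M).2.2.2.1 ξ ⟨hξu (M + 1), hξv (M + 1)⟩
  · intro k hk
    have h0 := (hinv (k + 1)).2.2.2 k (Nat.lt_succ_self k)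
    have h1 := h0.2.1 hk
    rw [Set.mem_iUnion] at h1
    obtain ⟨i, hi⟩ := h1
    have hri := h0.1 i
    set ρ := (seq (k + 1)).r k i with hρ
    have hbound : ∀ n, k < n → ρ < (1 / 2 : ℝ) ^ n := by
      intro n hn
      have h2 := (hinv n).2.2.2 k hn
      have h3 := (hinv n).2.1
      rw [(hcr k n hn).1, (hcr k n hn).2] at h2
      have h4 : (seq (k + 1)).c k i - (seq (k + 1)).r k i ≤ (seq n).v ∧
          (seq n).u ≤ (seq (k + 1)).c k i + (seq (k + 1)).r k i :=
        ⟨hi.1.trans (hξv n), (hξu n).trans hi.2⟩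
      have h5 := lt_of_le_of_lt (le_Smass (τ := τ k) i h4) h2.2.2
      have h6 : 0 < (seq n).v - (seq n).u := by linarith
      have h7 : 0 < ((seq n).v - (seq n).u) ^ τ k := Real.rpow_pos_of_pos h6 _
      rw [ENNReal.ofReal_lt_ofReal_iff (mul_pos (kap_pos hK k) h7)] at h5
      have h8 : kap K k * ((seq n).v - (seq n).u) ^ τ k ≤ ((seq n).v - (seq n).u) ^ τ k := by
        have := kap_le_one hK k
        nlinarith
      have h9 : ρ ^ τ k < ((seq n).v - (seq n).u) ^ τ k := lt_of_lt_of_le h5 h8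
      have h10 := (Real.rpow_lt_rpow_iff hri.le h6.le (hτ k).1).mp h9
      exact lt_of_lt_of_le h10 (hlen n)
    obtain ⟨n, hn⟩ := exists_pow_lt_of_lt_one hri (by norm_num : (1 / 2 : ℝ) < 1)
    have h11 := hbound (max n (k + 1)) (lt_of_lt_of_le (Nat.lt_succ_self k) (le_max_right _ _))
    have h12 : (1 / 2 : ℝ) ^ (max n (k + 1)) ≤ (1 / 2) ^ n :=
      pow_le_pow_of_le_one (by norm_num) (by norm_num) (le_max_left _ _)
    linarith

end MP_211f72_nt
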