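import Pool.Agent.Lib.MP_211f72_nt.Spec
import Pool.Agent.Lib.MP_211f72_nt.Basic

/-!
# MP_211f72_nt: measure of the bad set, `D = 0`, `H ≠ 0`
-/

namespace MP_211f72_nt

open MeasureTheory Filter Topology

/-- the `ξ ∈ [0,1]` with `|m ξ - n| ≤ r` for some integer `n` -/
def badhSet (m : ℕ) (r : ℝ) : Set ℝ := {ξ | 0 ≤ ξ ∧ ξ ≤ 1 ∧ ∃ n : ℤ, |(m : ℝ) * ξ - n| ≤ r}

theorem badh_meas (m : ℕ) (hm : 1 ≤ m) (r : ℝ) (hr0 : 0 ≤ r) (hr : r ≤ 1) :
    volume (badhSet m r) ≤ ENNReal.ofReal (8 * r) := by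
  have hm0 : (0 : ℝ) < m := by exact_mod_cast hm
  have hm1 : (1 : ℝ) ≤ m := by exact_mod_cast hm
  have hsub : badhSet m r ⊆ ⋃ n ∈ Finset.Icc (-1 : ℤ) (m + 1),
      Set.Icc (((n : ℝ) - r) / m) (((n : ℝ) + r) / m) := by
    rintro ξ ⟨h0, h1, n, hn⟩
    rw [abs_le] at hn
    have h2 : (m : ℝ) * ξ ≤ m := by nlinarith
    have h3 : 0 ≤ (m : ℝ) * ξ := by positivity
    simp only [Set.mem_iUnion, Finset.mem_Icc, Set.mem_Icc, exists_prop]
    refine ⟨n, ⟨?_, ?_⟩, ?_, ?_⟩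
    · have : (-1 : ℝ) ≤ (n : ℝ) := by linarith
      exact_mod_cast this
    · have : (n : ℝ) ≤ (m : ℝ) + 1 := by linarith
      exact_mod_cast this
    · rw [div_le_iff₀ hm0]; linarith
    · rw [le_div_iff₀ hm0]; linarith
  have hcard : (Finset.Icc (-1 : ℤ) (m + 1)).card = m + 3 := by
    rw [Int.card_Icc]; omega
  calc volume (badhSet m r)
      ≤ ∑ n ∈ Finset.Icc (-1 : ℤ) (m + 1),
          volume (Set.Icc (((n : ℝ) - r) / m) (((n : ℝ) + r) / m)) :=
        (measure_mono hsub).trans (measure_biUnion_finset_le _ _)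
    _ = ∑ n ∈ Finset.Icc (-1 : ℤ) (m + 1), ENNReal.ofReal (2 * r / m) := by
        refine Finset.sum_congr rfl fun n _ => ?_
        rw [Real.volume_Icc]
        congr 1
        ring
    _ = ENNReal.ofReal ((m + 3) * (2 * r / m)) := by
        rw [Finset.sum_const, hcard, nsmul_eq_mul, ENNReal.ofReal_mul (by positivity)]
        congr 1
        rw [← ENNReal.ofReal_natCast]
        push_cast
        rfl
    _ ≤ ENNReal.ofReal (8 * r) := by
        apply ENNReal.ofReal_le_ofReal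
        rw [mul_div_assoc', div_le_iff₀ hm0]
        nlinarith

/-- a sum of two negative powers tends to zero -/
theorem badh_lim (a b K τ : ℝ) (ha : a < 0) (hb : b < 0) (hτ : 0 < τ) :
    ∀ᶠ Q : ℝ in atTop, K * (Q ^ a + Q ^ b) ≤ τ := by
  have h1 : Tendsto (fun Q : ℝ => Q ^ a) atTop (𝓝 0) := by
    have := tendsto_rpow_neg_atTop (y := -a) (by linarith)
    simpa using this
  have h2 : Tendsto (fun Q : ℝ => Q ^ b) atTop (𝓝 0) := by
    have := tendsto_rpow_neg_atTop (y := -b) (by linarith)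
    simpa using this
  have h3 : Tendsto (fun Q : ℝ => K * (Q ^ a + Q ^ b)) atTop (𝓝 0) := by
    have := (h1.add h2).const_mul K
    simpa using this
  filter_upwards [h3.eventually (gt_mem_nhds hτ)] with Q hQ
  exact hQ.le

theorem badh_small (a c : ℝ) (ha : a < 0) (hc : 0 < c) :
    ∀ᶠ Q : ℝ in atTop, Q ^ a < c := by
  have h1 : Tendsto (fun Q : ℝ => Q ^ a) atTop (𝓝 0) := by
    have := tendsto_rpow_neg_atTop (y := -a) (by linarith)
    simpa using this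
  exact h1.eventually (gt_mem_nhds hc)

theorem badH (h : Deg) : BadH := by
  intro lam ε τ hl1 hl2 hε0 hε1 hτ
  have hev := (badh_lim (-ε / 2) ((5 * lam - 3) / 2) (16) τ (by linarith) (by linarith) hτ).and
    ((badh_small (lam - 1) (1 / 2) (by linarith) (by norm_num)).and (eventually_ge_atTop (1 : ℝ)))
  obtain ⟨Q₀, hQ₀⟩ := eventually_atTop.mp hev
  refine ⟨Q₀, fun Q hQ => ?_⟩
  obtain ⟨hlim, hsmall, hQ1⟩ := hQ₀ Q hQ
  have hQ0 : 0 < Q := by linarith
  set η : ℝ := Q ^ (2 * lam - 1) with hη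
  set δ : ℝ := Q ^ (-lam) with hδ
  have hη0 : 0 < η := Real.rpow_pos_of_pos hQ0 _
  have hδ0 : 0 < δ := Real.rpow_pos_of_pos hQ0 _
  have hδη : δ ≤ η := Real.rpow_le_rpow_of_exponent_le hQ1 (by linarith)
  have hηδ : η * δ = Q ^ (lam - 1) := by
    rw [hη, hδ, ← Real.rpow_add hQ0]; congr 1; ring
  set r : ℝ := √(2 * Q ^ (lam - 1)) with hr
  have hq0 : 0 < Q ^ (lam - 1) := Real.rpow_pos_of_pos hQ0 _
  have hr0 : 0 ≤ r := Real.sqrt_nonneg _
  have hrsq : r ^ 2 = 2 * Q ^ (lam - 1) := Real.sq_sqrt (by positivity)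
  have hr1 : r ≤ 1 := by
    rw [hr]
    apply Real.sqrt_le_one.mpr
    linarith
  set A : ℝ := Q ^ ((1 - ε - lam) / 2) + Q ^ (2 * lam - 1) with hA
  have hA0 : 0 < A := add_pos (Real.rpow_pos_of_pos hQ0 _) (Real.rpow_pos_of_pos hQ0 _)
  have hsub : Bad PH lam ε Q ⊆ ⋃ m ∈ Finset.Icc 1 ⌊A⌋₊, badhSet m r := by
    rintro ξ ⟨h0, h1, x, ⟨hD, hH⟩, ha, hy1, hy2, hy3⟩
    obtain ⟨κ, m, n, hcop, hm, e0, e1, e2⟩ := h.1 x hD
    have hκ : κ ≠ 0 := by
      rintro rfl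
      apply hH
      rw [e0, e1, e2]
      simp
    have hκ1 : (1 : ℝ) ≤ |(κ : ℝ)| := by
      have := Int.one_le_abs hκ
      exact_mod_cast this
    -- the linear form
    have hHy := x.H_eq_y ξ
    rw [e0, e1, e2] at hHy
    push_cast at hHy
    have hl : (κ : ℝ) * ((m : ℝ) * ξ - n) ^ 2 = x.y1 ξ * x.y3 ξ - (x.y2 ξ) ^ 2 := by
      rw [← hHy]; ring
    have hbound : |x.y1 ξ * x.y3 ξ - (x.y2 ξ) ^ 2| ≤ 2 * Q ^ (lam - 1) := by
      have b1 : |x.y1 ξ * x.y3 ξ| ≤ η * δ := by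
        rw [abs_mul]
        exact mul_le_mul hy1 hy3 (abs_nonneg _) hη0.le
      have b2 : |(x.y2 ξ) ^ 2| ≤ η * δ := by
        rw [abs_pow, sq]
        calc |x.y2 ξ| * |x.y2 ξ| ≤ δ * δ := mul_le_mul hy2 hy2 (abs_nonneg _) hδ0.le
          _ ≤ η * δ := mul_le_mul_of_nonneg_right hδη hδ0.le
      have b3 := abs_sub (x.y1 ξ * x.y3 ξ) ((x.y2 ξ) ^ 2)
      rw [← hηδ]
      linarith
    have hsq : ((m : ℝ) * ξ - n) ^ 2 ≤ 2 * Q ^ (lam - 1) := by
      have : |(κ : ℝ)| * ((m : ℝ) * ξ - n) ^ 2 = |x.y1 ξ * x.y3 ξ - (x.y2 ξ) ^ 2| := by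
        rw [← hl, abs_mul, abs_of_nonneg (sq_nonneg ((m : ℝ) * ξ - n))]
      have h5 : ((m : ℝ) * ξ - n) ^ 2 ≤ |(κ : ℝ)| * ((m : ℝ) * ξ - n) ^ 2 :=
        le_mul_of_one_le_left (sq_nonneg _) hκ1
      linarith
    have hle : |(m : ℝ) * ξ - n| ≤ r := by
      rw [← Real.sqrt_sq_eq_abs]
      exact Real.sqrt_le_sqrt hsq
    -- the size of `m`
    have hm0 : m ≠ 0 := by
      rintro rfl
      have hn : n = 1 ∨ n = -1 := by
        rw [isCoprime_zero_left] at hcop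
        exact Int.isUnit_iff.mp hcop
      have hn2 : (n : ℝ) ^ 2 = 1 := by
        rcases hn with rfl | rfl <;> simp
      push_cast at hsq
      have : ((0 : ℝ) * ξ - n) ^ 2 = 1 := by rw [← hn2]; ring
      linarith
    have hm1 : 1 ≤ m := by omega
    have hh0 : |(x.h0 : ℝ)| ≤ Q ^ (1 - ε - lam) + Q ^ (4 * lam - 2) := by
      rw [x.h0_eq_y ξ]
      have b1 : |(x.a : ℝ) * x.y2 ξ| ≤ Q ^ (1 - ε - lam) := by
        rw [abs_mul]
        calc |(x.a : ℝ)| * |x.y2 ξ| ≤ Q ^ (1 - ε) * δ :=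
              mul_le_mul ha hy2 (abs_nonneg _) (Real.rpow_nonneg hQ0.le _)
          _ = Q ^ (1 - ε - lam) := by
              rw [hδ, ← Real.rpow_add hQ0]; congr 1
      have b2 : |(x.y1 ξ) ^ 2| ≤ Q ^ (4 * lam - 2) := by
        rw [abs_pow, sq]
        calc |x.y1 ξ| * |x.y1 ξ| ≤ η * η := mul_le_mul hy1 hy1 (abs_nonneg _) hη0.le
          _ = Q ^ (4 * lam - 2) := by
              rw [hη, ← Real.rpow_add hQ0]; congr 1; ring
      have b3 := abs_sub ((x.a : ℝ) * x.y2 ξ) ((x.y1 ξ) ^ 2)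
      linarith
    have hmA : (m : ℝ) ≤ A := by
      have c1 : (m : ℝ) ^ 2 ≤ |(x.h0 : ℝ)| := by
        rw [e0]
        push_cast
        rw [abs_mul, abs_of_nonneg (sq_nonneg (m : ℝ))]
        exact le_mul_of_one_le_left (sq_nonneg _) hκ1
      have c2 : Q ^ (1 - ε - lam) + Q ^ (4 * lam - 2) ≤ A ^ 2 := by
        have d1 : (Q ^ ((1 - ε - lam) / 2)) ^ 2 = Q ^ (1 - ε - lam) := by
          rw [← Real.rpow_natCast, ← Real.rpow_mul hQ0.le]; congr 1; push_cast; ring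
        have d2 : (Q ^ (2 * lam - 1)) ^ 2 = Q ^ (4 * lam - 2) := by
          rw [← Real.rpow_natCast, ← Real.rpow_mul hQ0.le]; congr 1; push_cast; ring
        have d3 : 0 ≤ Q ^ ((1 - ε - lam) / 2) * Q ^ (2 * lam - 1) :=
          mul_nonneg (Real.rpow_nonneg hQ0.le _) (Real.rpow_nonneg hQ0.le _)
        rw [← d1, ← d2, hA]
        nlinarith
      exact abs_le_of_sq_le_sq' (c1.trans (hh0.trans c2)) hA0.le |>.2
    have hmn : ((m.toNat : ℕ) : ℤ) = m := Int.toNat_of_nonneg hm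
    simp only [Set.mem_iUnion, Finset.mem_Icc, exists_prop]
    refine ⟨m.toNat, ⟨by omega, ?_⟩, h0, h1, n, ?_⟩
    · apply Nat.le_floor
      have : ((m.toNat : ℕ) : ℝ) = (m : ℝ) := by exact_mod_cast hmn
      rw [this]
      exact hmA
    · have : ((m.toNat : ℕ) : ℝ) = (m : ℝ) := by exact_mod_cast hmn
      rw [this]
      exact hle
  calc volume (Bad PH lam ε Q) ≤ ∑ m ∈ Finset.Icc 1 ⌊A⌋₊, volume (badhSet m r) :=
        (measure_mono hsub).trans (measure_biUnion_finset_le _ _)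
    _ ≤ ∑ m ∈ Finset.Icc 1 ⌊A⌋₊, ENNReal.ofReal (8 * r) :=
        Finset.sum_le_sum fun m hm => badh_meas m (Finset.mem_Icc.mp hm).1 r hr0 hr1
    _ = ENNReal.ofReal (⌊A⌋₊ * (8 * r)) := by
        rw [Finset.sum_const, Nat.card_Icc, Nat.add_sub_cancel, nsmul_eq_mul,
          ENNReal.ofReal_mul (Nat.cast_nonneg _), ENNReal.ofReal_natCast]
    _ ≤ ENNReal.ofReal τ := by
        apply ENNReal.ofReal_le_ofReal
        have f1 : (⌊A⌋₊ : ℝ) ≤ A := Nat.floor_le hA0.le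
        have f2 : r ≤ 2 * Q ^ ((lam - 1) / 2) := by
          have g1 : (2 * Q ^ ((lam - 1) / 2)) ^ 2 = 4 * Q ^ (lam - 1) := by
            rw [mul_pow, ← Real.rpow_natCast (Q ^ ((lam - 1) / 2)), ← Real.rpow_mul hQ0.le]
            have : (lam - 1) / 2 * ((2 : ℕ) : ℝ) = lam - 1 := by push_cast; ring
            rw [this]
            norm_num
          have g2 : 0 ≤ 2 * Q ^ ((lam - 1) / 2) := by positivity
          apply le_of_sq_le_sq _ g2
          rw [hrsq, g1]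
          linarith
        calc (⌊A⌋₊ : ℝ) * (8 * r) ≤ A * (8 * (2 * Q ^ ((lam - 1) / 2))) := by
              apply mul_le_mul f1 _ (by positivity) hA0.le
              linarith
          _ = 16 * (Q ^ (-ε / 2) + Q ^ ((5 * lam - 3) / 2)) := by
              have g3 : Q ^ ((1 - ε - lam) / 2) * Q ^ ((lam - 1) / 2) = Q ^ (-ε / 2) := by
                rw [← Real.rpow_add hQ0]; congr 1; ring
              have g4 : Q ^ (2 * lam - 1) * Q ^ ((lam - 1) / 2) = Q ^ ((5 * lam - 3) / 2) := by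
                rw [← Real.rpow_add hQ0]; congr 1; ring
              rw [hA, ← g3, ← g4]
              ring
          _ ≤ τ := hlim

end MP_211f72_nt
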