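import Pool.Agent.Lib.MP_211f72_nt.Spec
import Pool.Agent.Lib.MP_211f72_nt.Basic
import Pool.Agent.Lib.MP_211f72_nt.BadH

/-!
# MP_211f72_nt: measure of the bad set, `H = 0`
-/

namespace MP_211f72_nt

open MeasureTheory Filter Topology

/-- `∑_{m ≤ N} m^(-1/2) ≤ 2 √N` -/
theorem bad0_sum (N : ℕ) : ∑ m ∈ Finset.Icc 1 N, 1 / √(m : ℝ) ≤ 2 * √(N : ℝ) := by
  induction N with
  | zero => simp
  | succ N ih =>
    rw [Finset.sum_Icc_succ_top (by omega)]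
    have h1 : (0 : ℝ) < √((N + 1 : ℕ) : ℝ) := Real.sqrt_pos.mpr (by positivity)
    have h2 : √((N + 1 : ℕ) : ℝ) ^ 2 = (N : ℝ) + 1 := by
      rw [Real.sq_sqrt (by positivity)]; push_cast; ring
    have h3 : √(N : ℝ) ^ 2 = (N : ℝ) := Real.sq_sqrt (Nat.cast_nonneg N)
    have h0 : 0 ≤ √(N : ℝ) := Real.sqrt_nonneg _
    have h4 : 1 / √((N + 1 : ℕ) : ℝ) ≤ 2 * √((N + 1 : ℕ) : ℝ) - 2 * √(N : ℝ) := by
      rw [div_le_iff₀ h1]
      nlinarith [sq_nonneg (√((N + 1 : ℕ) : ℝ) - √(N : ℝ))]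
    linarith

theorem bad0 (h : Deg) : Bad0 := by
  intro lam ε τ hl1 hl2 hε0 hε1 hτ
  have hev := (badh_lim (-lam / 2 + (1 - ε) / 6) (-lam / 2 + (1 - ε) / 6) (8) τ (by linarith)
    (by linarith) hτ).and
    ((badh_small (-lam) 1 (by linarith) (by norm_num)).and (eventually_ge_atTop (1 : ℝ)))
  obtain ⟨Q₀, hQ₀⟩ := eventually_atTop.mp hev
  refine ⟨Q₀, fun Q hQ => ?_⟩
  obtain ⟨hlim, hsmall, hQ1⟩ := hQ₀ Q hQ
  have hQ0 : 0 < Q := by linarith
  set δ : ℝ := Q ^ (-lam) with hδ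
  have hδ0 : 0 < δ := Real.rpow_pos_of_pos hQ0 _
  set A : ℝ := Q ^ ((1 - ε) / 3) with hA
  have hA0 : 0 < A := Real.rpow_pos_of_pos hQ0 _
  have hA3 : A ^ 3 = Q ^ (1 - ε) := by
    rw [hA, ← Real.rpow_natCast, ← Real.rpow_mul hQ0.le]; congr 1; push_cast; ring
  have hsub : Bad P0 lam ε Q ⊆ ⋃ m ∈ Finset.Icc 1 ⌊A⌋₊, badhSet m (√(δ / m)) := by
    rintro ξ ⟨h0, h1, x, ⟨⟨q0, q1, q2⟩, hx⟩, ha, hy1, hy2, hy3⟩
    obtain ⟨κ, m, n, hcop, hm, ea, eb, ec, ed⟩ := h.2 x q0 q1 q2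
    have hκ : κ ≠ 0 := by
      rintro rfl
      apply hx
      rw [ea, eb, ec, ed]
      simp
    have hκ1 : (1 : ℝ) ≤ |(κ : ℝ)| := by
      have := Int.one_le_abs hκ
      exact_mod_cast this
    have e2 : x.y2 ξ = κ * (m * ((m : ℝ) * ξ - n) ^ 2) := by
      unfold Cub.y2
      rw [ea, eb, ec]
      push_cast
      ring
    have e3 : x.y3 ξ = κ * ((n : ℝ) - m * ξ) ^ 3 := by
      unfold Cub.y3
      rw [ea, eb, ec, ed]
      push_cast
      ring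
    have hm0 : m ≠ 0 := by
      rintro rfl
      have hn : n = 1 ∨ n = -1 := by
        rw [isCoprime_zero_left] at hcop
        exact Int.isUnit_iff.mp hcop
      rw [e3, abs_mul] at hy3
      have : |((n : ℝ) - (0 : ℤ) * ξ) ^ 3| = 1 := by
        rcases hn with rfl | rfl <;> simp
      rw [this] at hy3
      linarith
    have hm1 : 1 ≤ m := by omega
    have hmR : (1 : ℝ) ≤ (m : ℝ) := by exact_mod_cast hm1
    have hm0R : (0 : ℝ) < (m : ℝ) := by linarith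
    have hsq : ((m : ℝ) * ξ - n) ^ 2 ≤ δ / m := by
      rw [le_div_iff₀ hm0R]
      rw [e2, abs_mul] at hy2
      have h5 : 0 ≤ (m : ℝ) * ((m : ℝ) * ξ - n) ^ 2 := by positivity
      rw [abs_of_nonneg h5] at hy2
      have h6 : (m : ℝ) * ((m : ℝ) * ξ - n) ^ 2 ≤ |(κ : ℝ)| * (m * ((m : ℝ) * ξ - n) ^ 2) :=
        le_mul_of_one_le_left h5 hκ1
      linarith
    have hle : |(m : ℝ) * ξ - n| ≤ √(δ / m) := by
      rw [← Real.sqrt_sq_eq_abs]
      exact Real.sqrt_le_sqrt hsq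
    have hmA : (m : ℝ) ≤ A := by
      have c1 : (m : ℝ) ^ 3 ≤ |(x.a : ℝ)| := by
        rw [ea]
        push_cast
        rw [abs_mul, abs_of_nonneg (by positivity : (0 : ℝ) ≤ (m : ℝ) ^ 3)]
        exact le_mul_of_one_le_left (by positivity) hκ1
      have c2 : (m : ℝ) ^ 3 ≤ A ^ 3 := by
        rw [hA3]
        exact c1.trans ha
      exact le_of_pow_le_pow_left₀ (by norm_num) hA0.le c2
    have hmn : ((m.toNat : ℕ) : ℤ) = m := Int.toNat_of_nonneg hm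
    have hmn' : ((m.toNat : ℕ) : ℝ) = (m : ℝ) := by exact_mod_cast hmn
    simp only [Set.mem_iUnion, Finset.mem_Icc, exists_prop]
    refine ⟨m.toNat, ⟨by omega, ?_⟩, h0, h1, n, ?_⟩
    · apply Nat.le_floor
      rw [hmn']
      exact hmA
    · rw [hmn']
      exact hle
  have hterm : ∀ m ∈ Finset.Icc 1 ⌊A⌋₊, volume (badhSet m (√(δ / m))) ≤
      ENNReal.ofReal (8 * √δ * (1 / √(m : ℝ))) := by
    intro m hm
    have hm1 := (Finset.mem_Icc.mp hm).1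
    have hmR : (1 : ℝ) ≤ (m : ℝ) := by exact_mod_cast hm1
    have h1 : √(δ / m) ≤ 1 := by
      apply Real.sqrt_le_one.mpr
      rw [div_le_one (by linarith)]
      linarith
    refine (badh_meas m hm1 _ (Real.sqrt_nonneg _) h1).trans (le_of_eq ?_)
    congr 1
    rw [Real.sqrt_div hδ0.le]
    ring
  calc volume (Bad P0 lam ε Q) ≤ ∑ m ∈ Finset.Icc 1 ⌊A⌋₊, volume (badhSet m (√(δ / m))) :=
        (measure_mono hsub).trans (measure_biUnion_finset_le _ _)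
    _ ≤ ∑ m ∈ Finset.Icc 1 ⌊A⌋₊, ENNReal.ofReal (8 * √δ * (1 / √(m : ℝ))) :=
        Finset.sum_le_sum hterm
    _ = ENNReal.ofReal (∑ m ∈ Finset.Icc 1 ⌊A⌋₊, 8 * √δ * (1 / √(m : ℝ))) := by
        rw [ENNReal.ofReal_sum_of_nonneg]
        intro m _
        positivity
    _ ≤ ENNReal.ofReal τ := by
        apply ENNReal.ofReal_le_ofReal
        rw [← Finset.mul_sum]
        have f1 := bad0_sum ⌊A⌋₊
        have f2 : √((⌊A⌋₊ : ℕ) : ℝ) ≤ √A := Real.sqrt_le_sqrt (Nat.floor_le hA0.le)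
        calc 8 * √δ * ∑ m ∈ Finset.Icc 1 ⌊A⌋₊, 1 / √(m : ℝ) ≤ 8 * √δ * (2 * √A) := by
              apply mul_le_mul_of_nonneg_left _ (by positivity)
              linarith
          _ = 8 * (Q ^ (-lam / 2 + (1 - ε) / 6) + Q ^ (-lam / 2 + (1 - ε) / 6)) := by
              have g1 : √δ = Q ^ (-lam / 2) := by
                rw [Real.sqrt_eq_rpow, hδ, ← Real.rpow_mul hQ0.le]; congr 1; ring
              have g2 : √A = Q ^ ((1 - ε) / 6) := by
                rw [Real.sqrt_eq_rpow, hA, ← Real.rpow_mul hQ0.le]; congr 1; ring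
              rw [Real.rpow_add hQ0, g1, g2]
              ring
          _ ≤ τ := hlim

end MP_211f72_nt
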