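import Pool.Agent.Lib.MP_211f72_nt.Spec
import Pool.Agent.Lib.MP_211f72_nt.Basic

/-!
# MP_211f72_nt: the measure of the bad set, points with nonzero discriminant
-/

namespace MP_211f72_nt

open MeasureTheory Filter Topology

/-- the bound tends to zero -/
theorem badD_lim (K θ τ : ℝ) (hθ : 0 < θ) (hτ : 0 < τ) :
    ∀ᶠ Q : ℝ in atTop, K * (4 + 2 * Real.log Q) ^ 3 * Q ^ (-θ) ≤ τ := by
  have h1 : Tendsto (fun Q : ℝ => Real.log Q * Q ^ (-(θ / 3))) atTop (𝓝 0) := by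
    have h := (isLittleO_log_rpow_atTop (show 0 < θ / 3 by positivity)).tendsto_div_nhds_zero
    refine h.congr' ?_
    filter_upwards [eventually_gt_atTop (0 : ℝ)] with Q hQ
    rw [Real.rpow_neg hQ.le]; rfl
  have h2 : Tendsto (fun Q : ℝ => Q ^ (-(θ / 3))) atTop (𝓝 0) :=
    tendsto_rpow_neg_atTop (by positivity)
  have h3 : Tendsto (fun Q : ℝ => K * (4 * Q ^ (-(θ / 3)) + 2 * (Real.log Q * Q ^ (-(θ / 3)))) ^ 3)
      atTop (𝓝 (K * (4 * 0 + 2 * 0) ^ 3)) :=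
    (((h2.const_mul 4).add (h1.const_mul 2)).pow 3).const_mul K
  have h4 : K * (4 * 0 + 2 * 0) ^ 3 < τ := by simpa using hτ
  filter_upwards [h3.eventually_lt_const h4, eventually_gt_atTop (0 : ℝ)] with Q hQ hQ0
  have e : Q ^ (-θ) = (Q ^ (-(θ / 3))) ^ 3 := by
    rw [← Real.rpow_natCast, ← Real.rpow_mul hQ0.le]; congr 1; push_cast; ring
  rw [e]
  calc K * (4 + 2 * Real.log Q) ^ 3 * (Q ^ (-(θ / 3))) ^ 3
      = K * (4 * Q ^ (-(θ / 3)) + 2 * (Real.log Q * Q ^ (-(θ / 3)))) ^ 3 := by ring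
    _ ≤ τ := hQ.le

/-- bounds for the invariants -/
theorem badD_inv (x : Cub) (ξ δ η : ℝ) (h1 : |x.y1 ξ| ≤ η) (h2 : |x.y2 ξ| ≤ δ) (h3 : |x.y3 ξ| ≤ δ) :
    |(x.h0 : ℝ)| ≤ |(x.a : ℝ)| * δ + η ^ 2 ∧
    |(x.D : ℝ)| ≤ (|(x.a : ℝ)| * δ) ^ 2 + 6 * (|(x.a : ℝ)| * η * δ ^ 2) + 5 * (η * δ) ^ 2
      + 4 * (|(x.a : ℝ)| * δ ^ 3) + 4 * (η ^ 3 * δ) := by
  have hA := abs_nonneg (x.a : ℝ)
  have hη : 0 ≤ η := (abs_nonneg _).trans h1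
  have hδ : 0 ≤ δ := (abs_nonneg _).trans h2
  have hq : |(x.a : ℝ) * x.y2 ξ - (x.y1 ξ) ^ 2| ≤ |(x.a : ℝ)| * δ + η ^ 2 := by
    refine (abs_sub _ _).trans ?_
    rw [abs_mul, abs_pow]
    gcongr
  have hp : |(x.a : ℝ) * x.y3 ξ - x.y1 ξ * x.y2 ξ| ≤ |(x.a : ℝ)| * δ + η * δ := by
    refine (abs_sub _ _).trans ?_
    rw [abs_mul, abs_mul]
    gcongr
  have hr : |x.y1 ξ * x.y3 ξ - (x.y2 ξ) ^ 2| ≤ η * δ + δ ^ 2 := by
    refine (abs_sub _ _).trans ?_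
    rw [abs_mul, abs_pow]
    gcongr
  refine ⟨by rw [Cub.h0_eq_y x ξ]; exact hq, ?_⟩
  rw [Cub.D_eq_y x ξ]
  refine (abs_sub _ _).trans ?_
  rw [abs_pow, abs_mul, abs_mul, abs_of_pos (by norm_num : (0 : ℝ) < 4)]
  calc |(x.a : ℝ) * x.y3 ξ - x.y1 ξ * x.y2 ξ| ^ 2
        + 4 * |(x.a : ℝ) * x.y2 ξ - (x.y1 ξ) ^ 2| * |x.y1 ξ * x.y3 ξ - (x.y2 ξ) ^ 2|
      ≤ (|(x.a : ℝ)| * δ + η * δ) ^ 2
        + 4 * (|(x.a : ℝ)| * δ + η ^ 2) * (η * δ + δ ^ 2) := by gcongr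
    _ = _ := by ring

/-- the number of points of a dyadic block -/
theorem badD_block (C : ℝ) (hC : 0 < C) (hcount : ∀ X B T R : ℝ, 0 < X → 0 ≤ B → 1 ≤ T → 1 ≤ R →
    ∀ S : Finset Cub,
    (∀ x ∈ S, X ≤ |(x.a : ℝ)| ∧ |(x.a : ℝ)| ≤ 2 * X ∧ |(x.h0 : ℝ)| ≤ B ∧
      x.D ≠ 0 ∧ |(x.D : ℝ)| ≤ T ∧ |(x.b : ℝ)| ≤ R * |(x.a : ℝ)|) →
    (S.card : ℝ) ≤ C * R * (T + B * √T) * (1 + Real.log T) ^ 2)
    (X Q δ η : ℝ) (hX : 1 ≤ X) (hXQ : X ≤ Q) (hδ : 0 < δ) (hδ1 : δ ≤ 1) (hη : 0 < η) :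
    ∃ S : Finset Cub, (∀ x : Cub, x ∈ S ↔ x ∈ {x : Cub | X ≤ |(x.a : ℝ)| ∧ |(x.a : ℝ)| ≤ 2 * X ∧
      |(x.h0 : ℝ)| ≤ 2 * X * δ + η ^ 2 ∧
      x.D ≠ 0 ∧ |(x.D : ℝ)| ≤ 8 * (X * δ) ^ 2 ∧ |(x.b : ℝ)| ≤ 2 * |(x.a : ℝ)|}) ∧
      (S.card : ℝ) ≤ C * 2 * (14 * (X * δ) ^ 2 + 3 * (η ^ 2 * (X * δ))) *
        (4 + 2 * Real.log Q) ^ 2 := by
  apply exists_finset_of_card_le
  intro S hS
  have hX0 : 0 < X := by linarith
  have hQ1 : 1 ≤ Q := hX.trans hXQ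
  have hlQ : 0 ≤ Real.log Q := Real.log_nonneg hQ1
  rcases S.eq_empty_or_nonempty with rfl | ⟨x, hx⟩
  · rw [Finset.card_empty]
    push_cast
    positivity
  · have hT : 1 ≤ 8 * (X * δ) ^ 2 := by
      obtain ⟨-, -, -, hD, hDT, -⟩ := hS x hx
      have h1 : (1 : ℤ) ≤ |x.D| := Int.one_le_abs hD
      have h2 : (1 : ℝ) ≤ |(x.D : ℝ)| := by exact_mod_cast h1
      exact h2.trans hDT
    have h := hcount X (2 * X * δ + η ^ 2) (8 * (X * δ) ^ 2) 2 hX0 (by positivity) hT (by norm_num) S hS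
    refine h.trans ?_
    have hs : √(8 * (X * δ) ^ 2) ≤ 3 * (X * δ) := by
      rw [Real.sqrt_le_left (by positivity)]
      nlinarith [sq_nonneg (X * δ)]
    have hl0 : 0 ≤ Real.log (8 * (X * δ) ^ 2) := Real.log_nonneg hT
    have hl : Real.log (8 * (X * δ) ^ 2) ≤ 3 + 2 * Real.log Q := by
      have h1 : 8 * (X * δ) ^ 2 ≤ 8 * Q ^ 2 := by
        have : X * δ ≤ Q := by nlinarith
        gcongr
      have h2 := Real.log_le_log (by positivity) h1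
      have h2' : Real.log (8 * Q ^ 2) = Real.log 8 + 2 * Real.log Q := by
        rw [Real.log_mul (by norm_num) (by positivity), Real.log_pow]; norm_num
      rw [h2'] at h2
      have h3 : Real.log 8 ≤ 3 := by
        have : Real.log 8 = 3 * Real.log 2 := by
          rw [show (8 : ℝ) = 2 ^ 3 by norm_num, Real.log_pow]; norm_num
        rw [this]
        have := Real.log_two_lt_d9
        linarith
      linarith
    have hm : 8 * (X * δ) ^ 2 + (2 * X * δ + η ^ 2) * √(8 * (X * δ) ^ 2) ≤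
        14 * (X * δ) ^ 2 + 3 * (η ^ 2 * (X * δ)) := by
      calc 8 * (X * δ) ^ 2 + (2 * X * δ + η ^ 2) * √(8 * (X * δ) ^ 2)
          ≤ 8 * (X * δ) ^ 2 + (2 * X * δ + η ^ 2) * (3 * (X * δ)) := by gcongr
        _ = _ := by ring
    have hm0 : 0 ≤ 14 * (X * δ) ^ 2 + 3 * (η ^ 2 * (X * δ)) := by positivity
    calc C * 2 * (8 * (X * δ) ^ 2 + (2 * X * δ + η ^ 2) * √(8 * (X * δ) ^ 2)) *
          (1 + Real.log (8 * (X * δ) ^ 2)) ^ 2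
        ≤ C * 2 * (14 * (X * δ) ^ 2 + 3 * (η ^ 2 * (X * δ))) *
          (1 + (3 + 2 * Real.log Q)) ^ 2 := by gcongr
      _ = _ := by ring

/-- products of powers -/
theorem badD_pow (Q lam ε θ : ℝ) (hQ : 1 ≤ Q) (h0 : 0 < ε) (h1 : θ ≤ ε) (h2 : θ ≤ 2 - 2 * lam)
    (h3 : θ ≤ 3 * lam - 1) (h4 : θ ≤ 3 - 5 * lam) (A : ℝ) (hA : A ≤ Q ^ (1 - ε)) :
    A * Q ^ (2 * lam - 1) * (Q ^ (-lam)) ^ 2 ≤ Q ^ (-θ) ∧
    (Q ^ (2 * lam - 1) * Q ^ (-lam)) ^ 2 ≤ Q ^ (-θ) ∧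
    A * (Q ^ (-lam)) ^ 3 ≤ Q ^ (-θ) ∧
    (Q ^ (2 * lam - 1)) ^ 3 * Q ^ (-lam) ≤ Q ^ (-θ) := by
  have hQ0 : 0 < Q := by linarith
  have hp : ∀ (r : ℝ) (n : ℕ), (Q ^ r) ^ n = Q ^ (r * n) := fun r n => by
    rw [← Real.rpow_natCast, ← Real.rpow_mul hQ0.le]
  have hd : ∀ r : ℝ, 0 < Q ^ r := fun r => Real.rpow_pos_of_pos hQ0 r
  refine ⟨?_, ?_, ?_, ?_⟩
  · calc A * Q ^ (2 * lam - 1) * (Q ^ (-lam)) ^ 2
        ≤ Q ^ (1 - ε) * Q ^ (2 * lam - 1) * (Q ^ (-lam)) ^ 2 := by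
          have := hd (2 * lam - 1); have := hd (-lam); gcongr
      _ = Q ^ (-ε) := by
          rw [hp, ← Real.rpow_add hQ0, ← Real.rpow_add hQ0]; congr 1; push_cast; ring
      _ ≤ Q ^ (-θ) := Real.rpow_le_rpow_of_exponent_le hQ (by linarith)
  · calc (Q ^ (2 * lam - 1) * Q ^ (-lam)) ^ 2 = Q ^ (2 * lam - 2) := by
          rw [← Real.rpow_add hQ0, hp]; congr 1; push_cast; ring
      _ ≤ Q ^ (-θ) := Real.rpow_le_rpow_of_exponent_le hQ (by linarith)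
  · calc A * (Q ^ (-lam)) ^ 3 ≤ Q ^ (1 - ε) * (Q ^ (-lam)) ^ 3 := by
          have := hd (-lam); gcongr
      _ = Q ^ (1 - ε - 3 * lam) := by
          rw [hp, ← Real.rpow_add hQ0]; congr 1; push_cast; ring
      _ ≤ Q ^ (-θ) := Real.rpow_le_rpow_of_exponent_le hQ (by linarith)
  · calc (Q ^ (2 * lam - 1)) ^ 3 * Q ^ (-lam) = Q ^ (5 * lam - 3) := by
          rw [hp, ← Real.rpow_add hQ0]; congr 1; push_cast; ring
      _ ≤ Q ^ (-θ) := Real.rpow_le_rpow_of_exponent_le hQ (by linarith)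

theorem badD_aux1 (u D : ℝ) (hu : 0 ≤ u) (h1 : 1 ≤ D) (h2 : D ≤ u ^ 2 + 1 / 2) :
    1 / 2 ≤ u ∧ D ≤ 2 * u ^ 2 := by
  constructor
  · by_contra hlt
    nlinarith
  · linarith

theorem badD_aux2 (u q : ℝ) (hu : 0 ≤ u) (h1 : u ^ 2 ≤ q) (h2 : 38 * q ≤ 1) : u ≤ 1 / 2 := by
  by_contra hlt
  nlinarith

theorem badD_aux3 (j L : ℝ) (hj : 0 ≤ j) (h : j * Real.log 2 ≤ L) : j ≤ 2 * L := by
  have h8 := Real.log_two_gt_d9
  nlinarith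

/-- a bad number lies in one of the balls -/
theorem badD_mem (Q lam ε θ : ℝ) (hQ : 1 ≤ Q) (h0 : 0 < ε) (h1 : θ ≤ ε) (h2 : θ ≤ 2 - 2 * lam)
    (h3 : θ ≤ 3 * lam - 1) (h4 : θ ≤ 3 - 5 * lam) (h5 : 38 * Q ^ (-θ) ≤ 1) (ξ : ℝ)
    (hξ : ξ ∈ Bad PD lam ε Q) : ∃ j : ℕ, (j : ℝ) ≤ 2 * Real.log Q ∧ (2 : ℝ) ^ j ≤ Q ^ (1 - ε) ∧
      ∃ x : Cub, ((2 : ℝ) ^ j ≤ |(x.a : ℝ)| ∧ |(x.a : ℝ)| ≤ 2 * 2 ^ j ∧
        |(x.h0 : ℝ)| ≤ 2 * 2 ^ j * Q ^ (-lam) + (Q ^ (2 * lam - 1)) ^ 2 ∧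
        x.D ≠ 0 ∧ |(x.D : ℝ)| ≤ 8 * (2 ^ j * Q ^ (-lam)) ^ 2 ∧ |(x.b : ℝ)| ≤ 2 * |(x.a : ℝ)|) ∧
        |ξ - x.b / x.a| ≤ Q ^ (2 * lam - 1) / 2 ^ j := by
  obtain ⟨hξ0, hξ1, x, hD, hA, hb1, hb2, hb3⟩ := hξ
  have hQ0 : 0 < Q := by linarith
  set δ := Q ^ (-lam) with hδ
  set η := Q ^ (2 * lam - 1) with hη
  have hδ0 : 0 < δ := Real.rpow_pos_of_pos hQ0 _
  have hη0 : 0 < η := Real.rpow_pos_of_pos hQ0 _
  have hθ0 : 0 < Q ^ (-θ) := Real.rpow_pos_of_pos hQ0 _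
  obtain ⟨i1, i2⟩ := badD_inv x ξ δ η hb1 hb2 hb3
  obtain ⟨p1, p2, p3, p4⟩ := badD_pow Q lam ε θ hQ h0 h1 h2 h3 h4 |(x.a : ℝ)| hA
  have hD1 : (1 : ℝ) ≤ |(x.D : ℝ)| := by
    have h : (1 : ℤ) ≤ |x.D| := Int.one_le_abs hD
    exact_mod_cast h
  have hDu : |(x.D : ℝ)| ≤ (|(x.a : ℝ)| * δ) ^ 2 + 1 / 2 := by
    have : |(x.D : ℝ)| ≤ (|(x.a : ℝ)| * δ) ^ 2 + 19 * Q ^ (-θ) := by
      refine i2.trans ?_
      linarith
    linarith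
  obtain ⟨hAδ, hD2⟩ := badD_aux1 (|(x.a : ℝ)| * δ) |(x.D : ℝ)|
    (mul_nonneg (abs_nonneg _) hδ0.le) hD1 hDu
  have hηδ : η * δ ≤ 1 / 2 := badD_aux2 (η * δ) _ (mul_nonneg hη0.le hδ0.le) p2 h5
  have hηA : η ≤ |(x.a : ℝ)| := by
    have : η * δ ≤ |(x.a : ℝ)| * δ := hηδ.trans hAδ
    exact le_of_mul_le_mul_right this hδ0
  have hA0 : 0 < |(x.a : ℝ)| := lt_of_lt_of_le hη0 hηA
  have ha0 : x.a ≠ 0 := by
    intro h; rw [h] at hA0; simp at hA0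
  have hn0 : x.a.natAbs ≠ 0 := Int.natAbs_ne_zero.mpr ha0
  have hcast : ((x.a.natAbs : ℕ) : ℝ) = |(x.a : ℝ)| := by
    rw [← Int.cast_abs, Int.abs_eq_natAbs]; simp
  set j := Nat.log 2 x.a.natAbs with hj
  have hj1 : (2 : ℝ) ^ j ≤ |(x.a : ℝ)| := by
    rw [← hcast]
    exact_mod_cast Nat.pow_log_le_self 2 hn0
  have hj2 : |(x.a : ℝ)| ≤ 2 * 2 ^ j := by
    rw [← hcast]
    have h := (Nat.lt_pow_succ_log_self (b := 2) (by norm_num) x.a.natAbs).le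
    rw [← hj, pow_succ, mul_comm] at h
    exact_mod_cast h
  have hX0 : (0 : ℝ) < 2 ^ j := by positivity
  refine ⟨j, ?_, hj1.trans hA, x, ⟨hj1, hj2, ?_, hD, ?_, ?_⟩, ?_⟩
  · have h6 : (2 : ℝ) ^ j ≤ Q := by
      refine (hj1.trans hA).trans ?_
      calc Q ^ (1 - ε) ≤ Q ^ (1 : ℝ) := Real.rpow_le_rpow_of_exponent_le hQ (by linarith)
        _ = Q := Real.rpow_one Q
    have h7 := Real.log_le_log hX0 h6
    rw [Real.log_pow] at h7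
    exact badD_aux3 j _ (Nat.cast_nonneg j) h7
  · refine i1.trans ?_
    gcongr
  · have h7 : |(x.a : ℝ)| * δ ≤ 2 * 2 ^ j * δ := by gcongr
    calc |(x.D : ℝ)| ≤ 2 * (|(x.a : ℝ)| * δ) ^ 2 := hD2
      _ ≤ 2 * (2 * 2 ^ j * δ) ^ 2 := by gcongr
      _ = _ := by ring
  · have e : (x.b : ℝ) = x.y1 ξ + ξ * x.a := by simp only [Cub.y1]; ring
    rw [e]
    refine (abs_add_le _ _).trans ?_
    rw [abs_mul, abs_of_nonneg hξ0]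
    have : ξ * |(x.a : ℝ)| ≤ 1 * |(x.a : ℝ)| := by gcongr
    linarith
  · have hne : (x.a : ℝ) ≠ 0 := by exact_mod_cast ha0
    have e : ξ - x.b / x.a = -(x.y1 ξ / x.a) := by simp only [Cub.y1]; field_simp; ring
    rw [e, abs_neg, abs_div]
    gcongr

/-- **BadD** -/
theorem badD (h : Count) : BadD := by
  obtain ⟨C, hC, hcount⟩ := h
  intro lam ε τ hl1 hl2 hε hε1 hτ
  obtain ⟨θ, hθ, h1, h2, h3, h4⟩ : ∃ θ : ℝ, 0 < θ ∧ θ ≤ ε ∧ θ ≤ 2 - 2 * lam ∧ θ ≤ 3 * lam - 1 ∧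
      θ ≤ 3 - 5 * lam := by
    refine ⟨min (min ε (2 - 2 * lam)) (min (3 * lam - 1) (3 - 5 * lam)), ?_, ?_, ?_, ?_, ?_⟩
    · simp only [lt_min_iff]
      refine ⟨⟨hε, ?_⟩, ?_, ?_⟩ <;> linarith
    · exact (min_le_left _ _).trans (min_le_left _ _)
    · exact (min_le_left _ _).trans (min_le_right _ _)
    · exact (min_le_right _ _).trans (min_le_left _ _)
    · exact (min_le_right _ _).trans (min_le_right _ _)
  have hlim : Tendsto (fun Q : ℝ => 38 * Q ^ (-θ)) atTop (𝓝 (38 * 0)) :=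
    (tendsto_rpow_neg_atTop hθ).const_mul 38
  have hev : ∀ᶠ Q : ℝ in atTop, volume (Bad PD lam ε Q) ≤ ENNReal.ofReal τ := by
    filter_upwards [badD_lim (68 * C) θ τ hθ hτ, eventually_ge_atTop (1 : ℝ),
      hlim.eventually_lt_const (show (38 : ℝ) * 0 < 1 by norm_num)] with Q hQτ hQ1 hQθ
    have hQ0 : 0 < Q := by linarith
    have hlQ : 0 ≤ Real.log Q := Real.log_nonneg hQ1
    have hδ0 : 0 < Q ^ (-lam) := Real.rpow_pos_of_pos hQ0 _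
    have hδ1 : Q ^ (-lam) ≤ 1 := Real.rpow_le_one_of_one_le_of_nonpos hQ1 (by linarith)
    have hη0 : 0 < Q ^ (2 * lam - 1) := Real.rpow_pos_of_pos hQ0 _
    have hθ0 : 0 < Q ^ (-θ) := Real.rpow_pos_of_pos hQ0 _
    set δ := Q ^ (-lam) with hδ
    set η := Q ^ (2 * lam - 1) with hη
    set J : Finset ℕ := (Finset.range (⌊2 * Real.log Q⌋₊ + 1)).filter
      (fun j => (2 : ℝ) ^ j ≤ Q ^ (1 - ε)) with hJ
    have hJc : (J.card : ℝ) ≤ 4 + 2 * Real.log Q := by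
      have h6 : J.card ≤ ⌊2 * Real.log Q⌋₊ + 1 := by
        rw [hJ]; exact (Finset.card_filter_le _ _).trans (by rw [Finset.card_range])
      have h7 : (J.card : ℝ) ≤ (⌊2 * Real.log Q⌋₊ : ℝ) + 1 := by exact_mod_cast h6
      have h8 := Nat.floor_le (show 0 ≤ 2 * Real.log Q by positivity)
      linarith
    have hblock : ∀ j : ℕ, (2 : ℝ) ^ j ≤ Q ^ (1 - ε) → ∃ S : Finset Cub,
        (∀ x : Cub, x ∈ S ↔ x ∈ {x : Cub | (2 : ℝ) ^ j ≤ |(x.a : ℝ)| ∧ |(x.a : ℝ)| ≤ 2 * 2 ^ j ∧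
          |(x.h0 : ℝ)| ≤ 2 * 2 ^ j * δ + η ^ 2 ∧
          x.D ≠ 0 ∧ |(x.D : ℝ)| ≤ 8 * (2 ^ j * δ) ^ 2 ∧ |(x.b : ℝ)| ≤ 2 * |(x.a : ℝ)|}) ∧
        (S.card : ℝ) * (2 * (η / 2 ^ j)) ≤ 68 * C * Q ^ (-θ) * (4 + 2 * Real.log Q) ^ 2 := by
      intro j hj
      have hjQ : (2 : ℝ) ^ j ≤ Q := by
        refine hj.trans ?_
        calc Q ^ (1 - ε) ≤ Q ^ (1 : ℝ) := Real.rpow_le_rpow_of_exponent_le hQ1 (by linarith)
          _ = Q := Real.rpow_one Q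
      obtain ⟨S, hS, hc⟩ := badD_block C hC hcount (2 ^ j) Q δ η (one_le_pow₀ (by norm_num)) hjQ
        hδ0 hδ1 hη0
      refine ⟨S, hS, ?_⟩
      have hX0 : (0 : ℝ) < 2 ^ j := by positivity
      obtain ⟨p1, -, -, p4⟩ := badD_pow Q lam ε θ hQ1 hε h1 h2 h3 h4 (2 ^ j) hj
      calc (S.card : ℝ) * (2 * (η / 2 ^ j))
          ≤ (C * 2 * (14 * (2 ^ j * δ) ^ 2 + 3 * (η ^ 2 * (2 ^ j * δ))) *
            (4 + 2 * Real.log Q) ^ 2) * (2 * (η / 2 ^ j)) := by gcongr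
        _ = C * 4 * (14 * (2 ^ j * η * δ ^ 2) + 3 * (η ^ 3 * δ)) * (4 + 2 * Real.log Q) ^ 2 := by
            field_simp; ring
        _ ≤ C * 4 * (14 * Q ^ (-θ) + 3 * Q ^ (-θ)) * (4 + 2 * Real.log Q) ^ 2 := by gcongr
        _ = _ := by ring
    choose! S hS hSc using hblock
    have hsub : Bad PD lam ε Q ⊆ ⋃ j ∈ J, ⋃ x ∈ S j,
        Set.Icc ((x.b : ℝ) / x.a - η / 2 ^ j) ((x.b : ℝ) / x.a + η / 2 ^ j) := by
      intro ξ hξ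
      obtain ⟨j, hj1, hj2, x, hx, hb⟩ := badD_mem Q lam ε θ hQ1 hε h1 h2 h3 h4 hQθ.le ξ hξ
      have hjJ : j ∈ J := by
        rw [hJ, Finset.mem_filter, Finset.mem_range, Nat.lt_succ_iff]
        exact ⟨Nat.le_floor hj1, hj2⟩
      rw [abs_le] at hb
      simp only [Set.mem_iUnion]
      refine ⟨j, hjJ, x, (hS j hj2 x).mpr hx, ?_, ?_⟩
      · linarith [hb.1]
      · linarith [hb.2]
    calc volume (Bad PD lam ε Q)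
        ≤ volume (⋃ j ∈ J, ⋃ x ∈ S j,
          Set.Icc ((x.b : ℝ) / x.a - η / 2 ^ j) ((x.b : ℝ) / x.a + η / 2 ^ j)) := measure_mono hsub
      _ ≤ ∑ j ∈ J, volume (⋃ x ∈ S j,
          Set.Icc ((x.b : ℝ) / x.a - η / 2 ^ j) ((x.b : ℝ) / x.a + η / 2 ^ j)) :=
          measure_biUnion_finset_le _ _
      _ ≤ ∑ j ∈ J, ENNReal.ofReal (68 * C * Q ^ (-θ) * (4 + 2 * Real.log Q) ^ 2) := by
          refine Finset.sum_le_sum fun j hj => ?_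
          have hj2 : (2 : ℝ) ^ j ≤ Q ^ (1 - ε) := (Finset.mem_filter.mp hj).2
          refine (measure_biUnion_finset_le _ _).trans ?_
          have e : ∀ x ∈ S j, volume (Set.Icc ((x.b : ℝ) / x.a - η / 2 ^ j)
              ((x.b : ℝ) / x.a + η / 2 ^ j)) = ENNReal.ofReal (2 * (η / 2 ^ j)) := by
            intro x _
            rw [Real.volume_Icc]; congr 1; ring
          rw [Finset.sum_congr rfl e, Finset.sum_const, nsmul_eq_mul, ← ENNReal.ofReal_natCast,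
            ← ENNReal.ofReal_mul (Nat.cast_nonneg _)]
          exact ENNReal.ofReal_le_ofReal (hSc j hj2)
      _ = ENNReal.ofReal (J.card * (68 * C * Q ^ (-θ) * (4 + 2 * Real.log Q) ^ 2)) := by
          rw [Finset.sum_const, nsmul_eq_mul, ← ENNReal.ofReal_natCast,
            ← ENNReal.ofReal_mul (Nat.cast_nonneg _)]
      _ ≤ ENNReal.ofReal τ := by
          apply ENNReal.ofReal_le_ofReal
          refine le_trans ?_ hQτ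
          calc (J.card : ℝ) * (68 * C * Q ^ (-θ) * (4 + 2 * Real.log Q) ^ 2)
              ≤ (4 + 2 * Real.log Q) * (68 * C * Q ^ (-θ) * (4 + 2 * Real.log Q) ^ 2) := by gcongr
            _ = _ := by ring
  exact (eventually_atTop.mp hev)

end MP_211f72_nt
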