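import Pool.Agent.Lib.MP_211f72_nt.Spec
import Pool.Agent.Lib.MP_211f72_nt.Basic

/-!
# MP_211f72_nt: dimension `< s` implies content zero in some dimension `t < s`
-/

namespace MP_211f72_nt

open MeasureTheory Measure Set
open scoped ENNReal NNReal

theorem contentZero : ContentZero := by
  intro N s hs0 hs1 hdim
  obtain ⟨t, ht1, ht2⟩ := ENNReal.lt_iff_exists_nnreal_btwn.1 hdim
  have ht0 : (0 : ℝ) < t := by
    have : (0 : ℝ≥0∞) < t := lt_of_le_of_lt zero_le ht1
    exact_mod_cast this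
  have hts : (t : ℝ) < s := by
    rw [ENNReal.ofReal, ENNReal.coe_lt_coe] at ht2
    have := NNReal.coe_lt_coe.2 ht2
    rwa [Real.coe_toNNReal s hs0.le] at this
  refine ⟨t, ht0, hts, ?_⟩
  intro ε hε
  have hH : μH[(t : ℝ)] N = 0 := hausdorffMeasure_of_dimH_lt ht1
  rw [hausdorffMeasure_apply] at hH
  have h1 := (iSup₂_eq_bot.1 hH) 1 one_pos
  have h2 : (⨅ (T : ℕ → Set ℝ) (_ : N ⊆ ⋃ n, T n) (_ : ∀ n, Metric.ediam (T n) ≤ 1),
      ∑' n, ⨆ _ : (T n).Nonempty, Metric.ediam (T n) ^ (t : ℝ)) < ENNReal.ofReal (ε / 2) := by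
    rw [h1]
    simpa using hε
  simp only [iInf_lt_iff] at h2
  obtain ⟨T, hT, hTd, hTs⟩ := h2
  -- radii
  let e : ℕ → ℝ := fun n => (ε / 2 / 2 ^ (n + 1)) ^ ((t : ℝ)⁻¹)
  have he0 : ∀ n, 0 < e n := fun n => Real.rpow_pos_of_pos (by positivity) _
  have het : ∀ n, (e n) ^ (t : ℝ) = ε / 2 / 2 ^ (n + 1) := fun n =>
    Real.rpow_inv_rpow (by positivity) ht0.ne'
  let D : ℕ → ℝ := fun n => (Metric.ediam (T n)).toReal
  have hDtop : ∀ n, Metric.ediam (T n) ≠ ⊤ := fun n =>
    ((hTd n).trans_lt ENNReal.one_lt_top).ne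
  have hD0 : ∀ n, 0 ≤ D n := fun n => ENNReal.toReal_nonneg
  have hDof : ∀ n, ENNReal.ofReal (D n) = Metric.ediam (T n) := fun n =>
    ENNReal.ofReal_toReal (hDtop n)
  classical
  let c : ℕ → ℝ := fun n => if h : (T n).Nonempty then h.some else 0
  refine ⟨c, fun n => D n + e n, fun n => by have := hD0 n; have := he0 n; positivity, ?_, ?_⟩
  · have hterm : ∀ n, ENNReal.ofReal ((D n + e n) ^ (t : ℝ)) ≤
        (⨆ _ : (T n).Nonempty, Metric.ediam (T n) ^ (t : ℝ))
          + ENNReal.ofReal (ε / 2 / 2 ^ (n + 1)) := by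
      intro n
      rw [← ENNReal.ofReal_rpow_of_nonneg (add_nonneg (hD0 n) (he0 n).le) ht0.le,
        ENNReal.ofReal_add (hD0 n) (he0 n).le]
      refine (ENNReal.rpow_add_le_add_rpow _ _ ht0.le (hts.le.trans hs1)).trans ?_
      rw [ENNReal.ofReal_rpow_of_nonneg (he0 n).le ht0.le, het, hDof]
      gcongr
      by_cases hn : (T n).Nonempty
      · simp [hn]
      · rw [Set.not_nonempty_iff_eq_empty.1 hn]
        simp [ht0]
    calc ∑' n, ENNReal.ofReal ((D n + e n) ^ (t : ℝ))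
        ≤ ∑' n, ((⨆ _ : (T n).Nonempty, Metric.ediam (T n) ^ (t : ℝ))
          + ENNReal.ofReal (ε / 2 / 2 ^ (n + 1))) := ENNReal.tsum_le_tsum hterm
      _ = (∑' n, (⨆ _ : (T n).Nonempty, Metric.ediam (T n) ^ (t : ℝ)))
          + ∑' n, ENNReal.ofReal (ε / 2 / 2 ^ (n + 1)) := ENNReal.tsum_add
      _ ≤ ENNReal.ofReal (ε / 2) + ENNReal.ofReal (ε / 2) := by
          gcongr
          rw [← ENNReal.ofReal_tsum_of_nonneg (fun n => by positivity)]
          · apply ENNReal.ofReal_le_ofReal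
            have := tsum_geometric_two' (ε / 2)
            have h3 : ∀ n : ℕ, ε / 2 / 2 ^ (n + 1) = ε / 2 / 2 / 2 ^ n := fun n => by
              rw [pow_succ]; field_simp
            simp only [h3]
            exact this.le
          · have h3 : ∀ n : ℕ, ε / 2 / 2 ^ (n + 1) = ε / 2 / 2 / 2 ^ n := fun n => by
              rw [pow_succ]; field_simp
            simp only [h3]
            exact summable_geometric_two' (ε / 2)
      _ = ENNReal.ofReal ε := by
          rw [← ENNReal.ofReal_add (by positivity) (by positivity)]; congr 1; ring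
  · intro x hx
    obtain ⟨n, hn⟩ := mem_iUnion.1 (hT hx)
    refine mem_iUnion.2 ⟨n, ?_⟩
    have hne : (T n).Nonempty := ⟨x, hn⟩
    have hc : c n ∈ T n := by
      show (if h : (T n).Nonempty then h.some else 0) ∈ T n
      rw [dif_pos hne]; exact hne.some_mem
    have h3 : edist x (c n) ≤ Metric.ediam (T n) := Metric.edist_le_ediam_of_mem hn hc
    have h4 : |x - c n| ≤ D n := by
      rw [← Real.dist_eq, ← ENNReal.ofReal_le_ofReal_iff (hD0 n), hDof, ← edist_dist]
      exact h3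
    have h5 := abs_le.1 h4
    have h6 := he0 n
    constructor <;> linarith [h5.1, h5.2]

end MP_211f72_nt
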