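import Pool.Agent.Lib.MP_211f72_nt.Spec
import Pool.Agent.Lib.MP_211f72_nt.Basic

/-!
# MP_211f72_nt: the counting lemma for `|D| ≤ T`
-/

namespace MP_211f72_nt

/-- the counting lemma: cut `1 ≤ |D| ≤ T` into dyadic blocks -/
theorem count (h : CountBlock) : Count := by
  classical
  obtain ⟨C, hC, hb⟩ := h
  refine ⟨2 * C, by positivity, ?_⟩
  intro X B T R hX hB hT hR S hS
  have hT0 : (0 : ℝ) < T := by linarith
  have hlogT : 0 ≤ Real.log T := Real.log_nonneg hT
  set g : Cub → ℕ := fun x => Nat.log 2 x.D.natAbs with hg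
  -- the bounds for `2 ^ g x`
  have hlow : ∀ x ∈ S, (2 : ℝ) ^ g x ≤ |(x.D : ℝ)| := by
    intro x hx
    have hD := (hS x hx).2.2.2.1
    have h1 : 2 ^ Nat.log 2 x.D.natAbs ≤ x.D.natAbs := Nat.pow_log_le_self 2 (Int.natAbs_ne_zero.mpr hD)
    have h2 : ((2 ^ Nat.log 2 x.D.natAbs : ℕ) : ℝ) ≤ (x.D.natAbs : ℝ) := by exact_mod_cast h1
    rw [Nat.cast_natAbs, Int.cast_abs] at h2
    push_cast at h2
    exact h2
  have hup : ∀ x ∈ S, |(x.D : ℝ)| ≤ 2 * (2 : ℝ) ^ g x := by
    intro x hx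
    have h1 : x.D.natAbs < 2 ^ (Nat.log 2 x.D.natAbs + 1) := Nat.lt_pow_succ_log_self (by norm_num) _
    have h2 : (x.D.natAbs : ℝ) ≤ ((2 ^ (Nat.log 2 x.D.natAbs + 1) : ℕ) : ℝ) := by exact_mod_cast h1.le
    rw [Nat.cast_natAbs, Int.cast_abs] at h2
    push_cast at h2
    rw [pow_succ] at h2
    simp only [hg]
    linarith
  have hpowT : ∀ x ∈ S, (2 : ℝ) ^ g x ≤ T := fun x hx => (hlow x hx).trans (hS x hx).2.2.2.2.1
  -- the blocks
  have hblock : ∀ b ∈ S.image g, (((S.filter fun x => g x = b).card : ℕ) : ℝ)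
      ≤ C * R * (T + B * √T) * (1 + Real.log T) := by
    intro b hbm
    obtain ⟨x0, hx0, rfl⟩ := Finset.mem_image.mp hbm
    have hZ1 : (1 : ℝ) ≤ 2 ^ g x0 := one_le_pow₀ (by norm_num)
    have hZT : (2 : ℝ) ^ g x0 ≤ T := hpowT x0 hx0
    have hmain := hb X B (2 ^ g x0) R hX hB hZ1 hR (S.filter fun x => g x = g x0) ?_
    · refine hmain.trans ?_
      have h1 : (2 : ℝ) ^ g x0 + B * √(2 ^ g x0) ≤ T + B * √T := by
        have := mul_le_mul_of_nonneg_left (Real.sqrt_le_sqrt hZT) hB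
        linarith
      have h2 : 1 + Real.log (2 ^ g x0) ≤ 1 + Real.log T := by
        have := Real.log_le_log (by linarith) hZT
        linarith
      have h3 : (0 : ℝ) ≤ 1 + Real.log (2 ^ g x0) := by
        have := Real.log_nonneg hZ1
        linarith
      have h4 : (0 : ℝ) ≤ C * R := by positivity
      have h5 : (0 : ℝ) ≤ T + B * √T := by positivity
      calc C * R * ((2 : ℝ) ^ g x0 + B * √(2 ^ g x0)) * (1 + Real.log (2 ^ g x0))
          ≤ C * R * (T + B * √T) * (1 + Real.log (2 ^ g x0)) :=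
            mul_le_mul_of_nonneg_right (mul_le_mul_of_nonneg_left h1 h4) h3
        _ ≤ C * R * (T + B * √T) * (1 + Real.log T) :=
            mul_le_mul_of_nonneg_left h2 (mul_nonneg h4 h5)
    · intro x hx
      rw [Finset.mem_filter] at hx
      obtain ⟨hxS, hxg⟩ := hx
      have h1 := hS x hxS
      have h2 := hlow x hxS
      have h3 := hup x hxS
      rw [hxg] at h2 h3
      exact ⟨h1.1, h1.2.1, h1.2.2.1, h2, h3, h1.2.2.2.2.2⟩
  have hcard := card_le_mul_card_image_real S g _ hblock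
  -- the number of blocks
  have himg : ((S.image g).card : ℝ) ≤ 2 * (1 + Real.log T) := by
    have hlog2 : (1 / 2 : ℝ) < Real.log 2 := by
      have := Real.log_two_gt_d9
      linarith
    have hsub : S.image g ⊆ Finset.range (⌊2 * Real.log T⌋₊ + 1) := by
      intro n hn
      obtain ⟨x, hx, rfl⟩ := Finset.mem_image.mp hn
      rw [Finset.mem_range, Nat.lt_succ_iff]
      apply Nat.le_floor
      have h1 := Real.log_le_log (by positivity) (hpowT x hx)
      rw [Real.log_pow] at h1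
      have h2 : (0 : ℝ) ≤ (g x : ℝ) := Nat.cast_nonneg _
      nlinarith
    have h1 := Finset.card_le_card hsub
    rw [Finset.card_range] at h1
    have h2 : ((S.image g).card : ℝ) ≤ (⌊2 * Real.log T⌋₊ : ℝ) + 1 := by exact_mod_cast h1
    have h3 := Nat.floor_le (show (0 : ℝ) ≤ 2 * Real.log T by linarith)
    linarith
  have h5 : (0 : ℝ) ≤ C * R * (T + B * √T) * (1 + Real.log T) := by
    have : (0 : ℝ) ≤ T + B * √T := by positivity
    have : (0 : ℝ) ≤ 1 + Real.log T := by linarith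
    positivity
  calc (S.card : ℝ) ≤ C * R * (T + B * √T) * (1 + Real.log T) * (S.image g).card := hcard
    _ ≤ C * R * (T + B * √T) * (1 + Real.log T) * (2 * (1 + Real.log T)) :=
        mul_le_mul_of_nonneg_left himg h5
    _ = 2 * C * R * (T + B * √T) * (1 + Real.log T) ^ 2 := by ring

end MP_211f72_nt
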