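import Pool.Agent.Lib.MP_211f72_nt.Spec
import Pool.Agent.Lib.MP_211f72_nt.Basic

/-!
# MP_211f72_nt: the counting lemma for a dyadic block of discriminants
-/

namespace MP_211f72_nt

theorem countBlock_coprime {w z : ℤ × ℤ} (h : det w z = 1) : IsCoprime w.1 w.2 := by
  refine ⟨z.2, -z.1, ?_⟩
  have : w.1 * z.2 - w.2 * z.1 = 1 := h
  linarith [mul_comm w.1 z.2, mul_comm w.2 z.1]

/-- the fibres of `x ↦ (f, w)` -/
theorem countBlock_fibre (R : ℝ) (hR : 1 ≤ R) (g : Cub) (w : ℤ × ℤ) (z : Cub → ℤ × ℤ)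
    (T : Finset Cub) (hT : ∀ x ∈ T, det w (z x) = 1 ∧ x = g.sub w (z x) ∧ x.a ≠ 0 ∧
      |(x.b : ℝ)| ≤ R * |(x.a : ℝ)|) : (T.card : ℝ) ≤ 5 * R := by
  classical
  rcases T.eq_empty_or_nonempty with rfl | ⟨x0, hx0⟩
  · simp only [Finset.card_empty, Nat.cast_zero]
    linarith
  obtain ⟨hd0, he0, ha0, hb0⟩ := hT x0 hx0
  -- the integer `k`
  let k : Cub → ℤ := fun x => (z x0).2 * ((z x).1 - (z x0).1) - (z x0).1 * ((z x).2 - (z x0).2)
  have hz : ∀ x ∈ T, (z x).1 = (z x0).1 + k x * w.1 ∧ (z x).2 = (z x0).2 + k x * w.2 := by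
    intro x hx
    obtain ⟨hd, -, -, -⟩ := hT x hx
    have h1 : w.1 * (z x0).2 - w.2 * (z x0).1 = 1 := hd0
    have h2 : w.1 * (z x).2 - w.2 * (z x).1 = 1 := hd
    constructor
    · have : k x * w.1 = (z x).1 - (z x0).1 := by
        have e : k x * w.1 = ((z x).1 - (z x0).1) * (w.1 * (z x0).2 - w.2 * (z x0).1)
            - (z x0).1 * ((w.1 * (z x).2 - w.2 * (z x).1) - (w.1 * (z x0).2 - w.2 * (z x0).1)) := by
          simp only [k]; ring
        rw [e, h1, h2]; ring
      linarith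
    · have : k x * w.2 = (z x).2 - (z x0).2 := by
        have e : k x * w.2 = ((z x).2 - (z x0).2) * (w.1 * (z x0).2 - w.2 * (z x0).1)
            - (z x0).2 * ((w.1 * (z x).2 - w.2 * (z x).1) - (w.1 * (z x0).2 - w.2 * (z x0).1)) := by
          simp only [k]; ring
        rw [e, h1, h2]; ring
      linarith
  have hinj : Set.InjOn k (T : Set Cub) := by
    intro x hx y hy hxy
    have h1 := hz x hx
    have h2 := hz y hy
    have h3 : z x = z y := Prod.ext (by rw [h1.1, h2.1, hxy]) (by rw [h1.2, h2.2, hxy])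
    rw [(hT x hx).2.1, (hT y hy).2.1, h3]
  have ha : ∀ x ∈ T, x.a = g.F w := fun x hx => by
    rw [(hT x hx).2.1]; rfl
  have hb : ∀ x ∈ T, x.b = g.tri w w (z x) := fun x hx => by
    conv_lhs => rw [(hT x hx).2.1]
    rfl
  have hk : ∀ x ∈ T, |(k x : ℝ)| ≤ 2 * R := by
    intro x hx
    have e : x.b = x0.b + k x * x0.a := by
      rw [hb x hx, hb x0 hx0, ha x0 hx0]
      simp only [Cub.tri, Cub.F]
      rw [(hz x hx).1, (hz x hx).2]
      ring
    have e' : (x.b : ℝ) = x0.b + k x * x0.a := by exact_mod_cast e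
    have h3 : |(x.b : ℝ)| ≤ R * |(x0.a : ℝ)| := by
      have := (hT x hx).2.2.2
      rwa [ha x hx, ← ha x0 hx0] at this
    have h4 : |(k x : ℝ)| * |(x0.a : ℝ)| ≤ 2 * R * |(x0.a : ℝ)| := by
      rw [← abs_mul]
      have : (k x : ℝ) * x0.a = x.b - x0.b := by rw [e']; ring
      rw [this]
      calc |(x.b : ℝ) - x0.b| ≤ |(x.b : ℝ)| + |(x0.b : ℝ)| := abs_sub _ _
        _ ≤ R * |(x0.a : ℝ)| + R * |(x0.a : ℝ)| := add_le_add h3 hb0
        _ = 2 * R * |(x0.a : ℝ)| := by ring
    have h5 : 0 < |(x0.a : ℝ)| := abs_pos.mpr (by exact_mod_cast ha0)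
    exact le_of_mul_le_mul_right h4 h5
  have hc := int_card_le (T.image k) (-(2 * R)) (4 * R) (by linarith) (by
    intro n hn
    obtain ⟨x, hx, rfl⟩ := Finset.mem_image.mp hn
    have := abs_le.mp (hk x hx)
    constructor <;> linarith [this.1, this.2])
  rw [Finset.card_image_of_injOn hinj] at hc
  linarith

theorem countBlock (h1 : ExistsNormal) (h2 : CountNF1) (h3 : CountNF2) (h4 : CountVec) :
    CountBlock := by
  classical
  obtain ⟨C1, hC1, H1⟩ := h2
  obtain ⟨C1', hC1', H2⟩ := h3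
  obtain ⟨C2, hC2, H4⟩ := h4
  have : Nonempty Cub := ⟨⟨0, 0, 0, 0⟩⟩
  choose! f w z hdet hx hn using h1
  refine ⟨5 * C2 * (4 * C1 + 2 * C1'), by positivity, ?_⟩
  intro X B Z R hX hB hZ hR S hS
  have hZ0 : 0 < Z := by linarith
  have hD : ∀ x ∈ S, x.D ≠ 0 := by
    intro x hxS h0
    have := (hS x hxS).2.2.2.1
    rw [h0] at this
    simp at this
    linarith
  have hfa : ∀ x ∈ S, (f x).F (w x) = x.a := fun x hxS => by
    conv_rhs => rw [hx x (hD x hxS)]
    rfl
  have hfH : ∀ x ∈ S, (f x).H (w x) = x.h0 := fun x hxS => by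
    conv_rhs => rw [hx x (hD x hxS)]
    rw [Cub.sub_h0, hdet x (hD x hxS)]
    ring
  have hfD : ∀ x ∈ S, (f x).D = x.D := fun x hxS => by
    conv_rhs => rw [hx x (hD x hxS)]
    rw [Cub.sub_D, hdet x (hD x hxS)]
    ring
  -- first step
  have step1 : (S.card : ℝ) ≤ 5 * R * (S.image fun x => (f x, w x)).card := by
    apply card_le_mul_card_image_real
    rintro ⟨g, v⟩ _
    apply countBlock_fibre R hR g v z
    intro x hxT
    obtain ⟨hxS, hxe⟩ := Finset.mem_filter.mp hxT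
    have e1 : f x = g := congrArg Prod.fst hxe
    have e2 : w x = v := congrArg Prod.snd hxe
    have h5 := hS x hxS
    refine ⟨?_, ?_, ?_, h5.2.2.2.2.2⟩
    · rw [← e2]; exact hdet x (hD x hxS)
    · rw [← e1, ← e2]; exact hx x (hD x hxS)
    · intro h0
      have := h5.1
      rw [h0] at this
      simp at this
      linarith
  -- second step
  have step2 : ((S.image fun x => (f x, w x)).card : ℝ) ≤
      C2 * (1 + B / √Z) * ((S.image fun x => (f x, w x)).image Prod.fst).card := by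
    apply card_le_mul_card_image_real
    intro g hg
    obtain ⟨p, hp, hpg⟩ := Finset.mem_image.mp hg
    obtain ⟨x0, hx0, hx0p⟩ := Finset.mem_image.mp hp
    have hg0 : f x0 = g := by rw [← hpg, ← hx0p]
    have hinj : Set.InjOn Prod.snd
        (((S.image fun x => (f x, w x)).filter fun q => q.1 = g : Finset (Cub × (ℤ × ℤ))) :
          Set (Cub × (ℤ × ℤ))) := by
      intro q hq q' hq' h
      have h5 := (Finset.mem_filter.mp (Finset.mem_coe.mp hq)).2
      have h6 := (Finset.mem_filter.mp (Finset.mem_coe.mp hq')).2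
      exact Prod.ext (h5.trans h6.symm) h
    rw [← Finset.card_image_of_injOn hinj]
    have hgD : |(g.D : ℝ)| = |(x0.D : ℝ)| := by rw [← hg0, hfD x0 hx0]
    have hgD0 : g.D ≠ 0 := by rw [← hg0, hfD x0 hx0]; exact hD x0 hx0
    have h7 := H4 g hgD0 X B hX hB (S := (((S.image fun x => (f x, w x)).filter
      fun q => q.1 = g).image Prod.snd)) (by
        intro v hv
        obtain ⟨q, hq, hqv⟩ := Finset.mem_image.mp hv
        obtain ⟨hq1, hq2⟩ := Finset.mem_filter.mp hq
        obtain ⟨x, hxS, hxq⟩ := Finset.mem_image.mp hq1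
        have e1 : f x = g := by rw [← hq2, ← hxq]
        have e2 : w x = v := by rw [← hqv, ← hxq]
        have h5 := hS x hxS
        have e3 : g.F v = x.a := by rw [← e1, ← e2]; exact hfa x hxS
        have e4 : g.H v = x.h0 := by rw [← e1, ← e2]; exact hfH x hxS
        refine ⟨?_, ?_, ?_, ?_⟩
        · rw [← e2]; exact countBlock_coprime (hdet x (hD x hxS))
        · rw [e3]; exact h5.1
        · rw [e3]; exact h5.2.1
        · rw [e4]; exact h5.2.2.1)
    refine h7.trans ?_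
    apply mul_le_mul_of_nonneg_left _ hC2.le
    have h8 : √Z ≤ √|(g.D : ℝ)| := by
      apply Real.sqrt_le_sqrt
      rw [hgD]
      exact (hS x0 hx0).2.2.2.1
    have h9 : 0 < √Z := Real.sqrt_pos.mpr hZ0
    have h10 : B / √|(g.D : ℝ)| ≤ B / √Z := div_le_div_of_nonneg_left hB h9 h8
    linarith
  -- third step
  have hlog : 0 ≤ Real.log Z := Real.log_nonneg hZ
  have hlog2 : Real.log (2 * Z) ≤ 1 + Real.log Z := by
    rw [Real.log_mul (by norm_num) (by linarith)]
    have := Real.log_two_lt_d9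
    linarith
  set T := (S.image fun x => (f x, w x)).image Prod.fst with hTdef
  have hT : ∀ g ∈ T, (Nor1 g ∨ Nor2 g) ∧ g.D ≠ 0 ∧ |(g.D : ℝ)| ≤ 2 * Z := by
    intro g hg
    obtain ⟨p, hp, hpg⟩ := Finset.mem_image.mp hg
    obtain ⟨x0, hx0, hx0p⟩ := Finset.mem_image.mp hp
    have hg0 : f x0 = g := by rw [← hpg, ← hx0p]
    refine ⟨?_, ?_, ?_⟩
    · rw [← hg0]; exact hn x0 (hD x0 hx0)
    · rw [← hg0, hfD x0 hx0]; exact hD x0 hx0
    · rw [← hg0, hfD x0 hx0]; exact (hS x0 hx0).2.2.2.2.1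
  have step3 : (T.card : ℝ) ≤ (4 * C1 + 2 * C1') * Z * (1 + Real.log Z) := by
    have hcard : T.card ≤ (T.filter Nor1).card + (T.filter Nor2).card := by
      refine (Finset.card_le_card (t := T.filter Nor1 ∪ T.filter Nor2) ?_).trans
        (Finset.card_union_le _ _)
      intro g hg
      rcases (hT g hg).1 with h | h
      · exact Finset.mem_union_left _ (Finset.mem_filter.mpr ⟨hg, h⟩)
      · exact Finset.mem_union_right _ (Finset.mem_filter.mpr ⟨hg, h⟩)
    have hcard' : (T.card : ℝ) ≤ (T.filter Nor1).card + (T.filter Nor2).card := by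
      exact_mod_cast hcard
    have h5 := H1 (2 * Z) (by linarith) (T.filter Nor1) (by
      intro g hg
      obtain ⟨h6, h7⟩ := Finset.mem_filter.mp hg
      exact ⟨h7, (hT g h6).2.2⟩)
    have h6 := H2 (2 * Z) (by linarith) (T.filter Nor2) (by
      intro g hg
      obtain ⟨h6, h7⟩ := Finset.mem_filter.mp hg
      exact ⟨h7, (hT g h6).2.1, (hT g h6).2.2⟩)
    have h7 : C1 * (2 * Z) * (1 + Real.log (2 * Z)) ≤ C1 * (2 * Z) * (2 * (1 + Real.log Z)) := by
      apply mul_le_mul_of_nonneg_left _ (by positivity)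
      linarith
    have h8 : C1' * (2 * Z) ≤ C1' * (2 * Z) * (1 + Real.log Z) := by
      have : 0 ≤ C1' * (2 * Z) := by positivity
      nlinarith
    calc (T.card : ℝ) ≤ C1 * (2 * Z) * (2 * (1 + Real.log Z))
          + C1' * (2 * Z) * (1 + Real.log Z) := by linarith
      _ = (4 * C1 + 2 * C1') * Z * (1 + Real.log Z) := by ring
  have hsq : 0 < √Z := Real.sqrt_pos.mpr hZ0
  have hBZ : 0 ≤ B / √Z := div_nonneg hB hsq.le
  have hZs : Z * (1 + B / √Z) = Z + B * √Z := by
    have : Z = √Z * √Z := (Real.mul_self_sqrt hZ0.le).symm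
    field_simp
    nlinarith [this]
  calc (S.card : ℝ) ≤ 5 * R * (S.image fun x => (f x, w x)).card := step1
    _ ≤ 5 * R * (C2 * (1 + B / √Z) * T.card) := by
        apply mul_le_mul_of_nonneg_left step2 (by linarith)
    _ ≤ 5 * R * (C2 * (1 + B / √Z) * ((4 * C1 + 2 * C1') * Z * (1 + Real.log Z))) := by
        apply mul_le_mul_of_nonneg_left _ (by linarith)
        apply mul_le_mul_of_nonneg_left step3
        have : 0 ≤ 1 + B / √Z := by linarith
        positivity
    _ = 5 * C2 * (4 * C1 + 2 * C1') * R * (Z * (1 + B / √Z)) * (1 + Real.log Z) := by ring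
    _ = 5 * C2 * (4 * C1 + 2 * C1') * R * (Z + B * √Z) * (1 + Real.log Z) := by rw [hZs]

end MP_211f72_nt
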