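import Pool.Agent.Lib.MP_211f72_nt.Spec
import Pool.Agent.Lib.MP_211f72_nt.Basic

namespace MP_211f72_nt

open Finset

/-- integers of absolute value at most `M` -/
noncomputable def countnf1_I (M : ℝ) : Finset ℤ := Finset.Icc (-⌊M⌋) ⌊M⌋

theorem countnf1_mem {M : ℝ} {n : ℤ} (h : |(n : ℝ)| ≤ M) : n ∈ countnf1_I M := by
  have h1 := abs_le.mp h
  rw [countnf1_I, Finset.mem_Icc]
  constructor
  · have : -n ≤ ⌊M⌋ := Int.le_floor.mpr (by push_cast; linarith [h1.1])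
    linarith
  · exact Int.le_floor.mpr h1.2

theorem countnf1_card {M : ℝ} (hM : 1 / 2 ≤ M) : ((countnf1_I M).card : ℝ) ≤ 4 * M := by
  have h := int_card_le (countnf1_I M) (-M) (2 * M) (by linarith) (by
    intro n hn
    rw [countnf1_I, Finset.mem_Icc] at hn
    have h1 : (⌊M⌋ : ℝ) ≤ M := Int.floor_le M
    have h2 : ((-⌊M⌋ : ℤ) : ℝ) ≤ n := by exact_mod_cast hn.1
    have h3 : (n : ℝ) ≤ (⌊M⌋ : ℝ) := by exact_mod_cast hn.2
    push_cast at h2
    constructor <;> linarith)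
  linarith

/-- counting points in a box -/
theorem countnf1_box (T : Finset Cub) {A B C D : ℝ} (hA : 1 / 2 ≤ A) (hB : 1 / 2 ≤ B)
    (hC : 1 / 2 ≤ C) (hD : 1 / 2 ≤ D)
    (h : ∀ f ∈ T, |(f.a : ℝ)| ≤ A ∧ |(f.b : ℝ)| ≤ B ∧ |(f.c : ℝ)| ≤ C ∧ |(f.d : ℝ)| ≤ D) :
    (T.card : ℝ) ≤ (4 * A) * ((4 * B) * ((4 * C) * (4 * D))) := by
  have hinj : Set.InjOn (fun f : Cub => (f.a, f.b, f.c, f.d)) (T : Set Cub) := by
    intro f _ g _ hfg
    simp only [Prod.mk.injEq] at hfg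
    ext
    · exact hfg.1
    · exact hfg.2.1
    · exact hfg.2.2.1
    · exact hfg.2.2.2
  have hsub : (T.image fun f : Cub => (f.a, f.b, f.c, f.d)) ⊆
      countnf1_I A ×ˢ countnf1_I B ×ˢ countnf1_I C ×ˢ countnf1_I D := by
    intro p hp
    obtain ⟨f, hf, rfl⟩ := Finset.mem_image.mp hp
    obtain ⟨h1, h2, h3, h4⟩ := h f hf
    simp only [Finset.mem_product]
    exact ⟨countnf1_mem h1, countnf1_mem h2, countnf1_mem h3, countnf1_mem h4⟩
  have hc := Finset.card_le_card hsub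
  rw [Finset.card_image_of_injOn hinj, Finset.card_product, Finset.card_product,
    Finset.card_product] at hc
  have hc' : (T.card : ℝ) ≤ (countnf1_I A).card * ((countnf1_I B).card *
      ((countnf1_I C).card * (countnf1_I D).card)) := by exact_mod_cast hc
  refine hc'.trans ?_
  have i1 := countnf1_card hA
  have i2 := countnf1_card hB
  have i3 := countnf1_card hC
  have i4 := countnf1_card hD
  gcongr

/-- the dyadic size of `p` -/
theorem countnf1_exists_k {p : ℝ} (hp : 1 / 2 < p) : ∃ k : ℕ, p < 2 ^ k ∧ (2 : ℝ) ^ k ≤ 2 * p := by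
  classical
  have hex : ∃ k : ℕ, p < 2 ^ k := pow_unbounded_of_one_lt p (by norm_num)
  refine ⟨Nat.find hex, Nat.find_spec hex, ?_⟩
  rcases Nat.eq_zero_or_pos (Nat.find hex) with h0 | h0
  · rw [h0, pow_zero]
    linarith
  · have h1 := Nat.find_min hex (m := Nat.find hex - 1) (by omega)
    push Not at h1
    have h2 : (2 : ℝ) ^ (Nat.find hex) = 2 * 2 ^ (Nat.find hex - 1) := by
      rw [← pow_succ']
      congr 1
      omega
    rw [h2]
    linarith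

/-- the box of a normal form of the first kind -/
def countnf1_InBox (E : ℝ) (k : ℕ) (f : Cub) : Prop :=
  |(f.a : ℝ)| ≤ 4 * 8 ^ k ∧ |(f.b : ℝ)| ≤ 8 * 2 ^ k * E ∧ |(f.c : ℝ)| ≤ 32 * E ^ 2 / 2 ^ k ∧
    |(f.d : ℝ)| ≤ 256 * E ^ 3 / 8 ^ k ∧ (4 : ℝ) ^ k ≤ 8 * E

theorem countnf1_inBox {Z E : ℝ} (hE : 1 ≤ E) (hEZ : E ^ 6 = Z) {f : Cub} (hf : Nor1 f)
    (hD : |(f.D : ℝ)| ≤ Z) : ∃ k : ℕ, countnf1_InBox E k f := by
  obtain ⟨ha, p, q, hp0, hpq, hpq6, h1, h2, h3, h4⟩ := hf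
  have hq0 : 0 < q := hp0.trans_le hpq
  have ha1 : 1 ≤ |(f.a : ℝ)| := by exact_mod_cast Int.one_le_abs ha
  have hp : 1 / 2 < p := by
    by_contra hcon
    push Not at hcon
    have : p ^ 3 ≤ (1 / 2) ^ 3 := by gcongr
    linarith
  have hE0 : 0 < E := by linarith
  have hpqE : p * q ≤ 2 * E := by
    have h5 : (p * q) ^ 6 ≤ (2 * E) ^ 6 := by
      calc (p * q) ^ 6 ≤ 64 * |(f.D : ℝ)| := hpq6
        _ ≤ 64 * Z := by gcongr
        _ = (2 * E) ^ 6 := by rw [← hEZ]; ring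
    exact (pow_le_pow_iff_left₀ (by positivity) (by positivity) (by norm_num)).mp h5
  obtain ⟨k, hk1, hk2⟩ := countnf1_exists_k hp
  have h2k : (0 : ℝ) < 2 ^ k := by positivity
  have h8k : (8 : ℝ) ^ k = (2 ^ k) ^ 3 := by rw [← pow_mul, mul_comm, pow_mul]; norm_num
  have h4k : (4 : ℝ) ^ k = (2 ^ k) ^ 2 := by rw [← pow_mul, mul_comm, pow_mul]; norm_num
  have hq : q * 2 ^ k ≤ 4 * E := by
    calc q * 2 ^ k ≤ q * (2 * p) := by gcongr
      _ = 2 * (p * q) := by ring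
      _ ≤ 2 * (2 * E) := by gcongr
      _ = 4 * E := by ring
  refine ⟨k, ?_, ?_, ?_, ?_, ?_⟩
  · rw [h8k]
    exact h1.trans (by gcongr)
  · calc |(f.b : ℝ)| ≤ 4 * p ^ 2 * q := h2
      _ = 4 * p * (p * q) := by ring
      _ ≤ 4 * 2 ^ k * (2 * E) := by gcongr
      _ = 8 * 2 ^ k * E := by ring
  · rw [le_div_iff₀ h2k]
    calc |(f.c : ℝ)| * 2 ^ k ≤ 4 * p * q ^ 2 * 2 ^ k := by gcongr
      _ = 4 * (p * q) * (q * 2 ^ k) := by ring
      _ ≤ 4 * (2 * E) * (4 * E) := by gcongr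
      _ = 32 * E ^ 2 := by ring
  · rw [h8k, le_div_iff₀ (by positivity)]
    calc |(f.d : ℝ)| * (2 ^ k) ^ 3 ≤ 4 * q ^ 3 * (2 ^ k) ^ 3 := by gcongr
      _ = 4 * (q * 2 ^ k) ^ 3 := by ring
      _ ≤ 4 * (4 * E) ^ 3 := by gcongr
      _ = 256 * E ^ 3 := by ring
  · rw [h4k]
    calc ((2 : ℝ) ^ k) ^ 2 ≤ (2 * p) ^ 2 := by gcongr
      _ = 4 * (p * p) := by ring
      _ ≤ 4 * (p * q) := by gcongr
      _ ≤ 4 * (2 * E) := by gcongr
      _ = 8 * E := by ring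

theorem countnf1_k_le {Z E : ℝ} (hE : 1 ≤ E) (hEZ : E ^ 6 = Z) {k : ℕ}
    (hk : (4 : ℝ) ^ k ≤ 8 * E) : (k : ℝ) ≤ 3 + Real.log Z := by
  have hE0 : 0 < E := by linarith
  have h1 : Real.log ((4 : ℝ) ^ k) ≤ Real.log (8 * E) := Real.log_le_log (by positivity) hk
  rw [Real.log_pow, Real.log_mul (by norm_num) hE0.ne'] at h1
  have h2 : Real.log Z = 6 * Real.log E := by rw [← hEZ, Real.log_pow]; norm_num
  have h3 : 0 ≤ Real.log E := Real.log_nonneg hE
  have h4 : (1 : ℝ) ≤ Real.log 4 := by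
    rw [Real.le_log_iff_exp_le (by norm_num)]
    have := Real.exp_one_lt_d9
    linarith
  have h5 : Real.log 8 ≤ 3 := by
    have : Real.log 8 = 3 * Real.log 2 := by
      rw [show (8 : ℝ) = 2 ^ 3 by norm_num, Real.log_pow]
      norm_num
    have h6 := Real.log_two_lt_d9
    linarith
  have h6 : (0 : ℝ) ≤ k := Nat.cast_nonneg k
  nlinarith

theorem countNF1 : CountNF1 := by
  classical
  refine ⟨4 * 67108864, by norm_num, fun Z hZ S hS => ?_⟩
  have hZ0 : 0 < Z := by linarith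
  set E : ℝ := Z ^ ((1 : ℝ) / 6) with hEdef
  have hE : 1 ≤ E := Real.one_le_rpow hZ (by norm_num)
  have hE0 : 0 < E := by linarith
  have hEZ : E ^ 6 = Z := by
    rw [hEdef, ← Real.rpow_natCast, ← Real.rpow_mul hZ0.le]
    norm_num
  have hlog : 0 ≤ Real.log Z := Real.log_nonneg hZ
  have hch : ∀ f : Cub, ∃ k : ℕ, f ∈ S → countnf1_InBox E k f := by
    intro f
    by_cases hf : f ∈ S
    · obtain ⟨k, hk⟩ := countnf1_inBox hE hEZ (hS f hf).1 (hS f hf).2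
      exact ⟨k, fun _ => hk⟩
    · exact ⟨0, fun h => absurd h hf⟩
  choose κ hκ using hch
  have h1 := card_le_mul_card_image_real S κ (67108864 * Z) (by
    intro k hk
    obtain ⟨g, hg, hgk⟩ := Finset.mem_image.mp hk
    have hgb := hκ g hg
    rw [hgk] at hgb
    have h4k := hgb.2.2.2.2
    have h2k1 : (1 : ℝ) ≤ 2 ^ k := one_le_pow₀ (by norm_num)
    have h8k1 : (1 : ℝ) ≤ 8 ^ k := one_le_pow₀ (by norm_num)
    have h24 : (2 : ℝ) ^ k ≤ 4 ^ k := by gcongr; norm_num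
    have h864 : (8 : ℝ) ^ k ≤ 512 * E ^ 3 := by
      calc (8 : ℝ) ^ k ≤ 64 ^ k := by gcongr; norm_num
        _ = ((4 : ℝ) ^ k) ^ 3 := by rw [← pow_mul, mul_comm, pow_mul]; norm_num
        _ ≤ (8 * E) ^ 3 := by gcongr
        _ = 512 * E ^ 3 := by ring
    have h5 := countnf1_box (S.filter fun f => κ f = k) (A := 4 * 8 ^ k) (B := 8 * 2 ^ k * E)
      (C := 32 * E ^ 2 / 2 ^ k) (D := 256 * E ^ 3 / 8 ^ k) (by linarith) (by nlinarith)
      (by
        rw [le_div_iff₀ (by positivity)]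
        nlinarith)
      (by
        rw [le_div_iff₀ (by positivity)]
        linarith)
      (by
        intro f hf
        obtain ⟨hfS, hfk⟩ := Finset.mem_filter.mp hf
        have := hκ f hfS
        rw [hfk] at this
        exact ⟨this.1, this.2.1, this.2.2.1, this.2.2.2.1⟩)
    refine h5.trans (le_of_eq ?_)
    rw [← hEZ]
    field_simp
    ring)
  have h2 : (S.image κ) ⊆ Finset.range (⌊3 + Real.log Z⌋₊ + 1) := by
    intro k hk
    obtain ⟨g, hg, hgk⟩ := Finset.mem_image.mp hk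
    have hgb := hκ g hg
    rw [hgk] at hgb
    have h3 := countnf1_k_le hE hEZ hgb.2.2.2.2
    rw [Finset.mem_range, Nat.lt_succ_iff]
    exact Nat.le_floor h3
  have h3 := Finset.card_le_card h2
  rw [Finset.card_range] at h3
  have h4 : (((S.image κ).card : ℕ) : ℝ) ≤ 4 * (1 + Real.log Z) := by
    have h5 : (((S.image κ).card : ℕ) : ℝ) ≤ (⌊3 + Real.log Z⌋₊ : ℝ) + 1 := by exact_mod_cast h3
    have h6 := Nat.floor_le (show 0 ≤ 3 + Real.log Z by linarith)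
    linarith
  calc (S.card : ℝ) ≤ 67108864 * Z * (S.image κ).card := h1
    _ ≤ 67108864 * Z * (4 * (1 + Real.log Z)) := by gcongr
    _ = 4 * 67108864 * Z * (1 + Real.log Z) := by ring

end MP_211f72_nt
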