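import Pool.Agent.Lib.MP_211f72_nt.Spec
import Pool.Agent.Lib.MP_211f72_nt.Basic

namespace MP_211f72_nt

open Finset

/-- the discriminant of a form of the second kind -/
theorem countnf2_D {f : Cub} (ha : f.a = 0) : f.D = f.b ^ 2 * (4 * f.b * f.d - 3 * f.c ^ 2) := by
  simp only [Cub.D, Cub.h0, Cub.h1, Cub.h2, ha]
  ring

theorem countnf2_sum_inv (N : ℕ) :
    ∑ n ∈ Icc 1 N, (1 : ℝ) / (n : ℝ) ^ 2 ≤ 2 - 2 / ((N : ℝ) + 1) := by
  induction N with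
  | zero => simp
  | succ N ih =>
    rw [Finset.sum_Icc_succ_top (by omega)]
    have h1 : (1 : ℝ) / ((N + 1 : ℕ) : ℝ) ^ 2 ≤ 2 / ((N : ℝ) + 1) - 2 / (((N + 1 : ℕ) : ℝ) + 1) := by
      push_cast
      have hN : (0 : ℝ) ≤ N := Nat.cast_nonneg N
      rw [div_sub_div _ _ (by positivity) (by positivity), div_le_div_iff₀ (by positivity)
        (by positivity)]
      nlinarith [mul_nonneg hN hN, mul_nonneg (mul_nonneg hN hN) hN]
    linarith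

theorem countnf2_sum_id (N : ℕ) : ∑ n ∈ Icc 1 N, (n : ℝ) ≤ (N : ℝ) ^ 2 := by
  induction N with
  | zero => simp
  | succ N ih =>
    rw [Finset.sum_Icc_succ_top (by omega)]
    push_cast
    have hN : (0 : ℝ) ≤ N := Nat.cast_nonneg N
    nlinarith

/-- forms with given `b` and `c` -/
theorem countnf2_fibre {Z : ℝ} (hZ : 1 ≤ Z) (S : Finset Cub)
    (hS : ∀ f ∈ S, Nor2 f ∧ f.D ≠ 0 ∧ |(f.D : ℝ)| ≤ Z) (n : ℕ) (hn : 1 ≤ n) (b c : ℤ)
    (hb : b.natAbs = n) (hbc : ∀ f ∈ S, f.b = b ∧ f.c = c) :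
    (S.card : ℝ) ≤ Z / (2 * (n : ℝ) ^ 3) + 1 := by
  have hinj : Set.InjOn (fun f : Cub => f.d) (S : Set Cub) := by
    intro f hf g hg hfg
    obtain ⟨⟨hfa, -⟩, -, -⟩ := hS f hf
    obtain ⟨⟨hga, -⟩, -, -⟩ := hS g hg
    obtain ⟨hfb, hfc⟩ := hbc f hf
    obtain ⟨hgb, hgc⟩ := hbc g hg
    ext
    · rw [hfa, hga]
    · rw [hfb, hgb]
    · rw [hfc, hgc]
    · exact hfg
  have hbabs : |(b : ℝ)| = n := by
    rw [← hb, Nat.cast_natAbs, Int.cast_abs]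
  have hn0 : (0 : ℝ) < n := by exact_mod_cast hn
  have hb0 : (b : ℝ) ≠ 0 := by
    intro h
    rw [h, abs_zero] at hbabs
    linarith
  have h := int_card_le (S.image fun f : Cub => f.d)
    (3 * (c : ℝ) ^ 2 / (4 * b) - Z / (4 * (n : ℝ) ^ 3)) (Z / (2 * (n : ℝ) ^ 3)) (by positivity) ?_
  · rwa [Finset.card_image_of_injOn hinj] at h
  · intro d hd
    obtain ⟨f, hf, rfl⟩ := Finset.mem_image.mp hd
    obtain ⟨⟨hfa, -⟩, -, hfZ⟩ := hS f hf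
    obtain ⟨hfb, hfc⟩ := hbc f hf
    rw [countnf2_D hfa, hfb, hfc] at hfZ
    push_cast at hfZ
    have h1 : |(f.d : ℝ) - 3 * (c : ℝ) ^ 2 / (4 * b)| ≤ Z / (4 * (n : ℝ) ^ 3) := by
      have e : (b : ℝ) ^ 2 * (4 * b * f.d - 3 * (c : ℝ) ^ 2) =
          4 * (b : ℝ) ^ 3 * (f.d - 3 * (c : ℝ) ^ 2 / (4 * b)) := by
        field_simp
      rw [e, abs_mul, abs_mul, abs_pow, hbabs, abs_of_pos (by norm_num : (0 : ℝ) < 4)] at hfZ
      rw [le_div_iff₀ (by positivity)]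
      linarith
    have h2 := abs_le.mp h1
    have h3 : Z / (2 * (n : ℝ) ^ 3) = 2 * (Z / (4 * (n : ℝ) ^ 3)) := by ring
    constructor
    · linarith [h2.1]
    · rw [h3]
      linarith [h2.2]

/-- forms with given `|b|` -/
theorem countnf2_block {Z : ℝ} (hZ : 1 ≤ Z) (S : Finset Cub)
    (hS : ∀ f ∈ S, Nor2 f ∧ f.D ≠ 0 ∧ |(f.D : ℝ)| ≤ Z) (n : ℕ) (hn : 1 ≤ n)
    (hbn : ∀ f ∈ S, f.b.natAbs = n) : (S.card : ℝ) ≤ 3 * Z * (1 / (n : ℝ) ^ 2) + 6 * n := by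
  classical
  have hn0 : (0 : ℝ) < n := by exact_mod_cast hn
  have hn1 : (1 : ℝ) ≤ n := by exact_mod_cast hn
  have h1 := card_le_mul_card_image_real S (fun f : Cub => (f.b, f.c)) (Z / (2 * (n : ℝ) ^ 3) + 1) (by
    intro p hp
    obtain ⟨g, hg, hgp⟩ := Finset.mem_image.mp hp
    apply countnf2_fibre hZ _ (fun f hf => hS f (Finset.mem_filter.mp hf).1) n hn p.1 p.2
    · rw [← hgp]
      exact hbn g hg
    · intro f hf
      have := (Finset.mem_filter.mp hf).2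
      rw [← this]
      exact ⟨rfl, rfl⟩)
  have h2 : (S.image fun f : Cub => (f.b, f.c)) ⊆
      ({(n : ℤ), -(n : ℤ)} : Finset ℤ) ×ˢ Finset.Icc (-(n : ℤ)) n := by
    intro p hp
    obtain ⟨f, hf, rfl⟩ := Finset.mem_image.mp hp
    obtain ⟨⟨-, hc⟩, -, -⟩ := hS f hf
    have hb := hbn f hf
    rw [Finset.mem_product]
    constructor
    · rw [Finset.mem_insert, Finset.mem_singleton]
      exact Int.natAbs_eq_iff.mp hb
    · rw [Finset.mem_Icc, ← abs_le]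
      have : |f.b| = n := by rw [← hb, Int.natCast_natAbs]
      rwa [this] at hc
  have h3 := Finset.card_le_card h2
  rw [Finset.card_product, Int.card_Icc] at h3
  have h4 : ({(n : ℤ), -(n : ℤ)} : Finset ℤ).card ≤ 2 := Finset.card_le_two
  have h5 : ((n : ℤ) + 1 - -(n : ℤ)).toNat = 2 * n + 1 := by omega
  rw [h5] at h3
  have h6 : (S.image fun f : Cub => (f.b, f.c)).card ≤ 2 * (2 * n + 1) :=
    h3.trans (Nat.mul_le_mul_right _ h4)
  have h7 : (((S.image fun f : Cub => (f.b, f.c)).card : ℕ) : ℝ) ≤ 6 * n := by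
    have : (((S.image fun f : Cub => (f.b, f.c)).card : ℕ) : ℝ) ≤ 2 * (2 * n + 1) := by
      exact_mod_cast h6
    linarith
  have h8 : 0 ≤ Z / (2 * (n : ℝ) ^ 3) + 1 := by positivity
  calc (S.card : ℝ) ≤ (Z / (2 * (n : ℝ) ^ 3) + 1) * (6 * n) :=
        h1.trans (mul_le_mul_of_nonneg_left h7 h8)
    _ = 3 * Z * (1 / (n : ℝ) ^ 2) + 6 * n := by field_simp; ring

theorem countNF2 : CountNF2 := by
  classical
  refine ⟨12, by norm_num, fun Z hZ S hS => ?_⟩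
  set N := ⌊√Z⌋₊ with hN
  have hmem : ∀ f ∈ S, f.b.natAbs ∈ Icc 1 N := by
    intro f hf
    obtain ⟨⟨ha, -⟩, hD, hfZ⟩ := hS f hf
    have hDe := countnf2_D ha
    have hb : f.b ≠ 0 := by
      intro h
      apply hD
      rw [hDe, h]
      ring
    have hk : 4 * f.b * f.d - 3 * f.c ^ 2 ≠ 0 := by
      intro h
      apply hD
      rw [hDe, h]
      ring
    rw [Finset.mem_Icc]
    refine ⟨Int.natAbs_pos.mpr hb, ?_⟩
    rw [hN]
    apply Nat.le_floor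
    apply Real.le_sqrt_of_sq_le
    have h1 : (1 : ℤ) ≤ |4 * f.b * f.d - 3 * f.c ^ 2| := Int.one_le_abs hk
    have h2 : f.b ^ 2 ≤ |f.D| := by
      rw [hDe, abs_mul, abs_of_nonneg (sq_nonneg f.b)]
      nlinarith [sq_nonneg f.b]
    have h3 : ((f.b : ℝ)) ^ 2 ≤ |(f.D : ℝ)| := by exact_mod_cast h2
    have h4 : ((f.b.natAbs : ℕ) : ℝ) ^ 2 = (f.b : ℝ) ^ 2 := by
      rw [Nat.cast_natAbs, Int.cast_abs, sq_abs]
    rw [h4]
    exact h3.trans hfZ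
  have h1 : S.card = ∑ n ∈ Icc 1 N, (S.filter fun f => f.b.natAbs = n).card :=
    Finset.card_eq_sum_card_fiberwise hmem
  have h2 : (S.card : ℝ) ≤ ∑ n ∈ Icc 1 N, (3 * Z * (1 / (n : ℝ) ^ 2) + 6 * n) := by
    rw [h1]
    push_cast
    apply Finset.sum_le_sum
    intro n hn
    apply countnf2_block hZ _ (fun f hf => hS f (Finset.mem_filter.mp hf).1) n
      (Finset.mem_Icc.mp hn).1 (fun f hf => (Finset.mem_filter.mp hf).2)
  have h3 : ∑ n ∈ Icc 1 N, (3 * Z * (1 / (n : ℝ) ^ 2) + 6 * n) =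
      3 * Z * (∑ n ∈ Icc 1 N, (1 : ℝ) / (n : ℝ) ^ 2) + 6 * ∑ n ∈ Icc 1 N, (n : ℝ) := by
    rw [Finset.sum_add_distrib, Finset.mul_sum, Finset.mul_sum]
  have h4 := countnf2_sum_inv N
  have h5 := countnf2_sum_id N
  have h6 : (0 : ℝ) ≤ 2 / ((N : ℝ) + 1) := by positivity
  have h7 : (N : ℝ) ^ 2 ≤ Z := by
    have h8 : (N : ℝ) ≤ √Z := Nat.floor_le (Real.sqrt_nonneg Z)
    calc (N : ℝ) ^ 2 ≤ (√Z) ^ 2 := by gcongr
      _ = Z := Real.sq_sqrt (by linarith)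
  have h9 : ∑ n ∈ Icc 1 N, (1 : ℝ) / (n : ℝ) ^ 2 ≤ 2 := by linarith
  have h10 : 3 * Z * (∑ n ∈ Icc 1 N, (1 : ℝ) / (n : ℝ) ^ 2) ≤ 3 * Z * 2 := by gcongr
  rw [h3] at h2
  linarith

end MP_211f72_nt
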