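import Pool.Agent.Lib.MP_211f72_nt.Spec
import Pool.Agent.Lib.MP_211f72_nt.Basic

/-!
# MP_211f72_nt: primitive vectors with given size of the form and small Hessian
-/

namespace MP_211f72_nt

/-- two values of the dominant linear form have comparable sizes -/
lemma countVec_ratio {x x' y y' b X : ℝ} (hb : 0 ≤ b)
    (hx : |x * x'| ≤ b) (hy : |y * y'| ≤ b) (hx2 : 4 * b < x ^ 2)
    (hy2 : 4 * b < y ^ 2) (hFx : |x ^ 3 + x' ^ 3| ≤ 2 * X) (hFy : X ≤ |y ^ 3 + y' ^ 3|) :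
    |x| ≤ 2 * |y| := by
  have small : ∀ {x x' : ℝ}, |x * x'| ≤ b → 4 * b < x ^ 2 → |x'| ^ 3 ≤ |x| ^ 3 / 64 := by
    intro x x' hx hx2
    rw [← sq_abs x] at hx2
    rw [abs_mul] at hx
    have hx0 : 0 < |x| := by
      rcases (abs_nonneg x).lt_or_eq with h | h
      · exact h
      · rw [← h] at hx2
        nlinarith
    have h1 : |x'| ≤ |x| / 4 := by
      by_contra h
      rw [not_le] at h
      have : |x| * (|x| / 4) < |x| * |x'| := mul_lt_mul_of_pos_left h hx0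
      nlinarith
    calc |x'| ^ 3 ≤ (|x| / 4) ^ 3 := pow_le_pow_left₀ (abs_nonneg _) h1 3
      _ = |x| ^ 3 / 64 := by ring
  have h1 := small hx hx2
  have h2 := small hy hy2
  have h3 : |x| ^ 3 - |x'| ^ 3 ≤ |x ^ 3 + x' ^ 3| := by
    have h := abs_sub_abs_le_abs_sub (x ^ 3) (-(x' ^ 3))
    rw [abs_neg, abs_pow, abs_pow, sub_neg_eq_add] at h
    exact h
  have h4 : |y ^ 3 + y' ^ 3| ≤ |y| ^ 3 + |y'| ^ 3 := by
    have h := abs_add_le (y ^ 3) (y' ^ 3)
    rwa [abs_pow, abs_pow] at h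
  have h5 : |x| ^ 3 ≤ (2 * |y|) ^ 3 := by
    have e : (2 * |y|) ^ 3 = 8 * |y| ^ 3 := by ring
    rw [e]
    have := pow_nonneg (abs_nonneg y) 3
    linarith
  exact (pow_le_pow_iff_left₀ (abs_nonneg _) (by positivity) (by norm_num)).mp h5

/-- the determinant in the dominant case -/
lemma countVec_dom {x x' y y' b X : ℝ} (hb : 0 ≤ b)
    (hx : |x * x'| ≤ b) (hy : |y * y'| ≤ b) (hx2 : 4 * b < x ^ 2)
    (hy2 : 4 * b < y ^ 2) (hFx : X ≤ |x ^ 3 + x' ^ 3| ∧ |x ^ 3 + x' ^ 3| ≤ 2 * X)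
    (hFy : X ≤ |y ^ 3 + y' ^ 3| ∧ |y ^ 3 + y' ^ 3| ≤ 2 * X) :
    |x * y' - x' * y| ≤ 8 * b := by
  have h1 := countVec_ratio hb hx hy hx2 hy2 hFx.2 hFy.1
  have h2 := countVec_ratio hb hy hx hy2 hx2 hFy.2 hFx.1
  have h3 : |x * y'| ≤ 2 * b := by
    rw [abs_mul]
    calc |x| * |y'| ≤ 2 * |y| * |y'| := mul_le_mul_of_nonneg_right h1 (abs_nonneg _)
      _ = 2 * |y * y'| := by rw [abs_mul]; ring
      _ ≤ 2 * b := by linarith
  have h4 : |x' * y| ≤ 2 * b := by
    rw [abs_mul]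
    calc |x'| * |y| ≤ |x'| * (2 * |x|) := mul_le_mul_of_nonneg_left h2 (abs_nonneg _)
      _ = 2 * |x * x'| := by rw [abs_mul]; ring
      _ ≤ 2 * b := by linarith
  have h5 := abs_sub (x * y') (x' * y)
  linarith

/-- the determinant if both linear forms are small -/
lemma countVec_small {x x' y y' b : ℝ} (h1 : x ^ 2 ≤ 4 * b) (h2 : x' ^ 2 ≤ 4 * b)
    (h3 : y ^ 2 ≤ 4 * b) (h4 : y' ^ 2 ≤ 4 * b) : |x * y' - x' * y| ≤ 8 * b := by
  rw [abs_le]
  constructor <;> nlinarith [sq_nonneg (x - y'), sq_nonneg (x + y'), sq_nonneg (x' - y),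
    sq_nonneg (x' + y)]

theorem countVec (h1 : Split) (h2 : Lattice) : CountVec := by
  classical
  refine ⟨144, by norm_num, fun f hD X B hX hB S hS => ?_⟩
  have hD0 : 0 < |(f.D : ℝ)| := abs_pos.mpr (Int.cast_ne_zero.mpr hD)
  have hsD : 0 < √|(f.D : ℝ)| := Real.sqrt_pos.mpr hD0
  have hBs : 0 ≤ B / √|(f.D : ℝ)| := by positivity
  rcases lt_or_gt_of_ne hD with hneg | hpos
  · -- negative discriminant
    have key := h2 S (2 * B / √|(f.D : ℝ)|) (by positivity) (fun v hv => (hS v hv).1) (by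
      intro v hv w hw
      rw [le_div_iff₀ hsD]
      have e := f.four_H_mul_H v w
      have e' : 4 * ((f.H v : ℝ) * f.H w) =
          (f.polar v w : ℝ) ^ 2 - f.D * (det v w : ℝ) ^ 2 := by exact_mod_cast e
      have hv4 := (hS v hv).2.2.2
      have hw4 := (hS w hw).2.2.2
      have h3 : (f.H v : ℝ) * f.H w ≤ B * B := by
        calc (f.H v : ℝ) * f.H w ≤ |(f.H v : ℝ) * f.H w| := le_abs_self _
          _ = |(f.H v : ℝ)| * |(f.H w : ℝ)| := abs_mul _ _
          _ ≤ B * B := mul_le_mul hv4 hw4 (abs_nonneg _) hB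
      have h4 : √|(f.D : ℝ)| ^ 2 = -(f.D : ℝ) := by
        rw [Real.sq_sqrt (abs_nonneg _), abs_of_neg (by exact_mod_cast hneg)]
      have h5 : (|(det v w : ℝ)| * √|(f.D : ℝ)|) ^ 2 ≤ (2 * B) ^ 2 := by
        rw [mul_pow, h4, sq_abs]
        nlinarith [sq_nonneg (f.polar v w : ℝ)]
      exact (pow_le_pow_iff_left₀ (by positivity) (by positivity) (by norm_num)).mp h5)
    refine key.trans ?_
    have e : 2 * B / √|(f.D : ℝ)| = 2 * (B / √|(f.D : ℝ)|) := by ring
    rw [e]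
    linarith
  · -- positive discriminant
    obtain ⟨α, β, α', β', ha, hb, hc, hd, hDD, hh0, hh1, hh2⟩ := h1 f hpos
    set Δ := α * β' - α' * β with hΔ
    have hDpos : (0 : ℝ) < f.D := by exact_mod_cast hpos
    have hΔ0 : Δ ≠ 0 := by
      intro h0
      rw [h0] at hDD
      norm_num at hDD
      exact hD (by exact_mod_cast hDD)
    have hΔabs : 0 < |Δ| := abs_pos.mpr hΔ0
    have hΔ2 : 0 < Δ ^ 2 := by positivity
    have hsqrt : √|(f.D : ℝ)| = |Δ| ^ 3 := by
      rw [abs_of_pos hDpos, hDD]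
      have : Δ ^ 6 = (|Δ| ^ 3) ^ 2 := by
        calc Δ ^ 6 = (Δ ^ 2) ^ 3 := by ring
          _ = (|Δ| ^ 2) ^ 3 := by rw [sq_abs]
          _ = _ := by ring
      rw [this, Real.sqrt_sq (by positivity)]
    set b := B / Δ ^ 2 with hbdef
    have hb0 : 0 ≤ b := by positivity
    let P : ℤ × ℤ → ℝ := fun v => α * v.1 + β * v.2
    let P' : ℤ × ℤ → ℝ := fun v => α' * v.1 + β' * v.2
    have hF : ∀ v : ℤ × ℤ, (f.F v : ℝ) = P v ^ 3 + P' v ^ 3 := by
      intro v
      have e : (f.F v : ℝ) = (f.a : ℝ) * (v.1 * v.1 * v.1) +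
          f.b * (3 * (v.1 * v.1 * v.2)) + f.c * (3 * (v.1 * v.2 * v.2)) +
          f.d * (v.2 * v.2 * v.2) := by
        simp only [Cub.F, Cub.tri]
        push_cast
        ring
      rw [e, ha, hb, hc, hd]
      simp only [P, P']
      ring
    have hH : ∀ v : ℤ × ℤ, (f.H v : ℝ) = Δ ^ 2 * (P v * P' v) := by
      intro v
      have e : (f.H v : ℝ) = (f.h0 : ℝ) * v.1 ^ 2 + f.h1 * (v.1 * v.2) + f.h2 * v.2 ^ 2 := by
        simp only [Cub.H]
        push_cast
        ring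
      rw [e, hh0, hh1, hh2]
      simp only [P, P']
      ring
    have hdet : ∀ v w : ℤ × ℤ, P v * P' w - P' v * P w = Δ * (det v w : ℝ) := by
      intro v w
      simp only [P, P', det, hΔ]
      push_cast
      ring
    have hPP : ∀ v ∈ S, |P v * P' v| ≤ b := by
      intro v hv
      have h3 := (hS v hv).2.2.2
      rw [hH, abs_mul, abs_of_pos hΔ2] at h3
      rw [hbdef, le_div_iff₀ hΔ2]
      linarith
    have hFv : ∀ v ∈ S, X ≤ |P v ^ 3 + P' v ^ 3| ∧ |P v ^ 3 + P' v ^ 3| ≤ 2 * X := by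
      intro v hv
      rw [← hF]
      exact ⟨(hS v hv).2.1, (hS v hv).2.2.1⟩
    have hK : 8 * b / |Δ| = 8 * (B / √|(f.D : ℝ)|) := by
      rw [hsqrt, hbdef, ← sq_abs Δ]
      field_simp
    -- the three parts
    have part : ∀ T : Finset (ℤ × ℤ), T ⊆ S →
        (∀ v ∈ T, ∀ w ∈ T, |P v * P' w - P' v * P w| ≤ 8 * b) →
        (T.card : ℝ) ≤ 3 * (2 * (8 * (B / √|(f.D : ℝ)|)) + 1) := by
      intro T hTS hT
      refine h2 T _ (by positivity) (fun v hv => (hS v (hTS hv)).1) ?_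
      intro v hv w hw
      rw [← hK, le_div_iff₀ hΔabs]
      have h3 := hT v hv w hw
      rw [hdet, abs_mul] at h3
      linarith
    set S1 := S.filter (fun v => P v ^ 2 ≤ 4 * b ∧ P' v ^ 2 ≤ 4 * b) with hS1
    set S2 := S.filter (fun v => 4 * b < P v ^ 2) with hS2
    set S3 := S.filter (fun v => 4 * b < P' v ^ 2) with hS3
    have c1 : (S1.card : ℝ) ≤ 3 * (2 * (8 * (B / √|(f.D : ℝ)|)) + 1) := by
      refine part S1 (Finset.filter_subset _ _) fun v hv w hw => ?_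
      have hv2 := (Finset.mem_filter.mp hv).2
      have hw2 := (Finset.mem_filter.mp hw).2
      exact countVec_small hv2.1 hv2.2 hw2.1 hw2.2
    have c2 : (S2.card : ℝ) ≤ 3 * (2 * (8 * (B / √|(f.D : ℝ)|)) + 1) := by
      refine part S2 (Finset.filter_subset _ _) fun v hv w hw => ?_
      have hv2 := Finset.mem_filter.mp hv
      have hw2 := Finset.mem_filter.mp hw
      exact countVec_dom hb0 (hPP v hv2.1) (hPP w hw2.1) hv2.2 hw2.2 (hFv v hv2.1) (hFv w hw2.1)
    have c3 : (S3.card : ℝ) ≤ 3 * (2 * (8 * (B / √|(f.D : ℝ)|)) + 1) := by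
      refine part S3 (Finset.filter_subset _ _) fun v hv w hw => ?_
      have hv2 := Finset.mem_filter.mp hv
      have hw2 := Finset.mem_filter.mp hw
      have h3 := countVec_dom (x := P' v) (x' := P v) (y := P' w) (y' := P w) (X := X) hb0
        (by rw [mul_comm]; exact hPP v hv2.1) (by rw [mul_comm]; exact hPP w hw2.1) hv2.2 hw2.2
        (by rw [add_comm]; exact hFv v hv2.1) (by rw [add_comm]; exact hFv w hw2.1)
      rw [abs_sub_comm]
      exact h3
    have hcov : S ⊆ S1 ∪ (S2 ∪ S3) := by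
      intro v hv
      by_cases ha1 : P v ^ 2 ≤ 4 * b
      · by_cases ha2 : P' v ^ 2 ≤ 4 * b
        · exact Finset.mem_union_left _ (Finset.mem_filter.mpr ⟨hv, ha1, ha2⟩)
        · exact Finset.mem_union_right _ (Finset.mem_union_right _
            (Finset.mem_filter.mpr ⟨hv, not_le.mp ha2⟩))
      · exact Finset.mem_union_right _ (Finset.mem_union_left _
          (Finset.mem_filter.mpr ⟨hv, not_le.mp ha1⟩))
    have hcard : S.card ≤ S1.card + (S2.card + S3.card) :=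
      (Finset.card_le_card hcov).trans ((Finset.card_union_le _ _).trans
        (Nat.add_le_add_left (Finset.card_union_le _ _) _))
    have hcard' : (S.card : ℝ) ≤ S1.card + (S2.card + S3.card) := by exact_mod_cast hcard
    linarith

end MP_211f72_nt
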