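import Pool.Agent.Lib.MP_211f72_nt.Spec
import Pool.Agent.Lib.MP_211f72_nt.Basic

/-!
# MP_211f72_nt: cover by the points with `H = 0`
-/

namespace MP_211f72_nt

open Finset

/-- the index set of the cover -/
noncomputable def cover0Idx (R : ℝ) (k : ℕ) : Finset (ℤ × ℤ) :=
  Finset.Icc (1 : ℤ) ⌊((2 : ℝ) ^ ((1 : ℝ) / 3)) ^ (k + 1)⌋ ×ˢ
    Finset.Icc (-⌊(R + 1) * ((2 : ℝ) ^ ((1 : ℝ) / 3)) ^ (k + 1)⌋)
      ⌊(R + 1) * ((2 : ℝ) ^ ((1 : ℝ) / 3)) ^ (k + 1)⌋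

/-- the cover -/
noncomputable def cover0T (lam R : ℝ) (k : ℕ) : Finset (ℝ × ℝ) := by
  classical
  exact (cover0Idx R k).image fun p => ((p.2 : ℝ) / p.1, ((2 : ℝ) ^ k) ^ (-(1 + lam)))

lemma cover0_q_cube : ((2 : ℝ) ^ ((1 : ℝ) / 3)) ^ 3 = 2 := by
  rw [← Real.rpow_natCast, ← Real.rpow_mul (by norm_num)]
  norm_num

lemma cover0_q_pos : 0 < (2 : ℝ) ^ ((1 : ℝ) / 3) := Real.rpow_pos_of_pos (by norm_num) _

lemma cover0_one_le_q : 1 ≤ (2 : ℝ) ^ ((1 : ℝ) / 3) :=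
  Real.one_le_rpow (by norm_num) (by norm_num)

lemma cover0_card (R : ℝ) (hR : 1 ≤ R) (k : ℕ) :
    ((cover0Idx R k).card : ℝ) ≤
      (2 * R + 3) * ((2 : ℝ) ^ ((1 : ℝ) / 3)) ^ 2 * (((2 : ℝ) ^ ((1 : ℝ) / 3)) ^ 2) ^ k := by
  set q := (2 : ℝ) ^ ((1 : ℝ) / 3) with hq
  have hq1 : 1 ≤ q := cover0_one_le_q
  have hQ : 1 ≤ q ^ (k + 1) := one_le_pow₀ hq1
  unfold cover0Idx
  rw [← hq, Finset.card_product, Int.card_Icc, Int.card_Icc]
  have h1 : 0 ≤ ⌊q ^ (k + 1)⌋ := Int.floor_nonneg.mpr (by linarith)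
  have h2 : 0 ≤ ⌊(R + 1) * q ^ (k + 1)⌋ := Int.floor_nonneg.mpr (by positivity)
  push_cast
  have e1 : (((⌊q ^ (k + 1)⌋ + 1 - 1).toNat : ℕ) : ℝ) ≤ q ^ (k + 1) := by
    have : (((⌊q ^ (k + 1)⌋ + 1 - 1).toNat : ℕ) : ℤ) = ⌊q ^ (k + 1)⌋ := by omega
    have h3 : (((⌊q ^ (k + 1)⌋ + 1 - 1).toNat : ℕ) : ℝ) = (⌊q ^ (k + 1)⌋ : ℝ) := by
      exact_mod_cast this
    rw [h3]
    exact Int.floor_le _
  have e2 : (((⌊(R + 1) * q ^ (k + 1)⌋ + 1 - -⌊(R + 1) * q ^ (k + 1)⌋).toNat : ℕ) : ℝ) ≤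
      2 * ((R + 1) * q ^ (k + 1)) + 1 := by
    have : (((⌊(R + 1) * q ^ (k + 1)⌋ + 1 - -⌊(R + 1) * q ^ (k + 1)⌋).toNat : ℕ) : ℤ) =
      2 * ⌊(R + 1) * q ^ (k + 1)⌋ + 1 := by omega
    have h3 : (((⌊(R + 1) * q ^ (k + 1)⌋ + 1 - -⌊(R + 1) * q ^ (k + 1)⌋).toNat : ℕ) : ℝ) =
      2 * (⌊(R + 1) * q ^ (k + 1)⌋ : ℝ) + 1 := by
      exact_mod_cast this
    rw [h3]
    have := Int.floor_le ((R + 1) * q ^ (k + 1))
    linarith
  calc (((⌊q ^ (k + 1)⌋ + 1 - 1).toNat : ℕ) : ℝ) *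
        (((⌊(R + 1) * q ^ (k + 1)⌋ + 1 - -⌊(R + 1) * q ^ (k + 1)⌋).toNat : ℕ) : ℝ)
      ≤ q ^ (k + 1) * (2 * ((R + 1) * q ^ (k + 1)) + 1) :=
        mul_le_mul e1 e2 (by positivity) (by positivity)
    _ ≤ q ^ (k + 1) * (2 * ((R + 1) * q ^ (k + 1)) + q ^ (k + 1)) := by gcongr
    _ = (2 * R + 3) * q ^ 2 * (q ^ 2) ^ k := by ring

theorem cover0 (h : Deg) : Cover0 := by
  classical
  intro lam s R hlam hs hs1 hlt hR
  set q := (2 : ℝ) ^ ((1 : ℝ) / 3) with hq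
  refine ⟨cover0T lam R, ?_, ?_, ?_⟩
  · intro k p hp
    unfold cover0T at hp
    rw [Finset.mem_image] at hp
    obtain ⟨i, _, rfl⟩ := hp
    positivity
  · -- summability
    have hratio : q ^ 2 * (2 : ℝ) ^ (-(1 + lam) * s) < 1 := by
      have e1 : q ^ 2 = (2 : ℝ) ^ ((2 : ℝ) / 3) := by
        rw [hq, ← Real.rpow_natCast, ← Real.rpow_mul (by norm_num)]
        norm_num
      rw [e1, ← Real.rpow_add (by norm_num)]
      apply Real.rpow_lt_one_of_one_lt_of_neg (by norm_num)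
      rw [div_lt_iff₀ (by positivity)] at hlt
      nlinarith
    have hr0 : 0 ≤ q ^ 2 * (2 : ℝ) ^ (-(1 + lam) * s) := by positivity
    have hsum := (summable_geometric_of_lt_one hr0 hratio).mul_left ((2 * R + 3) * q ^ 2)
    refine Summable.of_nonneg_of_le ?_ ?_ hsum
    · intro k
      apply Finset.sum_nonneg
      intro p hp
      unfold cover0T at hp
      rw [Finset.mem_image] at hp
      obtain ⟨i, _, rfl⟩ := hp
      positivity
    · intro k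
      have hρ : ∀ p ∈ cover0T lam R k, p.2 ^ s = ((2 : ℝ) ^ (-(1 + lam) * s)) ^ k := by
        intro p hp
        unfold cover0T at hp
        rw [Finset.mem_image] at hp
        obtain ⟨i, _, rfl⟩ := hp
        simp only
        rw [← Real.rpow_mul (by positivity), ← Real.rpow_natCast, ← Real.rpow_natCast,
          ← Real.rpow_mul (by norm_num), ← Real.rpow_mul (by norm_num)]
        congr 1
        ring
      rw [Finset.sum_congr rfl hρ, Finset.sum_const, nsmul_eq_mul]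
      have hcard : ((cover0T lam R k).card : ℝ) ≤ (2 * R + 3) * q ^ 2 * (q ^ 2) ^ k := by
        refine le_trans ?_ (cover0_card R hR k)
        unfold cover0T
        exact_mod_cast Finset.card_image_le
      calc ((cover0T lam R k).card : ℝ) * ((2 : ℝ) ^ (-(1 + lam) * s)) ^ k
          ≤ ((2 * R + 3) * q ^ 2 * (q ^ 2) ^ k) * ((2 : ℝ) ^ (-(1 + lam) * s)) ^ k := by gcongr
        _ = (2 * R + 3) * q ^ 2 * (q ^ 2 * (2 : ℝ) ^ (-(1 + lam) * s)) ^ k := by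
            rw [mul_pow]; ring
  · intro k ξ x hξ hxa hxa2 hP hN
    obtain ⟨⟨hh0, hh1, hh2⟩, _⟩ := hP
    obtain ⟨κ, m, n, hmn, hm0, ha, hb, _, _⟩ := h.2 x hh0 hh1 hh2
    have h2k : (1 : ℝ) ≤ 2 ^ k := one_le_pow₀ (by norm_num)
    have hapos : 0 < |(x.a : ℝ)| := by linarith
    have ha0 : x.a ≠ 0 := by
      intro h0
      rw [h0] at hapos
      simp at hapos
    have hκ : κ ≠ 0 := by
      intro h0
      apply ha0
      rw [ha, h0, zero_mul]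
    have hm : m ≠ 0 := by
      intro h0
      apply ha0
      rw [ha, h0]
      ring
    have hm1 : 1 ≤ m := by omega
    have hmR : (1 : ℝ) ≤ (m : ℝ) := by exact_mod_cast hm1
    have hκ1 : (1 : ℝ) ≤ |(κ : ℝ)| := by
      have : 1 ≤ |κ| := Int.one_le_abs hκ
      exact_mod_cast this
    have haR : (x.a : ℝ) = κ * (m : ℝ) ^ 3 := by rw [ha]; push_cast; ring
    have hbR : (x.b : ℝ) = κ * (m : ℝ) ^ 2 * n := by rw [hb]; push_cast; ring
    have haabs : |(x.a : ℝ)| = |(κ : ℝ)| * (m : ℝ) ^ 3 := by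
      rw [haR, abs_mul, abs_of_pos (by positivity : (0 : ℝ) < (m : ℝ) ^ 3)]
    have hm3 : (m : ℝ) ^ 3 ≤ |(x.a : ℝ)| := by
      rw [haabs]
      nlinarith [show (0 : ℝ) < (m : ℝ) ^ 3 by positivity]
    have hq3 : (q ^ (k + 1)) ^ 3 = 2 ^ (k + 1) := by
      rw [← pow_mul, mul_comm, pow_mul, hq, cover0_q_cube]
    have hqpos : 0 < q := cover0_q_pos
    have hmq : (m : ℝ) < q ^ (k + 1) := by
      apply lt_of_pow_lt_pow_left₀ 3 (by positivity)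
      rw [hq3]
      linarith
    have hδ : ((2 : ℝ) ^ k) ^ (-lam) ≤ 1 :=
      Real.rpow_le_one_of_one_le_of_nonpos h2k (by linarith)
    have hN1 := hN.1
    have hnm : (x.b : ℝ) = x.a * (n / m) := by
      rw [haR, hbR]
      field_simp
    have hdiff : |(x.a : ℝ)| * |ξ - n / m| ≤ ((2 : ℝ) ^ k) ^ (-lam) := by
      rw [← abs_mul]
      have : (x.a : ℝ) * (ξ - n / m) = x.a * ξ - x.b := by rw [hnm]; ring
      rw [this]
      exact hN1
    have hdist : |ξ - n / m| ≤ ((2 : ℝ) ^ k) ^ (-(1 + lam)) := by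
      have e : ((2 : ℝ) ^ k) ^ (-(1 + lam)) = ((2 : ℝ) ^ k) ^ (-lam) / 2 ^ k := by
        rw [show -(1 + lam) = -lam - 1 by ring, Real.rpow_sub (by positivity), Real.rpow_one]
      rw [e, le_div_iff₀ (by positivity)]
      calc |ξ - n / m| * 2 ^ k ≤ |ξ - n / m| * |(x.a : ℝ)| := by gcongr
        _ = |(x.a : ℝ)| * |ξ - n / m| := by ring
        _ ≤ _ := hdiff
    have hnm1 : |(n : ℝ) / m| ≤ R + 1 := by
      have h1 : |ξ - n / m| ≤ 1 :=
        hdist.trans (Real.rpow_le_one_of_one_le_of_nonpos h2k (by linarith))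
      have h2 : (n : ℝ) / m = ξ - (ξ - n / m) := by ring
      rw [h2]
      calc |ξ - (ξ - n / m)| ≤ |ξ| + |ξ - n / m| := abs_sub _ _
        _ ≤ R + 1 := by linarith
    have hnabs : |(n : ℝ)| ≤ (R + 1) * q ^ (k + 1) := by
      rw [abs_div, abs_of_pos (by linarith : (0 : ℝ) < m), div_le_iff₀ (by linarith)] at hnm1
      calc |(n : ℝ)| ≤ (R + 1) * m := hnm1
        _ ≤ (R + 1) * q ^ (k + 1) := by gcongr
    refine ⟨((n : ℝ) / m, ((2 : ℝ) ^ k) ^ (-(1 + lam))), ?_, hdist⟩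
    unfold cover0T
    rw [Finset.mem_image]
    refine ⟨(m, n), ?_, rfl⟩
    unfold cover0Idx
    rw [Finset.mem_product, Finset.mem_Icc, Finset.mem_Icc]
    refine ⟨⟨hm1, Int.le_floor.mpr hmq.le⟩, ?_, ?_⟩
    · rw [neg_le, Int.le_floor]
      push_cast
      rw [abs_le] at hnabs
      linarith [hnabs.1]
    · rw [Int.le_floor]
      exact (abs_le.mp hnabs).2

end MP_211f72_nt
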