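import Pool.Agent.Lib.MP_211f72_nt.Spec
import Pool.Agent.Lib.MP_211f72_nt.Basic

/-!
# MP_211f72_nt: the cover by the points with nonzero discriminant
-/

namespace MP_211f72_nt

namespace CoverDAux

/-- bounds for the coordinates `y` -/
lemma y_bounds (x : Cub) (ξ δ R : ℝ) (hR : 1 ≤ R) (hξ : |ξ| ≤ R) (hδ : 0 ≤ δ) (h : Near x ξ δ) :
    |x.y1 ξ| ≤ 3 * (1 + R) ^ 2 * δ ∧ |x.y2 ξ| ≤ 3 * (1 + R) ^ 2 * δ ∧
      |x.y3 ξ| ≤ 3 * (1 + R) ^ 2 * δ := by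
  obtain ⟨h1, h2, h3⟩ := h
  set e1 := (x.a : ℝ) * ξ - x.b with he1
  set e2 := (x.a : ℝ) * ξ ^ 2 - x.c with he2
  set e3 := (x.a : ℝ) * ξ ^ 3 - x.d with he3
  have k1 : x.y1 ξ = -e1 := by simp only [Cub.y1, he1]; ring
  have k2 : x.y2 ξ = -e2 + 2 * ξ * e1 := by simp only [Cub.y2, he1, he2]; ring
  have k3 : x.y3 ξ = -e3 + 3 * ξ * e2 - 3 * ξ ^ 2 * e1 := by
    simp only [Cub.y3, he1, he2, he3]; ring
  have hx2 : |ξ ^ 2| ≤ R ^ 2 := by
    rw [abs_pow]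
    exact pow_le_pow_left₀ (abs_nonneg _) hξ 2
  have m1 : |ξ * e1| ≤ R * δ := by
    rw [abs_mul]; exact mul_le_mul hξ h1 (abs_nonneg _) (by linarith)
  have m2 : |ξ * e2| ≤ R * δ := by
    rw [abs_mul]; exact mul_le_mul hξ h2 (abs_nonneg _) (by linarith)
  have m3 : |ξ ^ 2 * e1| ≤ R ^ 2 * δ := by
    rw [abs_mul]; exact mul_le_mul hx2 h1 (abs_nonneg _) (by positivity)
  have hRd : 0 ≤ R * δ := by positivity
  have hRRd : 0 ≤ R ^ 2 * δ := by positivity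
  rw [abs_le] at h1 h2 h3 m1 m2 m3
  refine ⟨?_, ?_, ?_⟩
  · rw [k1, abs_le]
    constructor <;> nlinarith
  · rw [k2, abs_le]
    constructor <;> nlinarith
  · rw [k3, abs_le]
    constructor <;> nlinarith

/-- bounds for the covariants -/
lemma cov_bounds (x : Cub) (ξ δ Q c : ℝ) (hQ : 1 ≤ Q) (hδ : 0 ≤ δ) (hδ1 : δ ≤ 1) (hc : 1 ≤ c)
    (ha : |(x.a : ℝ)| ≤ 2 * Q) (h1 : |x.y1 ξ| ≤ c * δ) (h2 : |x.y2 ξ| ≤ c * δ)
    (h3 : |x.y3 ξ| ≤ c * δ) :
    |(x.h0 : ℝ)| ≤ 3 * c ^ 2 * (Q * δ) ∧ |(x.D : ℝ)| ≤ 33 * c ^ 4 * (Q * δ) ^ 2 := by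
  set y1 := x.y1 ξ
  set y2 := x.y2 ξ
  set y3 := x.y3 ξ
  have hcd : 0 ≤ c * δ := by positivity
  have hdd : δ * δ ≤ Q * δ := mul_le_mul_of_nonneg_right (hδ1.trans hQ) hδ
  have p12 : |y1 * y2| ≤ c ^ 2 * (Q * δ) := by
    rw [abs_mul]
    calc |y1| * |y2| ≤ (c * δ) * (c * δ) := mul_le_mul h1 h2 (abs_nonneg _) hcd
      _ = c ^ 2 * (δ * δ) := by ring
      _ ≤ c ^ 2 * (Q * δ) := by gcongr
  have p13 : |y1 * y3| ≤ c ^ 2 * (Q * δ) := by
    rw [abs_mul]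
    calc |y1| * |y3| ≤ (c * δ) * (c * δ) := mul_le_mul h1 h3 (abs_nonneg _) hcd
      _ = c ^ 2 * (δ * δ) := by ring
      _ ≤ c ^ 2 * (Q * δ) := by gcongr
  have p11 : |y1 ^ 2| ≤ c ^ 2 * (Q * δ) := by
    rw [sq, abs_mul]
    calc |y1| * |y1| ≤ (c * δ) * (c * δ) := mul_le_mul h1 h1 (abs_nonneg _) hcd
      _ = c ^ 2 * (δ * δ) := by ring
      _ ≤ c ^ 2 * (Q * δ) := by gcongr
  have p22 : |y2 ^ 2| ≤ c ^ 2 * (Q * δ) := by
    rw [sq, abs_mul]
    calc |y2| * |y2| ≤ (c * δ) * (c * δ) := mul_le_mul h2 h2 (abs_nonneg _) hcd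
      _ = c ^ 2 * (δ * δ) := by ring
      _ ≤ c ^ 2 * (Q * δ) := by gcongr
  have hcc : c ≤ c ^ 2 := by nlinarith
  have hQd : 0 ≤ Q * δ := by positivity
  have pa2 : |(x.a : ℝ) * y2| ≤ 2 * c ^ 2 * (Q * δ) := by
    rw [abs_mul]
    calc |(x.a : ℝ)| * |y2| ≤ (2 * Q) * (c * δ) := mul_le_mul ha h2 (abs_nonneg _) (by positivity)
      _ = 2 * c * (Q * δ) := by ring
      _ ≤ 2 * c ^ 2 * (Q * δ) := by gcongr
  have pa3 : |(x.a : ℝ) * y3| ≤ 2 * c ^ 2 * (Q * δ) := by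
    rw [abs_mul]
    calc |(x.a : ℝ)| * |y3| ≤ (2 * Q) * (c * δ) := mul_le_mul ha h3 (abs_nonneg _) (by positivity)
      _ = 2 * c * (Q * δ) := by ring
      _ ≤ 2 * c ^ 2 * (Q * δ) := by gcongr
  have e0 : |(x.a : ℝ) * y2 - y1 ^ 2| ≤ 3 * c ^ 2 * (Q * δ) :=
    (abs_sub _ _).trans (by linarith)
  have e1 : |(x.a : ℝ) * y3 - y1 * y2| ≤ 3 * c ^ 2 * (Q * δ) :=
    (abs_sub _ _).trans (by linarith)
  have e2 : |y1 * y3 - y2 ^ 2| ≤ 2 * c ^ 2 * (Q * δ) :=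
    (abs_sub _ _).trans (by linarith)
  refine ⟨?_, ?_⟩
  · rw [Cub.h0_eq_y x ξ]
    exact e0
  · rw [Cub.D_eq_y x ξ]
    have f1 : |((x.a : ℝ) * y3 - y1 * y2) ^ 2| ≤ 9 * c ^ 4 * (Q * δ) ^ 2 := by
      rw [abs_pow]
      calc |(x.a : ℝ) * y3 - y1 * y2| ^ 2 ≤ (3 * c ^ 2 * (Q * δ)) ^ 2 :=
            pow_le_pow_left₀ (abs_nonneg _) e1 2
        _ = 9 * c ^ 4 * (Q * δ) ^ 2 := by ring
    have f2 : |4 * ((x.a : ℝ) * y2 - y1 ^ 2) * (y1 * y3 - y2 ^ 2)| ≤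
        24 * c ^ 4 * (Q * δ) ^ 2 := by
      rw [abs_mul, abs_mul, abs_of_pos (by norm_num : (0 : ℝ) < 4)]
      calc 4 * |(x.a : ℝ) * y2 - y1 ^ 2| * |y1 * y3 - y2 ^ 2|
          ≤ 4 * (3 * c ^ 2 * (Q * δ)) * (2 * c ^ 2 * (Q * δ)) := by gcongr
        _ = 24 * c ^ 4 * (Q * δ) ^ 2 := by ring
    exact (abs_sub _ _).trans (by linarith)

end CoverDAux

open CoverDAux

theorem coverD (h : Count) : CoverD := by
  obtain ⟨C, hC, hcount⟩ := h
  intro lam s R hlam hs hs1 hls hR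
  set c : ℝ := 3 * (1 + R) ^ 2 with hc
  have hc1 : 1 ≤ c := by rw [hc]; nlinarith
  -- the constants
  set L0 : ℝ := Real.log (33 * c ^ 4) + 2 with hL0
  have hlog0 : 0 ≤ Real.log (33 * c ^ 4) := by
    apply Real.log_nonneg
    have : 1 ≤ c ^ 4 := one_le_pow₀ hc1
    linarith
  have hL0' : 0 ≤ L0 := by rw [hL0]; linarith
  set C' : ℝ := C * (R + 1) * (51 * c ^ 4) * (1 + L0) ^ 2 with hC'
  have hC'0 : 0 ≤ C' := by rw [hC']; positivity
  -- scale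
  let Q : ℕ → ℝ := fun k => (2 : ℝ) ^ k
  have hQ1 : ∀ k, 1 ≤ Q k := fun k => one_le_pow₀ (by norm_num)
  have hQ0 : ∀ k, 0 < Q k := fun k => lt_of_lt_of_le one_pos (hQ1 k)
  let δ : ℕ → ℝ := fun k => (Q k) ^ (-lam)
  have hδ0 : ∀ k, 0 < δ k := fun k => Real.rpow_pos_of_pos (hQ0 k) _
  have hδ1 : ∀ k, δ k ≤ 1 := fun k =>
    Real.rpow_le_one_of_one_le_of_nonpos (hQ1 k) (by linarith)
  let Y : ℕ → ℝ := fun k => Q k * δ k
  have hY0 : ∀ k, 0 < Y k := fun k => mul_pos (hQ0 k) (hδ0 k)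
  let A : ℕ → Set Cub := fun k => {x | Q k ≤ |(x.a : ℝ)| ∧ |(x.a : ℝ)| ≤ 2 * Q k ∧
    |(x.h0 : ℝ)| ≤ 3 * c ^ 2 * Y k ∧ x.D ≠ 0 ∧ |(x.D : ℝ)| ≤ 33 * c ^ 4 * (Y k) ^ 2 ∧
    |(x.b : ℝ)| ≤ (R + 1) * |(x.a : ℝ)|}
  have hfin : ∀ k, ∃ S : Finset Cub, (∀ x, x ∈ S ↔ x ∈ A k) ∧
      (S.card : ℝ) ≤ C' * (Y k) ^ 2 * (1 + k) ^ 2 := by
    intro k
    apply exists_finset_of_card_le
    intro S hS
    by_cases hT : 33 * c ^ 4 * (Y k) ^ 2 < 1
    · have hemp : S = ∅ := by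
        rw [Finset.eq_empty_iff_forall_notMem]
        intro x hx
        obtain ⟨-, -, -, h4, h5, -⟩ := hS x hx
        have h6 : (1 : ℤ) ≤ |x.D| := Int.one_le_abs h4
        have h7 : (1 : ℝ) ≤ |(x.D : ℝ)| := by exact_mod_cast h6
        linarith
      rw [hemp]
      simp only [Finset.card_empty, Nat.cast_zero]
      positivity
    · rw [not_lt] at hT
      have hB : 0 ≤ 3 * c ^ 2 * Y k := by have := hY0 k; positivity
      have h1 := hcount (Q k) (3 * c ^ 2 * Y k) (33 * c ^ 4 * (Y k) ^ 2) (R + 1) (hQ0 k) hB hT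
        (by linarith) S (fun x hx => hS x hx)
      refine h1.trans ?_
      -- the square root
      have hsq : √(33 * c ^ 4 * (Y k) ^ 2) ≤ 6 * c ^ 2 * Y k := by
        apply Real.sqrt_le_iff.mpr
        refine ⟨by have := hY0 k; positivity, ?_⟩
        have : 0 ≤ c ^ 4 * (Y k) ^ 2 := by positivity
        nlinarith
      have h2 : 33 * c ^ 4 * (Y k) ^ 2 + 3 * c ^ 2 * Y k * √(33 * c ^ 4 * (Y k) ^ 2) ≤
          51 * c ^ 4 * (Y k) ^ 2 := by
        have := mul_le_mul_of_nonneg_left hsq hB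
        nlinarith
      -- the logarithm
      have hYQ : Y k ≤ Q k := by
        change Q k * δ k ≤ Q k
        exact mul_le_of_le_one_right (hQ0 k).le (hδ1 k)
      have h3 : Real.log (33 * c ^ 4 * (Y k) ^ 2) ≤ L0 * (1 + k) := by
        have hle : 33 * c ^ 4 * (Y k) ^ 2 ≤ 33 * c ^ 4 * (Q k) ^ 2 := by
          have := (hY0 k).le
          gcongr
        have h4 := Real.log_le_log (by linarith) hle
        have h5 : Real.log (33 * c ^ 4 * (Q k) ^ 2) =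
            Real.log (33 * c ^ 4) + 2 * (k * Real.log 2) := by
          rw [Real.log_mul (by positivity) (by have := hQ0 k; positivity), Real.log_pow]
          change _ + ((2 : ℕ) : ℝ) * Real.log ((2 : ℝ) ^ k) = _
          rw [Real.log_pow]
          push_cast
          ring
        have h6 : Real.log 2 ≤ 1 := by
          have := Real.log_two_lt_d9
          linarith
        have h7 : (k : ℝ) * Real.log 2 ≤ k := by
          have : (0 : ℝ) ≤ k := Nat.cast_nonneg k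
          nlinarith
        have hk : (0 : ℝ) ≤ k := Nat.cast_nonneg k
        rw [h5] at h4
        refine h4.trans ?_
        have e : L0 * (1 + k) = Real.log (33 * c ^ 4) + Real.log (33 * c ^ 4) * k + 2 + 2 * k := by
          rw [hL0]; ring
        have h8 : 0 ≤ Real.log (33 * c ^ 4) * k := mul_nonneg hlog0 hk
        rw [e]
        linarith
      have h4 : (1 + Real.log (33 * c ^ 4 * (Y k) ^ 2)) ^ 2 ≤ ((1 + L0) * (1 + k)) ^ 2 := by
        have hl : 0 ≤ Real.log (33 * c ^ 4 * (Y k) ^ 2) := Real.log_nonneg hT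
        apply pow_le_pow_left₀ (by linarith)
        have hk : (0 : ℝ) ≤ k := Nat.cast_nonneg k
        have e : (1 + L0) * (1 + k) = 1 + L0 * (1 + k) + k := by ring
        rw [e]
        linarith
      have hR1 : 0 ≤ C * (R + 1) := by positivity
      calc C * (R + 1) * (33 * c ^ 4 * (Y k) ^ 2 +
            3 * c ^ 2 * Y k * √(33 * c ^ 4 * (Y k) ^ 2)) *
            (1 + Real.log (33 * c ^ 4 * (Y k) ^ 2)) ^ 2
          ≤ C * (R + 1) * (51 * c ^ 4 * (Y k) ^ 2) * ((1 + L0) * (1 + k)) ^ 2 := by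
            apply mul_le_mul _ h4 (by positivity) (by positivity)
            exact mul_le_mul_of_nonneg_left h2 hR1
        _ = C' * (Y k) ^ 2 * (1 + k) ^ 2 := by rw [hC']; ring
  choose S hSA hScard using hfin
  -- the families
  let T : ℕ → Finset (ℝ × ℝ) := fun k =>
    (S k).image (fun x => ((x.b : ℝ) / x.a, (Q k) ^ (-1 - lam)))
  set r : ℝ := (2 : ℝ) ^ (2 - 2 * lam - (1 + lam) * s) with hr
  have hr0 : 0 < r := Real.rpow_pos_of_pos (by norm_num) _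
  have hr1 : r < 1 := by
    rw [hr]
    apply Real.rpow_lt_one_of_one_lt_of_neg (by norm_num)
    rw [div_lt_iff₀ (by linarith)] at hls
    linarith
  refine ⟨T, ?_, ?_, ?_⟩
  · intro k p hp
    obtain ⟨x, -, rfl⟩ := Finset.mem_image.mp hp
    exact (Real.rpow_pos_of_pos (hQ0 k) _).le
  · have hsum : Summable (fun k : ℕ => C' / r * (((k + 1 : ℕ) : ℝ) ^ 2 * r ^ (k + 1))) := by
      apply Summable.mul_left
      have := summable_pow_mul_geometric_of_norm_lt_one 2 (r := r)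
        (by rw [Real.norm_eq_abs, abs_of_pos hr0]; exact hr1)
      exact (summable_nat_add_iff 1).mpr this
    refine Summable.of_nonneg_of_le ?_ ?_ hsum
    · intro k
      apply Finset.sum_nonneg
      intro p hp
      obtain ⟨x, -, rfl⟩ := Finset.mem_image.mp hp
      exact Real.rpow_nonneg (Real.rpow_pos_of_pos (hQ0 k) _).le _
    · intro k
      have h1 : ∑ p ∈ T k, p.2 ^ s = ((T k).card : ℝ) * ((Q k) ^ (-1 - lam)) ^ s := by
        rw [← nsmul_eq_mul]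
        apply Finset.sum_eq_card_nsmul
        intro p hp
        obtain ⟨x, -, rfl⟩ := Finset.mem_image.mp hp
        rfl
      have h2 : ((T k).card : ℝ) ≤ C' * (Y k) ^ 2 * (1 + k) ^ 2 := by
        refine le_trans ?_ (hScard k)
        exact_mod_cast Finset.card_image_le
      have h3 : (Y k) ^ 2 * ((Q k) ^ (-1 - lam)) ^ s = r ^ k := by
        have e1 : (Y k) ^ 2 = (Q k) ^ (2 - 2 * lam) := by
          change (Q k * (Q k) ^ (-lam)) ^ 2 = _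
          rw [mul_pow, ← Real.rpow_natCast (Q k) 2, ← Real.rpow_natCast ((Q k) ^ (-lam)) 2,
            ← Real.rpow_mul (hQ0 k).le, ← Real.rpow_add (hQ0 k)]
          congr 1
          push_cast
          ring
        have e2 : ((Q k) ^ (-1 - lam)) ^ s = (Q k) ^ ((-1 - lam) * s) :=
          (Real.rpow_mul (hQ0 k).le _ _).symm
        rw [e1, e2, ← Real.rpow_add (hQ0 k), hr]
        change ((2 : ℝ) ^ k) ^ _ = _
        rw [← Real.rpow_natCast, ← Real.rpow_mul (by norm_num), ← Real.rpow_natCast,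
          ← Real.rpow_mul (by norm_num)]
        congr 1
        ring
      rw [h1]
      have hq : 0 ≤ ((Q k) ^ (-1 - lam)) ^ s :=
        Real.rpow_nonneg (Real.rpow_pos_of_pos (hQ0 k) _).le _
      calc ((T k).card : ℝ) * ((Q k) ^ (-1 - lam)) ^ s
          ≤ C' * (Y k) ^ 2 * (1 + k) ^ 2 * ((Q k) ^ (-1 - lam)) ^ s :=
            mul_le_mul_of_nonneg_right h2 hq
        _ = C' * (1 + k) ^ 2 * ((Y k) ^ 2 * ((Q k) ^ (-1 - lam)) ^ s) := by ring
        _ = C' * (1 + k) ^ 2 * r ^ k := by rw [h3]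
        _ = C' / r * (((k + 1 : ℕ) : ℝ) ^ 2 * r ^ (k + 1)) := by
          push_cast
          rw [pow_succ]
          field_simp
          ring
  · intro k ξ x hξ hQa haQ hPD hnear
    have ha2 : |(x.a : ℝ)| ≤ 2 * Q k := by
      have : (2 : ℝ) ^ (k + 1) = 2 * Q k := by
        change (2 : ℝ) ^ (k + 1) = 2 * 2 ^ k
        rw [pow_succ]; ring
      linarith
    have ha1 : 1 ≤ |(x.a : ℝ)| := (hQ1 k).trans hQa
    have hane : (x.a : ℝ) ≠ 0 := by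
      intro h0
      rw [h0, abs_zero] at ha1
      linarith
    obtain ⟨hy1, hy2, hy3⟩ := y_bounds x ξ (δ k) R hR hξ (hδ0 k).le hnear
    obtain ⟨hh0, hD⟩ := cov_bounds x ξ (δ k) (Q k) c (hQ1 k) (hδ0 k).le (hδ1 k) hc1 ha2 hy1 hy2 hy3
    have hb : |(x.b : ℝ)| ≤ (R + 1) * |(x.a : ℝ)| := by
      have e : (x.b : ℝ) = (x.a : ℝ) * ξ - ((x.a : ℝ) * ξ - x.b) := by ring
      rw [e]
      refine (abs_sub _ _).trans ?_
      rw [abs_mul]
      have h1 : |(x.a : ℝ)| * |ξ| ≤ |(x.a : ℝ)| * R :=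
        mul_le_mul_of_nonneg_left hξ (abs_nonneg _)
      have h2 : |(x.a : ℝ) * ξ - x.b| ≤ 1 := hnear.1.trans (hδ1 k)
      linarith
    have hxS : x ∈ S k := (hSA k x).mpr ⟨hQa, ha2, hh0, hPD, hD, hb⟩
    refine ⟨((x.b : ℝ) / x.a, (Q k) ^ (-1 - lam)), Finset.mem_image_of_mem _ hxS, ?_⟩
    have e : ξ - (x.b : ℝ) / x.a = ((x.a : ℝ) * ξ - x.b) / x.a := by field_simp
    change |ξ - (x.b : ℝ) / x.a| ≤ (Q k) ^ (-1 - lam)
    rw [e, abs_div]
    have h1 : |(x.a : ℝ) * ξ - x.b| ≤ δ k := hnear.1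
    calc |(x.a : ℝ) * ξ - x.b| / |(x.a : ℝ)| ≤ δ k / Q k := by
          have := hQ0 k
          gcongr
      _ = (Q k) ^ (-1 - lam) := by
        change (Q k) ^ (-lam) / Q k = _
        have e3 : (-1 - lam : ℝ) = -lam - 1 := by ring
        rw [e3, Real.rpow_sub (hQ0 k), Real.rpow_one]

end MP_211f72_nt
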