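import Pool.Agent.Lib.MP_211f72_nt.Spec
import Pool.Agent.Lib.MP_211f72_nt.Basic

/-!
# MP_211f72_nt: cover by the points with `D = 0`, `H ≠ 0`
-/

namespace MP_211f72_nt

/-- the index set of the cover -/
noncomputable def coverHIdx (A R : ℝ) : Finset ((_ : ℕ) × ℤ) :=
  (Finset.Icc 1 ⌊A⌋₊).sigma fun m : ℕ => Finset.Icc (-⌈(R + 1) * m⌉) ⌈(R + 1) * m⌉

/-- the family of balls -/
noncomputable def coverHFam (A R δ' : ℝ) : Finset (ℝ × ℝ) :=
  (coverHIdx A R).image fun i => ((i.2 : ℝ) / i.1, δ' / i.1)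

lemma coverH_sum (A R δ' s : ℝ) (hA : 0 < A) (hR : 1 ≤ R) (hδ : 0 ≤ δ') (_hs : 0 < s)
    (hs1 : s ≤ 1) : ∑ p ∈ coverHFam A R δ', p.2 ^ s ≤ 7 * R * δ' ^ s * A ^ (2 - s) := by
  have h1 : ∑ p ∈ coverHFam A R δ', p.2 ^ s ≤ ∑ i ∈ coverHIdx A R, (δ' / i.1) ^ s := by
    unfold coverHFam
    refine Finset.sum_image_le_of_nonneg (f := fun p : ℝ × ℝ => p.2 ^ s) fun p hp => ?_
    obtain ⟨i, _, rfl⟩ := Finset.mem_image.mp hp
    exact Real.rpow_nonneg (div_nonneg hδ (Nat.cast_nonneg _)) s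
  refine h1.trans ?_
  unfold coverHIdx
  rw [Finset.sum_sigma]
  have h2 : ∀ m ∈ Finset.Icc 1 ⌊A⌋₊,
      ∑ _n ∈ Finset.Icc (-⌈(R + 1) * (m : ℝ)⌉) ⌈(R + 1) * (m : ℝ)⌉, (δ' / (m : ℝ)) ^ s ≤
        7 * R * δ' ^ s * A ^ (1 - s) := by
    intro m hm
    have hm' := Finset.mem_Icc.mp hm
    have hm1 : (1 : ℝ) ≤ m := by exact_mod_cast hm'.1
    have hm0 : (0 : ℝ) < m := by linarith
    have hmA : (m : ℝ) ≤ A := (Nat.le_floor_iff hA.le).mp hm'.2
    rw [Finset.sum_const, nsmul_eq_mul, Int.card_Icc]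
    have hz : (0 : ℝ) ≤ (R + 1) * m := by positivity
    have hz1 : (0 : ℤ) ≤ ⌈(R + 1) * (m : ℝ)⌉ := Int.ceil_nonneg hz
    have hcard : (((⌈(R + 1) * (m : ℝ)⌉ + 1 - -⌈(R + 1) * (m : ℝ)⌉).toNat : ℕ) : ℝ) ≤
        7 * R * m := by
      have e : ((⌈(R + 1) * (m : ℝ)⌉ + 1 - -⌈(R + 1) * (m : ℝ)⌉).toNat : ℤ) =
          2 * ⌈(R + 1) * (m : ℝ)⌉ + 1 := by
        rw [Int.toNat_of_nonneg (by linarith)]; ring
      have e2 : (((⌈(R + 1) * (m : ℝ)⌉ + 1 - -⌈(R + 1) * (m : ℝ)⌉).toNat : ℕ) : ℝ) =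
          2 * (⌈(R + 1) * (m : ℝ)⌉ : ℝ) + 1 := by exact_mod_cast congrArg (Int.cast (R := ℝ)) e
      rw [e2]
      have h3 := Int.ceil_lt_add_one ((R + 1) * (m : ℝ))
      nlinarith
    have hdiv : (δ' / (m : ℝ)) ^ s = δ' ^ s * (m : ℝ) ^ (-s) := by
      rw [Real.div_rpow hδ hm0.le, Real.rpow_neg hm0.le, div_eq_mul_inv]
    have hδs : 0 ≤ δ' ^ s := Real.rpow_nonneg hδ s
    have hms : 0 ≤ (m : ℝ) ^ (-s) := Real.rpow_nonneg hm0.le _
    rw [hdiv]
    calc (((⌈(R + 1) * (m : ℝ)⌉ + 1 - -⌈(R + 1) * (m : ℝ)⌉).toNat : ℕ) : ℝ) *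
          (δ' ^ s * (m : ℝ) ^ (-s)) ≤ 7 * R * m * (δ' ^ s * (m : ℝ) ^ (-s)) :=
          mul_le_mul_of_nonneg_right hcard (mul_nonneg hδs hms)
      _ = 7 * R * δ' ^ s * ((m : ℝ) * (m : ℝ) ^ (-s)) := by ring
      _ = 7 * R * δ' ^ s * (m : ℝ) ^ (1 - s) := by
          rw [sub_eq_add_neg 1 s, Real.rpow_add hm0, Real.rpow_one]
      _ ≤ 7 * R * δ' ^ s * A ^ (1 - s) := by
          refine mul_le_mul_of_nonneg_left ?_ (by positivity)
          exact Real.rpow_le_rpow hm0.le hmA (by linarith)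
  have hδs : 0 ≤ δ' ^ s := Real.rpow_nonneg hδ s
  have hAs : 0 ≤ A ^ (1 - s) := Real.rpow_nonneg hA.le _
  calc _ ≤ ∑ _m ∈ Finset.Icc 1 ⌊A⌋₊, 7 * R * δ' ^ s * A ^ (1 - s) := Finset.sum_le_sum h2
    _ = (⌊A⌋₊ : ℝ) * (7 * R * δ' ^ s * A ^ (1 - s)) := by
        rw [Finset.sum_const, nsmul_eq_mul, Nat.card_Icc]
        simp
    _ ≤ A * (7 * R * δ' ^ s * A ^ (1 - s)) :=
        mul_le_mul_of_nonneg_right (Nat.floor_le hA.le) (by positivity)
    _ = 7 * R * δ' ^ s * (A * A ^ (1 - s)) := by ring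
    _ = _ := by
        have e : (2 : ℝ) - s = 1 + (1 - s) := by ring
        rw [e, Real.rpow_add hA, Real.rpow_one]

/-- the bounds of the coordinates -/
lemma coverH_y {x : Cub} {ξ δ R : ℝ} (hR : 1 ≤ R) (hξ : |ξ| ≤ R) (hδ : 0 ≤ δ)
    (h : Near x ξ δ) : |x.y1 ξ| ≤ 3 * (1 + R) ^ 2 * δ ∧ |x.y2 ξ| ≤ 3 * (1 + R) ^ 2 * δ ∧
      |x.y3 ξ| ≤ 3 * (1 + R) ^ 2 * δ := by
  obtain ⟨h1, h2, h3⟩ := h
  have hR0 : 0 ≤ R := by linarith
  have hx2 : |ξ| ^ 2 ≤ R ^ 2 := pow_le_pow_left₀ (abs_nonneg _) hξ 2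
  have a0 := abs_nonneg ξ
  have e1 : x.y1 ξ = -((x.a : ℝ) * ξ - x.b) := by simp only [Cub.y1]; ring
  have e2 : x.y2 ξ = -((x.a : ℝ) * ξ ^ 2 - x.c) + 2 * (ξ * ((x.a : ℝ) * ξ - x.b)) := by
    simp only [Cub.y2]; ring
  have e3 : x.y3 ξ = -((x.a : ℝ) * ξ ^ 3 - x.d) + 3 * (ξ * ((x.a : ℝ) * ξ ^ 2 - x.c)) -
      3 * (ξ ^ 2 * ((x.a : ℝ) * ξ - x.b)) := by
    simp only [Cub.y3]; ring
  have f1 : |ξ * ((x.a : ℝ) * ξ - x.b)| ≤ R * δ := by
    rw [abs_mul]; exact mul_le_mul hξ h1 (abs_nonneg _) hR0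
  have f2 : |ξ * ((x.a : ℝ) * ξ ^ 2 - x.c)| ≤ R * δ := by
    rw [abs_mul]; exact mul_le_mul hξ h2 (abs_nonneg _) hR0
  have f3 : |ξ ^ 2 * ((x.a : ℝ) * ξ - x.b)| ≤ R ^ 2 * δ := by
    rw [abs_mul, abs_pow]; exact mul_le_mul hx2 h1 (abs_nonneg _) (by positivity)
  rw [e1, e2, e3]
  rw [abs_le] at h1 h2 h3 f1 f2 f3
  have g1 : 0 ≤ R * δ := by positivity
  have g2 : 0 ≤ R ^ 2 * δ := by positivity
  refine ⟨?_, ?_, ?_⟩ <;> rw [abs_le] <;> constructor <;> nlinarith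

/-- the distance and the size of `m` -/
lemma coverH_bounds {x : Cub} {ξ δ q c : ℝ} {κ m n : ℤ} (hc : 1 ≤ c) (hq : 1 ≤ q) (hδ : 0 < δ)
    (hlt : 2 * c * δ < 1) (hκ : (1 : ℝ) ≤ |(κ : ℝ)|) (e0 : x.h0 = κ * m ^ 2)
    (e1 : x.h1 = 2 * κ * m * n) (e2 : x.h2 = κ * n ^ 2)
    (b1 : |x.y1 ξ| ≤ c * δ) (b2 : |x.y2 ξ| ≤ c * δ) (b3 : |x.y3 ξ| ≤ c * δ)
    (ha : |(x.a : ℝ)| ≤ 2 * q) :
    |(m : ℝ) * ξ - n| ≤ 2 * (c * δ) ∧ (m : ℝ) ^ 2 ≤ 3 * c * (q * δ) := by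
  have hc0 : 0 < c := by linarith
  have hq0 : 0 < q := by linarith
  have hcδ : 0 < c * δ := by positivity
  have hid : (κ : ℝ) * ((m : ℝ) * ξ - n) ^ 2 = x.y1 ξ * x.y3 ξ - (x.y2 ξ) ^ 2 := by
    rw [← Cub.H_eq_y, e0, e1, e2]
    push_cast
    ring
  have hy : |x.y1 ξ * x.y3 ξ - (x.y2 ξ) ^ 2| ≤ 2 * (c * δ) ^ 2 := by
    have g1 : |x.y1 ξ * x.y3 ξ| ≤ (c * δ) * (c * δ) := by
      rw [abs_mul]; exact mul_le_mul b1 b3 (abs_nonneg _) hcδ.le
    have g2 : |(x.y2 ξ) ^ 2| ≤ (c * δ) ^ 2 := by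
      rw [abs_pow]; exact pow_le_pow_left₀ (abs_nonneg _) b2 2
    have g3 := abs_sub (x.y1 ξ * x.y3 ξ) ((x.y2 ξ) ^ 2)
    have g4 : (c * δ) * (c * δ) = (c * δ) ^ 2 := by ring
    linarith
  have hcδ2 : 0 < (c * δ) ^ 2 := by positivity
  constructor
  · have g0 := sq_nonneg ((m : ℝ) * ξ - n)
    have g1 : ((m : ℝ) * ξ - n) ^ 2 ≤ (2 * (c * δ)) ^ 2 := by
      rw [← hid, abs_mul, abs_of_nonneg g0] at hy
      have g2 : 1 * ((m : ℝ) * ξ - n) ^ 2 ≤ |(κ : ℝ)| * ((m : ℝ) * ξ - n) ^ 2 :=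
        mul_le_mul_of_nonneg_right hκ g0
      have g3 : (2 * (c * δ)) ^ 2 = 4 * (c * δ) ^ 2 := by ring
      linarith
    exact abs_le_of_sq_le_sq g1 (by positivity)
  · have hh0 : |(x.h0 : ℝ)| ≤ 3 * c * (q * δ) := by
      have g1 : |(x.a : ℝ) * x.y2 ξ| ≤ 2 * q * (c * δ) := by
        rw [abs_mul]
        exact mul_le_mul ha b2 (abs_nonneg _) (by positivity)
      have g2 : |(x.y1 ξ) ^ 2| ≤ (c * δ) ^ 2 := by
        rw [abs_pow]; exact pow_le_pow_left₀ (abs_nonneg _) b1 2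
      have g3 := abs_sub ((x.a : ℝ) * x.y2 ξ) ((x.y1 ξ) ^ 2)
      rw [← Cub.h0_eq_y] at g3
      have g4 : (c * δ) ^ 2 ≤ c * (q * δ) := by
        have g5 : c * δ ≤ 1 := by linarith
        have g6 : c * δ ≤ c * (q * δ) := by
          refine mul_le_mul_of_nonneg_left ?_ hc0.le
          nlinarith
        have g7 : (c * δ) ^ 2 ≤ c * δ := by
          rw [sq]
          have := mul_le_mul_of_nonneg_left g5 hcδ.le
          linarith
        linarith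
      have g8 : 2 * q * (c * δ) = 2 * (c * (q * δ)) := by ring
      have g9 : 3 * c * (q * δ) = 3 * (c * (q * δ)) := by ring
      linarith
    have g1 : (x.h0 : ℝ) = κ * (m : ℝ) ^ 2 := by rw [e0]; push_cast; ring
    have g0 := sq_nonneg (m : ℝ)
    rw [g1, abs_mul, abs_of_nonneg g0] at hh0
    have g2 : 1 * (m : ℝ) ^ 2 ≤ |(κ : ℝ)| * (m : ℝ) ^ 2 := mul_le_mul_of_nonneg_right hκ g0
    linarith

theorem coverH (h : Deg) : CoverH := by
  classical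
  intro lam s R hlam hs hs1 hls hR
  set c : ℝ := 3 * (1 + R) ^ 2 with hc
  have hc1 : 1 ≤ c := by rw [hc]; nlinarith
  have hc0 : 0 < c := by linarith
  -- the exponent
  set E : ℝ := -lam * s + (1 - lam) * ((2 - s) / 2) with hE
  have hE0 : E < 0 := by
    have h1 : (2 - 2 * lam) < s * (1 + lam) := by
      rwa [div_lt_iff₀ (by linarith)] at hls
    rw [hE]
    nlinarith
  have hpow : ∀ (k : ℕ) (u : ℝ), ((2 : ℝ) ^ k) ^ u = ((2 : ℝ) ^ u) ^ k := by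
    intro k u
    rw [← Real.rpow_natCast 2 k, ← Real.rpow_natCast ((2 : ℝ) ^ u) k,
      ← Real.rpow_mul (by norm_num), ← Real.rpow_mul (by norm_num), mul_comm]
  set T : ℕ → Finset (ℝ × ℝ) := fun k =>
    if 2 * c * ((2 : ℝ) ^ k) ^ (-lam) < 1 then
      coverHFam (2 * c * √(((2 : ℝ) ^ k) ^ (1 - lam))) R (2 * c * ((2 : ℝ) ^ k) ^ (-lam))
    else {(0, R)} with hT
  refine ⟨T, ?_, ?_, ?_⟩
  · intro k p hp
    have hδ : 0 ≤ 2 * c * ((2 : ℝ) ^ k) ^ (-lam) := by positivity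
    simp only [hT] at hp
    split_ifs at hp
    · obtain ⟨i, _, rfl⟩ := Finset.mem_image.mp hp
      exact div_nonneg hδ (Nat.cast_nonneg _)
    · rw [Finset.mem_singleton] at hp
      rw [hp]
      simp only
      linarith
  · have hbound : ∀ k, ∑ p ∈ T k, p.2 ^ s ≤
        7 * R * (2 * c) ^ 2 * ((2 : ℝ) ^ E) ^ k + R ^ s * (2 * c) * ((2 : ℝ) ^ (-lam)) ^ k := by
      intro k
      have hq : (0 : ℝ) < 2 ^ k := by positivity
      have t1 : 0 ≤ 7 * R * (2 * c) ^ 2 * ((2 : ℝ) ^ E) ^ k := by positivity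
      have t2 : 0 ≤ R ^ s * (2 * c) * ((2 : ℝ) ^ (-lam)) ^ k := by positivity
      simp only [hT]
      split_ifs with hlt
      · have h1 := coverH_sum (2 * c * √(((2 : ℝ) ^ k) ^ (1 - lam))) R
          (2 * c * ((2 : ℝ) ^ k) ^ (-lam)) s (by positivity) hR (by positivity) hs hs1
        have h2 : 7 * R * (2 * c * ((2 : ℝ) ^ k) ^ (-lam)) ^ s *
            (2 * c * √(((2 : ℝ) ^ k) ^ (1 - lam))) ^ (2 - s) =
            7 * R * (2 * c) ^ 2 * ((2 : ℝ) ^ E) ^ k := by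
          have e1 : (2 * c * ((2 : ℝ) ^ k) ^ (-lam)) ^ s =
              (2 * c) ^ s * ((2 : ℝ) ^ k) ^ (-lam * s) := by
            rw [Real.mul_rpow (by positivity) (by positivity), Real.rpow_mul hq.le]
          have e2 : (2 * c * √(((2 : ℝ) ^ k) ^ (1 - lam))) ^ (2 - s) =
              (2 * c) ^ (2 - s) * ((2 : ℝ) ^ k) ^ ((1 - lam) * ((2 - s) / 2)) := by
            rw [Real.mul_rpow (by positivity) (by positivity), Real.sqrt_eq_rpow,
              ← Real.rpow_mul hq.le, ← Real.rpow_mul hq.le]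
            congr 2
            ring
          have e3 : (2 * c) ^ s * (2 * c) ^ (2 - s) = (2 * c) ^ (2 : ℕ) := by
            rw [← Real.rpow_add (by positivity), ← Real.rpow_natCast]
            congr 1
            push_cast
            ring
          have e4 : ((2 : ℝ) ^ k) ^ (-lam * s) * ((2 : ℝ) ^ k) ^ ((1 - lam) * ((2 - s) / 2)) =
              ((2 : ℝ) ^ E) ^ k := by
            rw [← Real.rpow_add hq, ← hE, hpow]
          rw [e1, e2]
          calc _ = 7 * R * ((2 * c) ^ s * (2 * c) ^ (2 - s)) * (((2 : ℝ) ^ k) ^ (-lam * s) *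
                ((2 : ℝ) ^ k) ^ ((1 - lam) * ((2 - s) / 2))) := by ring
            _ = _ := by rw [e3, e4]
        rw [h2] at h1
        linarith
      · rw [Finset.sum_singleton]
        rw [not_lt, hpow] at hlt
        have h3 : 0 ≤ R ^ s := by positivity
        simp only
        nlinarith
    refine Summable.of_nonneg_of_le (fun k => Finset.sum_nonneg fun p hp => ?_) hbound ?_
    · have hp0 : 0 ≤ p.2 := by
        have hδ : 0 ≤ 2 * c * ((2 : ℝ) ^ k) ^ (-lam) := by positivity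
        simp only [hT] at hp
        split_ifs at hp
        · obtain ⟨i, _, rfl⟩ := Finset.mem_image.mp hp
          exact div_nonneg hδ (Nat.cast_nonneg _)
        · rw [Finset.mem_singleton] at hp
          rw [hp]
          simp only
          linarith
      exact Real.rpow_nonneg hp0 s
    · refine Summable.add ?_ ?_
      · exact (summable_geometric_of_lt_one (by positivity)
          (Real.rpow_lt_one_of_one_lt_of_neg (by norm_num) hE0)).mul_left _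
      · exact (summable_geometric_of_lt_one (by positivity)
          (Real.rpow_lt_one_of_one_lt_of_neg (by norm_num) (by linarith))).mul_left _
  · intro k ξ x hξ hak hak2 hP hnear
    set q : ℝ := (2 : ℝ) ^ k with hqdef
    have hq1 : 1 ≤ q := one_le_pow₀ (by norm_num)
    have hq0 : 0 < q := by linarith
    set δ : ℝ := q ^ (-lam) with hδdef
    have hδ0 : 0 < δ := Real.rpow_pos_of_pos hq0 _
    have hδ1 : δ ≤ 1 := Real.rpow_le_one_of_one_le_of_nonpos hq1 (by linarith)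
    have hY : q ^ (1 - lam) = q * δ := by
      rw [sub_eq_add_neg, Real.rpow_add hq0, Real.rpow_one]
    simp only [hT]
    split_ifs with hlt
    · obtain ⟨κ, m, n, hcop, hm0, e0, e1, e2⟩ := h.1 x hP.1
      have hκ : κ ≠ 0 := by
        rintro rfl
        exact hP.2 ⟨by rw [e0]; ring, by rw [e1]; ring, by rw [e2]; ring⟩
      have hκ1 : (1 : ℝ) ≤ |(κ : ℝ)| := by exact_mod_cast Int.one_le_abs hκ
      obtain ⟨b1, b2, b3⟩ := coverH_y hR hξ hδ0.le hnear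
      rw [← hc] at b1 b2 b3
      obtain ⟨hdist, hm2⟩ := coverH_bounds hc1 hq1 hδ0 hlt hκ1 e0 e1 e2 b1 b2 b3 (by
        rw [hqdef]
        have e : (2 : ℝ) ^ (k + 1) = 2 * 2 ^ k := by ring
        rw [← e]
        exact hak2.le)
      have hmA : (m : ℝ) ≤ 2 * c * √(q ^ (1 - lam)) := by
        have g1 : (0 : ℝ) ≤ 2 * c * √(q ^ (1 - lam)) := by positivity
        have g2 : (m : ℝ) ^ 2 ≤ (2 * c * √(q ^ (1 - lam))) ^ 2 := by
          rw [mul_pow, Real.sq_sqrt (by positivity), hY]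
          have : 0 < q * δ := by positivity
          nlinarith
        exact le_of_sq_le_sq g2 g1
      have hm1 : 1 ≤ m := by
        rcases hm0.lt_or_eq with h0 | h0
        · exact h0
        · exfalso
          rw [← h0] at hcop hdist
          have hn : IsUnit n := by
            rw [isCoprime_zero_left] at hcop
            exact hcop
          have hn1 : |(n : ℝ)| = 1 := by
            have := Int.isUnit_iff_abs_eq.mp hn
            exact_mod_cast this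
          have g1 : |((0 : ℤ) : ℝ) * ξ - n| = 1 := by
            rw [Int.cast_zero, zero_mul, zero_sub, abs_neg, hn1]
          rw [g1] at hdist
          linarith
      have hm1' : (1 : ℝ) ≤ m := by exact_mod_cast hm1
      obtain ⟨M, rfl⟩ : ∃ M : ℕ, m = M := ⟨m.toNat, (Int.toNat_of_nonneg hm0).symm⟩
      refine ⟨((n : ℝ) / (M : ℕ), 2 * c * δ / (M : ℕ)), ?_, ?_⟩
      · refine Finset.mem_image.mpr ⟨⟨M, n⟩, ?_, rfl⟩
        unfold coverHIdx
        rw [Finset.mem_sigma, Finset.mem_Icc, Finset.mem_Icc]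
        have hMc : ((M : ℤ) : ℝ) = (M : ℝ) := Int.cast_natCast M
        rw [hMc] at hdist hmA hm1'
        have g1 : |(n : ℝ)| ≤ (R + 1) * (M : ℝ) := by
          have g2 : (n : ℝ) = (M : ℝ) * ξ - ((M : ℝ) * ξ - n) := by ring
          have g3 := abs_sub ((M : ℝ) * ξ) ((M : ℝ) * ξ - n)
          rw [← g2, abs_mul, abs_of_nonneg (by linarith : (0 : ℝ) ≤ M)] at g3
          nlinarith
        rw [abs_le] at g1
        refine ⟨⟨by exact_mod_cast hm1, Nat.le_floor hmA⟩, ?_, ?_⟩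
        · have g2 := Int.le_ceil ((R + 1) * (M : ℝ))
          have g3 : (((-⌈(R + 1) * (M : ℝ)⌉ : ℤ)) : ℝ) ≤ n := by push_cast; linarith
          exact_mod_cast g3
        · have g2 := Int.le_ceil ((R + 1) * (M : ℝ))
          have g3 : (n : ℝ) ≤ ((⌈(R + 1) * (M : ℝ)⌉ : ℤ) : ℝ) := by linarith
          exact_mod_cast g3
      · have hMc : ((M : ℤ) : ℝ) = (M : ℝ) := Int.cast_natCast M
        rw [hMc] at hdist hm1'
        have hM0 : (0 : ℝ) < M := by linarith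
        simp only
        have g1 : ξ - (n : ℝ) / M = ((M : ℝ) * ξ - n) / M := by field_simp
        rw [g1, abs_div, abs_of_pos hM0]
        refine div_le_div_of_nonneg_right ?_ hM0.le
        linarith
    · exact ⟨(0, R), Finset.mem_singleton_self _, by simpa using hξ⟩

end MP_211f72_nt
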