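import Mathlib

/-!
# MP_211f72_nt: definitions for the level sets of the exponent `λ_3`

`Cub` is the type of integer points `x = (a,b,c,d) ∈ ℤ⁴`, seen as the symmetric trilinear form (binary
cubic form with binomial coefficients) `a u³ + 3 b u² v + 3 c u v² + d v³`.
-/

namespace MP_211f72_nt

open MeasureTheory

/-! ### The exponent of the problem -/

/-- For arbitrarily large `X` the system `0 < |x_0| ≤ X`, `|x_0 ξ^j - x_j| ≤ X^(-lam)` (`1 ≤ j ≤ n`)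
has a solution in integers. -/
def Approx (n : ℕ) (ξ lam : ℝ) : Prop :=
  ∀ X₀ : ℝ, ∃ X : ℝ, X₀ ≤ X ∧ ∃ x : Fin (n + 1) → ℤ,
    0 < |(x 0 : ℝ)| ∧ |(x 0 : ℝ)| ≤ X ∧
    ∀ j : Fin (n + 1), 1 ≤ (j : ℕ) → |(x 0 : ℝ) * ξ ^ (j : ℕ) - (x j : ℝ)| ≤ X ^ (-lam)

/-- The exponent `λ_n(ξ)`: the supremum of the real numbers `lam` with `Approx n ξ lam`. -/
noncomputable def lambdaExp (n : ℕ) (ξ : ℝ) : EReal :=
  sSup {l : EReal | ∃ lam : ℝ, l = (lam : EReal) ∧ Approx n ξ lam}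

/-- The value of the dimension: `max ((2 - 2λ)/(1+λ), 2/(3(1+λ)))`. -/
noncomputable def gdim (lam : ℝ) : ℝ :=
  max ((2 - 2 * lam) / (1 + lam)) (2 / (3 * (1 + lam)))

/-! ### Integer points and binary cubic forms -/

/-- an integer point `(a,b,c,d)`, i.e. the cubic form `a u³ + 3 b u² v + 3 c u v² + d v³` -/
@[ext] structure Cub where
  a : ℤ
  b : ℤ
  c : ℤ
  d : ℤ
deriving DecidableEq

/-- the determinant of two integer vectors -/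
def det (v w : ℤ × ℤ) : ℤ := v.1 * w.2 - v.2 * w.1

namespace Cub

/-- Hessian coefficients -/
def h0 (x : Cub) : ℤ := x.a * x.c - x.b ^ 2
/-- Hessian coefficients -/
def h1 (x : Cub) : ℤ := x.a * x.d - x.b * x.c
/-- Hessian coefficients -/
def h2 (x : Cub) : ℤ := x.b * x.d - x.c ^ 2
/-- the (normalised) discriminant `h1² - 4 h0 h2` -/
def D (x : Cub) : ℤ := x.h1 ^ 2 - 4 * x.h0 * x.h2

/-- the symmetric trilinear form -/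
def tri (x : Cub) (u v w : ℤ × ℤ) : ℤ :=
  x.a * (u.1 * v.1 * w.1) + x.b * (u.2 * v.1 * w.1 + u.1 * v.2 * w.1 + u.1 * v.1 * w.2)
    + x.c * (u.1 * v.2 * w.2 + u.2 * v.1 * w.2 + u.2 * v.2 * w.1) + x.d * (u.2 * v.2 * w.2)

/-- the cubic form at `v` -/
def F (x : Cub) (v : ℤ × ℤ) : ℤ := x.tri v v v

/-- the Hessian at `v` -/
def H (x : Cub) (v : ℤ × ℤ) : ℤ := x.h0 * v.1 ^ 2 + x.h1 * (v.1 * v.2) + x.h2 * v.2 ^ 2

/-- twice the polar form of the Hessian -/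
def polar (x : Cub) (v w : ℤ × ℤ) : ℤ :=
  2 * x.h0 * (v.1 * w.1) + x.h1 * (v.1 * w.2 + v.2 * w.1) + 2 * x.h2 * (v.2 * w.2)

/-- the coefficients of the form `x` in the basis `w, z` -/
def sub (x : Cub) (w z : ℤ × ℤ) : Cub := ⟨x.tri w w w, x.tri w w z, x.tri w z z, x.tri z z z⟩

/-! ### Identities -/

theorem sub_a (x : Cub) (w z : ℤ × ℤ) : (x.sub w z).a = x.F w := rfl

theorem sub_h0 (x : Cub) (w z : ℤ × ℤ) : (x.sub w z).h0 = (det w z) ^ 2 * x.H w := by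
  simp only [sub, h0, h1, h2, H, tri, det]; ring

theorem sub_h1 (x : Cub) (w z : ℤ × ℤ) : (x.sub w z).h1 = (det w z) ^ 2 * x.polar w z := by
  simp only [sub, h0, h1, h2, polar, tri, det]; ring

theorem sub_h2 (x : Cub) (w z : ℤ × ℤ) : (x.sub w z).h2 = (det w z) ^ 2 * x.H z := by
  simp only [sub, h0, h1, h2, H, tri, det]; ring

/-- `4 H(v) H(w) = polar(v,w)² - D det(v,w)²` -/
theorem four_H_mul_H (x : Cub) (v w : ℤ × ℤ) :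
    4 * (x.H v * x.H w) = (x.polar v w) ^ 2 - x.D * (det v w) ^ 2 := by
  simp only [H, polar, D, det]; ring

theorem sub_D (x : Cub) (w z : ℤ × ℤ) : (x.sub w z).D = (det w z) ^ 6 * x.D := by
  have h := four_H_mul_H x w z
  have e : (x.sub w z).D = (det w z) ^ 4 * ((x.polar w z) ^ 2 - 4 * (x.H w * x.H z)) := by
    unfold D; rw [sub_h0, sub_h1, sub_h2]; ring
  rw [e, h]; ring

/-- inverse substitution: `x = (x.sub (p,q) (r,s)).sub (s,-q) (-r,p)` if `ps - qr = 1` -/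
theorem sub_sub_inv (x : Cub) (v w : ℤ × ℤ) (h : det v w = 1) :
    (x.sub v w).sub (w.2, -v.2) (-w.1, v.1) = x := by
  obtain ⟨p, q⟩ := v
  obtain ⟨r, s⟩ := w
  simp only [det] at h
  ext
  · have e : ((x.sub (p, q) (r, s)).sub (s, -q) (-r, p)).a = (p * s - q * r) ^ 3 * x.a := by
      simp only [sub, tri]; ring
    simp only at e ⊢
    rw [e, h]; ring
  · have e : ((x.sub (p, q) (r, s)).sub (s, -q) (-r, p)).b = (p * s - q * r) ^ 3 * x.b := by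
      simp only [sub, tri]; ring
    simp only at e ⊢
    rw [e, h]; ring
  · have e : ((x.sub (p, q) (r, s)).sub (s, -q) (-r, p)).c = (p * s - q * r) ^ 3 * x.c := by
      simp only [sub, tri]; ring
    simp only at e ⊢
    rw [e, h]; ring
  · have e : ((x.sub (p, q) (r, s)).sub (s, -q) (-r, p)).d = (p * s - q * r) ^ 3 * x.d := by
      simp only [sub, tri]; ring
    simp only at e ⊢
    rw [e, h]; ring

/-- syzygy at the first vector -/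
theorem syzygy0 (x : Cub) :
    (x.a ^ 2 * x.d - 3 * x.a * x.b * x.c + 2 * x.b ^ 3) ^ 2 + 4 * x.h0 ^ 3 = x.D * x.a ^ 2 := by
  simp only [D, h0, h1, h2]; ring

/-- syzygy at the second vector -/
theorem syzygy3 (x : Cub) :
    (x.d ^ 2 * x.a - 3 * x.d * x.c * x.b + 2 * x.c ^ 3) ^ 2 + 4 * x.h2 ^ 3 = x.D * x.d ^ 2 := by
  simp only [D, h0, h1, h2]; ring

/-! ### The coordinates `y` at a real number `ξ` -/

/-- `y1 = b - ξ a` -/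
noncomputable def y1 (x : Cub) (ξ : ℝ) : ℝ := x.b - ξ * x.a
/-- `y2 = c - 2 ξ b + ξ² a` -/
noncomputable def y2 (x : Cub) (ξ : ℝ) : ℝ := x.c - 2 * ξ * x.b + ξ ^ 2 * x.a
/-- `y3 = d - 3 ξ c + 3 ξ² b - ξ³ a` -/
noncomputable def y3 (x : Cub) (ξ : ℝ) : ℝ := x.d - 3 * ξ * x.c + 3 * ξ ^ 2 * x.b - ξ ^ 3 * x.a

theorem h0_eq_y (x : Cub) (ξ : ℝ) : (x.h0 : ℝ) = x.a * x.y2 ξ - (x.y1 ξ) ^ 2 := by
  simp only [h0, y1, y2]; push_cast; ring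

theorem D_eq_y (x : Cub) (ξ : ℝ) : (x.D : ℝ) =
    (x.a * x.y3 ξ - x.y1 ξ * x.y2 ξ) ^ 2
      - 4 * (x.a * x.y2 ξ - (x.y1 ξ) ^ 2) * (x.y1 ξ * x.y3 ξ - (x.y2 ξ) ^ 2) := by
  simp only [D, h0, h1, h2, y1, y2, y3]; push_cast; ring

/-- the Hessian at `(-ξ,1)` -/
theorem H_eq_y (x : Cub) (ξ : ℝ) :
    (x.h0 : ℝ) * ξ ^ 2 - x.h1 * ξ + x.h2 = x.y1 ξ * x.y3 ξ - (x.y2 ξ) ^ 2 := by
  simp only [h0, h1, h2, y1, y2, y3]; push_cast; ring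

/-- change of the real number `ξ` -/
theorem y1_shift (x : Cub) (ξ τ : ℝ) : x.y1 (ξ + τ) = x.y1 ξ - τ * x.a := by
  simp only [y1]; ring
theorem y2_shift (x : Cub) (ξ τ : ℝ) : x.y2 (ξ + τ) = x.y2 ξ - 2 * τ * x.y1 ξ + τ ^ 2 * x.a := by
  simp only [y1, y2]; ring
theorem y3_shift (x : Cub) (ξ τ : ℝ) :
    x.y3 (ξ + τ) = x.y3 ξ - 3 * τ * x.y2 ξ + 3 * τ ^ 2 * x.y1 ξ - τ ^ 3 * x.a := by
  simp only [y1, y2, y3]; ring

end Cub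

/-- `x` approximates `(ξ,ξ²,ξ³)` with error at most `δ` -/
def Near (x : Cub) (ξ δ : ℝ) : Prop :=
  |(x.a : ℝ) * ξ - x.b| ≤ δ ∧ |(x.a : ℝ) * ξ ^ 2 - x.c| ≤ δ ∧ |(x.a : ℝ) * ξ ^ 3 - x.d| ≤ δ

/-- there is a point `x` with `|a| ≥ M`, `a ≠ 0` and error at most `|a|^(-lam)` -/
def Gd (lam : ℝ) (M : ℕ) (ξ : ℝ) : Prop :=
  ∃ x : Cub, (M : ℤ) ≤ |x.a| ∧ x.a ≠ 0 ∧ Near x ξ (|(x.a : ℝ)| ^ (-lam))

/-- normal form of the first kind -/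
def Nor1 (f : Cub) : Prop :=
  f.a ≠ 0 ∧ ∃ p q : ℝ, 0 < p ∧ p ≤ q ∧ (p * q) ^ 6 ≤ 64 * |(f.D : ℝ)| ∧
    |(f.a : ℝ)| ≤ 4 * p ^ 3 ∧ |(f.b : ℝ)| ≤ 4 * p ^ 2 * q ∧ |(f.c : ℝ)| ≤ 4 * p * q ^ 2 ∧
    |(f.d : ℝ)| ≤ 4 * q ^ 3

/-- normal form of the second kind -/
def Nor2 (f : Cub) : Prop := f.a = 0 ∧ |f.c| ≤ |f.b|

/-- content zero in dimension `t` (equivalent to `ℋ^t(N) = 0`): covers by intervals with arbitrarily
small sums of the `t`-th powers of the radii -/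
def CZ (t : ℝ) (N : Set ℝ) : Prop :=
  ∀ ε : ℝ, 0 < ε → ∃ c r : ℕ → ℝ, (∀ i, 0 < r i) ∧
    (∑' i, ENNReal.ofReal (r i ^ t)) ≤ ENNReal.ofReal ε ∧
    N ⊆ ⋃ i, Set.Icc (c i - r i) (c i + r i)

/-- the interval `[u,v]` has a well distributed family of subintervals (children) `[c, c+l]`,
`c ∈ C`, all of whose points satisfy `P` -/
def HasKids (K : ℝ) (P : ℝ → Prop) (u v t L : ℝ) : Prop :=
  ∃ (l : ℝ) (C : Finset ℝ), 0 < l ∧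
    (∀ c ∈ C, u ≤ c ∧ c + l ≤ v) ∧
    (∀ c ∈ C, ∀ ξ ∈ Set.Icc c (c + l), P ξ) ∧
    (∀ c ∈ C, ∀ c' ∈ C, c ≠ c' → 2 * l < |c - c'|) ∧
    L ≤ C.card * l ^ t ∧
    (∀ p r : ℝ, l ≤ r →
      ((C.filter fun c => p ≤ c ∧ c ≤ p + r).card : ℝ) ≤ (K * r / (v - u) + r ^ t) * C.card)

/-- the points of type `P` close to the curve are covered by families `T k` of balls (centre, radius)
with `∑ radius^s < ∞` -/
def CoverProp (lam s R : ℝ) (P : Cub → Prop) : Prop :=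
  ∃ T : ℕ → Finset (ℝ × ℝ), (∀ k, ∀ p ∈ T k, 0 ≤ p.2) ∧
    Summable (fun k => ∑ p ∈ T k, p.2 ^ s) ∧
    ∀ (k : ℕ) (ξ : ℝ) (x : Cub), |ξ| ≤ R → (2 : ℝ) ^ k ≤ |(x.a : ℝ)| → |(x.a : ℝ)| < 2 ^ (k + 1) →
      P x → Near x ξ (((2 : ℝ) ^ k) ^ (-lam)) → ∃ p ∈ T k, |ξ - p.1| ≤ p.2

/-- the box of the Minkowski argument -/
def Box (x : Cub) (ξ Q lam : ℝ) : Prop :=
  |x.y1 ξ| ≤ Q ^ (2 * lam - 1) ∧ |x.y2 ξ| ≤ Q ^ (-lam) ∧ |x.y3 ξ| ≤ Q ^ (-lam)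

/-- the bad numbers of the Minkowski argument -/
def Bad (P : Cub → Prop) (lam ε Q : ℝ) : Set ℝ :=
  {ξ | 0 ≤ ξ ∧ ξ ≤ 1 ∧ ∃ x : Cub, P x ∧ |(x.a : ℝ)| ≤ Q ^ (1 - ε) ∧ Box x ξ Q lam}

end MP_211f72_nt
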