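import Pool.Agent.Lib.MP_211f72_nt.Spec
import Pool.Agent.Lib.MP_211f72_nt.Basic

/-!
# MP_211f72_nt: structure of the points with `D = 0`, and of the points with `H = 0`
-/

namespace MP_211f72_nt

/-- `r² = p q` in the integers: `(p, r, q)` is a multiple of `(m², m n, n²)`. -/
theorem deg_sq_eq_mul (p q r : ℤ) (h : r ^ 2 = p * q) :
    ∃ κ m n : ℤ, IsCoprime m n ∧ p = κ * m ^ 2 ∧ r = κ * m * n ∧ q = κ * n ^ 2 := by
  by_cases h0 : Int.gcd p q = 0
  · rw [Int.gcd_eq_zero_iff] at h0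
    obtain ⟨rfl, rfl⟩ := h0
    have hr : r = 0 := by simpa using h
    exact ⟨0, 1, 0, isCoprime_one_left, by simp, by simp [hr], by simp⟩
  · have hg : 0 < Int.gcd p q := Nat.pos_of_ne_zero h0
    obtain ⟨u, v, huv, hp, hq⟩ := Int.exists_gcd_one hg
    set g : ℤ := (Int.gcd p q : ℤ) with hgdef
    have hg0 : g ≠ 0 := by
      rw [hgdef]
      exact_mod_cast h0
    have hcop : IsCoprime u v := Int.isCoprime_iff_gcd_eq_one.2 huv
    have hdvd : g ∣ r := by
      rw [← Int.pow_dvd_pow_iff (two_ne_zero)]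
      refine ⟨u * v, ?_⟩
      rw [h, hp, hq]
      ring
    obtain ⟨w, rfl⟩ := hdvd
    have hw : u * v = w ^ 2 := by
      have h1 : g ^ 2 * (u * v) = g ^ 2 * w ^ 2 := by
        have h2 : (g * w) ^ 2 = (u * g) * (v * g) := by rw [← hp, ← hq]; exact h
        linarith [h2, (by ring : (g * w) ^ 2 = g ^ 2 * w ^ 2),
          (by ring : (u * g) * (v * g) = g ^ 2 * (u * v))]
      exact mul_left_cancel₀ (pow_ne_zero 2 hg0) h1
    obtain ⟨a, ha⟩ := Int.sq_of_isCoprime hcop hw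
    obtain ⟨b, hb⟩ := Int.sq_of_isCoprime hcop.symm (by rw [mul_comm]; exact hw)
    have hab : IsCoprime a b := by
      have h1 : IsCoprime (a ^ 2) (b ^ 2) := by
        rcases ha with ha | ha <;> rcases hb with hb | hb
        · rw [← ha, ← hb]; exact hcop
        · have : b ^ 2 = -v := by rw [hb]; ring
          rw [← ha, this]; exact hcop.neg_right
        · have : a ^ 2 = -u := by rw [ha]; ring
          rw [← hb, this]; exact hcop.neg_left
        · have h1 : a ^ 2 = -u := by rw [ha]; ring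
          have h2 : b ^ 2 = -v := by rw [hb]; ring
          rw [h1, h2]; exact hcop.neg_left.neg_right
      exact (IsCoprime.pow_iff two_pos two_pos).1 h1
    have hmix : ∀ (_ : a ^ 2 * b ^ 2 = -w ^ 2), w = 0 ∧ (a = 0 ∨ b = 0) := by
      intro h3
      have h4 : w = 0 := by
        by_contra hne
        have h5 : 0 < w ^ 2 := by positivity
        have h6 : 0 ≤ a ^ 2 * b ^ 2 := by positivity
        linarith
      refine ⟨h4, ?_⟩
      rw [h4] at h3
      have h7 : a ^ 2 * b ^ 2 = 0 := by rw [h3]; ring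
      rcases mul_eq_zero.1 h7 with h8 | h8
      · exact Or.inl (pow_eq_zero_iff (two_ne_zero) |>.1 h8)
      · exact Or.inr (pow_eq_zero_iff (two_ne_zero) |>.1 h8)
    rcases ha with ha | ha <;> rcases hb with hb | hb
    · have h3 : (a * b) ^ 2 = w ^ 2 := by rw [← hw, ha, hb]; ring
      rcases sq_eq_sq_iff_eq_or_eq_neg.1 h3 with h4 | h4
      · exact ⟨g, a, b, hab, by rw [hp, ha]; ring, by rw [← h4]; ring, by rw [hq, hb]; ring⟩
      · refine ⟨g, a, -b, hab.neg_right, by rw [hp, ha]; ring, ?_, by rw [hq, hb]; ring⟩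
        have : w = -(a * b) := by rw [h4]; ring
        rw [this]; ring
    · obtain ⟨hw0, h0⟩ := hmix (by rw [← hw, ha, hb]; ring)
      rcases h0 with h0 | h0
      · exact ⟨-g, a, b, hab, by rw [hp, ha, h0]; ring, by rw [hw0, h0]; ring,
          by rw [hq, hb]; ring⟩
      · exact ⟨g, a, b, hab, by rw [hp, ha]; ring, by rw [hw0, h0]; ring,
          by rw [hq, hb, h0]; ring⟩
    · obtain ⟨hw0, h0⟩ := hmix (by rw [← hw, ha, hb]; ring)
      rcases h0 with h0 | h0
      · exact ⟨g, a, b, hab, by rw [hp, ha, h0]; ring, by rw [hw0, h0]; ring,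
          by rw [hq, hb]; ring⟩
      · exact ⟨-g, a, b, hab, by rw [hp, ha]; ring, by rw [hw0, h0]; ring,
          by rw [hq, hb, h0]; ring⟩
    · have h3 : (a * b) ^ 2 = w ^ 2 := by rw [← hw, ha, hb]; ring
      rcases sq_eq_sq_iff_eq_or_eq_neg.1 h3 with h4 | h4
      · refine ⟨-g, a, -b, hab.neg_right, by rw [hp, ha]; ring, ?_, by rw [hq, hb]; ring⟩
        rw [← h4]; ring
      · refine ⟨-g, a, b, hab, by rw [hp, ha]; ring, ?_, by rw [hq, hb]; ring⟩
        have : w = -(a * b) := by rw [h4]; ring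
        rw [this]; ring

theorem deg_part1 (x : Cub) (hD : x.D = 0) : ∃ κ m n : ℤ, IsCoprime m n ∧ 0 ≤ m ∧
    x.h0 = κ * m ^ 2 ∧ x.h1 = 2 * κ * m * n ∧ x.h2 = κ * n ^ 2 := by
  have h1 : x.h1 ^ 2 = 4 * x.h0 * x.h2 := by
    have : x.D = x.h1 ^ 2 - 4 * x.h0 * x.h2 := rfl
    linarith
  have h2 : (2 : ℤ) ∣ x.h1 := by
    have : (2 : ℤ) ∣ x.h1 ^ 2 := ⟨2 * x.h0 * x.h2, by rw [h1]; ring⟩
    exact Int.prime_two.dvd_of_dvd_pow this
  obtain ⟨r, hr⟩ := h2
  obtain ⟨κ, m, n, hmn, hp, hr', hq⟩ := deg_sq_eq_mul x.h0 x.h2 r (by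
    rw [hr] at h1
    have h3 : 4 * r ^ 2 = 4 * (x.h0 * x.h2) := by linarith [(by ring : (2 * r) ^ 2 = 4 * r ^ 2)]
    linarith)
  rcases le_total 0 m with hm | hm
  · exact ⟨κ, m, n, hmn, hm, hp, by rw [hr, hr']; ring, hq⟩
  · exact ⟨κ, -m, -n, hmn.neg_left.neg_right, by linarith, by rw [hp]; ring,
      by rw [hr, hr']; ring, by rw [hq]; ring⟩

theorem deg_part2 (x : Cub) (h0 : x.h0 = 0) (h1 : x.h1 = 0) (h2 : x.h2 = 0) :
    ∃ κ m n : ℤ, IsCoprime m n ∧ 0 ≤ m ∧
    x.a = κ * m ^ 3 ∧ x.b = κ * m ^ 2 * n ∧ x.c = κ * m * n ^ 2 ∧ x.d = κ * n ^ 3 := by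
  obtain ⟨a, b, c, d⟩ := x
  simp only [Cub.h0, Cub.h1, Cub.h2] at h0 h1 h2
  simp only
  have e0 : a * c = b ^ 2 := by linarith
  have e1 : a * d = b * c := by linarith
  have e2 : b * d = c ^ 2 := by linarith
  by_cases ha : a = 0
  · subst ha
    have hb : b = 0 := by simpa using e0.symm
    subst hb
    have hc : c = 0 := by simpa using e2.symm
    subst hc
    exact ⟨d, 0, 1, isCoprime_one_right, le_rfl, by simp, by simp, by simp, by simp⟩
  · have hg : 0 < Int.gcd a b := Int.gcd_pos_of_ne_zero_left _ ha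
    obtain ⟨m, n, hmn, ha', hb'⟩ := Int.exists_gcd_one hg
    set g : ℤ := (Int.gcd a b : ℤ) with hgdef
    have hg0 : g ≠ 0 := by
      rw [hgdef]
      exact_mod_cast hg.ne'
    have hcop : IsCoprime m n := Int.isCoprime_iff_gcd_eq_one.2 hmn
    have hm0 : m ≠ 0 := by
      rintro rfl
      exact ha (by rw [ha']; ring)
    have e3 : m * c = g * n ^ 2 := by
      apply mul_left_cancel₀ hg0
      have : (m * g) * c = (n * g) ^ 2 := by rw [← ha', ← hb']; exact e0
      linarith [(by ring : (m * g) * c = g * (m * c)), (by ring : (n * g) ^ 2 = g * (g * n ^ 2))]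
    have hdv : m ∣ g := by
      have : m ∣ g * n ^ 2 := ⟨c, e3.symm⟩
      exact (hcop.pow_right (n := 2)).dvd_of_dvd_mul_right this
    obtain ⟨g', hg'⟩ := hdv
    have e4 : c = n ^ 2 * g' := by
      apply mul_left_cancel₀ hm0
      rw [e3, hg']; ring
    have e5 : m * d = n ^ 3 * g' := by
      apply mul_left_cancel₀ hg0
      have : (m * g) * d = (n * g) * c := by rw [← ha', ← hb']; exact e1
      rw [e4] at this
      linarith [(by ring : (m * g) * d = g * (m * d)),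
        (by ring : (n * g) * (n ^ 2 * g') = g * (n ^ 3 * g'))]
    have hdv' : m ∣ g' := by
      have : m ∣ g' * n ^ 3 := ⟨d, by rw [e5]; ring⟩
      exact (hcop.pow_right (n := 3)).dvd_of_dvd_mul_right this
    obtain ⟨κ, hκ⟩ := hdv'
    have e6 : d = n ^ 3 * κ := by
      apply mul_left_cancel₀ hm0
      rw [e5, hκ]; ring
    have r1 : a = κ * m ^ 3 := by rw [ha', hg', hκ]; ring
    have r2 : b = κ * m ^ 2 * n := by rw [hb', hg', hκ]; ring
    have r3 : c = κ * m * n ^ 2 := by rw [e4, hκ]; ring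
    have r4 : d = κ * n ^ 3 := by rw [e6]; ring
    rcases le_total 0 m with hm | hm
    · exact ⟨κ, m, n, hcop, hm, r1, r2, r3, r4⟩
    · exact ⟨-κ, -m, -n, hcop.neg_left.neg_right, by linarith, by rw [r1]; ring,
        by rw [r2]; ring, by rw [r3]; ring, by rw [r4]; ring⟩

theorem deg : Deg := ⟨deg_part1, deg_part2⟩

end MP_211f72_nt
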