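import Pool.Agent.Lib.MP_211f72_nt.Spec
import Pool.Agent.Lib.MP_211f72_nt.Basic

/-! # MP_211f72_nt: elementary facts on the exponent -/

namespace MP_211f72_nt

open Filter

private lemma expo_anti {n : ℕ} {ξ lam lam' : ℝ} (h : lam' ≤ lam) (hA : Approx n ξ lam) :
    Approx n ξ lam' := by
  intro X₀
  obtain ⟨X, hX, x, h0, h1, h2⟩ := hA (max X₀ 1)
  refine ⟨X, (le_max_left _ _).trans hX, x, h0, h1, fun j hj => (h2 j hj).trans ?_⟩
  exact Real.rpow_le_rpow_of_exponent_le ((le_max_right _ _).trans hX) (by linarith)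

private lemma expo_one (n : ℕ) (ξ lam lam' : ℝ) (h : lambdaExp n ξ = (lam : EReal))
    (hlt : lam' < lam) : Approx n ξ lam' := by
  have h1 : (lam' : EReal) < lambdaExp n ξ := by
    rw [h]
    exact EReal.coe_lt_coe_iff.mpr hlt
  rw [lambdaExp, lt_sSup_iff] at h1
  obtain ⟨l, ⟨lam'', rfl, hA⟩, hl⟩ := h1
  exact expo_anti (EReal.coe_lt_coe_iff.mp hl).le hA

private lemma expo_two (n : ℕ) (ξ lam : ℝ) (hA : Approx n ξ lam)
    (hn : ∀ k : ℕ, ¬ Approx n ξ (lam + 1 / (k + 1))) : lambdaExp n ξ = (lam : EReal) := by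
  refine le_antisymm (sSup_le ?_) (le_sSup ⟨lam, rfl, hA⟩)
  rintro l ⟨lam', rfl, hA'⟩
  rw [EReal.coe_le_coe_iff]
  by_contra hcon
  obtain ⟨k, hk⟩ := exists_nat_one_div_lt (sub_pos.mpr (not_le.mp hcon))
  exact hn k (expo_anti (by linarith) hA')

private lemma expo_min {ξ : ℝ} (hξ : Irrational ξ) (M : ℕ) :
    ∃ c : ℝ, 0 < c ∧ ∀ q : ℤ, q ≠ 0 → |q| < (M : ℤ) → ∀ p : ℤ, c ≤ |(q : ℝ) * ξ - p| := by
  classical
  set S : Finset ℤ := (Finset.Ioo (-(M : ℤ)) M).filter fun q => q ≠ 0 with hS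
  have hmem : ∀ q : ℤ, q ≠ 0 → |q| < (M : ℤ) → q ∈ S := by
    intro q hq hqM
    rw [hS, Finset.mem_filter, Finset.mem_Ioo]
    exact ⟨abs_lt.mp hqM, hq⟩
  have hpos : ∀ q ∈ S, 0 < |(q : ℝ) * ξ - round ((q : ℝ) * ξ)| := by
    intro q hq
    have hq0 : q ≠ 0 := (Finset.mem_filter.mp hq).2
    have h1 : Irrational ((q : ℝ) * ξ) := hξ.intCast_mul hq0
    rw [abs_pos, sub_ne_zero]
    exact h1.ne_int _
  rcases S.eq_empty_or_nonempty with h0 | h0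
  · refine ⟨1, one_pos, fun q hq hqM p => ?_⟩
    have := hmem q hq hqM
    rw [h0] at this
    exact absurd this (Finset.notMem_empty _)
  · obtain ⟨q0, hq0, hmin⟩ := Finset.exists_min_image S
      (fun q => |(q : ℝ) * ξ - round ((q : ℝ) * ξ)|) h0
    refine ⟨_, hpos q0 hq0, fun q hq hqM p => ?_⟩
    exact (hmin q (hmem q hq hqM)).trans (round_le _ _)

private lemma expo_three (ξ lam : ℝ) (hξ : Irrational ξ) (hlam : 0 < lam) (hA : Approx 3 ξ lam)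
    (M : ℕ) : Gd lam M ξ := by
  obtain ⟨c, hc, hmin⟩ := expo_min hξ M
  have h1 := (tendsto_rpow_neg_atTop hlam).eventually_lt_const hc
  rw [eventually_atTop] at h1
  obtain ⟨X₀, hX₀⟩ := h1
  obtain ⟨X, hX, x, h0, hxX, h2⟩ := hA X₀
  have hx0 : x 0 ≠ 0 := by
    intro h
    rw [h] at h0
    simp at h0
  have hle : X ^ (-lam) ≤ |(x 0 : ℝ)| ^ (-lam) :=
    Real.rpow_le_rpow_of_nonpos h0 hxX (by linarith)
  have e1 := h2 1 (by decide)
  have e2 := h2 2 (by decide)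
  have e3 := h2 3 (by decide)
  have v1 : ((1 : Fin (3 + 1)) : ℕ) = 1 := rfl
  have v2 : ((2 : Fin (3 + 1)) : ℕ) = 2 := rfl
  have v3 : ((3 : Fin (3 + 1)) : ℕ) = 3 := rfl
  rw [v1, pow_one] at e1
  rw [v2] at e2
  rw [v3] at e3
  refine ⟨⟨x 0, x 1, x 2, x 3⟩, ?_, hx0, e1.trans hle, e2.trans hle, e3.trans hle⟩
  by_contra hcon
  have h3 := hmin (x 0) hx0 (not_le.mp hcon) (x 1)
  exact absurd (h3.trans e1) (not_le.mpr (hX₀ X hX))

private lemma expo_four (ξ lam : ℝ) (h : ∀ M : ℕ, Gd lam M ξ) : Approx 3 ξ lam := by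
  intro X₀
  obtain ⟨⟨a, b, c, d⟩, hM, ha, h1, h2, h3⟩ := h ⌈X₀⌉₊
  dsimp only at hM ha h1 h2 h3
  have hle : X₀ ≤ |(a : ℝ)| := by
    refine (Nat.le_ceil X₀).trans ?_
    have : ((⌈X₀⌉₊ : ℤ) : ℝ) ≤ ((|a| : ℤ) : ℝ) := Int.cast_le.mpr hM
    rwa [Int.cast_natCast, Int.cast_abs] at this
  refine ⟨|(a : ℝ)|, hle, ![a, b, c, d], ?_, le_rfl, ?_⟩
  · change 0 < |(a : ℝ)|
    rw [abs_pos]
    exact_mod_cast ha
  · intro j hj
    fin_cases j
    · exact absurd hj (by decide)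
    · change |(a : ℝ) * ξ ^ 1 - (b : ℝ)| ≤ _
      rw [pow_one]
      exact h1
    · exact h2
    · exact h3

/-- Elementary facts on the exponent. -/
theorem expo : Expo :=
  ⟨expo_one, expo_two, expo_three, expo_four⟩

end MP_211f72_nt
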