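import Pool.Agent.Lib.MP_211f72_nt.Spec
import Pool.Agent.Lib.MP_211f72_nt.Basic

/-!
# MP_211f72_nt: the secant points and the two-level count
-/

namespace MP_211f72_nt

open scoped Classical in
theorem twoLevel : TwoLevel := by
  intro P m e σ1 σ2 ω hσ1 hσ2 hω hP he hsep a r hr
  set S := (P ×ˢ Finset.range m).filter
    (fun q => a ≤ q.1 + e q.1 q.2 ∧ q.1 + e q.1 q.2 ≤ a + r) with hS
  have hmem : ∀ q ∈ S, q.1 ∈ P ∧ q.2 < m ∧ a ≤ q.1 + e q.1 q.2 ∧ q.1 + e q.1 q.2 ≤ a + r := by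
    intro q hq
    rw [hS, Finset.mem_filter, Finset.mem_product, Finset.mem_range] at hq
    exact ⟨hq.1.1, hq.1.2, hq.2.1, hq.2.2⟩
  have himg : (((S.image Prod.fst).card : ℕ) : ℝ) ≤ (r + ω) / σ1 + 1 := by
    refine sep_card_le (S.image Prod.fst) σ1 (a - ω) (r + ω) hσ1 (by linarith) ?_ ?_
    · intro x hx y hy hxy
      obtain ⟨q, hq, rfl⟩ := Finset.mem_image.1 hx
      obtain ⟨q', hq', rfl⟩ := Finset.mem_image.1 hy
      exact hP _ (hmem q hq).1 _ (hmem q' hq').1 hxy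
    · intro x hx
      obtain ⟨q, hq, rfl⟩ := Finset.mem_image.1 hx
      obtain ⟨h1, h2, h3, h4⟩ := hmem q hq
      obtain ⟨h5, h6⟩ := he q.1 h1 q.2 h2
      constructor <;> linarith
  have hfib : ∀ p ∈ S.image Prod.fst,
      (((S.filter fun q => Prod.fst q = p).card : ℕ) : ℝ) ≤ min (m : ℝ) (r / σ2 + 1) := by
    intro p hp
    obtain ⟨q₀, hq₀, hqp⟩ := Finset.mem_image.1 hp
    have hpP : p ∈ P := by rw [← hqp]; exact (hmem q₀ hq₀).1
    set T := (Finset.range m).filter (fun i => a ≤ p + e p i ∧ p + e p i ≤ a + r) with hT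
    have hcard : (S.filter fun q => Prod.fst q = p).card ≤ T.card := by
      apply Finset.card_le_card_of_injOn Prod.snd
      · intro q hq
        rw [Finset.mem_coe, Finset.mem_filter] at hq
        obtain ⟨hq1, hq2⟩ := hq
        obtain ⟨h1, h2, h3, h4⟩ := hmem q hq1
        rw [hq2] at h3 h4
        rw [Finset.mem_coe, hT, Finset.mem_filter, Finset.mem_range]
        exact ⟨h2, h3, h4⟩
      · intro q hq q' hq' hqq
        rw [Finset.mem_coe, Finset.mem_filter] at hq hq'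
        exact Prod.ext (hq.2.trans hq'.2.symm) hqq
    apply le_min
    · have h1 : T.card ≤ m := by
        have := Finset.card_filter_le (Finset.range m)
          (fun i => a ≤ p + e p i ∧ p + e p i ≤ a + r)
        rwa [Finset.card_range] at this
      exact_mod_cast hcard.trans h1
    · have hinj : Set.InjOn (fun i => e p i) (T : Set ℕ) := by
        intro i hi j hj hij
        by_contra hne
        rw [Finset.mem_coe, hT, Finset.mem_filter, Finset.mem_range] at hi hj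
        have h1 := hsep p hpP i hi.1 j hj.1 hne
        simp only at hij
        rw [hij, sub_self, abs_zero] at h1
        linarith
      have h1 : (((T.image (fun i => e p i)).card : ℕ) : ℝ) ≤ r / σ2 + 1 := by
        refine sep_card_le _ σ2 (a - p) r hσ2 hr ?_ ?_
        · intro x hx y hy hxy
          obtain ⟨i, hi, rfl⟩ := Finset.mem_image.1 hx
          obtain ⟨j, hj, rfl⟩ := Finset.mem_image.1 hy
          rw [hT, Finset.mem_filter, Finset.mem_range] at hi hj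
          exact hsep p hpP i hi.1 j hj.1 (fun h => hxy (by rw [h]))
        · intro x hx
          obtain ⟨i, hi, rfl⟩ := Finset.mem_image.1 hx
          rw [hT, Finset.mem_filter, Finset.mem_range] at hi
          constructor <;> linarith [hi.2.1, hi.2.2]
      rw [Finset.card_image_of_injOn hinj] at h1
      have h2 : (((S.filter fun q => Prod.fst q = p).card : ℕ) : ℝ) ≤ (T.card : ℝ) := by
        exact_mod_cast hcard
      linarith
  have hmain := card_le_mul_card_image_real S Prod.fst (min (m : ℝ) (r / σ2 + 1)) hfib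
  have hB : 0 ≤ min (m : ℝ) (r / σ2 + 1) := le_min (by positivity) (by positivity)
  calc (S.card : ℝ) ≤ min (m : ℝ) (r / σ2 + 1) * (S.image Prod.fst).card := hmain
    _ ≤ min (m : ℝ) (r / σ2 + 1) * ((r + ω) / σ1 + 1) := by gcongr
    _ = ((r + ω) / σ1 + 1) * min (m : ℝ) (r / σ2 + 1) := mul_comm _ _

/-- the main term of the error -/
theorem famTwo_size (lam N C : ℝ) (h0 : 0 < lam) (h1 : lam < 1) (hN : 1 ≤ N) (hC : 1 ≤ C)
    (h : 20 * N ^ (2 * lam) ≤ C ^ (1 - lam)) :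
    (10 / 9) / C ≤ (9 * N ^ 2 * C) ^ (-lam) / 2 := by
  have hN0 : 0 < N := by linarith
  have hC0 : 0 < C := by linarith
  have e1 : (9 * N ^ 2 * C) ^ lam = 9 ^ lam * N ^ (2 * lam) * C ^ lam := by
    rw [Real.mul_rpow (by positivity) hC0.le, Real.mul_rpow (by norm_num) (by positivity),
      ← Real.rpow_natCast N 2, ← Real.rpow_mul hN0.le]
    norm_num
  have e2 : (9 : ℝ) ^ lam ≤ 9 := by
    calc (9 : ℝ) ^ lam ≤ 9 ^ (1 : ℝ) := Real.rpow_le_rpow_of_exponent_le (by norm_num) h1.le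
      _ = 9 := Real.rpow_one 9
  have e3 : C = C ^ (1 - lam) * C ^ lam := by
    rw [← Real.rpow_add hC0, sub_add_cancel, Real.rpow_one]
  have hp1 : 0 < N ^ (2 * lam) := by positivity
  have hp2 : 0 < C ^ lam := by positivity
  have hp3 : 0 < (9 : ℝ) ^ lam := by positivity
  have key : (20 / 9) * (9 * N ^ 2 * C) ^ lam ≤ C := by
    rw [e1]
    calc (20 / 9) * (9 ^ lam * N ^ (2 * lam) * C ^ lam)
        ≤ (20 / 9) * (9 * N ^ (2 * lam) * C ^ lam) := by gcongr
      _ = (20 * N ^ (2 * lam)) * C ^ lam := by ring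
      _ ≤ C ^ (1 - lam) * C ^ lam := by gcongr
      _ = C := e3.symm
  rw [Real.rpow_neg (by positivity)]
  have hX : 0 < (9 * N ^ 2 * C) ^ lam := by positivity
  rw [div_le_div_iff₀ hC0 (by norm_num), inv_mul_eq_div, le_div_iff₀ hX]
  linarith

theorem fam : Fam := by
  intro lam N C ρ ξ m n c e h0 h1 hN hC hCN hm hmN hn hnm hdet hCc hcC hρ0 hρ hξ0 hξ1 hξ
  have hN0 : 0 < N := by linarith
  have hC0 : 0 < C := by linarith
  have hsize := famTwo_size lam N C h0 h1 hN hC hCN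
  set S := (9 * N ^ 2 * C) ^ (-lam) with hS
  have hmr : (0 : ℝ) < m := by exact_mod_cast hm
  have hm1 : (1 : ℝ) ≤ m := by exact_mod_cast hm
  have hnr : (0 : ℝ) ≤ n := by exact_mod_cast hn
  have hnmr : (n : ℝ) ≤ m := by exact_mod_cast hnm
  have hcr : (0 : ℝ) < c := by linarith
  have hc1 : (1 : ℝ) ≤ c := by linarith
  have hmc1 : (1 : ℝ) ≤ m * c := one_le_mul_of_one_le_of_one_le hm1 hc1
  have hdetr : (m : ℝ) * e - n * c = 1 := by exact_mod_cast hdet
  have her : (e : ℝ) = (n * c + 1) / m := by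
    rw [eq_div_iff hmr.ne']; linarith
  set ζ : ℝ := (n : ℝ) / m + 1 / (3 * m * c) with hζ
  have hζ0 : 0 ≤ ζ := by positivity
  have hζ1 : ζ ≤ 4 / 3 := by
    have x1 : (n : ℝ) / m ≤ 1 := by rw [div_le_one hmr]; exact hnmr
    have x2 : 1 / (3 * (m : ℝ) * c) ≤ 1 / 3 := by
      apply one_div_le_one_div_of_le (by norm_num)
      linarith
    linarith
  set A : ℝ := 3 * (m : ℝ) ^ 2 * c with hA
  have hA0 : 0 < A := by positivity
  have hAle : A ≤ 9 * N ^ 2 * C := by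
    calc A ≤ 3 * N ^ 2 * (3 * C) := by rw [hA]; gcongr
      _ = 9 * N ^ 2 * C := by ring
  have hSA : S ≤ A ^ (-lam) :=
    Real.rpow_le_rpow_of_nonpos hA0 hAle (by linarith)
  have hAρ : A * (5 * ρ) ≤ S / 2 := by
    calc A * (5 * ρ) ≤ (9 * N ^ 2 * C) * (5 * ρ) := by gcongr
      _ = (90 * N ^ 2 * C * ρ) / 2 := by ring
      _ ≤ S / 2 := by gcongr
  -- the exact values at ζ
  have v1 : A * ζ = (m : ℝ) * (2 * n * c + m * e) := by
    rw [hA, hζ, her]; field_simp; ring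
  have v2 : A * ζ ^ 2 - (n : ℝ) * (n * c + 2 * m * e) = 1 / (3 * c) := by
    rw [hA, hζ, her]; field_simp; ring
  have v3 : A * ζ ^ 3 - 3 * (n : ℝ) ^ 2 * e = n / (m * c) + 1 / (9 * m * c ^ 2) := by
    rw [hA, hζ, her]; field_simp; ring
  have b2 : |A * ζ ^ 2 - (n : ℝ) * (n * c + 2 * m * e)| ≤ (10 / 9) / C := by
    rw [v2, abs_of_nonneg (by positivity)]
    rw [div_le_div_iff₀ (by positivity) hC0]
    linarith
  have b3 : |A * ζ ^ 3 - 3 * (n : ℝ) ^ 2 * e| ≤ (10 / 9) / C := by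
    rw [v3, abs_of_nonneg (by positivity)]
    have x1 : (n : ℝ) / (m * c) ≤ 1 / C := by
      rw [div_le_div_iff₀ (by positivity) hC0]
      calc (n : ℝ) * C ≤ m * c := by gcongr
        _ = 1 * (m * c) := (one_mul _).symm
    have x2 : 1 / (9 * (m : ℝ) * c ^ 2) ≤ (1 / 9) / C := by
      rw [div_le_div_iff₀ (by positivity) hC0]
      calc 1 * C ≤ 1 * (c : ℝ) := by gcongr
        _ ≤ (m * c) * c := mul_le_mul_of_nonneg_right hmc1 hcr.le
        _ = 1 / 9 * (9 * m * c ^ 2) := by ring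
    have x4 : (10 / 9) / C = 1 / C + (1 / 9) / C := by rw [← add_div]; norm_num
    rw [x4]; linarith
  -- the moves
  have d1 : |ξ - ζ| ≤ 5 * ρ := by linarith
  have d2 : |ξ ^ 2 - ζ ^ 2| ≤ 5 * ρ := by
    have x : ξ ^ 2 - ζ ^ 2 = (ξ - ζ) * (ξ + ζ) := by ring
    rw [x, abs_mul, abs_of_nonneg (by linarith : 0 ≤ ξ + ζ)]
    calc |ξ - ζ| * (ξ + ζ) ≤ ρ * 5 := by
          gcongr
          linarith
      _ = 5 * ρ := mul_comm _ _
  have d3 : |ξ ^ 3 - ζ ^ 3| ≤ 5 * ρ := by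
    have x : ξ ^ 3 - ζ ^ 3 = (ξ - ζ) * (ξ ^ 2 + ξ * ζ + ζ ^ 2) := by ring
    rw [x, abs_mul, abs_of_nonneg (by positivity : 0 ≤ ξ ^ 2 + ξ * ζ + ζ ^ 2)]
    calc |ξ - ζ| * (ξ ^ 2 + ξ * ζ + ζ ^ 2) ≤ ρ * 5 := by
          gcongr
          have y1 : ξ ^ 2 ≤ 1 := pow_le_one₀ hξ0 hξ1
          have y2 : ξ * ζ ≤ 1 * (4 / 3) := by gcongr
          have y3 : ζ ^ 2 ≤ (4 / 3) ^ 2 := by gcongr
          linarith
      _ = 5 * ρ := mul_comm _ _
  have comb : ∀ (x y z : ℝ), |x - y| ≤ 5 * ρ → |A * y - z| ≤ (10 / 9) / C →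
      |A * x - z| ≤ A ^ (-lam) := by
    intro x y z hx hy
    have e1 : A * x - z = A * (x - y) + (A * y - z) := by ring
    rw [e1]
    refine (abs_add_le _ _).trans ?_
    rw [abs_mul, abs_of_pos hA0]
    have : A * |x - y| ≤ A * (5 * ρ) := by gcongr
    linarith
  have hcast : ((3 * m ^ 2 * c : ℤ) : ℝ) = A := by rw [hA]; push_cast; ring
  have habs : |((3 * m ^ 2 * c : ℤ) : ℝ)| = A := by rw [hcast, abs_of_pos hA0]
  refine ⟨?_, ?_, ?_⟩
  · rw [habs]
    change |((3 * m ^ 2 * c : ℤ) : ℝ) * ξ - ((m * (2 * n * c + m * e) : ℤ) : ℝ)| ≤ _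
    rw [hcast]
    refine comb ξ ζ _ d1 ?_
    push_cast
    rw [v1, sub_self, abs_zero]
    positivity
  · rw [habs]
    change |((3 * m ^ 2 * c : ℤ) : ℝ) * ξ ^ 2 - ((n * (n * c + 2 * m * e) : ℤ) : ℝ)| ≤ _
    rw [hcast]
    refine comb _ _ _ d2 ?_
    push_cast
    exact b2
  · rw [habs]
    change |((3 * m ^ 2 * c : ℤ) : ℝ) * ξ ^ 3 - ((3 * n ^ 2 * e : ℤ) : ℝ)| ≤ _
    rw [hcast]
    refine comb _ _ _ d3 ?_
    push_cast
    exact b3

end MP_211f72_nt
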