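import Pool.Agent.Lib.MP_211f72_nt.Spec
import Pool.Agent.Lib.MP_211f72_nt.Basic

/-!
# MP_211f72_nt: lower bound for the number of reduced fractions in an interval
-/

namespace MP_211f72_nt

open Filter Topology

/-- lattice points in a triangle -/
noncomputable def fareyT (u v : ℝ) (n : ℕ) : Finset ((_ : ℕ) × ℤ) :=
  (Finset.Icc 1 n).sigma (fun a => Finset.Icc ⌈u * a⌉ ⌊v * a⌋)

lemma farey_mem (u v : ℝ) (n : ℕ) (x : (_ : ℕ) × ℤ) :
    x ∈ fareyT u v n ↔ 1 ≤ x.1 ∧ x.1 ≤ n ∧ u * x.1 ≤ x.2 ∧ (x.2 : ℝ) ≤ v * x.1 := by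
  unfold fareyT
  rw [Finset.mem_sigma, Finset.mem_Icc, Finset.mem_Icc, Int.ceil_le, Int.le_floor]
  tauto

lemma farey_row (u v : ℝ) (h : u < v) (a : ℕ) :
    (v - u) * a - 1 ≤ ((Finset.Icc ⌈u * a⌉ ⌊v * a⌋).card : ℝ) ∧
      ((Finset.Icc ⌈u * a⌉ ⌊v * a⌋).card : ℝ) ≤ (v - u) * a + 1 := by
  rw [Int.card_Icc]
  have h1 := Int.ceil_lt_add_one (u * a)
  have h2 := Int.le_ceil (u * a)
  have h3 := Int.floor_le (v * a)
  have h4 := Int.lt_floor_add_one (v * a)
  set m : ℤ := ⌊v * a⌋ + 1 - ⌈u * a⌉ with hm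
  have hmr : (m : ℝ) = (⌊v * a⌋ : ℝ) + 1 - (⌈u * a⌉ : ℝ) := by
    rw [hm]
    push_cast
    ring
  have h5 : (m : ℝ) ≤ ((m.toNat : ℕ) : ℝ) := by exact_mod_cast Int.self_le_toNat m
  constructor
  · linarith
  · have h6 : ((m.toNat : ℕ) : ℝ) = max (m : ℝ) 0 := by
      have : ((m.toNat : ℕ) : ℤ) = max m 0 := Int.toNat_eq_max m
      have h7 : (((m.toNat : ℕ) : ℤ) : ℝ) = ((max m 0 : ℤ) : ℝ) := by rw [this]
      push_cast at h7
      exact h7
    rw [h6]
    apply max_le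
    · linarith
    · have : 0 ≤ (v - u) * (a : ℝ) := mul_nonneg (by linarith) (by positivity)
      linarith

lemma farey_sum_id (n : ℕ) : ∑ a ∈ Finset.Icc 1 n, (a : ℝ) = n * (n + 1) / 2 := by
  induction n with
  | zero => simp
  | succ k ih =>
    rw [Finset.sum_Icc_succ_top (by omega), ih]
    push_cast
    ring

lemma farey_card (u v : ℝ) (h : u < v) (n : ℕ) :
    (v - u) * (n * (n + 1) / 2) - n ≤ ((fareyT u v n).card : ℝ) ∧
      ((fareyT u v n).card : ℝ) ≤ (v - u) * (n * (n + 1) / 2) + n := by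
  unfold fareyT
  rw [Finset.card_sigma]
  push_cast
  have hn : ∑ a ∈ Finset.Icc 1 n, (1 : ℝ) = n := by simp
  have h1 := Finset.sum_le_sum (fun a (_ : a ∈ Finset.Icc 1 n) => (farey_row u v h a).1)
  have h2 := Finset.sum_le_sum (fun a (_ : a ∈ Finset.Icc 1 n) => (farey_row u v h a).2)
  rw [Finset.sum_sub_distrib, ← Finset.mul_sum, farey_sum_id, hn] at h1
  rw [Finset.sum_add_distrib, ← Finset.mul_sum, farey_sum_id, hn] at h2
  exact ⟨h1, h2⟩

lemma farey_cover (u v : ℝ) (n : ℕ) (x : (_ : ℕ) × ℤ) (hx : x ∈ fareyT u v n)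
    (hbad : ¬ ((1 / 4 : ℝ) * n < x.1 ∧ IsCoprime (x.1 : ℤ) x.2)) :
    x ∈ fareyT u v (n / 4) ∪ (Finset.Icc 2 n).biUnion
      (fun d => (fareyT u v (n / d)).image (fun y => (⟨d * y.1, d * y.2⟩ : (_ : ℕ) × ℤ))) := by
  rw [farey_mem] at hx
  obtain ⟨h1, h2, h3, h4⟩ := hx
  rw [Finset.mem_union]
  by_cases hs : (1 / 4 : ℝ) * n < x.1
  · right
    have hnc : ¬ IsCoprime (x.1 : ℤ) x.2 := fun h => hbad ⟨hs, h⟩
    rw [Int.isCoprime_iff_gcd_eq_one] at hnc
    set d := Int.gcd (x.1 : ℤ) x.2 with hd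
    have hd1 : (d : ℤ) ∣ x.1 := Int.gcd_dvd_left ..
    have hd2 : (d : ℤ) ∣ x.2 := Int.gcd_dvd_right ..
    have hd1' : d ∣ x.1 := by exact_mod_cast hd1
    have hdpos : 0 < d := Nat.pos_of_dvd_of_pos hd1' (by omega)
    have hdle : d ≤ x.1 := Nat.le_of_dvd (by omega) hd1'
    obtain ⟨a, ha⟩ := hd1'
    obtain ⟨b, hb⟩ := hd2
    rw [Finset.mem_biUnion]
    refine ⟨d, Finset.mem_Icc.mpr ⟨by omega, by omega⟩, ?_⟩
    rw [Finset.mem_image]
    have hdr : (0 : ℝ) < d := by exact_mod_cast hdpos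
    refine ⟨⟨a, b⟩, ?_, ?_⟩
    · rw [farey_mem]
      refine ⟨?_, ?_, ?_, ?_⟩
      · rcases Nat.eq_zero_or_pos a with h0 | h0
        · rw [h0] at ha
          simp only
          omega
        · exact h0
      · rw [Nat.le_div_iff_mul_le hdpos]
        simp only
        rw [mul_comm, ← ha]
        exact h2
      · have e1 : (x.1 : ℝ) = d * a := by rw [ha]; push_cast; ring
        have e2 : (x.2 : ℝ) = d * b := by rw [hb]; push_cast; ring
        rw [e1, e2] at h3
        simp only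
        have : (d : ℝ) * (u * a) ≤ d * b := by linarith
        exact le_of_mul_le_mul_left this hdr
      · have e1 : (x.1 : ℝ) = d * a := by rw [ha]; push_cast; ring
        have e2 : (x.2 : ℝ) = d * b := by rw [hb]; push_cast; ring
        rw [e1, e2] at h4
        simp only
        have : (d : ℝ) * b ≤ d * (v * a) := by linarith
        exact le_of_mul_le_mul_left this hdr
    · simp only
      rw [← ha, ← hb]
  · left
    rw [farey_mem]
    refine ⟨h1, ?_, h3, h4⟩
    push Not at hs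
    rw [Nat.le_div_iff_mul_le (by norm_num)]
    have : (x.1 : ℝ) * 4 ≤ n := by linarith
    exact_mod_cast this

lemma farey_sum_sq (n : ℕ) : ∑ d ∈ Finset.Icc 2 n, (1 : ℝ) / (d : ℝ) ^ 2 ≤ 3 / 4 := by
  have key : ∀ n : ℕ, 2 ≤ n → ∑ d ∈ Finset.Icc 2 n, (1 : ℝ) / (d : ℝ) ^ 2 ≤ 3 / 4 - 1 / n := by
    intro n hn
    induction n, hn using Nat.le_induction with
    | base => norm_num
    | succ k hk ih =>
      rw [Finset.sum_Icc_succ_top (by omega)]
      have hk0 : (0 : ℝ) < k := by exact_mod_cast (by omega : 0 < k)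
      have h1 : (1 : ℝ) / ((k + 1 : ℕ) : ℝ) ^ 2 ≤ 1 / k - 1 / ((k + 1 : ℕ) : ℝ) := by
        push_cast
        rw [div_sub_div _ _ hk0.ne' (by positivity), div_le_div_iff₀ (by positivity) (by positivity)]
        nlinarith
      linarith
  rcases le_or_gt 2 n with h | h
  · have h1 := key n h
    have h2 : (0 : ℝ) ≤ 1 / n := by positivity
    linarith
  · rw [Finset.Icc_eq_empty (by omega), Finset.sum_empty]
    norm_num

lemma farey_sum_inv (n : ℕ) : ∑ d ∈ Finset.Icc 2 n, (1 : ℝ) / (d : ℝ) ≤ 1 + Real.log n := by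
  have h1 : ∑ d ∈ Finset.Icc 2 n, (1 : ℝ) / (d : ℝ) ≤ ∑ d ∈ Finset.Icc 1 n, (1 : ℝ) / (d : ℝ) := by
    apply Finset.sum_le_sum_of_subset_of_nonneg
    · exact Finset.Icc_subset_Icc_left (by norm_num)
    · intros
      positivity
  have h2 : ∑ d ∈ Finset.Icc 1 n, (1 : ℝ) / (d : ℝ) = (harmonic n : ℝ) := by
    rw [harmonic_eq_sum_Icc]
    push_cast
    simp
  rw [h2] at h1
  exact h1.trans (harmonic_le_one_add_log n)

theorem farey : Farey := by
  refine ⟨1 / 4, 1 / 32, by norm_num, by norm_num, by norm_num, fun u v huv => ?_⟩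
  set δ := v - u with hδ
  have hδ0 : 0 < δ := by linarith
  have hlim : Tendsto (fun N : ℕ => (5 / 4 + δ / 8 + (δ / 2 + 1) * (1 + Real.log N)) / N)
      atTop (𝓝 0) := by
    have h1 : Tendsto (fun x : ℝ => Real.log x / x) atTop (𝓝 0) := by
      have := Real.isLittleO_log_id_atTop.tendsto_div_nhds_zero
      simpa using this
    have h2 : Tendsto (fun N : ℕ => Real.log (N : ℝ) / (N : ℝ)) atTop (𝓝 0) :=
      h1.comp tendsto_natCast_atTop_atTop
    have h3 : Tendsto (fun N : ℕ => (5 / 4 + δ / 8 + (δ / 2 + 1)) / (N : ℝ)) atTop (𝓝 0) :=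
      tendsto_const_div_atTop_nhds_zero_nat _
    have h4 := h3.add (h2.const_mul (δ / 2 + 1))
    rw [mul_zero, add_zero] at h4
    refine h4.congr fun N => ?_
    ring
  obtain ⟨N₀, hN₀⟩ := eventually_atTop.mp (hlim.eventually (gt_mem_nhds
    (show 0 < δ / 16 by linarith)))
  refine ⟨max N₀ 1, fun N hN => ?_⟩
  have hN1 : N₀ ≤ N := (le_max_left _ _).trans hN
  have hN2 : 1 ≤ N := (le_max_right _ _).trans hN
  have hNr : (0 : ℝ) < N := by exact_mod_cast hN2
  have hsmall := hN₀ N hN1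
  rw [div_lt_iff₀ hNr] at hsmall
  classical
  set G := (fareyT u v N).filter
    (fun x => (1 / 4 : ℝ) * N < x.1 ∧ IsCoprime (x.1 : ℤ) x.2) with hG
  refine ⟨G.image (fun x => ((x.1 : ℤ), x.2)), ?_, ?_⟩
  · intro p hp
    obtain ⟨x, hx, rfl⟩ := Finset.mem_image.mp hp
    rw [hG, Finset.mem_filter, farey_mem] at hx
    obtain ⟨⟨h1, h2, h3, h4⟩, h5, h6⟩ := hx
    refine ⟨?_, ?_, ?_, h6, ?_, ?_⟩
    · simpa using h5
    · simp only
      exact_mod_cast h2
    · simp only
      exact_mod_cast h1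
    · simpa using h3
    · simpa using h4
  · have hinj : Function.Injective (fun x : (_ : ℕ) × ℤ => ((x.1 : ℤ), x.2)) := by
      rintro ⟨a, b⟩ ⟨a', b'⟩ h
      simp only [Prod.mk.injEq, Nat.cast_inj] at h
      obtain ⟨rfl, rfl⟩ := h
      rfl
    rw [Finset.card_image_of_injective _ hinj]
    have hcard : (fareyT u v N).card ≤ G.card + ((fareyT u v (N / 4)).card +
        ∑ d ∈ Finset.Icc 2 N, (fareyT u v (N / d)).card) := by
      rw [← Finset.card_filter_add_card_filter_not (s := fareyT u v N)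
        (fun x => (1 / 4 : ℝ) * N < x.1 ∧ IsCoprime (x.1 : ℤ) x.2), ← hG]
      apply Nat.add_le_add_left
      calc _ ≤ (fareyT u v (N / 4) ∪ (Finset.Icc 2 N).biUnion
            (fun d => (fareyT u v (N / d)).image
              (fun y => (⟨d * y.1, d * y.2⟩ : (_ : ℕ) × ℤ)))).card := by
            apply Finset.card_le_card
            intro x hx
            rw [Finset.mem_filter] at hx
            exact farey_cover u v N x hx.1 hx.2
        _ ≤ (fareyT u v (N / 4)).card + ((Finset.Icc 2 N).biUnion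
            (fun d => (fareyT u v (N / d)).image
              (fun y => (⟨d * y.1, d * y.2⟩ : (_ : ℕ) × ℤ)))).card := Finset.card_union_le _ _
        _ ≤ _ := by
            apply Nat.add_le_add_left
            refine Finset.card_biUnion_le.trans (Finset.sum_le_sum fun d _ => ?_)
            exact Finset.card_image_le
    have hcardr : ((fareyT u v N).card : ℝ) ≤ G.card + ((fareyT u v (N / 4)).card +
        ∑ d ∈ Finset.Icc 2 N, ((fareyT u v (N / d)).card : ℝ)) := by exact_mod_cast hcard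
    have hN' := (farey_card u v huv N).1
    have h4 : ((fareyT u v (N / 4)).card : ℝ) ≤ δ * (N / 4 * (N / 4 + 1) / 2) + N / 4 := by
      refine (farey_card u v huv (N / 4)).2.trans ?_
      have h5 : ((N / 4 : ℕ) : ℝ) ≤ N / 4 := by
        have := Nat.cast_div_le (α := ℝ) (m := N) (n := 4)
        simpa using this
      have h6 : (0 : ℝ) ≤ ((N / 4 : ℕ) : ℝ) := by positivity
      have h7 : ((N / 4 : ℕ) : ℝ) * (((N / 4 : ℕ) : ℝ) + 1) ≤ N / 4 * (N / 4 + 1) := by nlinarith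
      have h8 := mul_le_mul_of_nonneg_left h7 hδ0.le
      rw [← hδ]
      linarith
    have hd : ∀ d ∈ Finset.Icc 2 N, ((fareyT u v (N / d)).card : ℝ) ≤
        δ / 2 * (N : ℝ) ^ 2 * (1 / (d : ℝ) ^ 2) + (δ / 2 + 1) * N * (1 / (d : ℝ)) := by
      intro d hd
      have hd0 : (0 : ℝ) < d := by
        have := (Finset.mem_Icc.mp hd).1
        exact_mod_cast (by omega : 0 < d)
      refine (farey_card u v huv (N / d)).2.trans ?_
      have h5 : ((N / d : ℕ) : ℝ) ≤ N / d := Nat.cast_div_le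
      have h6 : (0 : ℝ) ≤ ((N / d : ℕ) : ℝ) := by positivity
      have h7 : ((N / d : ℕ) : ℝ) * (((N / d : ℕ) : ℝ) + 1) ≤ N / d * (N / d + 1) := by nlinarith
      have h8 := mul_le_mul_of_nonneg_left h7 hδ0.le
      rw [← hδ]
      have e : δ / 2 * (N : ℝ) ^ 2 * (1 / (d : ℝ) ^ 2) + (δ / 2 + 1) * N * (1 / (d : ℝ)) =
          δ * (N / d * (N / d + 1)) / 2 + N / d := by
        field_simp
        ring
      rw [e]
      linarith
    have hsum := Finset.sum_le_sum hd
    rw [Finset.sum_add_distrib, ← Finset.mul_sum, ← Finset.mul_sum] at hsum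
    have h9 := mul_le_mul_of_nonneg_left (farey_sum_sq N)
      (show 0 ≤ δ / 2 * (N : ℝ) ^ 2 by positivity)
    have h10 := mul_le_mul_of_nonneg_left (farey_sum_inv N)
      (show 0 ≤ (δ / 2 + 1) * (N : ℝ) by positivity)
    have h11 := mul_lt_mul_of_pos_right hsmall hNr
    rw [← hδ] at hN'
    nlinarith

end MP_211f72_nt
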