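import Pool.Agent.Lib.MP_211f72_nt.Spec
import Pool.Agent.Lib.MP_211f72_nt.Basic

/-!
# MP_211f72_nt: children from the Minkowski argument
-/

namespace MP_211f72_nt

open MeasureTheory

/-- the algebra of the error terms -/
theorem kidsMink_err (x : Cub) (ξ τ' q Q δ η w ρ : ℝ) (hq : 0 < q) (hqA : q < |(x.a : ℝ)|)
    (hAQ : |(x.a : ℝ)| ≤ Q) (h1 : |x.y1 ξ| ≤ η) (h2 : |x.y2 ξ| ≤ δ) (h3 : |x.y3 ξ| ≤ δ)
    (hδ : 0 < δ) (hη : 0 < η) (hw0 : 0 < w) (hηw : η = w * q) (hη2 : η ^ 2 ≤ δ * q)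
    (hw2 : w ^ 2 * η ≤ δ) (hw1 : w ≤ 1) (hρ0 : 0 ≤ ρ) (hρw : ρ ≤ w) (hρQ : ρ * Q ≤ δ / 2)
    (hτ : |τ'| ≤ ρ) :
    |x.y1 (ξ + (x.y1 ξ / x.a + τ'))| ≤ δ ∧ |x.y2 (ξ + (x.y1 ξ / x.a + τ'))| ≤ 3 * δ ∧
      |x.y3 (ξ + (x.y1 ξ / x.a + τ'))| ≤ 19 * δ := by
  set A : ℝ := (x.a : ℝ) with hA
  have hA0 : A ≠ 0 := by
    intro h
    rw [h, abs_zero] at hqA
    linarith
  have hApos : 0 < |A| := abs_pos.mpr hA0
  set y := x.y1 ξ with hy
  set z := x.y2 ξ with hz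
  -- the product `τ' A`
  have hτA : |τ' * A| ≤ δ / 2 := by
    rw [abs_mul]
    calc |τ'| * |A| ≤ ρ * Q := mul_le_mul hτ hAQ (abs_nonneg _) hρ0
      _ ≤ δ / 2 := hρQ
  have hyA : |y / A| ≤ w := by
    rw [abs_div, div_le_iff₀ hApos]
    calc |y| ≤ η := h1
      _ = w * q := hηw
      _ ≤ w * |A| := by gcongr
  have hτw : |τ'| ≤ w := hτ.trans hρw
  have hT : |y / A + τ'| ≤ 2 * w := (abs_add_le _ _).trans (by linarith)
  refine ⟨?_, ?_, ?_⟩
  · rw [Cub.y1_shift]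
    have e : x.y1 ξ - (y / A + τ') * (x.a : ℝ) = - (τ' * A) := by
      rw [← hy, ← hA]; field_simp; ring
    rw [e, abs_neg]
    linarith
  · rw [Cub.y2_shift]
    have e : x.y2 ξ - 2 * (y / A + τ') * x.y1 ξ + (y / A + τ') ^ 2 * (x.a : ℝ) =
        z + (- (y * (y / A)) + τ' * (τ' * A)) := by
      rw [← hy, ← hA, ← hz]; field_simp; ring
    rw [e]
    have e1 : |y * (y / A)| ≤ δ := by
      rw [abs_mul, abs_div, ← mul_div_assoc, div_le_iff₀ hApos]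
      calc |y| * |y| ≤ η * η := mul_le_mul h1 h1 (abs_nonneg _) hη.le
        _ = η ^ 2 := by ring
        _ ≤ δ * q := hη2
        _ ≤ δ * |A| := by gcongr
    have e2 : |τ' * (τ' * A)| ≤ δ := by
      rw [abs_mul]
      calc |τ'| * |τ' * A| ≤ 1 * (δ / 2) := by
            have : |τ'| ≤ 1 := hτw.trans hw1
            gcongr
        _ ≤ δ := by linarith
    calc |z + (- (y * (y / A)) + τ' * (τ' * A))| ≤ |z| + |(- (y * (y / A)) + τ' * (τ' * A))| :=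
          abs_add_le _ _
      _ ≤ |z| + (|- (y * (y / A))| + |τ' * (τ' * A)|) := by
          gcongr
          exact abs_add_le _ _
      _ ≤ δ + (δ + δ) := by
          rw [abs_neg]
          gcongr
      _ = 3 * δ := by ring
  · rw [Cub.y3_shift]
    have e : x.y3 ξ - 3 * (y / A + τ') * x.y2 ξ + 3 * (y / A + τ') ^ 2 * x.y1 ξ -
        (y / A + τ') ^ 3 * (x.a : ℝ) =
        x.y3 ξ + (- (3 * (y / A + τ') * z) + (y / A + τ') ^ 2 * (2 * y - τ' * A)) := by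
      rw [← hy, ← hA, ← hz]; field_simp; ring
    rw [e]
    have e1 : |3 * (y / A + τ') * z| ≤ 6 * δ := by
      rw [abs_mul, abs_mul, abs_of_pos (by norm_num : (0 : ℝ) < 3)]
      calc 3 * |y / A + τ'| * |z| ≤ 3 * (2 * 1) * δ := by
            have : |y / A + τ'| ≤ 2 * 1 := hT.trans (by linarith)
            gcongr
        _ = 6 * δ := by ring
    have e2 : |(y / A + τ') ^ 2 * (2 * y - τ' * A)| ≤ 12 * δ := by
      rw [abs_mul, abs_pow]
      have e3 : |2 * y - τ' * A| ≤ 2 * η + δ := by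
        calc |2 * y - τ' * A| ≤ |2 * y| + |τ' * A| := abs_sub _ _
          _ ≤ 2 * η + δ := by
            rw [abs_mul, abs_of_pos (by norm_num : (0 : ℝ) < 2)]
            linarith
      calc |y / A + τ'| ^ 2 * |2 * y - τ' * A| ≤ (2 * w) ^ 2 * (2 * η + δ) := by gcongr
        _ = 8 * (w ^ 2 * η) + 4 * (w ^ 2 * δ) := by ring
        _ ≤ 8 * δ + 4 * (1 * δ) := by
            have : w ^ 2 ≤ 1 := pow_le_one₀ hw0.le hw1
            gcongr
        _ = 12 * δ := by ring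
    calc |x.y3 ξ + (- (3 * (y / A + τ') * z) + (y / A + τ') ^ 2 * (2 * y - τ' * A))|
        ≤ |x.y3 ξ| + |(- (3 * (y / A + τ') * z) + (y / A + τ') ^ 2 * (2 * y - τ' * A))| :=
          abs_add_le _ _
      _ ≤ |x.y3 ξ| + (|- (3 * (y / A + τ') * z)| + |(y / A + τ') ^ 2 * (2 * y - τ' * A)|) := by
          gcongr
          exact abs_add_le _ _
      _ ≤ δ + (6 * δ + 12 * δ) := by
          rw [abs_neg]
          gcongr
      _ = 19 * δ := by ring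

/-- from the coordinates `y` to the approximation -/
theorem kidsMink_near (x : Cub) (ξ δ : ℝ) (h0 : 0 ≤ ξ) (h1 : ξ ≤ 1) (hδ : 0 < δ)
    (e1 : |x.y1 ξ| ≤ δ) (e2 : |x.y2 ξ| ≤ 3 * δ) (e3 : |x.y3 ξ| ≤ 19 * δ) : Near x ξ (31 * δ) := by
  have hξ2 : ξ ^ 2 ≤ 1 := pow_le_one₀ h0 h1
  have hξ2' : 0 ≤ ξ ^ 2 := by positivity
  refine ⟨?_, ?_, ?_⟩
  · have e : (x.a : ℝ) * ξ - x.b = - x.y1 ξ := by simp only [Cub.y1]; ring
    rw [e, abs_neg]
    linarith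
  · have e : (x.a : ℝ) * ξ ^ 2 - x.c = - (x.y2 ξ + 2 * (ξ * x.y1 ξ)) := by
      simp only [Cub.y1, Cub.y2]; ring
    rw [e, abs_neg]
    have e4 : |ξ * x.y1 ξ| ≤ δ := by
      rw [abs_mul, abs_of_nonneg h0]
      calc ξ * |x.y1 ξ| ≤ 1 * δ := by gcongr
        _ = δ := one_mul _
    calc |x.y2 ξ + 2 * (ξ * x.y1 ξ)| ≤ |x.y2 ξ| + |2 * (ξ * x.y1 ξ)| := abs_add_le _ _
      _ ≤ 3 * δ + 2 * δ := by
        rw [abs_mul, abs_of_pos (by norm_num : (0 : ℝ) < 2)]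
        gcongr
      _ ≤ 31 * δ := by linarith
  · have e : (x.a : ℝ) * ξ ^ 3 - x.d = - (x.y3 ξ + (3 * (ξ * x.y2 ξ) + 3 * (ξ ^ 2 * x.y1 ξ))) := by
      simp only [Cub.y1, Cub.y2, Cub.y3]; ring
    rw [e, abs_neg]
    have e4 : |ξ * x.y2 ξ| ≤ 3 * δ := by
      rw [abs_mul, abs_of_nonneg h0]
      calc ξ * |x.y2 ξ| ≤ 1 * (3 * δ) := by gcongr
        _ = 3 * δ := one_mul _
    have e5 : |ξ ^ 2 * x.y1 ξ| ≤ δ := by
      rw [abs_mul, abs_of_nonneg hξ2']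
      calc ξ ^ 2 * |x.y1 ξ| ≤ 1 * δ := by gcongr
        _ = δ := one_mul _
    calc |x.y3 ξ + (3 * (ξ * x.y2 ξ) + 3 * (ξ ^ 2 * x.y1 ξ))|
        ≤ |x.y3 ξ| + |(3 * (ξ * x.y2 ξ) + 3 * (ξ ^ 2 * x.y1 ξ))| := abs_add_le _ _
      _ ≤ |x.y3 ξ| + (|3 * (ξ * x.y2 ξ)| + |3 * (ξ ^ 2 * x.y1 ξ)|) := by
        gcongr
        exact abs_add_le _ _
      _ ≤ 19 * δ + (3 * (3 * δ) + 3 * δ) := by
        have e6 : |3 * (ξ * x.y2 ξ)| ≤ 3 * (3 * δ) := by
          rw [abs_mul, abs_of_pos (by norm_num : (0 : ℝ) < 3)]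
          gcongr
        have e7 : |3 * (ξ ^ 2 * x.y1 ξ)| ≤ 3 * δ := by
          rw [abs_mul, abs_of_pos (by norm_num : (0 : ℝ) < 3)]
          gcongr
        linarith
      _ ≤ 31 * δ := by linarith

theorem kidsMink_cases (x : Cub) (h : ¬ (x.a = 0 ∧ x.b = 0 ∧ x.c = 0 ∧ x.d = 0)) :
    PD x ∨ PH x ∨ P0 x := by
  by_cases hD : x.D = 0
  · by_cases hH : x.h0 = 0 ∧ x.h1 = 0 ∧ x.h2 = 0
    · right; right
      unfold P0
      tauto
    · right; left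
      exact ⟨hD, hH⟩
  · left
    exact hD

/-- choice of well separated points from a set of small complement -/
theorem kidsMink_grid (u v w : ℝ) (hw : 0 < w) (hwv : 64 * w ≤ v - u) (E : Set ℝ)
    (hE : volume E ≤ ENNReal.ofReal ((v - u) / 64)) (Pz : ℝ → Prop)
    (hP : ∀ ξ, u ≤ ξ → ξ ≤ v → ξ ∉ E → ∃ ζ, |ξ - ζ| ≤ w ∧ Pz ζ) :
    ∃ Z : Finset ℝ, (∀ ζ ∈ Z, u + w ≤ ζ ∧ ζ ≤ v - w ∧ Pz ζ) ∧
      (∀ ζ ∈ Z, ∀ ζ' ∈ Z, ζ ≠ ζ' → w ≤ |ζ - ζ'|) ∧ (v - u) / (8 * w) ≤ Z.card := by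
  classical
  set m₀ : ℕ := ⌊(v - u) / (4 * w)⌋₊ with hm₀
  have hvu : 0 < v - u := by linarith
  have hm1 : (m₀ : ℝ) ≤ (v - u) / (4 * w) := Nat.floor_le (by positivity)
  have hm2 : (v - u) / (4 * w) < (m₀ : ℝ) + 1 := Nat.lt_floor_add_one _
  have hm3 : (m₀ : ℝ) * (4 * w) ≤ v - u := by
    rwa [le_div_iff₀ (by positivity)] at hm1
  let I : ℕ → Set ℝ := fun j => Set.Icc (u + 4 * w * j + w) (u + 4 * w * j + 2 * w)
  set J := Finset.Ico 1 m₀ with hJ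
  set B := J.filter (fun j => I j ⊆ E) with hB
  set G := J.filter (fun j => ¬ I j ⊆ E) with hG
  have hcard : B.card + G.card = J.card := Finset.card_filter_add_card_filter_not _
  have hJc : (J.card : ℝ) = m₀ - 1 := by
    have h16 : (16 : ℝ) ≤ (v - u) / (4 * w) := by
      rw [le_div_iff₀ (by positivity)]; linarith
    have : 1 ≤ m₀ := by
      have : (15 : ℝ) < m₀ := by linarith
      have h2 : (1 : ℝ) ≤ m₀ := by linarith
      exact_mod_cast h2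
    rw [hJ, Nat.card_Ico, Nat.cast_sub this]
    simp
  -- few bad cells
  have hBc : (B.card : ℝ) * w ≤ (v - u) / 64 := by
    have h1 : volume (⋃ j ∈ B, I j) = ∑ j ∈ B, volume (I j) := by
      refine measure_biUnion_finset ?_ (fun j _ => measurableSet_Icc)
      intro i hi j hj hij
      rw [Function.onFun, Set.disjoint_left]
      rintro z ⟨hz1, hz2⟩ ⟨hz3, hz4⟩
      rcases lt_or_gt_of_ne hij with h | h
      · have h2 : (i : ℝ) + 1 ≤ j := by exact_mod_cast h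
        have h3 : 4 * w * ((i : ℝ) + 1) ≤ 4 * w * j := by gcongr
        linarith
      · have h2 : (j : ℝ) + 1 ≤ i := by exact_mod_cast h
        have h3 : 4 * w * ((j : ℝ) + 1) ≤ 4 * w * i := by gcongr
        linarith
    have h2 : ∀ j, volume (I j) = ENNReal.ofReal w := by
      intro j
      rw [Real.volume_Icc]
      congr 1
      ring
    simp only [h2, Finset.sum_const, nsmul_eq_mul] at h1
    have h3 : (⋃ j ∈ B, I j) ⊆ E := by
      intro z hz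
      simp only [Set.mem_iUnion] at hz
      obtain ⟨j, hj, hz⟩ := hz
      exact (Finset.mem_filter.mp hj).2 hz
    have h4 := (measure_mono h3).trans hE
    rw [h1, ← ENNReal.ofReal_natCast, ← ENNReal.ofReal_mul (by positivity)] at h4
    exact (ENNReal.ofReal_le_ofReal_iff (by positivity)).mp h4
  have hGc : (v - u) / (8 * w) ≤ G.card := by
    have h1 : (B.card : ℝ) + G.card = J.card := by exact_mod_cast hcard
    have h2 : (B.card : ℝ) ≤ (v - u) / w / 64 := by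
      rw [div_div, le_div_iff₀ (by positivity)]
      linarith
    have h3 : (v - u) / (4 * w) = (v - u) / w / 4 := by rw [div_div, mul_comm]
    have h4 : (v - u) / (8 * w) = (v - u) / w / 8 := by rw [div_div, mul_comm]
    have h5 : 64 ≤ (v - u) / w := by rw [le_div_iff₀ hw]; linarith
    rw [h3] at hm2
    rw [h4]
    linarith
  -- the points
  have hex : ∀ j ∈ G, ∃ ζ, u + 4 * w * j ≤ ζ ∧ ζ ≤ u + 4 * w * j + 3 * w ∧ Pz ζ := by
    intro j hj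
    obtain ⟨hjJ, hjn⟩ := Finset.mem_filter.mp hj
    obtain ⟨hj1, hj2⟩ := Finset.mem_Ico.mp hjJ
    obtain ⟨ξ, hξI, hξE⟩ := Set.not_subset.mp hjn
    have hj3 : (j : ℝ) + 1 ≤ m₀ := by exact_mod_cast hj2
    have hj4 : 4 * w * ((j : ℝ) + 1) ≤ v - u := by
      calc 4 * w * ((j : ℝ) + 1) ≤ 4 * w * m₀ := by gcongr
        _ = m₀ * (4 * w) := by ring
        _ ≤ v - u := hm3
    have hj0 : 0 ≤ 4 * w * (j : ℝ) := by positivity
    obtain ⟨hξ1, hξ2⟩ := hξI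
    obtain ⟨ζ, hζ1, hζ2⟩ := hP ξ (by linarith) (by linarith) hξE
    rw [abs_le] at hζ1
    exact ⟨ζ, by linarith, by linarith, hζ2⟩
  choose! f hf1 hf2 hf3 using hex
  have hsep : ∀ i ∈ G, ∀ j ∈ G, i < j → w ≤ f j - f i := by
    intro i hi j hj hij
    have h1 := hf2 i hi
    have h2 := hf1 j hj
    have h3 : (i : ℝ) + 1 ≤ j := by exact_mod_cast hij
    have h4 : 4 * w * ((i : ℝ) + 1) ≤ 4 * w * j := by gcongr
    linarith
  have hsep' : ∀ i ∈ G, ∀ j ∈ G, i ≠ j → w ≤ |f i - f j| := by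
    intro i hi j hj hij
    rcases lt_or_gt_of_ne hij with h | h
    · rw [abs_sub_comm]
      exact (hsep i hi j hj h).trans (le_abs_self _)
    · exact (hsep j hj i hi h).trans (le_abs_self _)
  have hinj : Set.InjOn f (G : Set ℕ) := by
    intro i hi j hj hij
    by_contra hne
    have := hsep' i hi j hj hne
    rw [hij, sub_self, abs_zero] at this
    linarith
  refine ⟨G.image f, ?_, ?_, ?_⟩
  · intro ζ hζ
    obtain ⟨j, hj, rfl⟩ := Finset.mem_image.mp hζ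
    obtain ⟨hjJ, hjn⟩ := Finset.mem_filter.mp hj
    obtain ⟨hj1, hj2⟩ := Finset.mem_Ico.mp hjJ
    have hj3 : (j : ℝ) + 1 ≤ m₀ := by exact_mod_cast hj2
    have hj4 : 4 * w * ((j : ℝ) + 1) ≤ v - u := by
      calc 4 * w * ((j : ℝ) + 1) ≤ 4 * w * m₀ := by gcongr
        _ = m₀ * (4 * w) := by ring
        _ ≤ v - u := hm3
    have hj5 : (1 : ℝ) ≤ j := by exact_mod_cast hj1
    have hj6 : 4 * w * 1 ≤ 4 * w * (j : ℝ) := by gcongr
    refine ⟨?_, ?_, hf3 j hj⟩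
    · have := hf1 j hj
      linarith
    · have := hf2 j hj
      linarith
  · intro ζ hζ ζ' hζ' hne
    obtain ⟨i, hi, rfl⟩ := Finset.mem_image.mp hζ
    obtain ⟨j, hj, rfl⟩ := Finset.mem_image.mp hζ'
    exact hsep' i hi j hj (fun h => hne (by rw [h]))
  · rw [Finset.card_image_of_injOn hinj]
    exact hGc

/-- from separated points to children -/
theorem kidsMink_build (P : ℝ → Prop) (u v t L w ρ : ℝ) (huv : u < v) (ht : 0 < t) (hw : 0 < w)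
    (hρ : 0 < ρ) (hρw : 4 * ρ < w) (Z : Finset ℝ)
    (hZ : ∀ ζ ∈ Z, u + w ≤ ζ ∧ ζ ≤ v - w ∧ ∀ ξ, |ξ - ζ| ≤ ρ → P ξ)
    (hsep : ∀ ζ ∈ Z, ∀ ζ' ∈ Z, ζ ≠ ζ' → w ≤ |ζ - ζ'|) (hc : (v - u) / (8 * w) ≤ Z.card)
    (hL : L ≤ (v - u) / (8 * w) * (2 * ρ) ^ t) (h1 : 1 ≤ (v - u) / (8 * w) * (2 * ρ) ^ t) :
    HasKids 8 P u v t L := by
  classical
  have hinj : Function.Injective (fun ζ : ℝ => ζ - ρ) := sub_left_injective
  have hvu : 0 < v - u := by linarith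
  have hl : (0 : ℝ) < (2 * ρ) ^ t := Real.rpow_pos_of_pos (by positivity) t
  have hcard : ((Z.image (fun ζ : ℝ => ζ - ρ)).card : ℝ) = Z.card := by
    rw [Finset.card_image_of_injective _ hinj]
  refine ⟨2 * ρ, Z.image (fun ζ => ζ - ρ), by positivity, ?_, ?_, ?_, ?_, ?_⟩
  · intro c hc
    obtain ⟨ζ, hζ, rfl⟩ := Finset.mem_image.mp hc
    obtain ⟨h2, h3, _⟩ := hZ ζ hζ
    constructor <;> linarith
  · intro c hc ξ hξ
    obtain ⟨ζ, hζ, rfl⟩ := Finset.mem_image.mp hc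
    obtain ⟨h2, h3, h4⟩ := hZ ζ hζ
    refine h4 ξ ?_
    obtain ⟨h5, h6⟩ := hξ
    rw [abs_le]
    constructor <;> linarith
  · intro c hc c' hc' hne
    obtain ⟨ζ, hζ, rfl⟩ := Finset.mem_image.mp hc
    obtain ⟨ζ', hζ', rfl⟩ := Finset.mem_image.mp hc'
    have h2 := hsep ζ hζ ζ' hζ' (fun h => hne (by rw [h]))
    have h3 : ζ - ρ - (ζ' - ρ) = ζ - ζ' := by ring
    rw [h3]
    linarith
  · rw [hcard]
    exact hL.trans (mul_le_mul_of_nonneg_right hc hl.le)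
  · intro p r hr
    have hr0 : 0 < r := lt_of_lt_of_le (by positivity) hr
    have h2 := sep_card_le ((Z.image (fun ζ : ℝ => ζ - ρ)).filter fun c => p ≤ c ∧ c ≤ p + r)
      w p r hw hr0.le ?_ ?_
    · refine h2.trans ?_
      rw [hcard, add_mul]
      refine add_le_add ?_ ?_
      · have h3 : r / w = (8 * r / (v - u)) * ((v - u) / (8 * w)) := by
          field_simp
        rw [h3]
        exact mul_le_mul_of_nonneg_left hc (by positivity)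
      · calc (1 : ℝ) ≤ (v - u) / (8 * w) * (2 * ρ) ^ t := h1
          _ ≤ Z.card * r ^ t := by
            refine mul_le_mul hc ?_ hl.le (by positivity)
            exact Real.rpow_le_rpow (by positivity) hr ht.le
          _ = r ^ t * Z.card := mul_comm _ _
    · intro c hc c' hc' hne
      obtain ⟨ζ, hζ, rfl⟩ := Finset.mem_image.mp (Finset.mem_filter.mp hc).1
      obtain ⟨ζ', hζ', rfl⟩ := Finset.mem_image.mp (Finset.mem_filter.mp hc').1
      have h3 := hsep ζ hζ ζ' hζ' (fun h => hne (by rw [h]))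
      have h4 : ζ - ρ - (ζ' - ρ) = ζ - ζ' := by ring
      rw [h4]
      exact h3
    · intro c hc
      exact (Finset.mem_filter.mp hc).2

/-- the point near a good `ξ` -/
theorem kidsMink_point (hM : Mink) (lam lam1 ε Q : ℝ) (M : ℕ) (ξ : ℝ) (hl : 1 / 3 < lam)
    (hl1 : lam < lam1) (hl2 : lam1 < 3 / 5) (hε0 : 0 < ε) (hε1 : ε ≤ 3 - 5 * lam1)
    (hQ : 1 ≤ Q) (hQ31 : 31 * Q ^ (-lam1) ≤ Q ^ (-lam)) (hQM : (M : ℝ) ≤ Q ^ (1 - ε))
    (h0 : 0 ≤ ξ) (h1 : ξ ≤ 1) (hD : ξ ∉ Bad PD lam1 ε Q) (hH : ξ ∉ Bad PH lam1 ε Q)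
    (hP : ξ ∉ Bad P0 lam1 ε Q) :
    ∃ ζ, |ξ - ζ| ≤ Q ^ (2 * lam1 - 2 + ε) ∧ ∀ ξ', |ξ' - ζ| ≤ Q ^ (-1 - lam1) / 2 → 0 ≤ ξ' →
      ξ' ≤ 1 → Gd lam M ξ' := by
  have hQ0 : 0 < Q := lt_of_lt_of_le one_pos hQ
  obtain ⟨x, hx0, hxQ, hbox⟩ := hM ξ Q lam1 hQ
  have hqA : Q ^ (1 - ε) < |(x.a : ℝ)| := by
    by_contra hcon
    rw [not_lt] at hcon
    rcases kidsMink_cases x hx0 with h | h | h
    · exact hD ⟨h0, h1, x, h, hcon, hbox⟩
    · exact hH ⟨h0, h1, x, h, hcon, hbox⟩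
    · exact hP ⟨h0, h1, x, h, hcon, hbox⟩
  obtain ⟨b1, b2, b3⟩ := hbox
  have hq : 0 < Q ^ (1 - ε) := Real.rpow_pos_of_pos hQ0 _
  have hδ : 0 < Q ^ (-lam1) := Real.rpow_pos_of_pos hQ0 _
  have hη : 0 < Q ^ (2 * lam1 - 1) := Real.rpow_pos_of_pos hQ0 _
  have hw : 0 < Q ^ (2 * lam1 - 2 + ε) := Real.rpow_pos_of_pos hQ0 _
  have hρ : 0 < Q ^ (-1 - lam1) := Real.rpow_pos_of_pos hQ0 _
  have hηw : Q ^ (2 * lam1 - 1) = Q ^ (2 * lam1 - 2 + ε) * Q ^ (1 - ε) := by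
    rw [← Real.rpow_add hQ0]
    congr 1
    ring
  have hη2 : (Q ^ (2 * lam1 - 1)) ^ 2 ≤ Q ^ (-lam1) * Q ^ (1 - ε) := by
    rw [← Real.rpow_natCast, ← Real.rpow_mul hQ0.le, ← Real.rpow_add hQ0]
    refine Real.rpow_le_rpow_of_exponent_le hQ ?_
    push_cast
    linarith
  have hw2 : (Q ^ (2 * lam1 - 2 + ε)) ^ 2 * Q ^ (2 * lam1 - 1) ≤ Q ^ (-lam1) := by
    rw [← Real.rpow_natCast, ← Real.rpow_mul hQ0.le, ← Real.rpow_add hQ0]
    refine Real.rpow_le_rpow_of_exponent_le hQ ?_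
    push_cast
    linarith
  have hw1 : Q ^ (2 * lam1 - 2 + ε) ≤ 1 :=
    Real.rpow_le_one_of_one_le_of_nonpos hQ (by linarith)
  have hρw : Q ^ (-1 - lam1) / 2 ≤ Q ^ (2 * lam1 - 2 + ε) := by
    have : Q ^ (-1 - lam1) ≤ Q ^ (2 * lam1 - 2 + ε) :=
      Real.rpow_le_rpow_of_exponent_le hQ (by linarith)
    linarith
  have hρQ : Q ^ (-1 - lam1) / 2 * Q ≤ Q ^ (-lam1) / 2 := by
    have : Q ^ (-1 - lam1) * Q = Q ^ (-lam1) := by
      conv_lhs => rw [← Real.rpow_one Q, ← Real.rpow_mul hQ0.le, ← Real.rpow_add hQ0]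
      congr 1
      ring
    linarith
  have hApos : 0 < |(x.a : ℝ)| := hq.trans hqA
  have hA0 : (x.a : ℝ) ≠ 0 := abs_pos.mp hApos
  refine ⟨ξ + x.y1 ξ / x.a, ?_, ?_⟩
  · have e : ξ - (ξ + x.y1 ξ / x.a) = - (x.y1 ξ / x.a) := by ring
    rw [e, abs_neg, abs_div, div_le_iff₀ hApos]
    calc |x.y1 ξ| ≤ Q ^ (2 * lam1 - 1) := b1
      _ = Q ^ (2 * lam1 - 2 + ε) * Q ^ (1 - ε) := hηw
      _ ≤ Q ^ (2 * lam1 - 2 + ε) * |(x.a : ℝ)| := by gcongr
  · intro ξ' hξ' h0' h1'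
    have herr := kidsMink_err x ξ (ξ' - (ξ + x.y1 ξ / x.a)) (Q ^ (1 - ε)) Q (Q ^ (-lam1))
      (Q ^ (2 * lam1 - 1)) (Q ^ (2 * lam1 - 2 + ε)) (Q ^ (-1 - lam1) / 2) hq hqA hxQ b1 b2 b3
      hδ hη hw hηw hη2 hw2 hw1 (by positivity) hρw hρQ hξ'
    have e : ξ + (x.y1 ξ / x.a + (ξ' - (ξ + x.y1 ξ / x.a))) = ξ' := by ring
    rw [e] at herr
    obtain ⟨c1, c2, c3⟩ := herr
    obtain ⟨n1, n2, n3⟩ := kidsMink_near x ξ' (Q ^ (-lam1)) h0' h1' hδ c1 c2 c3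
    have hle : 31 * Q ^ (-lam1) ≤ |(x.a : ℝ)| ^ (-lam) := by
      refine hQ31.trans ?_
      exact Real.rpow_le_rpow_of_nonpos hApos hxQ (by linarith)
    refine ⟨x, ?_, ?_, n1.trans hle, n2.trans hle, n3.trans hle⟩
    · have : (M : ℝ) ≤ |(x.a : ℝ)| := hQM.trans hqA.le
      exact_mod_cast this
    · intro h
      exact hA0 (by rw [h]; simp)

theorem kidsMink (hM : Mink) (hD : BadD) (hH : BadH) (hP : Bad0) : KidsMink := by
  intro lam hl hl3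
  refine ⟨8, by norm_num, ?_⟩
  intro u v t L M hu huv hv ht hts
  have h1l : (0 : ℝ) < 1 + lam := by linarith
  rw [lt_div_iff₀ h1l] at hts
  -- the parameters
  set f : ℝ := 2 - 2 * lam - t * (1 + lam) with hf
  have hf0 : 0 < f := by linarith
  set κ : ℝ := min ((3 / 5 - lam) / 2) (f / (2 * (2 + t))) with hκ
  have hκ0 : 0 < κ := lt_min (by linarith) (by positivity)
  have hκ1 : κ ≤ (3 / 5 - lam) / 2 := min_le_left _ _
  have hκ2 : κ * (2 * (2 + t)) ≤ f := by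
    have : κ ≤ f / (2 * (2 + t)) := min_le_right _ _
    rwa [le_div_iff₀ (by positivity)] at this
  set lam1 : ℝ := lam + κ with hlam1
  have hl1 : lam < lam1 := by linarith
  have hl2 : lam1 < 3 / 5 := by linarith
  have hf1 : f / 2 ≤ 2 - 2 * lam1 - t * (1 + lam1) := by
    have : 2 - 2 * lam1 - t * (1 + lam1) = f - κ * (2 + t) := by rw [hlam1, hf]; ring
    rw [this]
    linarith
  set ε : ℝ := min (1 / 2) (min (3 - 5 * lam1) (f / 4)) with hε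
  have hε0 : 0 < ε := lt_min (by norm_num) (lt_min (by linarith) (by positivity))
  have hεh : ε ≤ 1 / 2 := min_le_left _ _
  have hε1 : ε ≤ 3 - 5 * lam1 := (min_le_right _ _).trans (min_le_left _ _)
  have hε2 : ε ≤ f / 4 := (min_le_right _ _).trans (min_le_right _ _)
  have hvu : 0 < v - u := by linarith
  -- the bad sets
  obtain ⟨QD, hQD⟩ := hD lam1 ε ((v - u) / 200) (by linarith) hl2 hε0 (by linarith) (by positivity)
  obtain ⟨QH, hQH⟩ := hH lam1 ε ((v - u) / 200) (by linarith) hl2 hε0 (by linarith) (by positivity)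
  obtain ⟨QP, hQP⟩ := hP lam1 ε ((v - u) / 200) (by linarith) hl2 hε0 (by linarith) (by positivity)
  -- large `Q`
  have E1 : ∀ᶠ Q : ℝ in Filter.atTop, 64 * Q ^ (2 * lam1 - 2 + ε) < v - u := by
    have h := tendsto_rpow_neg_atTop (y := -(2 * lam1 - 2 + ε)) (by linarith)
    rw [neg_neg] at h
    have h2 := (h.const_mul 64)
    rw [mul_zero] at h2
    exact h2.eventually_lt_const hvu
  have E2 : ∀ᶠ Q : ℝ in Filter.atTop, 2 < Q ^ (3 * lam1 - 1 + ε) :=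
    (tendsto_rpow_atTop (by linarith)).eventually_gt_atTop 2
  have E3 : ∀ᶠ Q : ℝ in Filter.atTop, 31 < Q ^ (lam1 - lam) :=
    (tendsto_rpow_atTop (by linarith)).eventually_gt_atTop 31
  have E4 : ∀ᶠ Q : ℝ in Filter.atTop, (M : ℝ) < Q ^ (1 - ε) :=
    (tendsto_rpow_atTop (by linarith)).eventually_gt_atTop _
  have E5 : ∀ᶠ Q : ℝ in Filter.atTop, max L 1 * (8 / (v - u)) <
      Q ^ (2 - 2 * lam1 - ε - (1 + lam1) * t) :=
    (tendsto_rpow_atTop (by linarith)).eventually_gt_atTop _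
  obtain ⟨Q, e1, e2, e3, e4, e5, eD, eH, eP, eQ⟩ := (E1.and (E2.and (E3.and (E4.and (E5.and
    ((Filter.eventually_ge_atTop QD).and ((Filter.eventually_ge_atTop QH).and
      ((Filter.eventually_ge_atTop QP).and (Filter.eventually_ge_atTop 1))))))))).exists
  have hQ0 : 0 < Q := lt_of_lt_of_le one_pos eQ
  have hw : 0 < Q ^ (2 * lam1 - 2 + ε) := Real.rpow_pos_of_pos hQ0 _
  have hρ : 0 < Q ^ (-1 - lam1) := Real.rpow_pos_of_pos hQ0 _
  have hρw : 2 * Q ^ (-1 - lam1) < Q ^ (2 * lam1 - 2 + ε) := by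
    have h2 : Q ^ (2 * lam1 - 2 + ε) = Q ^ (3 * lam1 - 1 + ε) * Q ^ (-1 - lam1) := by
      rw [← Real.rpow_add hQ0]
      congr 1
      ring
    rw [h2]
    gcongr
  have hQ31 : 31 * Q ^ (-lam1) ≤ Q ^ (-lam) := by
    have h2 : Q ^ (-lam) = Q ^ (lam1 - lam) * Q ^ (-lam1) := by
      rw [← Real.rpow_add hQ0]
      congr 1
      ring
    rw [h2]
    gcongr
  set E : Set ℝ := Bad PD lam1 ε Q ∪ (Bad PH lam1 ε Q ∪ Bad P0 lam1 ε Q) with hE
  have hEv : volume E ≤ ENNReal.ofReal ((v - u) / 64) := by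
    calc volume E ≤ volume (Bad PD lam1 ε Q) + (volume (Bad PH lam1 ε Q) +
          volume (Bad P0 lam1 ε Q)) :=
          (measure_union_le _ _).trans (add_le_add le_rfl (measure_union_le _ _))
      _ ≤ ENNReal.ofReal ((v - u) / 200) + (ENNReal.ofReal ((v - u) / 200) +
          ENNReal.ofReal ((v - u) / 200)) :=
          add_le_add (hQD Q eD) (add_le_add (hQH Q eH) (hQP Q eP))
      _ = ENNReal.ofReal ((v - u) / 200 + ((v - u) / 200 + (v - u) / 200)) := by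
          rw [ENNReal.ofReal_add (by positivity) (by positivity),
            ENNReal.ofReal_add (by positivity) (by positivity)]
      _ ≤ ENNReal.ofReal ((v - u) / 64) := ENNReal.ofReal_le_ofReal (by linarith)
  obtain ⟨Z, hZ1, hZ2, hZ3⟩ := kidsMink_grid u v (Q ^ (2 * lam1 - 2 + ε)) hw e1.le E hEv
    (fun ζ => ∀ ξ', |ξ' - ζ| ≤ Q ^ (-1 - lam1) / 2 → 0 ≤ ξ' → ξ' ≤ 1 → Gd lam M ξ') (by
      intro ξ hξ1 hξ2 hξE
      simp only [hE, Set.mem_union, not_or] at hξE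
      exact kidsMink_point hM lam lam1 ε Q M ξ hl hl1 hl2 hε0 hε1 eQ hQ31 e4.le
        (by linarith) (by linarith) hξE.1 hξE.2.1 hξE.2.2)
  have hkey : max L 1 ≤ (v - u) / (8 * Q ^ (2 * lam1 - 2 + ε)) *
      (2 * (Q ^ (-1 - lam1) / 2)) ^ t := by
    have h2 : (2 * (Q ^ (-1 - lam1) / 2)) ^ t = Q ^ ((-1 - lam1) * t) := by
      rw [Real.rpow_mul hQ0.le]
      congr 1
      ring
    have h3 : (v - u) / (8 * Q ^ (2 * lam1 - 2 + ε)) * Q ^ ((-1 - lam1) * t) =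
        (v - u) / 8 * Q ^ (2 - 2 * lam1 - ε - (1 + lam1) * t) := by
      have h4 : Q ^ (2 - 2 * lam1 - ε - (1 + lam1) * t) =
          (Q ^ (2 * lam1 - 2 + ε))⁻¹ * Q ^ ((-1 - lam1) * t) := by
        rw [← Real.rpow_neg hQ0.le, ← Real.rpow_add hQ0]
        congr 1
        ring
      rw [h4]
      field_simp
    rw [h2, h3]
    have h5 : max L 1 = (v - u) / 8 * (max L 1 * (8 / (v - u))) := by
      field_simp
    rw [h5]
    exact mul_le_mul_of_nonneg_left e5.le (by positivity)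
  refine kidsMink_build (Gd lam M) u v t L (Q ^ (2 * lam1 - 2 + ε)) (Q ^ (-1 - lam1) / 2) huv ht
    hw (by positivity) (by linarith) Z ?_ hZ2 hZ3 ((le_max_left _ _).trans hkey)
    ((le_max_right _ _).trans hkey)
  intro ζ hζ
  obtain ⟨h2, h3, h4⟩ := hZ1 ζ hζ
  refine ⟨h2, h3, fun ξ hξ => h4 ξ hξ ?_ ?_⟩
  · rw [abs_le] at hξ
    linarith
  · rw [abs_le] at hξ
    linarith

end MP_211f72_nt
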