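import Pool.Agent.Lib.MP_211f72_nt.Spec
import Pool.Agent.Lib.MP_211f72_nt.Basic

/-!
# MP_211f72_nt: children around the secant points
-/

namespace MP_211f72_nt

open Filter

/-- distinct reduced fractions with denominators at most `N` are `1/N²` apart -/
theorem kidsSec_fracSep (N : ℕ) (p p' : ℤ × ℤ) (hp : 0 < p.1) (hp' : 0 < p'.1) (hpN : p.1 ≤ N)
    (hpN' : p'.1 ≤ N) (hc : IsCoprime p.1 p.2) (hc' : IsCoprime p'.1 p'.2) (hne : p ≠ p') :
    1 / (N : ℝ) ^ 2 ≤ |(p.2 : ℝ) / p.1 - (p'.2 : ℝ) / p'.1| := by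
  obtain ⟨a, b⟩ := p
  obtain ⟨a', b'⟩ := p'
  simp only at *
  have hne2 : b * a' - b' * a ≠ 0 := by
    intro h
    have h1 : a ∣ a' := by
      have : a ∣ a' * b := ⟨b', by linarith⟩
      exact hc.dvd_of_dvd_mul_right this
    have h2 : a' ∣ a := by
      have : a' ∣ a * b' := ⟨b, by linarith⟩
      exact hc'.dvd_of_dvd_mul_right this
    have h3 : a = a' := Int.dvd_antisymm hp.le hp'.le h1 h2
    subst h3
    apply hne
    have : b = b' := by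
      have h4 : (b - b') * a = 0 := by linarith
      rcases mul_eq_zero.mp h4 with h5 | h5
      · linarith
      · omega
    rw [this]
  have hge : (1 : ℝ) ≤ |((b * a' - b' * a : ℤ) : ℝ)| := by exact_mod_cast Int.one_le_abs hne2
  have haR : (0 : ℝ) < a := by exact_mod_cast hp
  have haR' : (0 : ℝ) < a' := by exact_mod_cast hp'
  have haN : (a : ℝ) ≤ N := by exact_mod_cast hpN
  have haN' : (a' : ℝ) ≤ N := by exact_mod_cast hpN'
  have hN0 : (0 : ℝ) < N := lt_of_lt_of_le haR haN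
  have he : (b : ℝ) / a - (b' : ℝ) / a' = ((b * a' - b' * a : ℤ) : ℝ) / (a * a') := by
    push_cast; field_simp
  rw [he, abs_div, abs_of_pos (mul_pos haR haR'), div_le_div_iff₀ (by positivity) (by positivity)]
  have : (a : ℝ) * a' ≤ N ^ 2 := by nlinarith
  nlinarith

/-- the spacing inside a cluster -/
theorem kidsSec_inner (a c c' C : ℝ) (ha : 0 < a) (hC : 0 < C) (hc : C ≤ c) (hc3 : c ≤ 3 * C)
    (hc' : C ≤ c') (hc3' : c' ≤ 3 * C) (hd : a ≤ |c - c'|) :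
    1 / (27 * C ^ 2) ≤ |1 / (3 * a * c) - 1 / (3 * a * c')| := by
  have hcp : 0 < c := by linarith
  have hcp' : 0 < c' := by linarith
  have he : 1 / (3 * a * c) - 1 / (3 * a * c') = -((c - c') / (3 * a * (c * c'))) := by
    field_simp; ring
  rw [he, abs_neg, abs_div, abs_of_pos (by positivity : (0 : ℝ) < 3 * a * (c * c')),
    div_le_div_iff₀ (by positivity) (by positivity)]
  have h1 : c * c' ≤ 9 * C ^ 2 := by nlinarith
  have h2 : 3 * a * (c * c') ≤ 3 * a * (9 * C ^ 2) := by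
    apply mul_le_mul_of_nonneg_left h1; positivity
  nlinarith [mul_le_mul_of_nonneg_right hd (by positivity : (0 : ℝ) ≤ 27 * C ^ 2)]

/-- the parameter `c₀` -/
theorem kidsSec_c0 (a b C : ℤ) (ha : 0 < a) (hab : IsCoprime a b) :
    ∃ c : ℤ, C ≤ c ∧ c < C + a ∧ a ∣ b * c + 1 := by
  obtain ⟨x, y, hxy⟩ := hab
  refine ⟨C + (-y - C) % a, ?_, ?_, ?_⟩
  · have := Int.emod_nonneg (-y - C) ha.ne'
    linarith
  · have := Int.emod_lt_of_pos (-y - C) ha
    linarith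
  · have h1 : (-y - C) % a = (-y - C) - a * ((-y - C) / a) := by
      have := Int.emod_add_mul_ediv (-y - C) a
      linarith
    rw [h1]
    refine ⟨x - b * ((-y - C) / a), ?_⟩
    have h2 : 1 = x * a + y * b := hxy.symm
    calc b * (C + (-y - C - a * ((-y - C) / a))) + 1
        = b * (C + (-y - C - a * ((-y - C) / a))) + (x * a + y * b) := by rw [← h2]
      _ = a * (x - b * ((-y - C) / a)) := by ring

/-- interpolation `min A B ≤ A^(1-t) B^t` -/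
theorem kidsSec_min (A B t : ℝ) (hA : 0 < A) (hB : 0 < B) (ht : 0 ≤ t) (ht1 : t ≤ 1) :
    min A B ≤ A * (B / A) ^ t := by
  rcases le_total A B with h | h
  · rw [min_eq_left h]
    have h1 : 1 ≤ B / A := by rwa [le_div_iff₀ hA, one_mul]
    have h2 : 1 ≤ (B / A) ^ t := Real.one_le_rpow h1 ht
    nlinarith
  · rw [min_eq_right h]
    have h1 : B / A ≤ 1 := by rwa [div_le_one hA]
    have h0 : 0 < B / A := div_pos hB hA
    have h2 : (B / A) ^ (1 : ℝ) ≤ (B / A) ^ t := Real.rpow_le_rpow_of_exponent_ge h0 h1 ht1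
    rw [Real.rpow_one] at h2
    calc B = A * (B / A) := by field_simp
      _ ≤ A * (B / A) ^ t := mul_le_mul_of_nonneg_left h2 hA.le

/-- the size of `C₀` -/
theorem kidsSec_C0 (lam N : ℝ) (h1 : 3 / 5 ≤ lam) (h2 : lam < 1) (hN : 1 ≤ N) :
    ((20 * N ^ (2 * lam)) ^ (1 / (1 - lam))) ^ (1 - lam) = 20 * N ^ (2 * lam) ∧
    20 * N ^ 3 ≤ (20 * N ^ (2 * lam)) ^ (1 / (1 - lam)) ∧
    N ^ (2 * lam / (1 - lam)) ≤ (20 * N ^ (2 * lam)) ^ (1 / (1 - lam)) ∧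
    (20 * N ^ (2 * lam)) ^ (1 / (1 - lam)) = 20 ^ (1 / (1 - lam)) * N ^ (2 * lam / (1 - lam)) := by
  have hl : 0 < 1 - lam := by linarith
  have hN0 : 0 < N := by linarith
  have hpos : 0 < 20 * N ^ (2 * lam) := by positivity
  have e4 : (20 * N ^ (2 * lam)) ^ (1 / (1 - lam)) =
      20 ^ (1 / (1 - lam)) * N ^ (2 * lam / (1 - lam)) := by
    rw [Real.mul_rpow (by norm_num) (by positivity), ← Real.rpow_mul hN0.le]
    congr 2
    field_simp
  have h20 : (20 : ℝ) ≤ 20 ^ (1 / (1 - lam)) := by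
    have : (1 : ℝ) ≤ 1 / (1 - lam) := by rw [le_div_iff₀ hl]; linarith
    calc (20 : ℝ) = 20 ^ (1 : ℝ) := (Real.rpow_one _).symm
      _ ≤ 20 ^ (1 / (1 - lam)) := Real.rpow_le_rpow_of_exponent_le (by norm_num) this
  have h3 : N ^ 3 ≤ N ^ (2 * lam / (1 - lam)) := by
    have : (3 : ℝ) ≤ 2 * lam / (1 - lam) := by rw [le_div_iff₀ hl]; linarith
    calc N ^ 3 = N ^ (3 : ℝ) := by norm_cast
      _ ≤ _ := Real.rpow_le_rpow_of_exponent_le hN this
  have hpw : 0 < N ^ (2 * lam / (1 - lam)) := by positivity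
  refine ⟨?_, ?_, ?_, e4⟩
  · rw [← Real.rpow_mul hpos.le, one_div, inv_mul_cancel₀ hl.ne', Real.rpow_one]
  · rw [e4]
    have : 0 ≤ N ^ 3 := by positivity
    nlinarith
  · rw [e4]; nlinarith

/-- smallness of the children -/
theorem kidsSec_small (lam N C : ℝ) (h1 : 3 / 5 ≤ lam) (h2 : lam < 1) (hN : 7 ≤ N) (hC : 1 ≤ C)
    (hC1 : C ^ (1 - lam) ≤ 40 * N ^ (2 * lam)) :
    2 * ((9 * N ^ 2 * C) ^ (-lam) / (5 * (9 * N ^ 2 * C))) < 1 / (27 * C ^ 2) := by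
  have hN0 : 0 < N := by linarith
  have hC0 : 0 < C := by linarith
  set X : ℝ := 9 * N ^ 2 * C with hX
  have hX0 : 0 < X := by positivity
  have hXl : 0 < X ^ lam := by positivity
  rw [Real.rpow_neg hX0.le]
  have e : 2 * ((X ^ lam)⁻¹ / (5 * X)) = 2 / (5 * X * X ^ lam) := by
    field_simp
  rw [e, div_lt_div_iff₀ (by positivity) (by positivity)]
  have hXlam : N ^ (2 * lam) * C ^ lam ≤ X ^ lam := by
    have h3 : (N ^ 2 * C) ^ lam ≤ X ^ lam := by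
      apply Real.rpow_le_rpow (by positivity) _ (by linarith)
      rw [hX]; nlinarith [mul_pos (pow_pos hN0 2) hC0]
    rw [Real.mul_rpow (by positivity) hC0.le, ← Real.rpow_natCast N 2, ← Real.rpow_mul hN0.le] at h3
    exact_mod_cast h3
  have hC2 : C ^ 2 = C * (C ^ (1 - lam) * C ^ lam) := by
    rw [← Real.rpow_add hC0]
    have : (1 - lam + lam) = 1 := by ring
    rw [this, Real.rpow_one]; ring
  have hCl : 0 < C ^ lam := by positivity
  have hNl : 0 < N ^ (2 * lam) := by positivity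
  have h5 : C ^ (1 - lam) * C ^ lam ≤ 40 * N ^ (2 * lam) * C ^ lam :=
    mul_le_mul_of_nonneg_right hC1 hCl.le
  have h6 : C ^ 2 ≤ C * (40 * N ^ (2 * lam) * C ^ lam) := by
    rw [hC2]; exact mul_le_mul_of_nonneg_left h5 hC0.le
  have h7 : X * (N ^ (2 * lam) * C ^ lam) ≤ X * X ^ lam := mul_le_mul_of_nonneg_left hXlam hX0.le
  have h8 : X * (N ^ (2 * lam) * C ^ lam) = 9 * N ^ 2 * (C * (N ^ (2 * lam) * C ^ lam)) := by
    rw [hX]; ring
  have hW : 0 < C * (N ^ (2 * lam) * C ^ lam) := by positivity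
  have h49 : 49 ≤ N ^ 2 := by nlinarith
  nlinarith [mul_le_mul_of_nonneg_right h49 hW.le]

/-- lower bound for the number of children -/
theorem kidsSec_many (lam N C t c1 m0 : ℝ) (h1 : 3 / 5 ≤ lam) (h2 : lam < 1) (hN : 1 ≤ N)
    (ht : 0 < t) (ht1 : t < (2 - 2 * lam) / (1 + lam)) (hc1 : 0 < c1)
    (hC : N ^ (2 * lam / (1 - lam)) ≤ C) (hm : C / (2 * N) ≤ m0) :
    c1 / 90 * N ^ (((1 + lam) - 2 * ((1 + lam) * t)) / (1 - lam)) ≤
      c1 * N ^ 2 * m0 * ((9 * N ^ 2 * C) ^ (-lam) / (5 * (9 * N ^ 2 * C))) ^ t := by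
  have hl : 0 < 1 - lam := by linarith
  have hl1 : 0 < 1 + lam := by linarith
  have hN0 : 0 < N := by linarith
  have hC1 : 1 ≤ C := le_trans (Real.one_le_rpow hN (by
    apply div_nonneg <;> linarith)) hC
  have hC0 : 0 < C := by linarith
  set X : ℝ := 9 * N ^ 2 * C with hX
  have hX0 : 0 < X := by positivity
  have hkap : (1 + lam) * t < 2 - 2 * lam := by
    rw [lt_div_iff₀ hl1] at ht1; linarith
  have hkap1 : (1 + lam) * t < 1 := by linarith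
  have ht2 : t < 1 := by nlinarith
  have e1 : X ^ (-lam) / (5 * X) = 5⁻¹ * X ^ (-(1 + lam)) := by
    rw [show -(1 + lam) = -lam - 1 by ring, Real.rpow_sub hX0, Real.rpow_one]
    field_simp
  have e2 : (X ^ (-lam) / (5 * X)) ^ t = (5⁻¹ : ℝ) ^ t * X ^ (-((1 + lam) * t)) := by
    rw [e1, Real.mul_rpow (by norm_num) (by positivity), ← Real.rpow_mul hX0.le]
    ring_nf
  have e3 : X ^ (-((1 + lam) * t)) =
      9 ^ (-((1 + lam) * t)) * N ^ (-(2 * ((1 + lam) * t))) * C ^ (-((1 + lam) * t)) := by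
    rw [hX, Real.mul_rpow (by positivity) hC0.le, Real.mul_rpow (by norm_num) (by positivity),
      ← Real.rpow_natCast N 2, ← Real.rpow_mul hN0.le]
    norm_num
  have h9 : (9 : ℝ)⁻¹ ≤ 9 ^ (-((1 + lam) * t)) := by
    rw [← Real.rpow_neg_one]
    exact Real.rpow_le_rpow_of_exponent_le (by norm_num) (by linarith)
  have h5 : (5 : ℝ)⁻¹ ≤ (5⁻¹ : ℝ) ^ t := by
    calc (5 : ℝ)⁻¹ = (5⁻¹ : ℝ) ^ (1 : ℝ) := (Real.rpow_one _).symm
      _ ≤ _ := Real.rpow_le_rpow_of_exponent_ge (by norm_num) (by norm_num) ht2.le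
  have hCk : (N ^ (2 * lam / (1 - lam))) ^ (1 - (1 + lam) * t) ≤ C ^ (1 - (1 + lam) * t) :=
    Real.rpow_le_rpow (by positivity) hC (by linarith)
  have e4 : (N ^ (2 * lam / (1 - lam))) ^ (1 - (1 + lam) * t) * N * N ^ (-(2 * ((1 + lam) * t))) =
      N ^ (((1 + lam) - 2 * ((1 + lam) * t)) / (1 - lam)) := by
    rw [← Real.rpow_mul hN0.le]
    nth_rewrite 2 [← Real.rpow_one N]
    rw [← Real.rpow_add hN0, ← Real.rpow_add hN0]
    congr 1
    field_simp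
    ring
  have e5 : C * C ^ (-((1 + lam) * t)) = C ^ (1 - (1 + lam) * t) := by
    rw [sub_eq_add_neg, Real.rpow_add hC0, Real.rpow_one]
  set A := C ^ (1 - (1 + lam) * t) with hA
  set Bn := N ^ (-(2 * ((1 + lam) * t))) with hBn
  have hB0 : 0 < Bn := by positivity
  have hA0 : 0 < A := by positivity
  rw [e2, e3]
  calc c1 / 90 * N ^ (((1 + lam) - 2 * ((1 + lam) * t)) / (1 - lam))
      = c1 / 90 * ((N ^ (2 * lam / (1 - lam))) ^ (1 - (1 + lam) * t) * N * Bn) := by rw [e4]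
    _ ≤ c1 / 90 * (A * N * Bn) := by
        apply mul_le_mul_of_nonneg_left _ (by positivity)
        apply mul_le_mul_of_nonneg_right _ hB0.le
        exact mul_le_mul_of_nonneg_right hCk hN0.le
    _ = c1 * N ^ 2 * (C / (2 * N)) * (5⁻¹ * (9⁻¹ * Bn * C ^ (-((1 + lam) * t)))) := by
        rw [← e5]; field_simp; ring
    _ ≤ c1 * N ^ 2 * m0 * ((5⁻¹ : ℝ) ^ t * (9 ^ (-((1 + lam) * t)) * Bn * C ^ (-((1 + lam) * t)))) := by
        have hCk0 : 0 < C ^ (-((1 + lam) * t)) := by positivity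
        have hm0 : 0 < C / (2 * N) := by positivity
        have hm1 : 0 < m0 := lt_of_lt_of_le hm0 hm
        gcongr

/-- upper bound for `(C N)^t` -/
theorem kidsSec_few (lam N C t : ℝ) (h2 : lam < 1) (hN : 1 ≤ N) (ht : 0 < t) (hC0 : 0 < C)
    (hC : C ≤ 2 * (20 ^ (1 / (1 - lam)) * N ^ (2 * lam / (1 - lam)))) :
    (C * N) ^ t ≤ (2 * 20 ^ (1 / (1 - lam))) ^ t * N ^ ((1 + lam) * t / (1 - lam)) := by
  have hl : 0 < 1 - lam := by linarith
  have hN0 : 0 < N := by linarith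
  have h20 : (0 : ℝ) < 20 ^ (1 / (1 - lam)) := by positivity
  have e1 : (1 + lam) * t / (1 - lam) = ((2 * lam / (1 - lam)) + 1) * t := by
    field_simp; ring
  rw [e1, Real.rpow_mul hN0.le, ← Real.mul_rpow (by positivity) (by positivity),
    Real.rpow_add hN0, Real.rpow_one]
  apply Real.rpow_le_rpow (by positivity) _ ht.le
  calc C * N ≤ 2 * (20 ^ (1 / (1 - lam)) * N ^ (2 * lam / (1 - lam))) * N :=
        mul_le_mul_of_nonneg_right hC hN0.le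
    _ = _ := by ring

/-- the window estimate -/
theorem kidsSec_window (N C m0 n c1 t l r ω : ℝ) (hN : 1 ≤ N) (hC : 1 ≤ C) (hm0 : 0 < m0)
    (hm : C / (2 * N) ≤ m0) (hc1 : 0 < c1) (ht : 0 < t) (ht1 : t ≤ 1) (hl : 0 < l) (hlr : l ≤ r)
    (hω : ω ≤ 1 / (3 * N ^ 2)) (hn : c1 * N ^ 2 ≤ n)
    (h7 : 168 * (C * N) ^ t ≤ c1 * N ^ 2) (h6 : 84 ≤ c1 * N ^ 2 * m0 * l ^ t) :
    ((r + ω) / (1 / N ^ 2) + 1) * min m0 (r / (1 / (27 * C ^ 2)) + 1) ≤
      (3 / c1 * r + r ^ t) * (n * m0) := by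
  have hN0 : 0 < N := by linarith
  have hC0 : 0 < C := by linarith
  have hr : 0 < r := by linarith
  have hN2 : 0 < N ^ 2 := by positivity
  have hrt : 0 < r ^ t := by positivity
  have e1 : (r + ω) / (1 / N ^ 2) = (r + ω) * N ^ 2 := by field_simp
  have e2 : r / (1 / (27 * C ^ 2)) = 27 * (r * C ^ 2) := by field_simp
  rw [e1, e2]
  have hω2 : ω * N ^ 2 ≤ 1 / 3 := by
    calc ω * N ^ 2 ≤ 1 / (3 * N ^ 2) * N ^ 2 := mul_le_mul_of_nonneg_right hω hN2.le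
      _ = 1 / 3 := by field_simp
  have hfac : (r + ω) * N ^ 2 + 1 ≤ r * N ^ 2 + 2 := by nlinarith
  have hmin0 : 0 ≤ min m0 (27 * (r * C ^ 2) + 1) := le_min hm0.le (by positivity)
  have hstep : ((r + ω) * N ^ 2 + 1) * min m0 (27 * (r * C ^ 2) + 1) ≤
      (r * N ^ 2 + 2) * min m0 (27 * (r * C ^ 2) + 1) := mul_le_mul_of_nonneg_right hfac hmin0
  refine hstep.trans ?_
  have hnn : 0 ≤ n := le_trans (by positivity) hn
  rcases le_or_gt 1 (r * N ^ 2) with hbig | hsmall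
  · have h1 : (r * N ^ 2 + 2) * min m0 (27 * (r * C ^ 2) + 1) ≤ (3 * (r * N ^ 2)) * m0 := by
      apply mul_le_mul (by linarith) (min_le_left _ _) hmin0 (by positivity)
    have h2 : (3 * (r * N ^ 2)) * m0 = 3 / c1 * r * (c1 * N ^ 2 * m0) := by field_simp
    have h3 : 3 / c1 * r * (c1 * N ^ 2 * m0) ≤ 3 / c1 * r * (n * m0) := by
      apply mul_le_mul_of_nonneg_left _ (by positivity)
      exact mul_le_mul_of_nonneg_right hn hm0.le
    have h4 : 0 ≤ r ^ t * (n * m0) := by positivity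
    nlinarith
  · have hfac2 : (r * N ^ 2 + 2) * min m0 (27 * (r * C ^ 2) + 1) ≤
        3 * min m0 (27 * (r * C ^ 2) + 1) := mul_le_mul_of_nonneg_right (by linarith) hmin0
    refine hfac2.trans ?_
    have hgoal : 3 * min m0 (27 * (r * C ^ 2) + 1) ≤ r ^ t * (c1 * N ^ 2 * m0) := by
      rcases le_or_gt 1 (r * C ^ 2) with hb | hs
      · have h1 : min m0 (27 * (r * C ^ 2) + 1) ≤ min m0 (28 * (r * C ^ 2)) :=
          min_le_min_left _ (by linarith)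
        have h2 := kidsSec_min m0 (28 * (r * C ^ 2)) t hm0 (by positivity) ht.le ht1
        have h3 : 28 * (r * C ^ 2) / m0 ≤ 56 * (C * N) * r := by
          rw [div_le_iff₀ hm0]
          have h31 : C ≤ m0 * (2 * N) := by
            rw [div_le_iff₀ (by positivity)] at hm; exact hm
          have h32 : C * (28 * r * C) ≤ m0 * (2 * N) * (28 * r * C) :=
            mul_le_mul_of_nonneg_right h31 (by positivity)
          nlinarith
        have h4 : (28 * (r * C ^ 2) / m0) ^ t ≤ (56 * (C * N) * r) ^ t :=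
          Real.rpow_le_rpow (by positivity) h3 ht.le
        have h5 : (56 * (C * N) * r) ^ t = 56 ^ t * (C * N) ^ t * r ^ t := by
          rw [Real.mul_rpow (by positivity) hr.le, Real.mul_rpow (by norm_num) (by positivity)]
        have h8 : (56 : ℝ) ^ t ≤ 56 := by
          calc (56 : ℝ) ^ t ≤ 56 ^ (1 : ℝ) := Real.rpow_le_rpow_of_exponent_le (by norm_num) ht1
            _ = 56 := Real.rpow_one _
        have hCN : 0 < (C * N) ^ t := by positivity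
        have h9 : (56 * (C * N) * r) ^ t ≤ 56 * (C * N) ^ t * r ^ t := by
          rw [h5]
          apply mul_le_mul_of_nonneg_right _ hrt.le
          exact mul_le_mul_of_nonneg_right h8 hCN.le
        calc 3 * min m0 (27 * (r * C ^ 2) + 1) ≤ 3 * (m0 * (28 * (r * C ^ 2) / m0) ^ t) := by
              linarith
          _ ≤ 3 * (m0 * (56 * (C * N) ^ t * r ^ t)) := by
              apply mul_le_mul_of_nonneg_left _ (by norm_num)
              apply mul_le_mul_of_nonneg_left _ hm0.le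
              linarith
          _ = r ^ t * (168 * (C * N) ^ t * m0) := by ring
          _ ≤ r ^ t * (c1 * N ^ 2 * m0) := by
              apply mul_le_mul_of_nonneg_left _ hrt.le
              exact mul_le_mul_of_nonneg_right h7 hm0.le
      · have h1 : min m0 (27 * (r * C ^ 2) + 1) ≤ 28 := (min_le_right _ _).trans (by linarith)
        have h2 : l ^ t ≤ r ^ t := Real.rpow_le_rpow hl.le hlr ht.le
        have h3 : c1 * N ^ 2 * m0 * l ^ t ≤ c1 * N ^ 2 * m0 * r ^ t :=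
          mul_le_mul_of_nonneg_left h2 (by positivity)
        nlinarith
    have h4 : r ^ t * (c1 * N ^ 2 * m0) ≤ r ^ t * (n * m0) := by
      apply mul_le_mul_of_nonneg_left _ hrt.le
      exact mul_le_mul_of_nonneg_right hn hm0.le
    have h5 : 0 ≤ 3 / c1 * r * (n * m0) := by positivity
    nlinarith

/-- choice of the parameters `N, C, m₀` -/
theorem kidsSec_params (lam t c1 η w L : ℝ) (M N0 : ℕ) (hlam1 : 3 / 5 ≤ lam) (hlam2 : lam < 1)
    (ht : 0 < t) (hts : t < (2 - 2 * lam) / (1 + lam)) (hc1 : 0 < c1) (hη : 0 < η) (hw : 0 < w) :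
    ∃ N C m0 : ℕ, N0 ≤ N ∧ (7 : ℝ) ≤ N ∧ (M : ℝ) ≤ N ∧ (1 : ℝ) ≤ C ∧ (N : ℝ) ≤ C ∧
      20 * (N : ℝ) ^ (2 * lam) ≤ (C : ℝ) ^ (1 - lam) ∧ (C : ℝ) ^ (1 - lam) ≤ 40 * (N : ℝ) ^ (2 * lam) ∧
      (0 : ℝ) < m0 ∧ (m0 : ℝ) ≤ (C : ℝ) / N ∧ (C : ℝ) / (2 * N) ≤ m0 ∧ (N : ℝ) ≤ η * C ∧
      4 / w ≤ N ∧ 168 * ((C : ℝ) * N) ^ t ≤ c1 * (N : ℝ) ^ 2 ∧
      max L 84 ≤ c1 * (N : ℝ) ^ 2 * m0 *
        ((9 * (N : ℝ) ^ 2 * C) ^ (-lam) / (5 * (9 * (N : ℝ) ^ 2 * C))) ^ t := by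
  have hl : 0 < 1 - lam := by linarith
  have hl1 : 0 < 1 + lam := by linarith
  have hkap : (1 + lam) * t < 2 - 2 * lam := by
    have := hts; rw [lt_div_iff₀ hl1] at this; linarith
  have ha1 : 0 < ((1 + lam) - 2 * ((1 + lam) * t)) / (1 - lam) := by
    apply div_pos _ hl; linarith
  have ha2 : 0 < 2 - (1 + lam) * t / (1 - lam) := by
    have : (1 + lam) * t / (1 - lam) < 2 := by rw [div_lt_iff₀ hl]; linarith
    linarith
  have hcast : Tendsto (fun n : ℕ => (n : ℝ)) atTop atTop := tendsto_natCast_atTop_atTop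
  have hE1 := ((tendsto_rpow_atTop ha1).comp hcast).eventually_ge_atTop (90 / c1 * max L 84)
  have hE2 := ((tendsto_rpow_atTop ha2).comp hcast).eventually_ge_atTop
    (168 * (2 * 20 ^ (1 / (1 - lam))) ^ t / c1)
  have hE3 := hcast.eventually_ge_atTop (1 / η)
  have hE4 := hcast.eventually_ge_atTop (4 / w)
  have hE5 := hcast.eventually_ge_atTop (M : ℝ)
  have hE6 := hcast.eventually_ge_atTop 7
  have hE7 : ∀ᶠ n : ℕ in atTop, N0 ≤ n := eventually_ge_atTop N0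
  obtain ⟨N, hh1, hh2, hh3, hh4, hh5, hh6, hh7⟩ :=
    (hE1.and (hE2.and (hE3.and (hE4.and (hE5.and (hE6.and hE7)))))).exists
  simp only [Function.comp] at hh1 hh2
  clear hE1 hE2 hE3 hE4 hE5 hE6 hE7
  have hNpos : (0 : ℝ) < N := by linarith
  have hN1 : (1 : ℝ) ≤ N := by linarith
  obtain ⟨hC1, hC2, hC3, hC4⟩ := kidsSec_C0 lam N hlam1 hlam2 hN1
  set C0 : ℝ := (20 * (N : ℝ) ^ (2 * lam)) ^ (1 / (1 - lam)) with hC0def
  have hN3 : (N : ℝ) ≤ (N : ℝ) ^ 3 := by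
    have : (N : ℝ) ^ 1 ≤ (N : ℝ) ^ 3 := pow_le_pow_right₀ hN1 (by norm_num)
    simpa using this
  have hN2 : (N : ℝ) ≤ (N : ℝ) ^ 2 := by
    have : (N : ℝ) ^ 1 ≤ (N : ℝ) ^ 2 := pow_le_pow_right₀ hN1 (by norm_num)
    simpa using this
  have hC0pos : 1 ≤ C0 := by linarith
  obtain ⟨Cn, hCge, hCle⟩ : ∃ Cn : ℕ, C0 ≤ Cn ∧ (Cn : ℝ) ≤ 2 * C0 := by
    refine ⟨⌈C0⌉₊, Nat.le_ceil C0, ?_⟩
    have := Nat.ceil_lt_add_one (by linarith : (0 : ℝ) ≤ C0)
    linarith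
  have hCone : (1 : ℝ) ≤ Cn := by linarith
  have hCpos : (0 : ℝ) < Cn := by linarith
  have hC20 : 20 * (N : ℝ) ^ 3 ≤ Cn := by linarith
  have hCN : (N : ℝ) ≤ Cn := by linarith
  have hCpow : 20 * (N : ℝ) ^ (2 * lam) ≤ (Cn : ℝ) ^ (1 - lam) := by
    rw [← hC1]; exact Real.rpow_le_rpow (by linarith) hCge hl.le
  have hCpow2 : (Cn : ℝ) ^ (1 - lam) ≤ 40 * (N : ℝ) ^ (2 * lam) := by
    calc (Cn : ℝ) ^ (1 - lam) ≤ (2 * C0) ^ (1 - lam) := Real.rpow_le_rpow hCpos.le hCle hl.le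
      _ = 2 ^ (1 - lam) * (20 * (N : ℝ) ^ (2 * lam)) := by
          rw [Real.mul_rpow (by norm_num) (by linarith), hC1]
      _ ≤ 2 * (20 * (N : ℝ) ^ (2 * lam)) := by
          apply mul_le_mul_of_nonneg_right _ (by positivity)
          calc (2 : ℝ) ^ (1 - lam) ≤ 2 ^ (1 : ℝ) :=
                Real.rpow_le_rpow_of_exponent_le (by norm_num) (by linarith)
            _ = 2 := Real.rpow_one _
      _ = _ := by ring
  have hCN20 : 20 ≤ (Cn : ℝ) / N := by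
    rw [le_div_iff₀ hNpos]
    linarith
  have hm0le : (⌊(Cn : ℝ) / N⌋₊ : ℝ) ≤ (Cn : ℝ) / N := Nat.floor_le (by positivity)
  have hm0ge : (Cn : ℝ) / (2 * N) ≤ ⌊(Cn : ℝ) / N⌋₊ := by
    have h1 := Nat.lt_floor_add_one ((Cn : ℝ) / N)
    have h2 : (Cn : ℝ) / (2 * N) = (Cn / N) / 2 := by field_simp
    rw [h2]; linarith
  have hηC : (N : ℝ) ≤ η * Cn := by
    have h1 : 1 ≤ η * N := by
      rw [div_le_iff₀ hη] at hh3; linarith
    have h2 : η * (20 * (N : ℝ) ^ 3) ≤ η * Cn := mul_le_mul_of_nonneg_left hC20 hη.le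
    have h3 : η * (20 * (N : ℝ) ^ 3) = 20 * ((η * N) * (N : ℝ) ^ 2) := by ring
    have h4 : 1 * (N : ℝ) ^ 2 ≤ (η * N) * (N : ℝ) ^ 2 :=
      mul_le_mul_of_nonneg_right h1 (by positivity)
    linarith
  refine ⟨N, Cn, ⌊(Cn : ℝ) / N⌋₊, hh7, hh6, hh5, hCone, hCN, hCpow, hCpow2,
    lt_of_lt_of_le (by positivity) hm0ge, hm0le, hm0ge, hηC, hh4, ?_, ?_⟩
  · have h1 := kidsSec_few lam N Cn t hlam2 hN1 ht hCpos (by rw [← hC4]; exact hCle)
    have h2 : (N : ℝ) ^ 2 = (N : ℝ) ^ (2 - (1 + lam) * t / (1 - lam)) *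
        (N : ℝ) ^ ((1 + lam) * t / (1 - lam)) := by
      rw [← Real.rpow_add hNpos]
      have : 2 - (1 + lam) * t / (1 - lam) + (1 + lam) * t / (1 - lam) = (2 : ℕ) := by push_cast; ring
      rw [this, Real.rpow_natCast]
    have h3 : 0 < (N : ℝ) ^ ((1 + lam) * t / (1 - lam)) := by positivity
    have h4 : 168 * (2 * 20 ^ (1 / (1 - lam))) ^ t ≤
        c1 * (N : ℝ) ^ (2 - (1 + lam) * t / (1 - lam)) := by
      rw [div_le_iff₀ hc1] at hh2; linarith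
    rw [h2]
    calc 168 * ((Cn : ℝ) * N) ^ t
        ≤ 168 * ((2 * 20 ^ (1 / (1 - lam))) ^ t * (N : ℝ) ^ ((1 + lam) * t / (1 - lam))) := by
          linarith
      _ = 168 * (2 * 20 ^ (1 / (1 - lam))) ^ t * (N : ℝ) ^ ((1 + lam) * t / (1 - lam)) := by ring
      _ ≤ c1 * (N : ℝ) ^ (2 - (1 + lam) * t / (1 - lam)) * (N : ℝ) ^ ((1 + lam) * t / (1 - lam)) :=
          mul_le_mul_of_nonneg_right h4 h3.le
      _ = _ := by ring
  · have hmany := kidsSec_many lam N Cn t c1 ⌊(Cn : ℝ) / N⌋₊ hlam1 hlam2 hN1 ht hts hc1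
      (hC3.trans hCge) hm0ge
    refine le_trans ?_ hmany
    have h1 : c1 / 90 * (90 / c1 * max L 84) ≤
        c1 / 90 * (N : ℝ) ^ (((1 + lam) - 2 * ((1 + lam) * t)) / (1 - lam)) :=
      mul_le_mul_of_nonneg_left hh1 (by positivity)
    have h2 : c1 / 90 * (90 / c1 * max L 84) = max L 84 := by field_simp
    linarith

/-- the radii -/
theorem kidsSec_radii (lam N C η w : ℝ) (hlam1 : 3 / 5 ≤ lam) (hlam2 : lam < 1) (hN : 7 ≤ N)
    (hCone : 1 ≤ C) (hCpow2 : C ^ (1 - lam) ≤ 40 * N ^ (2 * lam)) (hη : 0 < η) (hηC : N ≤ η * C)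
    (hw : 0 < w) (hwN : 4 / w ≤ N) :
    ∃ ρ ω : ℝ, 0 < ρ ∧ 0 < ω ∧ ρ = (9 * N ^ 2 * C) ^ (-lam) / (10 * (9 * N ^ 2 * C)) ∧
      2 * ρ = (9 * N ^ 2 * C) ^ (-lam) / (5 * (9 * N ^ 2 * C)) ∧
      2 * (2 * ρ) < 1 / (27 * C ^ 2) ∧ ω = 1 / (3 * (η * N) * C) ∧ ω ≤ 1 / (3 * N ^ 2) ∧
      2 * (2 * ρ) + ω < 1 / N ^ 2 ∧ ω + ρ ≤ w / 4 := by
  have hNpos : 0 < N := by linarith
  have hCpos : 0 < C := by linarith
  have hX0 : 0 < 9 * N ^ 2 * C := by positivity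
  have hX1 : 1 ≤ 9 * N ^ 2 * C := by
    have h1 : 1 ≤ N ^ 2 := by nlinarith
    nlinarith
  have hXl : 0 < (9 * N ^ 2 * C) ^ (-lam) := by positivity
  have hXl1 : (9 * N ^ 2 * C) ^ (-lam) ≤ 1 :=
    Real.rpow_le_one_of_one_le_of_nonpos hX1 (by linarith)
  have hρN : (9 * N ^ 2 * C) ^ (-lam) / (10 * (9 * N ^ 2 * C)) ≤ 1 / (90 * N ^ 2) := by
    rw [div_le_div_iff₀ (by positivity) (by positivity)]
    have h90 : 0 < 90 * N ^ 2 := by positivity
    nlinarith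
  have hω1 : 1 / (3 * (η * N) * C) ≤ 1 / (3 * N ^ 2) := by
    apply one_div_le_one_div_of_le (by positivity)
    have : N * N ≤ N * (η * C) := mul_le_mul_of_nonneg_left hηC hNpos.le
    linarith
  have hQ : 0 < 1 / N ^ 2 := by positivity
  have e3 : 1 / (3 * N ^ 2) = (1 / 3) * (1 / N ^ 2) := by field_simp
  have e90 : 1 / (90 * N ^ 2) = (1 / 90) * (1 / N ^ 2) := by field_simp
  have hNw : 1 / N ^ 2 ≤ w / 4 := by
    have h2 : 1 / N ^ 2 ≤ 1 / N := one_div_le_one_div_of_le hNpos (by nlinarith)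
    have h3 : 1 / N ≤ w / 4 := by
      rw [div_le_iff₀ hw] at hwN
      rw [div_le_div_iff₀ hNpos (by norm_num)]
      linarith
    linarith
  refine ⟨(9 * N ^ 2 * C) ^ (-lam) / (10 * (9 * N ^ 2 * C)), 1 / (3 * (η * N) * C),
    by positivity, by positivity, rfl, ?_, ?_, rfl, hω1, ?_, ?_⟩
  · field_simp; norm_num
  · have h1 := kidsSec_small lam N C hlam1 hlam2 hN hCone hCpow2
    have h2 : 2 * ((9 * N ^ 2 * C) ^ (-lam) / (10 * (9 * N ^ 2 * C))) =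
        (9 * N ^ 2 * C) ^ (-lam) / (5 * (9 * N ^ 2 * C)) := by field_simp; norm_num
    rw [h2]; exact h1
  · rw [e3] at hω1; rw [e90] at hρN; linarith
  · rw [e3] at hω1; rw [e90] at hρN; linarith

/-- the children of the family -/
theorem kidsSec_build (hFam : Fam) (hTwo : TwoLevel) (lam t c c1 η u v L ρ ω : ℝ) (M N Cn m0 : ℕ)
    (P : Finset (ℤ × ℤ)) (hlam1 : 3 / 5 ≤ lam) (hlam2 : lam < 1) (ht : 0 < t) (ht1 : t ≤ 1)
    (hu : 0 ≤ u) (huv : u < v) (hv : v ≤ 1) (hη : 0 < η) (hc1 : 0 < c1)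
    (hc : 6 / c * 1 / (v - u) = 3 / c1)
    (hP : ∀ p ∈ P, η * N < p.1 ∧ (p.1 : ℝ) ≤ N ∧ 0 < p.1 ∧ IsCoprime p.1 p.2 ∧
      (u + (v - u) / 4) * p.1 ≤ p.2 ∧ (p.2 : ℝ) ≤ (v - (v - u) / 4) * p.1)
    (hPc : c1 * (N : ℝ) ^ 2 ≤ P.card)
    (hN7 : (7 : ℝ) ≤ N) (hMN : (M : ℝ) ≤ N) (hCone : (1 : ℝ) ≤ Cn) (hCN : (N : ℝ) ≤ Cn)
    (hCpow : 20 * (N : ℝ) ^ (2 * lam) ≤ (Cn : ℝ) ^ (1 - lam))
    (hm0pos : (0 : ℝ) < m0) (hm0le : (m0 : ℝ) ≤ (Cn : ℝ) / N) (hm0ge : (Cn : ℝ) / (2 * N) ≤ m0)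
    (hfew : 168 * ((Cn : ℝ) * N) ^ t ≤ c1 * (N : ℝ) ^ 2)
    (hmany : max L 84 ≤ c1 * (N : ℝ) ^ 2 * m0 * (2 * ρ) ^ t)
    (hρ0 : 0 < ρ) (hω0 : 0 < ω)
    (hρ : ρ = (9 * (N : ℝ) ^ 2 * Cn) ^ (-lam) / (10 * (9 * (N : ℝ) ^ 2 * Cn)))
    (hsmall : 2 * (2 * ρ) < 1 / (27 * (Cn : ℝ) ^ 2)) (hωdef : ω = 1 / (3 * (η * N) * Cn))
    (hω1 : ω ≤ 1 / (3 * (N : ℝ) ^ 2)) (hsmall2 : 2 * (2 * ρ) + ω < 1 / (N : ℝ) ^ 2)
    (hwid : ω + ρ ≤ (v - u) / 4) :
    HasKids (6 / c) (Gd lam M) u v t L := by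
  have hNpos : (0 : ℝ) < N := by linarith
  have hN1 : (1 : ℝ) ≤ N := by linarith
  have hCpos : (0 : ℝ) < Cn := by linarith
  have hvu : 0 < v - u := by linarith
  -- the functions
  have hc0 : ∀ p : ℤ × ℤ, ∃ k : ℤ, p ∈ P → ((Cn : ℤ) ≤ k ∧ k < Cn + p.1 ∧ p.1 ∣ p.2 * k + 1) := by
    intro p
    by_cases hp : p ∈ P
    · obtain ⟨k, hk⟩ := kidsSec_c0 p.1 p.2 Cn (hP p hp).2.2.1 (hP p hp).2.2.2.1
      exact ⟨k, fun _ => hk⟩
    · exact ⟨0, fun h => absurd h hp⟩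
  choose c0 hc0 using hc0
  obtain ⟨φ, hφ⟩ : ∃ φ : ℤ × ℤ → ℝ, ∀ p, φ p = (p.2 : ℝ) / p.1 := ⟨_, fun _ => rfl⟩
  have hφsep : ∀ p ∈ P, ∀ p' ∈ P, p ≠ p' → 1 / (N : ℝ) ^ 2 ≤ |φ p - φ p'| := by
    intro p hp p' hp' hne
    have h1 := hP p hp
    have h2 := hP p' hp'
    rw [hφ, hφ]
    exact kidsSec_fracSep N p p' h1.2.2.1 h2.2.2.1 (by exact_mod_cast h1.2.1)
      (by exact_mod_cast h2.2.1) h1.2.2.2.1 h2.2.2.2.1 hne
  have hQ : 0 < 1 / (N : ℝ) ^ 2 := by positivity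
  have hφinj : Set.InjOn φ (P : Set (ℤ × ℤ)) := by
    intro p hp p' hp' he
    by_contra hne
    have h1 := hφsep p hp p' hp' hne
    rw [he, sub_self, abs_zero] at h1
    linarith
  obtain ⟨P', hP'⟩ : ∃ P' : Finset ℝ, P' = P.image φ := ⟨_, rfl⟩
  have hpr : ∀ x : ℝ, ∃ p : ℤ × ℤ, x ∈ P' → (p ∈ P ∧ φ p = x) := by
    intro x
    by_cases hx : x ∈ P'
    · rw [hP'] at hx
      obtain ⟨p, hp, hpx⟩ := Finset.mem_image.mp hx
      exact ⟨p, fun _ => ⟨hp, hpx⟩⟩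
    · exact ⟨0, fun h => absurd h hx⟩
  choose pr hpr using hpr
  obtain ⟨cc, hcc⟩ : ∃ cc : ℝ → ℕ → ℤ, ∀ x i, cc x i = c0 (pr x) + i * (pr x).1 := ⟨_, fun _ _ => rfl⟩
  obtain ⟨e, he⟩ : ∃ e : ℝ → ℕ → ℝ, ∀ x i, e x i = 1 / (3 * ((pr x).1 : ℝ) * (cc x i : ℝ)) :=
    ⟨_, fun _ _ => rfl⟩
  -- properties of cc
  have hccb : ∀ x ∈ P', ∀ i < m0, (Cn : ℝ) ≤ (cc x i : ℝ) ∧ (cc x i : ℝ) ≤ 3 * Cn := by
    intro x hx i hi
    have h1 := hP _ (hpr x hx).1
    obtain ⟨h2, h3, h4⟩ := hc0 _ (hpr x hx).1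
    have ha0 : (0 : ℝ) < ((pr x).1 : ℝ) := by exact_mod_cast h1.2.2.1
    have h2' : (Cn : ℝ) ≤ (c0 (pr x) : ℝ) := by exact_mod_cast h2
    have h3' : (c0 (pr x) : ℝ) < Cn + ((pr x).1 : ℝ) := by exact_mod_cast h3
    have hi' : (i : ℝ) ≤ m0 := by exact_mod_cast hi.le
    have hi0 : (0 : ℝ) ≤ i := by positivity
    have haN := h1.2.1
    rw [hcc]
    push_cast
    constructor
    · have := mul_nonneg hi0 ha0.le
      linarith
    · have : (i : ℝ) * ((pr x).1 : ℝ) ≤ Cn / N * N := by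
        apply mul_le_mul (hi'.trans hm0le) haN ha0.le (by positivity)
      rw [div_mul_cancel₀ _ hNpos.ne'] at this
      linarith
  have heb : ∀ x ∈ P', ∀ i < m0, 0 ≤ e x i ∧ e x i ≤ ω := by
    intro x hx i hi
    have h1 := hP _ (hpr x hx).1
    have h2 := hccb x hx i hi
    have ha0 : (0 : ℝ) < ((pr x).1 : ℝ) := by exact_mod_cast h1.2.2.1
    have hcp : (0 : ℝ) < (cc x i : ℝ) := by linarith
    rw [he]
    constructor
    · positivity
    · rw [hωdef]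
      apply one_div_le_one_div_of_le (by positivity)
      have := h1.1
      have h5 : η * N * Cn ≤ ((pr x).1 : ℝ) * (cc x i : ℝ) :=
        mul_le_mul this.le h2.1 hCpos.le ha0.le
      linarith
  have hesep : ∀ x ∈ P', ∀ i < m0, ∀ j < m0, i ≠ j →
      1 / (27 * (Cn : ℝ) ^ 2) ≤ |e x i - e x j| := by
    intro x hx i hi j hj hij
    have h1 := hP _ (hpr x hx).1
    have h2 := hccb x hx i hi
    have h3 := hccb x hx j hj
    have ha0 : (0 : ℝ) < ((pr x).1 : ℝ) := by exact_mod_cast h1.2.2.1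
    rw [he, he]
    apply kidsSec_inner _ _ _ Cn ha0 hCpos h2.1 h2.2 h3.1 h3.2
    rw [hcc, hcc]
    push_cast
    have : (c0 (pr x) : ℝ) + i * ((pr x).1 : ℝ) - (c0 (pr x) + j * ((pr x).1 : ℝ)) =
        ((i : ℝ) - j) * (pr x).1 := by ring
    rw [this, abs_mul, abs_of_pos ha0]
    have hij' : (1 : ℝ) ≤ |(i : ℝ) - j| := by
      have : ((i : ℤ) - j) ≠ 0 := by omega
      have := Int.one_le_abs this
      exact_mod_cast this
    have := mul_le_mul_of_nonneg_right hij' ha0.le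
    linarith
  have hP'sep : ∀ x ∈ P', ∀ x' ∈ P', x ≠ x' → 1 / (N : ℝ) ^ 2 ≤ |x - x'| := by
    intro x hx x' hx' hne
    rw [hP'] at hx hx'
    obtain ⟨p, hp, rfl⟩ := Finset.mem_image.mp hx
    obtain ⟨p', hp', rfl⟩ := Finset.mem_image.mp hx'
    exact hφsep p hp p' hp' (fun h => hne (by rw [h]))
  -- separation of all centres
  have hsepall : ∀ q ∈ P' ×ˢ Finset.range m0, ∀ q' ∈ P' ×ˢ Finset.range m0, q ≠ q' →
      2 * (2 * ρ) < |(q.1 + e q.1 q.2) - (q'.1 + e q'.1 q'.2)| := by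
    rintro ⟨x, i⟩ hq ⟨x', j⟩ hq' hne
    rw [Finset.mem_product, Finset.mem_range] at hq hq'
    by_cases hxx : x = x'
    · subst hxx
      have hij : i ≠ j := fun h => hne (by rw [h])
      have h1 := hesep x hq.1 i hq.2 j hq'.2 hij
      have h2 : x + e x i - (x + e x j) = e x i - e x j := by ring
      simp only
      rw [h2]
      linarith
    · have h1 := hP'sep x hq.1 x' hq'.1 hxx
      have h2 := heb x hq.1 i hq.2
      have h3 := heb x' hq'.1 j hq'.2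
      simp only at h2 h3 ⊢
      have h4 : |e x i - e x' j| ≤ ω := by rw [abs_le]; constructor <;> linarith
      have h5 : |x - x'| ≤ |(x + e x i) - (x' + e x' j)| + |e x i - e x' j| := by
        have : x - x' = ((x + e x i) - (x' + e x' j)) - (e x i - e x' j) := by ring
        rw [this]; exact abs_sub _ _
      linarith
  obtain ⟨f, hf⟩ : ∃ f : ℝ × ℕ → ℝ, ∀ q, f q = q.1 + e q.1 q.2 - ρ := ⟨_, fun _ => rfl⟩
  have hfinj : Set.InjOn f ((P' ×ˢ Finset.range m0 : Finset (ℝ × ℕ)) : Set (ℝ × ℕ)) := by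
    intro q hq q' hq' heq
    by_contra hne
    have h1 := hsepall q hq q' hq' hne
    have h2 : (q.1 + e q.1 q.2) - (q'.1 + e q'.1 q'.2) = 0 := by
      rw [hf, hf] at heq; linarith
    rw [h2, abs_zero] at h1
    linarith
  obtain ⟨Cs, hCs⟩ : ∃ Cs : Finset ℝ, Cs = (P' ×ˢ Finset.range m0).image f := ⟨_, rfl⟩
  have hP'card : P'.card = P.card := by rw [hP']; exact Finset.card_image_of_injOn hφinj
  have hCscard : Cs.card = P.card * m0 := by
    rw [hCs, Finset.card_image_of_injOn hfinj, Finset.card_product, Finset.card_range, hP'card]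
  -- location of the centres
  have hloc : ∀ x ∈ P', u + (v - u) / 4 ≤ x ∧ x ≤ v - (v - u) / 4 := by
    intro x hx
    rw [hP'] at hx
    obtain ⟨p, hp, rfl⟩ := Finset.mem_image.mp hx
    have h1 := hP p hp
    have ha0 : (0 : ℝ) < (p.1 : ℝ) := by exact_mod_cast h1.2.2.1
    rw [hφ]
    constructor
    · rw [le_div_iff₀ ha0]; exact h1.2.2.2.2.1
    · rw [div_le_iff₀ ha0]; exact h1.2.2.2.2.2
  have hmem : ∀ x ∈ P', ∀ i < m0, u ≤ x + e x i - ρ ∧ x + e x i - ρ + 2 * ρ ≤ v := by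
    intro x hx i hi
    have h1 := hloc x hx
    have h2 := heb x hx i hi
    constructor <;> linarith
  refine ⟨2 * ρ, Cs, by positivity, ?_, ?_, ?_, ?_, ?_⟩
  · intro y hy
    rw [hCs] at hy
    obtain ⟨⟨x, i⟩, hq, rfl⟩ := Finset.mem_image.mp hy
    rw [Finset.mem_product, Finset.mem_range] at hq
    rw [hf]
    exact hmem x hq.1 i hq.2
  · intro y hy ξ hξ
    rw [hCs] at hy
    obtain ⟨⟨x, i⟩, hq, rfl⟩ := Finset.mem_image.mp hy
    rw [Finset.mem_product, Finset.mem_range] at hq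
    rw [hf, Set.mem_Icc] at hξ
    simp only at hξ hq
    obtain ⟨hx, hi⟩ := hq
    have h1 := hP _ (hpr x hx).1
    obtain ⟨h2, h3, h4⟩ := hc0 _ (hpr x hx).1
    have hb := hccb x hx i hi
    have ha0 : (0 : ℝ) < ((pr x).1 : ℝ) := by exact_mod_cast h1.2.2.1
    have ha1 : (1 : ℝ) ≤ ((pr x).1 : ℝ) := by exact_mod_cast h1.2.2.1
    have hxe : ((pr x).2 : ℝ) / ((pr x).1 : ℝ) = x := by rw [← hφ]; exact (hpr x hx).2
    have hxl := hloc x hx
    have hmm := hmem x hx i hi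
    -- divisibility
    have hdvd : (pr x).1 ∣ (pr x).2 * cc x i + 1 := by
      rw [hcc]
      have : (pr x).2 * (c0 (pr x) + i * (pr x).1) + 1 =
        ((pr x).2 * c0 (pr x) + 1) + (pr x).1 * ((pr x).2 * i) := by ring
      rw [this]
      exact Dvd.dvd.add h4 (dvd_mul_right _ _)
    obtain ⟨ee, hee⟩ := hdvd
    have hx0 : 0 ≤ x := by linarith
    have hx1 : x ≤ 1 := by linarith
    have hn0 : 0 ≤ (pr x).2 := by
      rw [← hxe, le_div_iff₀ ha0, zero_mul] at hx0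
      exact_mod_cast hx0
    have hn1 : (pr x).2 ≤ (pr x).1 := by
      rw [← hxe, div_le_iff₀ ha0, one_mul] at hx1
      exact_mod_cast hx1
    have hX : 90 * (N : ℝ) ^ 2 * Cn * ρ ≤ (9 * (N : ℝ) ^ 2 * Cn) ^ (-lam) := by
      have : 90 * (N : ℝ) ^ 2 * Cn * ρ = (10 * (9 * (N : ℝ) ^ 2 * Cn)) *
          ((9 * (N : ℝ) ^ 2 * Cn) ^ (-lam) / (10 * (9 * (N : ℝ) ^ 2 * Cn))) := by
        rw [← hρ]; ring
      rw [this, mul_div_cancel₀ _ (by positivity)]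
    have hdist : |ξ - (((pr x).2 : ℝ) / (pr x).1 + 1 / (3 * (pr x).1 * (cc x i : ℝ)))| ≤ ρ := by
      rw [hxe, ← he, abs_le]
      constructor <;> linarith
    have hnear := hFam lam N Cn ρ ξ (pr x).1 (pr x).2 (cc x i) ee (by linarith) hlam2 hN1 hCone hCpow
      h1.2.2.1 h1.2.1 hn0 hn1 (by linarith) hb.1 hb.2 hρ0.le hX (by linarith) (by linarith) hdist
    have hcpos : (0 : ℝ) < (cc x i : ℝ) := by linarith
    refine ⟨_, ?_, ?_, hnear⟩
    · have : (M : ℝ) ≤ 3 * ((pr x).1 : ℝ) ^ 2 * (cc x i : ℝ) := by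
        have h5 : (M : ℝ) ≤ (cc x i : ℝ) := by linarith
        have h6 : (1 : ℝ) ≤ ((pr x).1 : ℝ) ^ 2 := one_le_pow₀ ha1
        have h7 := mul_le_mul_of_nonneg_right h6 hcpos.le
        linarith
      have h7 : (M : ℤ) ≤ 3 * (pr x).1 ^ 2 * cc x i := by exact_mod_cast this
      exact h7.trans (le_abs_self _)
    · have h5 : 0 < cc x i := by exact_mod_cast hcpos
      have := h1.2.2.1
      simp only
      positivity
  · intro y hy y' hy' hne
    rw [hCs] at hy hy'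
    obtain ⟨q, hq, rfl⟩ := Finset.mem_image.mp hy
    obtain ⟨q', hq', rfl⟩ := Finset.mem_image.mp hy'
    have hqq : q ≠ q' := fun h => hne (by rw [h])
    have h1 := hsepall q hq q' hq' hqq
    have : f q - f q' = (q.1 + e q.1 q.2) - (q'.1 + e q'.1 q'.2) := by
      rw [hf, hf]; ring
    rw [this]; exact h1
  · rw [hCscard]
    push_cast
    have h1 : c1 * (N : ℝ) ^ 2 * m0 * (2 * ρ) ^ t ≤ (P.card : ℝ) * m0 * (2 * ρ) ^ t := by
      apply mul_le_mul_of_nonneg_right _ (by positivity)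
      exact mul_le_mul_of_nonneg_right hPc hm0pos.le
    exact (le_max_left L 84).trans (hmany.trans h1)
  · intro p r hr
    have hr0 : 0 < r := lt_of_lt_of_le (by positivity) hr
    have hT := hTwo P' m0 e (1 / (N : ℝ) ^ 2) (1 / (27 * (Cn : ℝ) ^ 2)) ω hQ (by positivity)
      hω0.le hP'sep heb hesep (p + ρ) r hr0.le
    have hcard : ((Cs.filter fun c => p ≤ c ∧ c ≤ p + r).card : ℝ) ≤
        (((P' ×ˢ Finset.range m0).filter fun q =>
          p + ρ ≤ q.1 + e q.1 q.2 ∧ q.1 + e q.1 q.2 ≤ p + ρ + r).card : ℝ) := by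
      have hsub : (Cs.filter fun c => p ≤ c ∧ c ≤ p + r) ⊆
          ((P' ×ˢ Finset.range m0).filter fun q =>
            p + ρ ≤ q.1 + e q.1 q.2 ∧ q.1 + e q.1 q.2 ≤ p + ρ + r).image f := by
        intro y hy
        rw [Finset.mem_filter, hCs] at hy
        obtain ⟨q, hq, rfl⟩ := Finset.mem_image.mp hy.1
        apply Finset.mem_image_of_mem
        rw [Finset.mem_filter]
        refine ⟨hq, ?_, ?_⟩
        · have := hy.2.1; rw [hf] at this; linarith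
        · have := hy.2.2; rw [hf] at this; linarith
      exact_mod_cast (Finset.card_le_card hsub).trans Finset.card_image_le
    have hW := kidsSec_window N Cn m0 P.card c1 t (2 * ρ) r ω hN1 hCone hm0pos hm0ge hc1 ht ht1
      (by positivity) hr hω1 hPc hfew ((le_max_right L 84).trans hmany)
    rw [hCscard]
    push_cast
    have hK : 6 / c * r / (v - u) = 3 / c1 * r := by
      rw [← hc]; ring
    rw [hK]
    exact hcard.trans (hT.trans hW)

theorem kidsSec (hF : Farey) (hFam : Fam) (hTwo : TwoLevel) : KidsSec := by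
  intro lam hlam1 hlam2
  obtain ⟨η, c, hη, hη1, hc, hfar⟩ := hF
  refine ⟨6 / c, by positivity, ?_⟩
  intro u v t L M hu huv hv ht hts
  have hl1 : 0 < 1 + lam := by linarith
  have hkap : (1 + lam) * t < 2 - 2 * lam := by
    have := hts; rw [lt_div_iff₀ hl1] at this; linarith
  have ht1 : t < 1 := by nlinarith
  have hvu : 0 < v - u := by linarith
  obtain ⟨c1, hc1def⟩ : ∃ c1 : ℝ, c1 = c * ((v - u) / 2) := ⟨_, rfl⟩
  have hc1 : 0 < c1 := by rw [hc1def]; positivity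
  obtain ⟨N0, hN0⟩ := hfar (u + (v - u) / 4) (v - (v - u) / 4) (by linarith)
  obtain ⟨N, Cn, m0, hh7, hh6, hh5, hCone, hCN, hCpow, hCpow2, hm0pos, hm0le, hm0ge, hηC, hh4,
    hfew, hmany⟩ := kidsSec_params lam t c1 η (v - u) L M N0 hlam1 hlam2 ht hts hc1 hη hvu
  obtain ⟨P, hP, hPc⟩ := hN0 N hh7
  obtain ⟨ρ, ω, hρ0, hω0, hρ, h2ρ, hsmall, hωdef, hω1, hsmall2, hwid⟩ :=
    kidsSec_radii lam N Cn η (v - u) hlam1 hlam2 hh6 hCone hCpow2 hη hηC hvu hh4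
  rw [← h2ρ] at hmany
  refine kidsSec_build hFam hTwo lam t c c1 η u v L ρ ω M N Cn m0 P hlam1 hlam2 ht ht1.le hu huv hv
    hη hc1 ?_ ?_ ?_ hh6 hh5 hCone hCN hCpow hm0pos hm0le hm0ge hfew hmany hρ0 hω0 hρ hsmall hωdef
    hω1 hsmall2 hwid
  · rw [hc1def]; field_simp; norm_num
  · intro p hp
    have h := hP p hp
    exact ⟨h.1, by exact_mod_cast h.2.1, h.2.2.1, h.2.2.2.1, h.2.2.2.2.1, h.2.2.2.2.2⟩
  · have : c * (v - (v - u) / 4 - (u + (v - u) / 4)) * (N : ℝ) ^ 2 = c1 * (N : ℝ) ^ 2 := by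
      rw [hc1def]; ring
    linarith

end MP_211f72_nt
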