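import Pool.Agent.Lib.MP_211f72_nt.Spec
import Pool.Agent.Lib.MP_211f72_nt.Basic

/-!
# MP_211f72_nt: primitive vectors with bounded pairwise determinants
-/

namespace MP_211f72_nt

private theorem lattice_mul {v x : ℤ × ℤ} (hv : IsCoprime v.1 v.2) (h : det v x = 0) :
    ∃ j : ℤ, x.1 = j * v.1 ∧ x.2 = j * v.2 := by
  obtain ⟨a, b, hab⟩ := hv
  unfold det at h
  refine ⟨a * x.1 + b * x.2, ?_, ?_⟩
  · linear_combination (-x.1) * hab - b * h
  · linear_combination (-x.2) * hab + a * h

theorem lattice : Lattice := by
  classical
  intro S K hK hcop hdet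
  rcases S.eq_empty_or_nonempty with hS | hS
  · rw [hS]; simp; linarith
  obtain ⟨p, hp, hmax⟩ := Finset.exists_max_image (S ×ˢ S) (fun q => (det q.1 q.2).natAbs)
    (hS.product hS)
  rw [Finset.mem_product] at hp
  obtain ⟨v, w⟩ := p
  simp only at hp hmax
  set k := (det v w).natAbs with hk
  have hmax' : ∀ x ∈ S, ∀ y ∈ S, |det x y| ≤ (k : ℤ) := by
    intro x hx y hy
    have h1 := hmax (x, y) (Finset.mem_product.2 ⟨hx, hy⟩)
    simp only at h1
    rw [Int.abs_eq_natAbs]
    exact_mod_cast h1
  have hkK : (k : ℝ) ≤ K := by
    have h1 := hdet v hp.1 w hp.2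
    have h2 : (k : ℝ) = |(det v w : ℝ)| := by
      rw [hk, Nat.cast_natAbs, Int.cast_abs]
    rw [h2]; exact h1
  rcases Nat.eq_zero_or_pos k with hk0 | hk0
  · -- all determinants vanish
    have hsub : S ⊆ {v, (-v.1, -v.2)} := by
      intro x hx
      have h1 : det v x = 0 := by
        have := hmax' v hp.1 x hx
        rw [hk0] at this
        have h2 : |det v x| ≤ 0 := by exact_mod_cast this
        exact abs_eq_zero.1 (le_antisymm h2 (abs_nonneg _))
      obtain ⟨j, hj1, hj2⟩ := lattice_mul (hcop v hp.1) h1
      have h3 := hcop x hx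
      rw [hj1, hj2] at h3
      have hju : IsUnit j := by
        obtain ⟨a, b, hab⟩ := h3
        exact IsUnit.of_mul_eq_one (a * v.1 + b * v.2) (by linear_combination hab)
      rw [Int.isUnit_iff] at hju
      rw [Finset.mem_insert, Finset.mem_singleton]
      rcases hju with hj | hj
      · left
        ext
        · rw [hj1, hj, one_mul]
        · rw [hj2, hj, one_mul]
      · right
        ext
        · rw [hj1, hj]; simp
        · rw [hj2, hj]; simp
    have h2 := (Finset.card_le_card hsub).trans Finset.card_le_two
    have h3 : (S.card : ℝ) ≤ 2 := by exact_mod_cast h2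
    linarith
  · -- fibres of `det v`
    have hfib : ∀ m ∈ S.image (fun u => det v u), (S.filter fun u => det v u = m).card ≤ 3 := by
      intro m hm
      obtain ⟨u0, hu0, hm0⟩ := Finset.mem_image.1 hm
      have hj : ∀ u ∈ S.filter (fun u => det v u = m), ∃ j : ℤ, u.1 = u0.1 + j * v.1 ∧
          u.2 = u0.2 + j * v.2 := by
        intro u hu
        rw [Finset.mem_filter] at hu
        have h1 : det v (u.1 - u0.1, u.2 - u0.2) = 0 := by
          have h2 := hu.2
          rw [← hm0] at h2
          unfold det at h2 ⊢
          simp only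
          linear_combination h2
        obtain ⟨j, hj1, hj2⟩ := lattice_mul (hcop v hp.1) h1
        simp only at hj1 hj2
        exact ⟨j, by linear_combination hj1, by linear_combination hj2⟩
      choose! j hj1 hj2 using hj
      have hdiff : ∀ u ∈ S.filter (fun u => det v u = m), ∀ u' ∈ S.filter (fun u => det v u = m),
          |j u - j u'| ≤ 2 := by
        intro u hu u' hu'
        have e : det u w - det u' w = (j u - j u') * det v w := by
          unfold det
          rw [hj1 u hu, hj2 u hu, hj1 u' hu', hj2 u' hu']
          ring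
        have h1 := hmax' u (Finset.mem_filter.1 hu).1 w hp.2
        have h2 := hmax' u' (Finset.mem_filter.1 hu').1 w hp.2
        have h3 : |(j u - j u') * det v w| ≤ 2 * k := by
          rw [← e]
          have := abs_sub (det u w) (det u' w)
          linarith
        rw [abs_mul] at h3
        have h4 : |det v w| = (k : ℤ) := by rw [hk, Int.abs_eq_natAbs]
        rw [h4] at h3
        have hk' : (0 : ℤ) < k := by exact_mod_cast hk0
        by_contra hc
        push Not at hc
        nlinarith
      have hinj : Set.InjOn j (S.filter (fun u => det v u = m) : Finset (ℤ × ℤ)) := by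
        intro u hu u' hu' he
        have a := hj1 u hu
        have b := hj2 u hu
        have a' := hj1 u' hu'
        have b' := hj2 u' hu'
        have he' : j u = j u' := he
        ext
        · rw [a, a', he']
        · rw [b, b', he']
      have hu0' : u0 ∈ S.filter (fun u => det v u = m) := Finset.mem_filter.2 ⟨hu0, hm0⟩
      obtain ⟨u1, hu1, hmin⟩ := Finset.exists_min_image (S.filter (fun u => det v u = m)) j
        ⟨u0, hu0'⟩
      have hsub : (S.filter (fun u => det v u = m)).image j ⊆ Finset.Icc (j u1) (j u1 + 2) := by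
        intro z hz
        obtain ⟨u, hu, rfl⟩ := Finset.mem_image.1 hz
        rw [Finset.mem_Icc]
        refine ⟨hmin u hu, ?_⟩
        have := (abs_le.1 (hdiff u hu u1 hu1)).2
        linarith
      have hc := Finset.card_le_card hsub
      rw [Finset.card_image_of_injOn hinj, Int.card_Icc] at hc
      omega
    have h1 := Finset.card_le_mul_card_image S 3 hfib
    have hsub : S.image (fun u => det v u) ⊆ Finset.Icc (-(k : ℤ)) k := by
      intro z hz
      obtain ⟨u, hu, rfl⟩ := Finset.mem_image.1 hz
      rw [Finset.mem_Icc]
      exact abs_le.1 (hmax' v hp.1 u hu)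
    have h2 := Finset.card_le_card hsub
    rw [Int.card_Icc] at h2
    have h3 : S.card ≤ 3 * (2 * k + 1) := by
      refine h1.trans (Nat.mul_le_mul_left _ (h2.trans ?_))
      omega
    have h4 : (S.card : ℝ) ≤ 3 * (2 * k + 1) := by exact_mod_cast h3
    linarith

end MP_211f72_nt
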