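import Pool.Agent.Lib.MP_211f72_nt.Spec
import Pool.Agent.Lib.MP_211f72_nt.Basic

/-!
# MP_211f72_nt: the Hausdorff dimension of a limsup set
-/

namespace MP_211f72_nt

open MeasureTheory Filter Topology Set
open scoped ENNReal

theorem limsup : Limsup := by
  intro s E T hs h0 hsum hE
  set a : ℕ → ℝ≥0∞ := fun k => ENNReal.ofReal (∑ p ∈ T k, p.2 ^ s) with ha_def
  have ha : ∑' k, a k ≠ ∞ := hsum.tsum_ofReal_ne_top
  set t : ∀ K : ℕ, (Σ k : ℕ, T (k + K)) → Set ℝ := fun K i =>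
    Icc (i.2.1.1 - i.2.1.2) (i.2.1.1 + i.2.1.2) with ht_def
  set f : ℕ → ℝ≥0∞ := fun K => ∑' i, Metric.ediam (t K i) ^ s with hf_def
  have hf : ∀ K, f K = ENNReal.ofReal (2 ^ s) * ∑' k, a (k + K) := by
    intro K
    simp only [hf_def]
    rw [ENNReal.tsum_sigma', ← ENNReal.tsum_mul_left]
    refine tsum_congr fun k => ?_
    have e1 : ∀ p : T (k + K), Metric.ediam (t K ⟨k, p⟩) ^ s =
        (fun p : ℝ × ℝ => ENNReal.ofReal (2 ^ s) * ENNReal.ofReal (p.2 ^ s)) p := by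
      intro p
      have hp := h0 _ p.1 p.2
      simp only [ht_def]
      rw [Real.ediam_Icc, show p.1.1 + p.1.2 - (p.1.1 - p.1.2) = 2 * p.1.2 by ring,
        ENNReal.ofReal_rpow_of_nonneg (by positivity) hs.le,
        Real.mul_rpow (by norm_num) hp, ENNReal.ofReal_mul (by positivity)]
    rw [tsum_congr e1, Finset.tsum_subtype (T (k + K))
      (fun p : ℝ × ℝ => ENNReal.ofReal (2 ^ s) * ENNReal.ofReal (p.2 ^ s)), ← Finset.mul_sum,
      ha_def]
    simp only
    rw [ENNReal.ofReal_sum_of_nonneg fun p hp => Real.rpow_nonneg (h0 _ p hp) s]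
  have hf0 : Tendsto f atTop (𝓝 0) := by
    have h1 := ENNReal.tendsto_sum_nat_add a ha
    have h2 := ENNReal.Tendsto.const_mul (a := ENNReal.ofReal (2 ^ s)) h1
      (Or.inr ENNReal.ofReal_ne_top)
    rw [mul_zero] at h2
    exact h2.congr fun K => (hf K).symm
  have hr : Tendsto (fun K => f K ^ (1 / s)) atTop (𝓝 0) := by
    have h1 := (ENNReal.continuous_rpow_const (y := 1 / s)).tendsto 0 |>.comp hf0
    rwa [ENNReal.zero_rpow_of_pos (by positivity)] at h1
  have key := Measure.hausdorffMeasure_le_liminf_tsum s E (fun K => f K ^ (1 / s)) hr t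
    (Eventually.of_forall fun K i => by
      have h1 : Metric.ediam (t K i) ^ s ≤ f K := ENNReal.le_tsum i
      have h2 := ENNReal.rpow_le_rpow h1 (by positivity : (0 : ℝ) ≤ 1 / s)
      rwa [← ENNReal.rpow_mul, mul_one_div_cancel hs.ne', ENNReal.rpow_one] at h2)
    (Eventually.of_forall fun K ξ hξ => by
      obtain ⟨k, hk, p, hp, hd⟩ := hE ξ hξ K
      obtain ⟨j, rfl⟩ := Nat.exists_eq_add_of_le' hk
      rw [abs_le] at hd
      exact mem_iUnion.2 ⟨⟨j, ⟨p, hp⟩⟩, ⟨by simp only; linarith [hd.1], by simp only; linarith [hd.2]⟩⟩)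
  have hlim : liminf (fun K => ∑' i, Metric.ediam (t K i) ^ s) atTop = 0 := hf0.liminf_eq
  rw [hlim] at key
  have h3 : Measure.hausdorffMeasure ((s.toNNReal : NNReal) : ℝ) E ≠ ∞ := by
    rw [Real.coe_toNNReal s hs.le]
    exact ne_top_of_le_ne_top ENNReal.zero_ne_top key
  exact dimH_le_of_hausdorffMeasure_ne_top h3

end MP_211f72_nt
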