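import Pool.Agent.Lib.MP_211f72_nt.Spec
import Pool.Agent.Lib.MP_211f72_nt.Basic

/-!
# MP_211f72_nt: from children to the lower bound for the exact level set
-/

namespace MP_211f72_nt

open MeasureTheory

theorem lower_gdim_pos {lam : ℝ} (h : 1 / 3 < lam) : 0 < gdim lam := by
  have h1 : (0 : ℝ) < 2 / (3 * (1 + lam)) := by positivity
  exact lt_max_of_lt_right h1

theorem lower_gdim_lt_one {lam : ℝ} (h : 1 / 3 < lam) : gdim lam < 1 := by
  have h0 : (0 : ℝ) < 1 + lam := by linarith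
  refine max_lt ?_ ?_
  · rw [div_lt_one h0]; linarith
  · rw [div_lt_one (by positivity)]; linarith

theorem lower_gdim_anti {lam lam' : ℝ} (h : 1 / 3 < lam) (h' : lam < lam') :
    gdim lam' < gdim lam := by
  have h0 : (0 : ℝ) < 1 + lam := by linarith
  have h0' : (0 : ℝ) < 1 + lam' := by linarith
  refine max_lt ?_ ?_
  · refine lt_max_of_lt_left ?_
    rw [div_lt_div_iff₀ h0' h0]
    nlinarith
  · refine lt_max_of_lt_right ?_
    rw [div_lt_div_iff₀ (by positivity) (by positivity)]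
    nlinarith

theorem lower (h1 : Expo) (h2 : Upper) (h3 : ContentZero) (h4 : Avoid) : Lower := by
  intro lam hlam hk
  obtain ⟨_, e2, _, e4⟩ := h1
  obtain ⟨K, hK, hkids⟩ := hk
  have hs0 := lower_gdim_pos hlam
  have hs1 := (lower_gdim_lt_one hlam).le
  by_contra hcon
  rw [not_le] at hcon
  set Z : Set ℝ := {ξ : ℝ | lambdaExp 3 ξ = (lam : EReal)} with hZ
  let N : ℕ → Set ℝ := fun k =>
    match k with
    | 0 => Z
    | (j + 1) => {ξ : ℝ | Approx 3 ξ (lam + 1 / ((j : ℝ) + 1))}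
  have hN : ∀ k, ∃ t : ℝ, 0 < t ∧ t < gdim lam ∧ CZ t (N k) := by
    intro k
    cases k with
    | zero => exact h3 Z (gdim lam) hs0 hs1 hcon
    | succ j =>
      refine h3 _ (gdim lam) hs0 hs1 ?_
      have hj : (0 : ℝ) < 1 / ((j : ℝ) + 1) := by positivity
      have hl : lam < lam + 1 / ((j : ℝ) + 1) := by linarith
      refine lt_of_le_of_lt (h2 (lam + 1 / ((j : ℝ) + 1)) (by linarith)) ?_
      exact (ENNReal.ofReal_lt_ofReal_iff hs0).mpr (lower_gdim_anti hlam hl)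
  choose τ hτ0 hτs hcz using hN
  obtain ⟨ξ, _, _, hgd, hav⟩ := h4 K (gdim lam) hK hs0 hs1 (Gd lam) hkids N τ
    (fun k => ⟨hτ0 k, hτs k⟩) hcz
  have hA : Approx 3 ξ lam := e4 ξ lam hgd
  have hB : ∀ k : ℕ, ¬ Approx 3 ξ (lam + 1 / (k + 1)) := fun k => hav (k + 1)
  exact hav 0 (e2 3 ξ lam hA hB)

end MP_211f72_nt
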