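import Pool.Agent.Lib.MP_211f72_nt.Spec
import Pool.Agent.Lib.MP_211f72_nt.Basic

namespace MP_211f72_nt

open MeasureTheory

/-- the matrix of the linear forms (rows = images of the standard basis) -/
noncomputable def minkM (ξ : ℝ) : Matrix (Fin 4) (Fin 4) ℝ :=
  !![1, -ξ, ξ ^ 2, -ξ ^ 3; 0, 1, -2 * ξ, 3 * ξ ^ 2; 0, 0, 1, -3 * ξ; 0, 0, 0, 1]

theorem minkM_det (ξ : ℝ) : (minkM ξ).det = 1 := by
  rw [Matrix.det_of_isUpperTriangular]
  · simp [minkM, Fin.prod_univ_four]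
  · intro i j hij
    fin_cases i <;> fin_cases j <;> first | rfl | (exact absurd hij (by decide))

/-- the corresponding basis -/
noncomputable def minkB (ξ : ℝ) : Module.Basis (Fin 4) ℝ (Fin 4 → ℝ) :=
  basisOfLinearIndependentOfCardEqFinrank (b := (minkM ξ).row)
    (Matrix.linearIndependent_rows_of_det_ne_zero (A := minkM ξ)
      (by rw [minkM_det]; norm_num)) (by simp)

theorem minkB_coe (ξ : ℝ) : ⇑(minkB ξ) = (minkM ξ).row := by
  rw [minkB, coe_basisOfLinearIndependentOfCardEqFinrank]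

theorem mink : Mink := by
  intro ξ Q lam hQ
  have hQ0 : 0 < Q := by linarith
  set r : Fin 4 → ℝ := ![Q, Q ^ (2 * lam - 1), Q ^ (-lam), Q ^ (-lam)] with hr
  have hvol : volume (Set.Icc (-r) r) = 16 := by
    rw [Real.volume_Icc_pi, Fin.prod_univ_four]
    have h2 : ∀ i, r i - (-r) i = 2 * r i := fun i => by rw [Pi.neg_apply]; ring
    have h0 : ∀ i, 0 ≤ 2 * r i := by
      intro i
      fin_cases i
      · change 0 ≤ 2 * Q; positivity
      · change 0 ≤ 2 * Q ^ (2 * lam - 1); positivity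
      · change 0 ≤ 2 * Q ^ (-lam); positivity
      · change 0 ≤ 2 * Q ^ (-lam); positivity
    rw [h2, h2, h2, h2, ← ENNReal.ofReal_mul (h0 0), ← ENNReal.ofReal_mul (mul_nonneg (h0 0) (h0 1)),
      ← ENNReal.ofReal_mul (mul_nonneg (mul_nonneg (h0 0) (h0 1)) (h0 2))]
    have h3 : 2 * r 0 * (2 * r 1) * (2 * r 2) * (2 * r 3) = 16 := by
      change 2 * Q * (2 * Q ^ (2 * lam - 1)) * (2 * Q ^ (-lam)) * (2 * Q ^ (-lam)) = 16
      have h4 : Q * Q ^ (2 * lam - 1) * Q ^ (-lam) * Q ^ (-lam) = 1 := by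
        calc Q * Q ^ (2 * lam - 1) * Q ^ (-lam) * Q ^ (-lam)
            = Q ^ (1 : ℝ) * Q ^ (2 * lam - 1) * Q ^ (-lam) * Q ^ (-lam) := by rw [Real.rpow_one]
          _ = Q ^ (1 + (2 * lam - 1) + -lam + -lam) := by
            rw [Real.rpow_add hQ0, Real.rpow_add hQ0, Real.rpow_add hQ0]
          _ = 1 := by
            rw [show 1 + (2 * lam - 1) + -lam + -lam = 0 by ring, Real.rpow_zero]
      linear_combination 16 * h4
    rw [h3]
    norm_num
  have hfund := ZSpan.isAddFundamentalDomain' (minkB ξ) (volume : Measure (Fin 4 → ℝ))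
  have hdet : volume (ZSpan.fundamentalDomain (minkB ξ)) = 1 := by
    rw [ZSpan.volume_fundamentalDomain, minkB_coe]
    have : (Matrix.of (minkM ξ).row) = minkM ξ := rfl
    rw [this, minkM_det]
    simp
  have : Countable (Submodule.span ℤ (Set.range (minkB ξ))).toAddSubgroup := by
    change Countable (Submodule.span ℤ (Set.range (minkB ξ)))
    infer_instance
  obtain ⟨x, hx0, hxs⟩ := exists_ne_zero_mem_lattice_of_measure_mul_two_pow_le_measure
    (s := Set.Icc (-r) r) hfund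
    (fun x hx => ⟨neg_le_neg hx.2, by
      have := neg_le_neg hx.1
      rwa [neg_neg] at this⟩) (convex_Icc _ _) isCompact_Icc (by
        rw [hdet, hvol]
        simp
        norm_num)
  have hxm : (x : Fin 4 → ℝ) ∈ Submodule.span ℤ (Set.range (minkB ξ)) := x.2
  rw [Submodule.mem_span_range_iff_exists_fun] at hxm
  obtain ⟨c, hc⟩ := hxm
  have hBi : ∀ i, minkB ξ i = (minkM ξ).row i := fun i => by rw [minkB_coe]
  rw [Fin.sum_univ_four, hBi 0, hBi 1, hBi 2, hBi 3] at hc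
  have e0 : (x : Fin 4 → ℝ) 0 = c 0 := by
    rw [← hc]
    simp [minkM, Matrix.row]
  have e1 : (x : Fin 4 → ℝ) 1 = c 1 - ξ * c 0 := by
    rw [← hc]
    simp [minkM, Matrix.row]
    ring
  have e2 : (x : Fin 4 → ℝ) 2 = c 2 - 2 * ξ * c 1 + ξ ^ 2 * c 0 := by
    rw [← hc]
    simp [minkM, Matrix.row]
    ring
  have e3 : (x : Fin 4 → ℝ) 3 = c 3 - 3 * ξ * c 2 + 3 * ξ ^ 2 * c 1 - ξ ^ 3 * c 0 := by
    rw [← hc]
    simp [minkM, Matrix.row]
    ring
  have hb : ∀ i, |(x : Fin 4 → ℝ) i| ≤ r i := fun i => abs_le.mpr ⟨hxs.1 i, hxs.2 i⟩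
  refine ⟨⟨c 0, c 1, c 2, c 3⟩, ?_, ?_, ?_, ?_, ?_⟩
  · rintro ⟨h0, h1, h2, h3⟩
    apply hx0
    simp only at h0 h1 h2 h3
    apply Subtype.ext
    rw [← hc, h0, h1, h2, h3]
    simp
  · have := hb 0
    rwa [e0] at this
  · have := hb 1
    rwa [e1] at this
  · have := hb 2
    rwa [e2] at this
  · have := hb 3
    rwa [e3] at this

end MP_211f72_nt
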