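import Pool.Agent.Lib.MP_211f72_nt.Spec
import Pool.Agent.Lib.MP_211f72_nt.Basic

/-!
# MP_211f72_nt: existence of normal forms
-/

namespace MP_211f72_nt

/-- the bounds of the first normal form -/
private def NormalB (f : Cub) : Prop := ∃ p q : ℝ, 0 < p ∧ p ≤ q ∧ (p * q) ^ 6 ≤ 64 * |(f.D : ℝ)| ∧
    |(f.a : ℝ)| ≤ 4 * p ^ 3 ∧ |(f.b : ℝ)| ≤ 4 * p ^ 2 * q ∧ |(f.c : ℝ)| ≤ 4 * p * q ^ 2 ∧
    |(f.d : ℝ)| ≤ 4 * q ^ 3

private theorem normal_D (x : Cub) {v w : ℤ × ℤ} (h : det v w = 1) : (x.sub v w).D = x.D := by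
  rw [Cub.sub_D, h]; ring

/-- sums of two products -/
private theorem normal_prod {a b c a' b' c' p q r : ℝ} (ha : |a| ≤ p) (hb : |b| ≤ q) (hc : |c| ≤ r)
    (ha' : |a'| ≤ p) (hb' : |b'| ≤ q) (hc' : |c'| ≤ r) :
    |a * b * c + a' * b' * c'| ≤ 2 * (p * q * r) := by
  have hp : 0 ≤ p := (abs_nonneg a).trans ha
  have hq : 0 ≤ q := (abs_nonneg b).trans hb
  have h1 : |a * b * c| ≤ p * q * r := by
    rw [abs_mul, abs_mul]
    exact mul_le_mul (mul_le_mul ha hb (abs_nonneg _) hp) hc (abs_nonneg _) (mul_nonneg hp hq)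
  have h2 : |a' * b' * c'| ≤ p * q * r := by
    rw [abs_mul, abs_mul]
    exact mul_le_mul (mul_le_mul ha' hb' (abs_nonneg _) hp) hc' (abs_nonneg _) (mul_nonneg hp hq)
  calc _ ≤ |a * b * c| + |a' * b' * c'| := abs_add_le _ _
    _ ≤ _ := by linarith

private theorem normal_pos (h1 : Split) (h2 : Reduce) (x : Cub) (hD : 0 < x.D) :
    ∃ v w : ℤ × ℤ, det v w = 1 ∧ NormalB (x.sub v w) := by
  obtain ⟨α, β, α', β', ea, eb, ec, ed, eD, -, -, -⟩ := h1 x hD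
  set Δ : ℝ := α * β' - α' * β with hΔ
  have hDR : (0 : ℝ) < x.D := by exact_mod_cast hD
  have hΔ0 : Δ ≠ 0 := by
    intro h
    rw [eD, h] at hDR
    norm_num at hDR
  have hdet : (α ^ 2 + α' ^ 2) * (β ^ 2 + β' ^ 2) - (α * β + α' * β') ^ 2 = Δ ^ 2 := by
    rw [hΔ]; ring
  have hΔ2 : 0 < Δ ^ 2 := by positivity
  have hA : 0 < α ^ 2 + α' ^ 2 := by
    by_contra h
    have e1 : α ^ 2 + α' ^ 2 = 0 := le_antisymm (not_lt.mp h) (by positivity)
    rw [e1] at hdet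
    nlinarith [sq_nonneg (α * β + α' * β')]
  obtain ⟨v, w, hvw, hv0, hle, hprod⟩ := h2 (α ^ 2 + α' ^ 2) (α * β + α' * β') (β ^ 2 + β' ^ 2) hA
    (by rw [hdet]; exact hΔ2)
  rw [hdet] at hprod
  set X : ℤ × ℤ → ℝ := fun v => α * v.1 + β * v.2 with hX
  set X' : ℤ × ℤ → ℝ := fun v => α' * v.1 + β' * v.2 with hX'
  have hΦ : ∀ v : ℤ × ℤ, quad (α ^ 2 + α' ^ 2) (α * β + α' * β') (β ^ 2 + β' ^ 2) v =
      X v ^ 2 + X' v ^ 2 := by
    intro v
    simp only [quad, hX, hX']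
    ring
  have htri : ∀ u v w : ℤ × ℤ, ((x.tri u v w : ℤ) : ℝ) = X u * X v * X w + X' u * X' v * X' w := by
    intro u v w
    simp only [Cub.tri, hX, hX']
    push_cast
    rw [ea, eb, ec, ed]
    ring
  rw [hΦ, hΦ] at hprod hle
  rw [hΦ] at hv0
  set P := X v ^ 2 + X' v ^ 2 with hP
  set Q := X w ^ 2 + X' w ^ 2 with hQ
  have hQ0 : 0 < Q := lt_of_lt_of_le hv0 hle
  have hp2 : Real.sqrt P ^ 2 = P := Real.sq_sqrt hv0.le
  have hq2 : Real.sqrt Q ^ 2 = Q := Real.sq_sqrt hQ0.le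
  have b1 : |X v| ≤ Real.sqrt P := Real.abs_le_sqrt (le_add_of_nonneg_right (sq_nonneg _))
  have b1' : |X' v| ≤ Real.sqrt P := Real.abs_le_sqrt (le_add_of_nonneg_left (sq_nonneg _))
  have b2 : |X w| ≤ Real.sqrt Q := Real.abs_le_sqrt (le_add_of_nonneg_right (sq_nonneg _))
  have b2' : |X' w| ≤ Real.sqrt Q := Real.abs_le_sqrt (le_add_of_nonneg_left (sq_nonneg _))
  have hp0 : 0 < Real.sqrt P := Real.sqrt_pos.mpr hv0
  have hq0 : 0 < Real.sqrt Q := Real.sqrt_pos.mpr hQ0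
  refine ⟨v, w, hvw, Real.sqrt P, Real.sqrt Q, hp0, Real.sqrt_le_sqrt hle, ?_, ?_, ?_, ?_, ?_⟩
  · rw [normal_D x hvw, abs_of_pos hDR, eD]
    have e : (Real.sqrt P * Real.sqrt Q) ^ 6 = (P * Q) ^ 3 := by
      rw [mul_pow, show (6 : ℕ) = 2 * 3 from rfl, pow_mul, pow_mul, hp2, hq2, ← mul_pow]
    rw [e]
    have hPQ : 0 ≤ P * Q := by positivity
    calc (P * Q) ^ 3 ≤ (4 / 3 * Δ ^ 2) ^ 3 := pow_le_pow_left₀ hPQ hprod 3
      _ = 64 / 27 * Δ ^ 6 := by ring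
      _ ≤ 64 * Δ ^ 6 := by
        have : 0 ≤ Δ ^ 6 := by positivity
        linarith
  · have := normal_prod b1 b1 b1 b1' b1' b1'
    have e : (((x.sub v w).a : ℤ) : ℝ) = X v * X v * X v + X' v * X' v * X' v := htri v v v
    rw [e]
    have h0 : 0 ≤ Real.sqrt P ^ 3 := by positivity
    linarith
  · have := normal_prod b1 b1 b2 b1' b1' b2'
    have e : (((x.sub v w).b : ℤ) : ℝ) = X v * X v * X w + X' v * X' v * X' w := htri v v w
    rw [e]
    have h0 : 0 ≤ Real.sqrt P ^ 2 * Real.sqrt Q := by positivity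
    linarith
  · have := normal_prod b1 b2 b2 b1' b2' b2'
    have e : (((x.sub v w).c : ℤ) : ℝ) = X v * X w * X w + X' v * X' w * X' w := htri v w w
    rw [e]
    have h0 : 0 ≤ Real.sqrt P * Real.sqrt Q ^ 2 := by positivity
    linarith
  · have := normal_prod b2 b2 b2 b2' b2' b2'
    have e : (((x.sub v w).d : ℤ) : ℝ) = X w * X w * X w + X' w * X' w * X' w := htri w w w
    rw [e]
    have h0 : 0 ≤ Real.sqrt Q ^ 3 := by positivity
    linarith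

/-- the real inequality of the case `D < 0` -/
private theorem normal_uw' {u w : ℝ} (h1 : u ^ 2 ≤ w + 1) (h2 : w ^ 2 ≤ u + 1) : u ≤ 2 := by
  by_contra h
  rw [not_le] at h
  have h3 : 0 < (u - 2) * (u + 1) := mul_pos (by linarith) (by linarith)
  have h4 : u + 1 < w := by linarith
  have h5 : (u + 1) * w < w * w := mul_lt_mul_of_pos_right h4 (by linarith)
  have h6 : (u + 1) * 1 < (u + 1) * w := mul_lt_mul_of_pos_left (by linarith) (by linarith)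
  linarith

private theorem normal_uw {u w : ℝ} (h1 : u ^ 2 ≤ w + 1) (h2 : w ^ 2 ≤ u + 1) :
    u ≤ 2 ∧ w ≤ 2 := ⟨normal_uw' h1 h2, normal_uw' h2 h1⟩

private theorem normal_neg (h2 : Reduce) (x : Cub) (hD : x.D < 0) :
    ∃ v w : ℤ × ℤ, det v w = 1 ∧ NormalB (x.sub v w) := by
  have hDR : (x.D : ℝ) < 0 := by exact_mod_cast hD
  have hh0 : x.h0 < 0 := by
    have hs := x.syzygy0
    have h3 : x.h0 ≤ 0 := by
      by_contra h
      rw [not_le] at h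
      have : 0 < x.h0 ^ 3 := by positivity
      nlinarith [sq_nonneg (x.a ^ 2 * x.d - 3 * x.a * x.b * x.c + 2 * x.b ^ 3), sq_nonneg x.a]
    rcases lt_or_eq_of_le h3 with h | h
    · exact h
    · exfalso
      have : x.D = x.h1 ^ 2 := by unfold Cub.D; rw [h]; ring
      nlinarith [sq_nonneg x.h1]
  have hh0R : (x.h0 : ℝ) < 0 := by exact_mod_cast hh0
  have eD : (x.D : ℝ) = (x.h1 : ℝ) ^ 2 - 4 * x.h0 * x.h2 := by
    unfold Cub.D; push_cast; ring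
  obtain ⟨v, w, hvw, hv0, hle, hprod⟩ := h2 (-(x.h0 : ℝ)) (-(x.h1 : ℝ) / 2) (-(x.h2 : ℝ))
    (by linarith) (by nlinarith)
  have hΦ : ∀ v : ℤ × ℤ, quad (-(x.h0 : ℝ)) (-(x.h1 : ℝ) / 2) (-(x.h2 : ℝ)) v =
      -((x.H v : ℤ) : ℝ) := by
    intro v
    simp only [quad, Cub.H]
    push_cast
    ring
  rw [hΦ, hΦ] at hprod hle
  rw [hΦ] at hv0
  set f := x.sub v w with hf
  have hfD : f.D = x.D := normal_D x hvw
  have e0 : f.h0 = x.H v := by rw [hf, Cub.sub_h0, hvw]; ring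
  have e2 : f.h2 = x.H w := by rw [hf, Cub.sub_h2, hvw]; ring
  rw [← e0, ← e2] at hprod hle
  rw [← e0] at hv0
  set A : ℝ := -((f.h0 : ℤ) : ℝ) with hA
  set C : ℝ := -((f.h2 : ℤ) : ℝ) with hC
  set T : ℝ := |(f.D : ℝ)| with hT
  have hTD : T = -(x.D : ℝ) := by rw [hT, hfD, abs_of_neg hDR]
  have hT0 : 0 < T := by rw [hTD]; linarith
  have hC0 : 0 < C := lt_of_lt_of_le hv0 hle
  have hup : A * C ≤ T / 3 := by
    rw [hTD]
    linarith
  have efD : (f.D : ℝ) = (f.h1 : ℝ) ^ 2 - 4 * f.h0 * f.h2 := by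
    unfold Cub.D; push_cast; ring
  have hlo : T / 4 ≤ A * C := by
    have h3 : (f.D : ℝ) = -T := by rw [hTD, hfD]; ring
    rw [h3] at efD
    have : A * C = (f.h0 : ℝ) * f.h2 := by rw [hA, hC]; ring
    linarith [sq_nonneg (f.h1 : ℝ)]
  -- cube root
  set E : ℝ := T ^ ((1 : ℝ) / 3) with hE
  have hE0 : 0 < E := Real.rpow_pos_of_pos hT0 _
  have hE3 : E ^ 3 = T := by
    rw [hE, ← Real.rpow_natCast, ← Real.rpow_mul hT0.le]
    norm_num
  set p : ℝ := Real.sqrt (A / E) with hp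
  set q : ℝ := Real.sqrt (C / E) with hq
  have hp2 : p ^ 2 = A / E := Real.sq_sqrt (by positivity)
  have hq2 : q ^ 2 = C / E := Real.sq_sqrt (by positivity)
  have hp0 : 0 < p := Real.sqrt_pos.mpr (by positivity)
  have hq0 : 0 < q := Real.sqrt_pos.mpr (by positivity)
  have hpq : p ≤ q := Real.sqrt_le_sqrt (div_le_div_of_nonneg_right hle hE0.le)
  have eA : A = E * p ^ 2 := by rw [hp2]; field_simp
  have eC : C = E * q ^ 2 := by rw [hq2]; field_simp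
  have hpqE : p ^ 2 * q ^ 2 ≤ E / 3 := by
    have h3 : E ^ 2 * (p ^ 2 * q ^ 2) ≤ E ^ 2 * (E / 3) := by
      have : E ^ 2 * (E / 3) = T / 3 := by rw [← hE3]; ring
      rw [this]
      calc E ^ 2 * (p ^ 2 * q ^ 2) = A * C := by rw [eA, eC]; ring
        _ ≤ T / 3 := hup
    exact le_of_mul_le_mul_left h3 (by positivity)
  have hpqE' : E ≤ 4 * (p ^ 2 * q ^ 2) := by
    have h3 : E ^ 2 * E ≤ E ^ 2 * (4 * (p ^ 2 * q ^ 2)) := by
      have : E ^ 2 * E = T := by rw [← hE3]; ring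
      rw [this]
      have h4 : E ^ 2 * (4 * (p ^ 2 * q ^ 2)) = 4 * (A * C) := by rw [eA, eC]; ring
      rw [h4]
      linarith
    exact le_of_mul_le_mul_left h3 (by positivity)
  -- syzygies
  have hs0 : T * (f.a : ℝ) ^ 2 ≤ 4 * A ^ 3 := by
    have h3 := f.syzygy0
    have h4 : (((f.a ^ 2 * f.d - 3 * f.a * f.b * f.c + 2 * f.b ^ 3 : ℤ) : ℝ)) ^ 2 +
        4 * (f.h0 : ℝ) ^ 3 = f.D * (f.a : ℝ) ^ 2 := by exact_mod_cast h3
    have h5 : (f.D : ℝ) = -T := by rw [hTD, hfD]; ring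
    rw [h5] at h4
    have h6 : A ^ 3 = -(f.h0 : ℝ) ^ 3 := by rw [hA]; ring
    linarith [sq_nonneg (((f.a ^ 2 * f.d - 3 * f.a * f.b * f.c + 2 * f.b ^ 3 : ℤ) : ℝ))]
  have hs3 : T * (f.d : ℝ) ^ 2 ≤ 4 * C ^ 3 := by
    have h3 := f.syzygy3
    have h4 : (((f.d ^ 2 * f.a - 3 * f.d * f.c * f.b + 2 * f.c ^ 3 : ℤ) : ℝ)) ^ 2 +
        4 * (f.h2 : ℝ) ^ 3 = f.D * (f.d : ℝ) ^ 2 := by exact_mod_cast h3
    have h5 : (f.D : ℝ) = -T := by rw [hTD, hfD]; ring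
    rw [h5] at h4
    have h6 : C ^ 3 = -(f.h2 : ℝ) ^ 3 := by rw [hC]; ring
    linarith [sq_nonneg (((f.d ^ 2 * f.a - 3 * f.d * f.c * f.b + 2 * f.c ^ 3 : ℤ) : ℝ))]
  have ha : |(f.a : ℝ)| ≤ 2 * p ^ 3 := by
    apply abs_le_of_sq_le_sq _ (by positivity)
    have h3 : T * (f.a : ℝ) ^ 2 ≤ T * (2 * p ^ 3) ^ 2 := by
      calc T * (f.a : ℝ) ^ 2 ≤ 4 * A ^ 3 := hs0
        _ = T * (2 * p ^ 3) ^ 2 := by rw [eA, ← hE3]; ring
    exact le_of_mul_le_mul_left h3 hT0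
  have hd : |(f.d : ℝ)| ≤ 2 * q ^ 3 := by
    apply abs_le_of_sq_le_sq _ (by positivity)
    have h3 : T * (f.d : ℝ) ^ 2 ≤ T * (2 * q ^ 3) ^ 2 := by
      calc T * (f.d : ℝ) ^ 2 ≤ 4 * C ^ 3 := hs3
        _ = T * (2 * q ^ 3) ^ 2 := by rw [eC, ← hE3]; ring
    exact le_of_mul_le_mul_left h3 hT0
  set u : ℝ := |(f.b : ℝ)| / (2 * p ^ 2 * q) with hu
  set z : ℝ := |(f.c : ℝ)| / (2 * p * q ^ 2) with hz
  have eb : |(f.b : ℝ)| = u * (2 * p ^ 2 * q) := by rw [hu]; field_simp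
  have ec : |(f.c : ℝ)| = z * (2 * p * q ^ 2) := by rw [hz]; field_simp
  have hu0 : 0 ≤ u := by positivity
  have hz0 : 0 ≤ z := by positivity
  have hb2 : (f.b : ℝ) ^ 2 = f.a * f.c + A := by
    have : f.h0 = f.a * f.c - f.b ^ 2 := rfl
    rw [hA, this]; push_cast; ring
  have hc2 : (f.c : ℝ) ^ 2 = f.b * f.d + C := by
    have : f.h2 = f.b * f.d - f.c ^ 2 := rfl
    rw [hC, this]; push_cast; ring
  have i1 : u ^ 2 ≤ z + 1 := by
    have h3 : (f.a : ℝ) * f.c ≤ |(f.a : ℝ)| * |(f.c : ℝ)| := by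
      rw [← abs_mul]; exact le_abs_self _
    have h4 : |(f.a : ℝ)| * |(f.c : ℝ)| ≤ 2 * p ^ 3 * (z * (2 * p * q ^ 2)) := by
      rw [← ec]; exact mul_le_mul_of_nonneg_right ha (abs_nonneg _)
    have h5 : A ≤ 4 * p ^ 4 * q ^ 2 := by
      rw [eA]
      have h8 : 0 ≤ p ^ 2 := by positivity
      have h9 := mul_le_mul_of_nonneg_right hpqE' h8
      linarith
    have h6 : (f.b : ℝ) ^ 2 = u ^ 2 * (4 * p ^ 4 * q ^ 2) := by
      rw [← sq_abs, eb]; ring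
    have h7 : u ^ 2 * (4 * p ^ 4 * q ^ 2) ≤ (z + 1) * (4 * p ^ 4 * q ^ 2) := by
      rw [← h6, hb2]
      linarith
    exact le_of_mul_le_mul_right h7 (by positivity)
  have i2 : z ^ 2 ≤ u + 1 := by
    have h3 : (f.b : ℝ) * f.d ≤ |(f.b : ℝ)| * |(f.d : ℝ)| := by
      rw [← abs_mul]; exact le_abs_self _
    have h4 : |(f.b : ℝ)| * |(f.d : ℝ)| ≤ u * (2 * p ^ 2 * q) * (2 * q ^ 3) := by
      rw [← eb]; exact mul_le_mul_of_nonneg_left hd (abs_nonneg _)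
    have h5 : C ≤ 4 * p ^ 2 * q ^ 4 := by
      rw [eC]
      have h8 : 0 ≤ q ^ 2 := by positivity
      have h9 := mul_le_mul_of_nonneg_right hpqE' h8
      linarith
    have h6 : (f.c : ℝ) ^ 2 = z ^ 2 * (4 * p ^ 2 * q ^ 4) := by
      rw [← sq_abs, ec]; ring
    have h7 : z ^ 2 * (4 * p ^ 2 * q ^ 4) ≤ (u + 1) * (4 * p ^ 2 * q ^ 4) := by
      rw [← h6, hc2]
      linarith
    exact le_of_mul_le_mul_right h7 (by positivity)
  obtain ⟨hu2, hz2⟩ := normal_uw i1 i2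
  refine ⟨v, w, hvw, p, q, hp0, hpq, ?_, ?_, ?_, ?_, ?_⟩
  · have h3 : (p * q) ^ 6 = (p ^ 2 * q ^ 2) ^ 3 := by ring
    rw [h3]
    calc (p ^ 2 * q ^ 2) ^ 3 ≤ (E / 3) ^ 3 := pow_le_pow_left₀ (by positivity) hpqE 3
      _ = T / 27 := by rw [← hE3]; ring
      _ ≤ 64 * T := by linarith
  · have : 0 ≤ p ^ 3 := by positivity
    linarith
  · rw [eb]
    have h3 : 0 ≤ 2 * p ^ 2 * q := by positivity
    have h4 := mul_le_mul_of_nonneg_right hu2 h3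
    linarith
  · rw [ec]
    have h3 : 0 ≤ 2 * p * q ^ 2 := by positivity
    have h4 := mul_le_mul_of_nonneg_right hz2 h3
    linarith
  · have : 0 ≤ q ^ 3 := by positivity
    linarith

/-- reduction of `c` modulo `2b` -/
private theorem normal_round (b c : ℤ) (hb : b ≠ 0) : ∃ k : ℤ, |c + 2 * k * b| ≤ |b| := by
  have hbR : (b : ℝ) ≠ 0 := by exact_mod_cast hb
  refine ⟨-round ((c : ℝ) / (2 * b)), ?_⟩
  have h1 := abs_sub_round ((c : ℝ) / (2 * b))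
  set k := round ((c : ℝ) / (2 * b)) with hk
  have h2 : |((c + 2 * -k * b : ℤ) : ℝ)| ≤ |(b : ℝ)| := by
    have e : ((c + 2 * -k * b : ℤ) : ℝ) = (2 * b) * ((c : ℝ) / (2 * b) - k) := by
      push_cast
      field_simp
      ring
    rw [e, abs_mul, abs_mul, abs_two]
    have := abs_nonneg (b : ℝ)
    nlinarith
  exact_mod_cast h2

theorem existsNormal (h1 : Split) (h2 : Reduce) : ExistsNormal := by
  intro x hD
  have key : ∃ v w : ℤ × ℤ, det v w = 1 ∧ NormalB (x.sub v w) := by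
    rcases lt_or_gt_of_ne hD with h | h
    · exact normal_neg h2 x h
    · exact normal_pos h1 h2 x h
  -- from `v, w` to the representation
  have fin : ∀ v w : ℤ × ℤ, det v w = 1 → (Nor1 (x.sub v w) ∨ Nor2 (x.sub v w)) →
      ∃ (f : Cub) (w z : ℤ × ℤ), det w z = 1 ∧ x = f.sub w z ∧ (Nor1 f ∨ Nor2 f) := by
    intro v w hvw hN
    refine ⟨x.sub v w, (w.2, -v.2), (-w.1, v.1), ?_, (Cub.sub_sub_inv x v w hvw).symm, hN⟩
    simp only [det] at hvw ⊢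
    linarith
  obtain ⟨v, w, hvw, hB⟩ := key
  by_cases ha : (x.sub v w).a = 0
  · have hfD : (x.sub v w).D ≠ 0 := by rw [normal_D x hvw]; exact hD
    have hb : (x.sub v w).b ≠ 0 := by
      intro hb
      apply hfD
      simp only [Cub.D, Cub.h0, Cub.h1, Cub.h2, ha, hb]
      ring
    obtain ⟨k, hk⟩ := normal_round (x.sub v w).b (x.sub v w).c hb
    have hv' : det v (w.1 + k * v.1, w.2 + k * v.2) = 1 := by
      simp only [det] at hvw ⊢
      linarith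
    apply fin v (w.1 + k * v.1, w.2 + k * v.2) hv'
    right
    have e1 : (x.sub v (w.1 + k * v.1, w.2 + k * v.2)).a = (x.sub v w).a := rfl
    have e2 : (x.sub v (w.1 + k * v.1, w.2 + k * v.2)).b =
        (x.sub v w).b + k * (x.sub v w).a := by
      simp only [Cub.sub, Cub.tri]; ring
    have e3 : (x.sub v (w.1 + k * v.1, w.2 + k * v.2)).c =
        (x.sub v w).c + 2 * k * (x.sub v w).b + k ^ 2 * (x.sub v w).a := by
      simp only [Cub.sub, Cub.tri]; ring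
    rw [ha] at e1 e2 e3
    refine ⟨e1, ?_⟩
    rw [e2, e3, mul_zero, mul_zero, add_zero, add_zero]
    exact hk
  · exact fin v w hvw (Or.inl ⟨ha, hB⟩)

end MP_211f72_nt
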