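import Pool.Agent.Lib.MP_211f72_nt.Spec
import Pool.Agent.Lib.MP_211f72_nt.Basic

/-!
# MP_211f72_nt: Lagrange-Gauss reduction of a positive definite real binary quadratic form
-/

namespace MP_211f72_nt

theorem reduce_mulA (A B C : ℝ) (v : ℤ × ℤ) : A * quad A B C v =
    (A * v.1 + B * v.2) ^ 2 + (A * C - B ^ 2) * (v.2 : ℝ) ^ 2 := by
  unfold quad; ring

theorem reduce_mulC (A B C : ℝ) (v : ℤ × ℤ) : C * quad A B C v =
    (B * v.1 + C * v.2) ^ 2 + (A * C - B ^ 2) * (v.1 : ℝ) ^ 2 := by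
  unfold quad; ring

theorem reduce_pos {A B C : ℝ} (hA : 0 < A) (hD : 0 < A * C - B ^ 2) {v : ℤ × ℤ} (hv : v ≠ 0) :
    0 < quad A B C v := by
  have h1 := reduce_mulA A B C v
  have h2 : 0 < A * quad A B C v := by
    rw [h1]
    by_cases h : v.2 = 0
    · have h3 : v.1 ≠ 0 := fun h4 => hv (Prod.ext h4 h)
      have h4 : (v.1 : ℝ) ≠ 0 := by exact_mod_cast h3
      rw [h]
      have h5 : A * (v.1 : ℝ) ≠ 0 := mul_ne_zero hA.ne' h4
      have h6 : 0 < (A * (v.1 : ℝ)) ^ 2 := by positivity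
      simpa using h6
    · have h4 : (v.2 : ℝ) ≠ 0 := by exact_mod_cast h
      have h5 : 0 < (A * C - B ^ 2) * (v.2 : ℝ) ^ 2 := by positivity
      have h6 : 0 ≤ (A * v.1 + B * v.2) ^ 2 := sq_nonneg _
      linarith
  exact (mul_pos_iff_of_pos_left hA).1 h2

theorem reduce_int_abs {n : ℤ} {x : ℝ} {M : ℕ} (h : (n : ℝ) ^ 2 ≤ x) (hM : x ≤ M) :
    -(M : ℤ) ≤ n ∧ n ≤ M := by
  have h1 : (n : ℝ) ^ 2 ≤ M := h.trans hM
  have h2 : n ^ 2 ≤ (M : ℤ) := by exact_mod_cast h1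
  constructor <;> nlinarith

theorem reduce_min {A B C : ℝ} (hA : 0 < A) (hD : 0 < A * C - B ^ 2) :
    ∃ v : ℤ × ℤ, v ≠ 0 ∧ ∀ w : ℤ × ℤ, w ≠ 0 → quad A B C v ≤ quad A B C w := by
  have hC : 0 < C := by
    have h1 : 0 < A * C := by nlinarith [sq_nonneg B]
    exact (mul_pos_iff_of_pos_left hA).1 h1
  set D := A * C - B ^ 2 with hDdef
  set S : Set (ℤ × ℤ) := {v | v ≠ 0 ∧ quad A B C v ≤ quad A B C (1, 0)} with hS
  have hfin : S.Finite := by
    obtain ⟨M, hM⟩ := exists_nat_ge (max (A * quad A B C (1, 0) / D) (C * quad A B C (1, 0) / D))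
    refine Set.Finite.subset (Set.toFinite
      (((Finset.Icc (-(M : ℤ)) M) ×ˢ (Finset.Icc (-(M : ℤ)) M) : Finset (ℤ × ℤ)) : Set (ℤ × ℤ))) ?_
    rintro v ⟨_, hv⟩
    have h2 : (v.2 : ℝ) ^ 2 ≤ A * quad A B C (1, 0) / D := by
      rw [le_div_iff₀ hD]
      have h3 := reduce_mulA A B C v
      have h4 : A * quad A B C v ≤ A * quad A B C (1, 0) := mul_le_mul_of_nonneg_left hv hA.le
      have h5 : 0 ≤ (A * v.1 + B * v.2) ^ 2 := sq_nonneg _
      rw [← hDdef] at h3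
      linarith
    have h1 : (v.1 : ℝ) ^ 2 ≤ C * quad A B C (1, 0) / D := by
      rw [le_div_iff₀ hD]
      have h3 := reduce_mulC A B C v
      have h4 : C * quad A B C v ≤ C * quad A B C (1, 0) := mul_le_mul_of_nonneg_left hv hC.le
      have h5 : 0 ≤ (B * v.1 + C * v.2) ^ 2 := sq_nonneg _
      rw [← hDdef] at h3
      linarith
    have h6 := reduce_int_abs h2 ((le_max_left _ _).trans hM)
    have h7 := reduce_int_abs h1 ((le_max_right _ _).trans hM)
    rw [Finset.mem_coe, Finset.mem_product, Finset.mem_Icc, Finset.mem_Icc]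
    exact ⟨h7, h6⟩
  have hne : S.Nonempty := ⟨(1, 0), by
    refine ⟨?_, le_rfl⟩
    intro h
    have := congrArg Prod.fst h
    simp at this⟩
  obtain ⟨v, hv, hmin⟩ := Set.exists_min_image S (quad A B C) hfin hne
  refine ⟨v, hv.1, fun w hw => ?_⟩
  by_cases h : quad A B C w ≤ quad A B C (1, 0)
  · exact hmin w ⟨hw, h⟩
  · exact hv.2.trans (not_le.1 h).le

theorem reduce_primitive {A B C : ℝ} (hA : 0 < A) (hD : 0 < A * C - B ^ 2) {v : ℤ × ℤ}
    (hv : v ≠ 0) (hmin : ∀ w : ℤ × ℤ, w ≠ 0 → quad A B C v ≤ quad A B C w) :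
    Int.gcd v.1 v.2 = 1 := by
  set g := Int.gcd v.1 v.2 with hg
  have hg0 : g ≠ 0 := by
    intro h
    rw [hg, Int.gcd_eq_zero_iff] at h
    exact hv (Prod.ext h.1 h.2)
  by_contra hne
  have hg2 : 2 ≤ g := by omega
  obtain ⟨a, ha⟩ : (g : ℤ) ∣ v.1 := Int.gcd_dvd_left ..
  obtain ⟨b, hb⟩ : (g : ℤ) ∣ v.2 := Int.gcd_dvd_right ..
  have hu : ((a, b) : ℤ × ℤ) ≠ 0 := by
    intro h
    have h1 : a = 0 := congrArg Prod.fst h
    have h2 : b = 0 := congrArg Prod.snd h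
    rw [h1, mul_zero] at ha
    rw [h2, mul_zero] at hb
    exact hv (Prod.ext ha hb)
  have h1 := hmin _ hu
  have h2 := reduce_pos hA hD hu
  have h3 : quad A B C v = (g : ℝ) ^ 2 * quad A B C (a, b) := by
    unfold quad
    rw [ha, hb]
    push_cast
    ring
  have h4 : (4 : ℝ) ≤ (g : ℝ) ^ 2 := by
    have : (2 : ℝ) ≤ g := by exact_mod_cast hg2
    nlinarith
  nlinarith

/-- **Reduce.** -/
theorem reduce : Reduce := by
  intro A B C hA hD
  obtain ⟨v, hv, hmin⟩ := reduce_min hA hD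
  have hg := reduce_primitive hA hD hv hmin
  have hv0 := reduce_pos hA hD hv
  set w₀ : ℤ × ℤ := (-Int.gcdB v.1 v.2, Int.gcdA v.1 v.2) with hw₀
  have hdet0 : det v w₀ = 1 := by
    have h1 := Int.gcd_eq_gcd_ab v.1 v.2
    rw [hg] at h1
    unfold det
    simp only [hw₀]
    push_cast at h1
    linarith
  set P₀ : ℝ := A * (v.1 * w₀.1) + B * (v.1 * w₀.2 + v.2 * w₀.1) + C * (v.2 * w₀.2) with hP₀
  set k : ℤ := round (P₀ / quad A B C v) with hk
  set w : ℤ × ℤ := (w₀.1 - k * v.1, w₀.2 - k * v.2) with hw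
  have hdet : det v w = 1 := by
    have h1 : det v w = det v w₀ := by
      unfold det
      simp only [hw]
      ring
    rw [h1, hdet0]
  have hw0 : w ≠ 0 := by
    intro h
    have h1 : det v w = 0 := by
      rw [h]
      unfold det
      simp
    rw [hdet] at h1
    exact one_ne_zero h1
  have hP : |P₀ - k * quad A B C v| ≤ quad A B C v / 2 := by
    have h1 := abs_sub_round (P₀ / quad A B C v)
    rw [← hk] at h1
    have h2 : P₀ - k * quad A B C v = (P₀ / quad A B C v - k) * quad A B C v := by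
      field_simp
    rw [h2, abs_mul, abs_of_pos hv0]
    calc |P₀ / quad A B C v - k| * quad A B C v ≤ 1 / 2 * quad A B C v :=
          mul_le_mul_of_nonneg_right h1 hv0.le
      _ = quad A B C v / 2 := by ring
  have hid : quad A B C v * quad A B C w - (P₀ - k * quad A B C v) ^ 2 =
      (A * C - B ^ 2) * ((det v w : ℤ) : ℝ) ^ 2 := by
    rw [hP₀]
    unfold quad det
    simp only [hw]
    push_cast
    ring
  rw [hdet] at hid
  push_cast at hid
  have hle := hmin w hw0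
  refine ⟨v, w, hdet, hv0, hle, ?_⟩
  have h3 : (P₀ - k * quad A B C v) ^ 2 ≤ (quad A B C v / 2) ^ 2 := by
    rw [← sq_abs]
    exact pow_le_pow_left₀ (abs_nonneg _) hP 2
  nlinarith [mul_le_mul_of_nonneg_left hle hv0.le]

end MP_211f72_nt
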