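import Pool.Agent.Lib.MP_211f72_nt.Spec
import Pool.Agent.Lib.MP_211f72_nt.Basic

/-!
# MP_211f72_nt: a cubic form of positive discriminant is a sum of two cubes
-/

namespace MP_211f72_nt

theorem split_cbrt (A : ℝ) : ∃ α : ℝ, α ^ 3 = A := by
  rcases le_total 0 A with h | h
  · refine ⟨A ^ ((1 : ℝ) / 3), ?_⟩
    rw [← Real.rpow_natCast, ← Real.rpow_mul h]
    norm_num
  · refine ⟨-((-A) ^ ((1 : ℝ) / 3)), ?_⟩
    have h' : ((-A) ^ ((1 : ℝ) / 3)) ^ 3 = -A := by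
      rw [← Real.rpow_natCast, ← Real.rpow_mul (by linarith : 0 ≤ -A)]
      norm_num
    rw [Odd.neg_pow (by decide), h', neg_neg]

theorem split_inj {x y : ℝ} (h : x ^ 3 = y ^ 3) : x = y :=
  (Odd.strictMono_pow (by decide : Odd 3)).injective h

theorem split_fact (A B C E : ℝ) (h1 : A * C = B ^ 2) (h2 : B * E = C ^ 2) (h3 : A * E = B * C) :
    ∃ α β : ℝ, A = α ^ 3 ∧ B = α ^ 2 * β ∧ C = α * β ^ 2 ∧ E = β ^ 3 := by
  obtain ⟨α, hα⟩ := split_cbrt A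
  obtain ⟨β, hβ⟩ := split_cbrt E
  refine ⟨α, β, hα.symm, ?_, ?_, hβ.symm⟩
  · apply split_inj
    have : B ^ 3 = A ^ 2 * E := by linear_combination (-B) * h1 - A * h3
    rw [this, ← hα, ← hβ]; ring
  · apply split_inj
    have : C ^ 3 = A * E ^ 2 := by linear_combination (-C) * h2 - E * h3
    rw [this, ← hα, ← hβ]; ring

theorem split_aux (a b c d t : ℝ)
    (ht : t ^ 2 * ((a * d - b * c) ^ 2 - 4 * (a * c - b ^ 2) * (b * d - c ^ 2)) = 1) :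
    ∃ α β : ℝ, (a + t * (a ^ 2 * d - 3 * a * b * c + 2 * b ^ 3)) / 2 = α ^ 3 ∧
      (b + t * (a * b * d - 2 * a * c ^ 2 + b ^ 2 * c)) / 2 = α ^ 2 * β ∧
      (c + t * (-a * c * d + 2 * b ^ 2 * d - b * c ^ 2)) / 2 = α * β ^ 2 ∧
      (d + t * (-a * d ^ 2 + 3 * b * c * d - 2 * c ^ 3)) / 2 = β ^ 3 := by
  apply split_fact
  · linear_combination (-(a * c - b ^ 2) / 4) * ht
  · linear_combination (-(b * d - c ^ 2) / 4) * ht
  · linear_combination (-(a * d - b * c) / 4) * ht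

/-- **Split.** -/
theorem split : Split := by
  intro x hD
  have hD' : 0 < (x.D : ℝ) := by exact_mod_cast hD
  have hDe : (x.D : ℝ) = ((x.a : ℝ) * x.d - x.b * x.c) ^ 2
      - 4 * ((x.a : ℝ) * x.c - x.b ^ 2) * ((x.b : ℝ) * x.d - x.c ^ 2) := by
    simp only [Cub.D, Cub.h0, Cub.h1, Cub.h2]; push_cast; ring
  have ht : ((√(x.D : ℝ))⁻¹) ^ 2 * (((x.a : ℝ) * x.d - x.b * x.c) ^ 2
      - 4 * ((x.a : ℝ) * x.c - x.b ^ 2) * ((x.b : ℝ) * x.d - x.c ^ 2)) = 1 := by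
    rw [← hDe, inv_pow, Real.sq_sqrt hD'.le]
    exact inv_mul_cancel₀ hD'.ne'
  have ht' : (-(√(x.D : ℝ))⁻¹) ^ 2 * (((x.a : ℝ) * x.d - x.b * x.c) ^ 2
      - 4 * ((x.a : ℝ) * x.c - x.b ^ 2) * ((x.b : ℝ) * x.d - x.c ^ 2)) = 1 := by
    rw [neg_sq]; exact ht
  obtain ⟨α, β, h1, h2, h3, h4⟩ := split_aux _ _ _ _ _ ht
  obtain ⟨α', β', h1', h2', h3', h4'⟩ := split_aux _ _ _ _ _ ht'
  have ha : (x.a : ℝ) = α ^ 3 + α' ^ 3 := by rw [← h1, ← h1']; ring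
  have hb : (x.b : ℝ) = α ^ 2 * β + α' ^ 2 * β' := by rw [← h2, ← h2']; ring
  have hc : (x.c : ℝ) = α * β ^ 2 + α' * β' ^ 2 := by rw [← h3, ← h3']; ring
  have hd : (x.d : ℝ) = β ^ 3 + β' ^ 3 := by rw [← h4, ← h4']; ring
  refine ⟨α, β, α', β', ha, hb, hc, hd, ?_, ?_, ?_, ?_⟩
  · rw [hDe, ha, hb, hc, hd]; ring
  · simp only [Cub.h0]; push_cast; rw [ha, hb, hc]; ring
  · simp only [Cub.h1]; push_cast; rw [ha, hb, hc, hd]; ring
  · simp only [Cub.h2]; push_cast; rw [hb, hc, hd]; ring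

end MP_211f72_nt
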