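import Pool.Agent.Lib.MP_211f72_nt.Spec
import Pool.Agent.Lib.MP_211f72_nt.Basic

/-!
# MP_211f72_nt: Dirichlet's theorem (`n = 3`) and the case `lam = 1/3`
-/

namespace MP_211f72_nt

open MeasureTheory

private theorem third_floor_mem (N : ℕ) (hN : 0 < N) (x : ℝ) :
    ⌊(N : ℝ) * Int.fract x⌋₊ ∈ Finset.range N := by
  have hN' : (0 : ℝ) < N := by exact_mod_cast hN
  rw [Finset.mem_range, Nat.floor_lt (mul_nonneg hN'.le (Int.fract_nonneg x))]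
  nlinarith [Int.fract_lt_one x]

private theorem third_close (N : ℕ) (hN : 0 < N) (x y : ℝ)
    (h : ⌊(N : ℝ) * Int.fract x⌋₊ = ⌊(N : ℝ) * Int.fract y⌋₊) :
    |(x - y) - ((⌊x⌋ - ⌊y⌋ : ℤ) : ℝ)| ≤ 1 / N := by
  have hN' : (0 : ℝ) < N := by exact_mod_cast hN
  have e : (x - y) - ((⌊x⌋ - ⌊y⌋ : ℤ) : ℝ) = Int.fract x - Int.fract y := by
    push_cast
    rw [← Int.self_sub_floor, ← Int.self_sub_floor]
    ring
  rw [e]
  have h1 := Nat.floor_le (mul_nonneg hN'.le (Int.fract_nonneg x))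
  have h2 := Nat.lt_floor_add_one ((N : ℝ) * Int.fract x)
  have h3 := Nat.floor_le (mul_nonneg hN'.le (Int.fract_nonneg y))
  have h4 := Nat.lt_floor_add_one ((N : ℝ) * Int.fract y)
  rw [h] at h1 h2
  rw [le_div_iff₀ hN', ← abs_of_pos hN', ← abs_mul, abs_le]
  constructor <;> nlinarith

theorem dirichlet : Dirichlet := by
  intro ξ X₀
  obtain ⟨N₀, hN₀⟩ := exists_nat_ge X₀
  set N : ℕ := N₀ + 1 with hNdef
  have hN : 0 < N := Nat.succ_pos _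
  have hN' : (0 : ℝ) < N := by exact_mod_cast hN
  have hN1 : (1 : ℝ) ≤ N := by exact_mod_cast hN
  have hNN : (N : ℝ) ≤ (N : ℝ) ^ 3 := by nlinarith [sq_nonneg ((N : ℝ)), mul_pos hN' hN']
  refine ⟨(N : ℝ) ^ 3, ?_, ?_⟩
  · have : (N₀ : ℝ) ≤ N := by exact_mod_cast Nat.le_succ _
    linarith
  let f : ℕ → ℕ × ℕ × ℕ := fun q =>
    (⌊(N : ℝ) * Int.fract ((q : ℝ) * ξ)⌋₊, ⌊(N : ℝ) * Int.fract ((q : ℝ) * ξ ^ 2)⌋₊,
      ⌊(N : ℝ) * Int.fract ((q : ℝ) * ξ ^ 3)⌋₊)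
  have hf : ∀ q ∈ Finset.range (N ^ 3 + 1),
      f q ∈ (Finset.range N) ×ˢ ((Finset.range N) ×ˢ (Finset.range N)) := by
    intro q _
    simp only [Finset.mem_product]
    exact ⟨third_floor_mem N hN _, third_floor_mem N hN _, third_floor_mem N hN _⟩
  have hcard : ((Finset.range N) ×ˢ ((Finset.range N) ×ˢ (Finset.range N))).card
      < (Finset.range (N ^ 3 + 1)).card := by
    simp only [Finset.card_product, Finset.card_range]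
    have : N * (N * N) = N ^ 3 := by ring
    omega
  obtain ⟨q1, hq1, q2, hq2, hne, heq⟩ := Finset.exists_ne_map_eq_of_card_lt_of_maps_to hcard hf
  rw [Finset.mem_range] at hq1 hq2
  wlog hlt : q2 < q1 generalizing q1 q2
  · exact this q2 hq2 q1 hq1 hne.symm heq.symm (by omega)
  obtain ⟨e1, e2⟩ := Prod.mk.inj heq
  obtain ⟨e2, e3⟩ := Prod.mk.inj e2
  have key : ∀ j : ℕ, ⌊(N : ℝ) * Int.fract ((q1 : ℝ) * ξ ^ j)⌋₊
      = ⌊(N : ℝ) * Int.fract ((q2 : ℝ) * ξ ^ j)⌋₊ →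
      |(((q1 : ℤ) - (q2 : ℤ) : ℤ) : ℝ) * ξ ^ j
        - ((⌊(q1 : ℝ) * ξ ^ j⌋ - ⌊(q2 : ℝ) * ξ ^ j⌋ : ℤ) : ℝ)| ≤ ((N : ℝ) ^ 3) ^ (-(1 / 3) : ℝ) := by
    intro j hj
    have h := third_close N hN _ _ hj
    have e : (((q1 : ℤ) - (q2 : ℤ) : ℤ) : ℝ) * ξ ^ j = (q1 : ℝ) * ξ ^ j - (q2 : ℝ) * ξ ^ j := by
      push_cast; ring
    rw [e]
    refine h.trans (le_of_eq ?_)
    rw [Real.rpow_neg (by positivity), ← Real.rpow_natCast (N : ℝ) 3, ← Real.rpow_mul hN'.le]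
    norm_num
  refine ⟨![(q1 : ℤ) - (q2 : ℤ), ⌊(q1 : ℝ) * ξ ^ 1⌋ - ⌊(q2 : ℝ) * ξ ^ 1⌋,
    ⌊(q1 : ℝ) * ξ ^ 2⌋ - ⌊(q2 : ℝ) * ξ ^ 2⌋, ⌊(q1 : ℝ) * ξ ^ 3⌋ - ⌊(q2 : ℝ) * ξ ^ 3⌋], ?_, ?_, ?_⟩
  · have h1 : (0 : ℤ) < (q1 : ℤ) - (q2 : ℤ) := by omega
    have h2 : (0 : ℝ) < (((q1 : ℤ) - (q2 : ℤ) : ℤ) : ℝ) := by exact_mod_cast h1
    exact abs_pos_of_pos h2
  · have h1 : (0 : ℤ) ≤ (q1 : ℤ) - (q2 : ℤ) := by omega
    have h2 : (0 : ℝ) ≤ (((q1 : ℤ) - (q2 : ℤ) : ℤ) : ℝ) := by exact_mod_cast h1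
    have h3 : (q1 : ℤ) - (q2 : ℤ) ≤ ((N ^ 3 : ℕ) : ℤ) := by omega
    have h4 : (((q1 : ℤ) - (q2 : ℤ) : ℤ) : ℝ) ≤ (N : ℝ) ^ 3 := by exact_mod_cast h3
    show |(((q1 : ℤ) - (q2 : ℤ) : ℤ) : ℝ)| ≤ _
    rw [abs_of_nonneg h2]
    exact h4
  · intro j hj
    fin_cases j
    · simp at hj
    · refine key 1 ?_
      simpa using e1
    · exact key 2 e2
    · exact key 3 e3

theorem third (h1 : Expo) (h2 : Upper) (h3 : Dirichlet) : Third := by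
  unfold Third
  set Z : Set ℝ := {ξ : ℝ | lambdaExp 3 ξ = ((1 / 3 : ℝ) : EReal)} with hZ
  have hg : gdim (1 / 3) = 1 := by
    unfold gdim
    norm_num
  rw [hg]
  obtain ⟨_, e2, _, _⟩ := h1
  have hgd : ∀ k : ℕ, gdim (1 / 3 + 1 / ((k : ℝ) + 1)) < 1 := by
    intro k
    have hk : (0 : ℝ) < 1 / ((k : ℝ) + 1) := by positivity
    have h0 : (0 : ℝ) < 1 + (1 / 3 + 1 / ((k : ℝ) + 1)) := by linarith
    unfold gdim
    refine max_lt ?_ ?_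
    · rw [div_lt_one h0]; linarith
    · rw [div_lt_one (by positivity)]; linarith
  have hvol : ∀ k : ℕ, volume {ξ : ℝ | Approx 3 ξ (1 / 3 + 1 / ((k : ℝ) + 1))} = 0 := by
    intro k
    have hk : (0 : ℝ) < 1 / ((k : ℝ) + 1) := by positivity
    have hd : dimH {ξ : ℝ | Approx 3 ξ (1 / 3 + 1 / ((k : ℝ) + 1))} < ((1 : NNReal) : ENNReal) := by
      refine lt_of_le_of_lt (h2 _ (by linarith)) ?_
      rw [ENNReal.coe_one, ENNReal.ofReal_lt_one]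
      exact hgd k
    have h := hausdorffMeasure_of_dimH_lt hd
    rw [NNReal.coe_one, hausdorffMeasure_real] at h
    exact h
  have hcompl : volume Zᶜ = 0 := by
    refine measure_mono_null ?_ (measure_iUnion_null hvol)
    intro ξ hξ
    by_contra hcon
    simp only [Set.mem_iUnion, Set.mem_ofPred_eq, not_exists] at hcon
    exact hξ (e2 3 ξ (1 / 3) (h3 ξ) hcon)
  have hZne : μH[((1 : NNReal) : ℝ)] Z ≠ 0 := by
    rw [NNReal.coe_one, hausdorffMeasure_real]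
    intro h0
    have h := measure_union_null h0 hcompl
    rw [Set.union_compl_self] at h
    simp at h
  refine le_antisymm ?_ ?_
  · refine (dimH_mono (Set.subset_univ Z)).trans ?_
    rw [Real.dimH_univ, ENNReal.ofReal_one]
  · have h := le_dimH_of_hausdorffMeasure_ne_zero hZne
    rw [ENNReal.ofReal_one]
    exact_mod_cast h

end MP_211f72_nt
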