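import Pool.Agent.Lib.MP_211f72_nt.Spec
import Pool.Agent.Lib.MP_211f72_nt.Basic

/-!
# MP_211f72_nt: the upper bound for the dimension
-/

namespace MP_211f72_nt

open MeasureTheory

/-- the part of the limsup set in `[-R,R]` -/
private def upperE (lam : ℝ) (n : ℕ) : Set ℝ := {ξ | |ξ| ≤ (n : ℝ) + 1 ∧ ∀ M, Gd lam M ξ}

private theorem upper_gdim_pos (lam : ℝ) (h : 1 / 3 < lam) : 0 < gdim lam := by
  unfold gdim
  apply lt_max_of_lt_right
  positivity

private theorem upper_gdim_lt (lam : ℝ) (h : 1 / 3 < lam) : gdim lam < 1 := by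
  unfold gdim
  rw [max_lt_iff]
  have h1 : 0 < 1 + lam := by linarith
  constructor
  · rw [div_lt_one h1]; linarith
  · rw [div_lt_one (by positivity)]; linarith

private theorem upper_near_mono {x : Cub} {ξ δ δ' : ℝ} (h : Near x ξ δ) (hd : δ ≤ δ') :
    Near x ξ δ' :=
  ⟨h.1.trans hd, h.2.1.trans hd, h.2.2.trans hd⟩

private theorem upper_sum_union {α : Type*} [DecidableEq α] (A B : Finset α) (f : α → ℝ)
    (hf : ∀ p ∈ A, 0 ≤ f p) : ∑ p ∈ A ∪ B, f p ≤ ∑ p ∈ A, f p + ∑ p ∈ B, f p := by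
  have h1 := Finset.sum_union_inter (s₁ := A) (s₂ := B) (f := f)
  have h2 : 0 ≤ ∑ p ∈ A ∩ B, f p :=
    Finset.sum_nonneg fun p hp => hf p (Finset.mem_inter.1 hp).1
  linarith

private theorem upper_E (h2 : Limsup) (h3 : CoverD) (h4 : CoverH) (h5 : Cover0) (lam s : ℝ)
    (hlam : 1 / 3 < lam) (hs : gdim lam < s) (hs1 : s ≤ 1) (n : ℕ) :
    dimH (upperE lam n) ≤ ENNReal.ofReal s := by
  classical
  have hl0 : 0 < lam := by linarith
  have hs0 : 0 < s := (upper_gdim_pos lam hlam).trans hs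
  have hsD : (2 - 2 * lam) / (1 + lam) < s := (le_max_left _ _).trans_lt hs
  have hs3 : 2 / (3 * (1 + lam)) < s := (le_max_right _ _).trans_lt hs
  have hR : (1 : ℝ) ≤ (n : ℝ) + 1 := by
    have : (0 : ℝ) ≤ n := Nat.cast_nonneg n
    linarith
  obtain ⟨T1, hT1, hS1, hC1⟩ := h3 lam s ((n : ℝ) + 1) hl0 hs0 hs1 hsD hR
  obtain ⟨T2, hT2, hS2, hC2⟩ := h4 lam s ((n : ℝ) + 1) hl0 hs0 hs1 hsD hR
  obtain ⟨T3, hT3, hS3, hC3⟩ := h5 lam s ((n : ℝ) + 1) hl0 hs0 hs1 hs3 hR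
  refine h2 s (upperE lam n) (fun k => T1 k ∪ (T2 k ∪ T3 k)) hs0 ?_ ?_ ?_
  · intro k p hp
    rcases Finset.mem_union.1 hp with hp | hp
    · exact hT1 k p hp
    · rcases Finset.mem_union.1 hp with hp | hp
      · exact hT2 k p hp
      · exact hT3 k p hp
  · refine Summable.of_nonneg_of_le (fun k => ?_) (fun k => ?_) (hS1.add (hS2.add hS3))
    · refine Finset.sum_nonneg fun p hp => Real.rpow_nonneg ?_ _
      rcases Finset.mem_union.1 hp with hp | hp
      · exact hT1 k p hp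
      · rcases Finset.mem_union.1 hp with hp | hp
        · exact hT2 k p hp
        · exact hT3 k p hp
    · have e1 := upper_sum_union (T1 k) (T2 k ∪ T3 k) (fun p => p.2 ^ s)
        (fun p hp => Real.rpow_nonneg (hT1 k p hp) _)
      have e2 := upper_sum_union (T2 k) (T3 k) (fun p => p.2 ^ s)
        (fun p hp => Real.rpow_nonneg (hT2 k p hp) _)
      linarith
  · rintro ξ ⟨hξ, hG⟩ K
    obtain ⟨x, hxM, hxa, hnear⟩ := hG (2 ^ K)
    have hpos : x.a.natAbs ≠ 0 := Int.natAbs_ne_zero.2 hxa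
    have hcast : ((x.a.natAbs : ℕ) : ℝ) = |(x.a : ℝ)| := by
      rw [Nat.cast_natAbs, Int.cast_abs]
    have hk1 : 2 ^ Nat.log 2 x.a.natAbs ≤ x.a.natAbs := Nat.pow_log_le_self 2 hpos
    have hk2 : x.a.natAbs < 2 ^ (Nat.log 2 x.a.natAbs + 1) :=
      Nat.lt_pow_succ_log_self (by norm_num) _
    have hK : 2 ^ K ≤ x.a.natAbs := by
      have h6 : ((2 ^ K : ℕ) : ℤ) ≤ ((x.a.natAbs : ℕ) : ℤ) := by
        rw [Int.natCast_natAbs]
        exact_mod_cast hxM
      exact_mod_cast h6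
    have hKk : K ≤ Nat.log 2 x.a.natAbs := Nat.le_log_of_pow_le (by norm_num) hK
    have hk1' : (2 : ℝ) ^ (Nat.log 2 x.a.natAbs) ≤ |(x.a : ℝ)| := by
      rw [← hcast]; exact_mod_cast hk1
    have hk2' : |(x.a : ℝ)| < (2 : ℝ) ^ (Nat.log 2 x.a.natAbs + 1) := by
      rw [← hcast]; exact_mod_cast hk2
    have hnear' : Near x ξ (((2 : ℝ) ^ (Nat.log 2 x.a.natAbs)) ^ (-lam)) := by
      refine upper_near_mono hnear ?_
      exact Real.rpow_le_rpow_of_nonpos (by positivity) hk1' (by linarith)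
    refine ⟨Nat.log 2 x.a.natAbs, hKk, ?_⟩
    by_cases hD : x.D = 0
    · by_cases hH : x.h0 = 0 ∧ x.h1 = 0 ∧ x.h2 = 0
      · obtain ⟨p, hp, hp2⟩ := hC3 _ ξ x hξ hk1' hk2' ⟨hH, fun h => hxa h.1⟩ hnear'
        exact ⟨p, Finset.mem_union_right _ (Finset.mem_union_right _ hp), hp2⟩
      · obtain ⟨p, hp, hp2⟩ := hC2 _ ξ x hξ hk1' hk2' ⟨hD, hH⟩ hnear'
        exact ⟨p, Finset.mem_union_right _ (Finset.mem_union_left _ hp), hp2⟩
    · obtain ⟨p, hp, hp2⟩ := hC1 _ ξ x hξ hk1' hk2' hD hnear'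
      exact ⟨p, Finset.mem_union_left _ hp, hp2⟩

/-- the upper bound for the dimension of the set of the numbers with `Approx 3 ξ lam` -/
theorem upper (h1 : Expo) (h2 : Limsup) (h3 : CoverD) (h4 : CoverH) (h5 : Cover0) : Upper := by
  intro lam hlam
  have hl0 : 0 < lam := by linarith
  have hg0 := upper_gdim_pos lam hlam
  have hg1 := upper_gdim_lt lam hlam
  have hsub : {ξ : ℝ | Approx 3 ξ lam} ⊆
      Set.range ((↑) : ℚ → ℝ) ∪ ⋃ n : ℕ, upperE lam n := by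
    intro ξ hξ
    by_cases hirr : Irrational ξ
    · right
      rw [Set.mem_iUnion]
      refine ⟨⌈|ξ|⌉₊, ?_, h1.2.2.1 ξ lam hirr hl0 hξ⟩
      have := Nat.le_ceil |ξ|
      linarith
    · left
      unfold Irrational at hirr
      exact not_not.1 hirr
  have key : ∀ s : ℝ, gdim lam < s → s ≤ 1 →
      dimH {ξ : ℝ | Approx 3 ξ lam} ≤ ENNReal.ofReal s := by
    intro s hs hs1
    refine (dimH_mono hsub).trans ?_
    rw [dimH_union, dimH_iUnion, (Set.countable_range _).dimH_zero]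
    refine max_le zero_le (iSup_le fun n => ?_)
    exact upper_E h2 h3 h4 h5 lam s hlam hs hs1 n
  refine ENNReal.le_of_forall_pos_le_add fun ε hε _ => ?_
  have hε' : (0 : ℝ) < ε := NNReal.coe_pos.2 hε
  set e : ℝ := min (ε : ℝ) (1 - gdim lam) with he
  have he0 : 0 < e := lt_min hε' (by linarith)
  refine (key (gdim lam + e) (by linarith) ?_).trans ?_
  · have := min_le_right (ε : ℝ) (1 - gdim lam)
    linarith
  · rw [ENNReal.ofReal_add hg0.le he0.le]
    gcongr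
    calc ENNReal.ofReal e ≤ ENNReal.ofReal (ε : ℝ) :=
          ENNReal.ofReal_le_ofReal (min_le_left _ _)
      _ = (ε : ENNReal) := ENNReal.ofReal_coe_nnreal

end MP_211f72_nt
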