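import Pool.Agent.Lib.MP_211f72_nt.Spec
import Pool.Agent.Lib.MP_211f72_nt.Normal
import Pool.Agent.Lib.MP_211f72_nt.Split
import Pool.Agent.Lib.MP_211f72_nt.Reduce
import Pool.Agent.Lib.MP_211f72_nt.CountNF1
import Pool.Agent.Lib.MP_211f72_nt.CountNF2
import Pool.Agent.Lib.MP_211f72_nt.Lattice
import Pool.Agent.Lib.MP_211f72_nt.CountVec
import Pool.Agent.Lib.MP_211f72_nt.CountBlock
import Pool.Agent.Lib.MP_211f72_nt.Count
import Pool.Agent.Lib.MP_211f72_nt.Deg
import Pool.Agent.Lib.MP_211f72_nt.Limsup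
import Pool.Agent.Lib.MP_211f72_nt.CoverD
import Pool.Agent.Lib.MP_211f72_nt.CoverH
import Pool.Agent.Lib.MP_211f72_nt.Cover0
import Pool.Agent.Lib.MP_211f72_nt.Expo
import Pool.Agent.Lib.MP_211f72_nt.Upper
import Pool.Agent.Lib.MP_211f72_nt.ContentZero
import Pool.Agent.Lib.MP_211f72_nt.Avoid
import Pool.Agent.Lib.MP_211f72_nt.Lower
import Pool.Agent.Lib.MP_211f72_nt.Farey
import Pool.Agent.Lib.MP_211f72_nt.KidsPow
import Pool.Agent.Lib.MP_211f72_nt.FamTwo
import Pool.Agent.Lib.MP_211f72_nt.KidsSec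
import Pool.Agent.Lib.MP_211f72_nt.Mink
import Pool.Agent.Lib.MP_211f72_nt.BadD
import Pool.Agent.Lib.MP_211f72_nt.BadH
import Pool.Agent.Lib.MP_211f72_nt.Bad0
import Pool.Agent.Lib.MP_211f72_nt.KidsMink
import Pool.Agent.Lib.MP_211f72_nt.Third

/-!
# MP_211f72_nt: assembly of the theorem for `n = 3`
-/

namespace MP_211f72_nt

open MeasureTheory Filter Topology

theorem main_gdim_lt {a b : ℝ} (ha : -1 < a) (hab : a < b) : gdim b < gdim a := by
  have h1 : 0 < 1 + a := by linarith
  have h2 : 0 < 1 + b := by linarith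
  unfold gdim
  apply max_lt_max
  · rw [div_lt_div_iff₀ h2 h1]; nlinarith
  · rw [div_lt_div_iff₀ (by positivity) (by positivity)]; nlinarith

theorem main_gdim_small {lam : ℝ} (h0 : -1 < lam) (h : lam ≤ 2 / 3) :
    gdim lam = (2 - 2 * lam) / (1 + lam) := by
  have h1 : 0 < 1 + lam := by linarith
  unfold gdim
  apply max_eq_left
  rw [div_le_div_iff₀ (by positivity) h1]
  nlinarith

theorem main_gdim_large {lam : ℝ} (h : 2 / 3 ≤ lam) : gdim lam = 2 / (3 * (1 + lam)) := by
  have h1 : 0 < 1 + lam := by linarith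
  unfold gdim
  apply max_eq_right
  rw [div_le_div_iff₀ h1 (by positivity)]
  nlinarith

theorem main_continuousAt (lam : ℝ) (h : -1 < lam) : ContinuousAt gdim lam := by
  have h1 : 1 + lam ≠ 0 := by linarith
  have h2 : 3 * (1 + lam) ≠ 0 := by positivity
  have e1 : ContinuousAt (fun lam : ℝ => (2 - 2 * lam) / (1 + lam)) lam :=
    ContinuousAt.div (by fun_prop) (by fun_prop) h1
  have e2 : ContinuousAt (fun lam : ℝ => 2 / (3 * (1 + lam))) lam :=
    ContinuousAt.div (by fun_prop) (by fun_prop) h2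
  exact Filter.Tendsto.max e1 e2

theorem main_count : Count :=
  count (countBlock (existsNormal split reduce) countNF1 countNF2 (countVec split lattice))

theorem main_upper : Upper :=
  upper expo limsup (coverD main_count) (coverH deg) (cover0 deg)

/-- upper bound for the level sets -/
theorem main_level_upper (lam : ℝ) (hlam : 1 / 3 < lam) :
    dimH {ξ : ℝ | lambdaExp 3 ξ = (lam : EReal)} ≤ ENNReal.ofReal (gdim lam) := by
  have hstep : ∀ lam' : ℝ, 1 / 3 < lam' → lam' < lam →
      dimH {ξ : ℝ | lambdaExp 3 ξ = (lam : EReal)} ≤ ENNReal.ofReal (gdim lam') := by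
    intro lam' h1 h2
    refine le_trans (dimH_mono ?_) (main_upper lam' h1)
    intro ξ hξ
    exact expo.1 3 ξ lam lam' hξ h2
  have hcont : Tendsto (fun l => ENNReal.ofReal (gdim l)) (𝓝[<] lam) (𝓝 (ENNReal.ofReal (gdim lam))) := by
    apply ENNReal.tendsto_ofReal
    exact (main_continuousAt lam (by linarith)).tendsto.mono_left nhdsWithin_le_nhds
  refine ge_of_tendsto hcont ?_
  have : ∀ᶠ l in 𝓝[<] lam, l ∈ Set.Ioo (1 / 3 : ℝ) lam :=
    Ioo_mem_nhdsLT hlam
  filter_upwards [this] with l hl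
  exact hstep l hl.1 hl.2

theorem main_kids (lam : ℝ) (hlam : 1 / 3 < lam) : KidsFor (gdim lam) lam := by
  rcases lt_or_ge lam (3 / 5) with h | h
  · rw [main_gdim_small (by linarith) (by linarith)]
    exact kidsMink mink (badD main_count) (badH deg) (bad0 deg) lam hlam h
  · rcases le_or_gt lam (2 / 3) with h' | h'
    · rw [main_gdim_small (by linarith) h']
      exact kidsSec farey fam twoLevel lam h (by linarith)
    · rw [main_gdim_large h'.le]
      exact kidsPow farey lam hlam

theorem main : Main := by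
  intro lam hlam
  rcases eq_or_lt_of_le hlam with h | h
  · rw [← h]
    exact third expo main_upper dirichlet
  · exact le_antisymm (main_level_upper lam h)
      (lower expo main_upper contentZero avoid lam h (main_kids lam h))

end MP_211f72_nt
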