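import Pool.Agent.Lib.MP_211f72_nt.Defs

/-!
# MP_211f72_nt: the statements of the lemmas

Every lemma is a `Prop`, to be proved in its own file (`theorem split : Split` in `Split.lean`, ...),
taking the statements it uses as hypotheses.
-/

namespace MP_211f72_nt

open MeasureTheory

/-! ## Part A: counting integer points near the cone over the twisted cubic -/

/-- **Split.**  A cubic form of positive discriminant is a sum of two cubes of real linear forms.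

Proof.  Put `s = √D > 0`, `g0 = a²d - 3abc + 2b³`, `g1 = abd - 2ac² + b²c`, `g2 = -acd + 2b²d - bc²`,
`g3 = -ad² + 3bcd - 2c³` (real numbers).  Identities (by `ring`): `g0 g2 - g1² = -D h0`,
`g1 g3 - g2² = -D h2`, `g0 g3 - g1 g2 = -D h1`, `a g2 + c g0 = 2 b g1`, `b g3 + d g1 = 2 c g2`,
`a g3 + d g0 = b g2 + c g1`.  Put `A = (a + g0/s)/2, B = (b + g1/s)/2, C = (c + g2/s)/2,
E = (d + g3/s)/2` and `A' = (a - g0/s)/2, ...`.  Then `A C = B²`, `B E = C²`, `A E = B C`, and the same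
for the primed numbers (multiply by `4 s²`, use `s² = D`).  General fact: if `A C = B²`, `B E = C²`,
`A E = B C` and `α³ = A`, `β³ = E` (real cube roots, exist) then `B³ = A²E = (α²β)³` so `B = α²β`
(injectivity of the cube), and `C³ = A E² = (αβ²)³` so `C = αβ²`.  Now `a = A + A'` etc.  The last
four identities follow from the first four by `ring` (unfold `D, h0, h1, h2`). -/
def Split : Prop := ∀ x : Cub, 0 < x.D → ∃ α β α' β' : ℝ,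
  (x.a : ℝ) = α ^ 3 + α' ^ 3 ∧ (x.b : ℝ) = α ^ 2 * β + α' ^ 2 * β' ∧
  (x.c : ℝ) = α * β ^ 2 + α' * β' ^ 2 ∧ (x.d : ℝ) = β ^ 3 + β' ^ 3 ∧
  (x.D : ℝ) = (α * β' - α' * β) ^ 6 ∧
  (x.h0 : ℝ) = (α * β' - α' * β) ^ 2 * (α * α') ∧
  (x.h1 : ℝ) = (α * β' - α' * β) ^ 2 * (α * β' + α' * β) ∧
  (x.h2 : ℝ) = (α * β' - α' * β) ^ 2 * (β * β')

/-- the quadratic form `A u² + 2 B u v + C v²` -/
def quad (A B C : ℝ) (v : ℤ × ℤ) : ℝ := A * (v.1 : ℝ) ^ 2 + 2 * B * (v.1 * v.2) + C * (v.2 : ℝ) ^ 2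

/-- **Reduce.**  Lagrange-Gauss reduction of a positive definite real binary quadratic form.

Proof.  `Φ = quad A B C` is positive definite: `A Φ(v) = (A v1 + B v2)² + (AC - B²) v2²`, and
`C Φ(v) = (B v1 + C v2)² + (AC-B²) v1²` (`C > 0`), so `{v : Φ(v) ≤ Φ(1,0)}` is finite.  Let `v ≠ 0` be a
minimum of `Φ` over the nonzero vectors.  `v` is primitive (else `v/g` is smaller), so there is `w₀`
with `det v w₀ = 1` (Bezout).  For an integer `k`, `w = w₀ + k v` has `det v w = 1` and polar value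
`Φ(v,w) = Φ(v,w₀) + k Φ(v)`; choose `k` with `|Φ(v,w)| ≤ Φ(v)/2`.  `Φ(v) ≤ Φ(w)` by minimality, and
`Φ(v) Φ(w) - Φ(v,w)² = (AC - B²) det(v,w)² = AC - B²`, so
`Φ(v) Φ(w) ≤ AC - B² + Φ(v)²/4 ≤ AC - B² + Φ(v) Φ(w)/4`. -/
def Reduce : Prop := ∀ A B C : ℝ, 0 < A → 0 < A * C - B ^ 2 → ∃ v w : ℤ × ℤ, det v w = 1 ∧
  0 < quad A B C v ∧ quad A B C v ≤ quad A B C w ∧
  quad A B C v * quad A B C w ≤ 4 / 3 * (A * C - B ^ 2)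

/-- **ExistsNormal** (from `Split`, `Reduce`).  Every cubic form of nonzero discriminant is
`SL_2(ℤ)`-equivalent to a normal form.

Proof.  It suffices to find `v1, v2` with `det v1 v2 = 1` such that `f = x.sub v1 v2` is `Nor1` or
`Nor2`; then `x = f.sub w z` with `w = (v2.2, -v1.2)`, `z = (-v2.1, v1.1)` (`Cub.sub_sub_inv`), `det w z = 1`.
Also `f.D = x.D`.

Case `D > 0`: take `α β α' β'` from `Split`, `X(v) = α v.1 + β v.2`, `X'(v) = α' v.1 + β' v.2`,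
`Φ(v) = X(v)² + X'(v)² = quad (α²+α'²) (αβ+α'β') (β²+β'²)`, whose determinant is `Δ²`,
`Δ = αβ' - α'β ≠ 0` (`D = Δ⁶`).  Let `v1, v2` from `Reduce`; `p = √Φ(v1)`, `q = √Φ(v2)`.
`(pq)² ≤ 4/3 Δ²`, so `(pq)⁶ ≤ 64/27 D`.  `f.a = X(v1)³ + X'(v1)³`, `f.b = X(v1)²X(v2) + X'(v1)²X'(v2)`
etc. and `|X(v1)|, |X'(v1)| ≤ p`, `|X(v2)|, |X'(v2)| ≤ q`: all bounds hold with constant `2 ≤ 4`.

Case `D < 0`: by `Cub.syzygy0` `4 h0³ ≤ D a² ≤ 0`, so `h0 ≤ 0`, and `h0 = 0` would give `D = h1² ≥ 0`: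
so `h0 < 0`.  Let `Φ = -H = quad (-h0) (-h1/2) (-h2)`, determinant `h0 h2 - h1²/4 = |D|/4`.  `v1, v2` from
`Reduce`, `f = x.sub v1 v2`, `A1 = Φ(v1) = -f.h0`, `C1 = Φ(v2) = -f.h2` (`Cub.sub_h0`, `Cub.sub_h2`),
`0 < A1 ≤ C1`, `A1 C1 ≤ |D|/3` and `A1 C1 ≥ |D|/4` (`4 f.h0 f.h2 = f.h1² - f.D`).  Let `E > 0`, `E³ = |D|`,
`p = √(A1/E)`, `q = √(C1/E)`: `(pq)² ≤ E/3`, so `(pq)⁶ ≤ |D|/27`.  Syzygies for `f`:
`|D| a² ≤ 4 A1³` and `|D| d² ≤ 4 C1³`, i.e. `|a| ≤ 2p³`, `|d| ≤ 2q³`.  `b² = ac + A1 ≤ |a||c| + A1`,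
`c² = bd + C1 ≤ |b||d| + C1`, and `A1 = E p² ≤ 4 p⁴ q²`, `C1 ≤ 4 p² q⁴` (since `4 p² q² ≥ E`).  With
`|b| = u·2p²q`, `|c| = w·2pq²`: `u² ≤ w + 1`, `w² ≤ u + 1`, so `max(u,w)² ≤ max(u,w) + 1`, `u, w ≤ 2`:
`|b| ≤ 4p²q`, `|c| ≤ 4pq²`.

In both cases, if `f.a ≠ 0` this is `Nor1 f`.  If `f.a = 0` then `f.b ≠ 0` (`D ≠ 0`); replacing `v2` by
`v2 + k v1` replaces `f.c` by `f.c + 2k f.b + k² f.a = f.c + 2 k f.b` and keeps `f.a = 0`, `f.b`: choose `k`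
with `|f.c + 2k f.b| ≤ |f.b|`: `Nor2`. -/
def ExistsNormal : Prop := ∀ x : Cub, x.D ≠ 0 → ∃ (f : Cub) (w z : ℤ × ℤ),
  det w z = 1 ∧ x = f.sub w z ∧ (Nor1 f ∨ Nor2 f)

/-- **CountNF1.**

Proof.  Let `E ≥ 1`, `E⁶ = Z` (`E = Z^(1/6)`).  Let `f ∈ S` with `p, q` as in `Nor1`: `1 ≤ |a| ≤ 4p³`,
so `p > 1/2`; `(pq)⁶ ≤ 64 Z`, so `pq ≤ 2E`.  Let `k ≥ 0` be the integer with `2^(k-1) ≤ p < 2^k`.
`q ≤ 2E/p ≤ 4E/2^k =: q_k`, and `4^(k-1) ≤ p² ≤ pq ≤ 2E` gives `4^k ≤ 8E`, so `k < 3(1 + log Z)` or so.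
Hence `f` lies in the box `|a| ≤ 4·8^k`, `|b| ≤ 4·4^k q_k = 16·2^k E`, `|c| ≤ 4·2^k q_k² = 64 E²/2^k`,
`|d| ≤ 4 q_k³ = 256 E³/8^k`; all four bounds are `≥ 1/2` (`q_k ≥ q ≥ p ≥ 1/2`, `2^k q_k ≥ ...`), so the
number of integers with `|n| ≤ M` is `≤ 2M+1 ≤ 4M`, and the box contains at most
`4⁴·4·16·64·256·E⁶` points.  Sum over the `≤ 3(1+log Z)+1` values of `k`. -/
def CountNF1 : Prop := ∃ C : ℝ, 0 < C ∧ ∀ Z : ℝ, 1 ≤ Z → ∀ S : Finset Cub,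
  (∀ f ∈ S, Nor1 f ∧ |(f.D : ℝ)| ≤ Z) → (S.card : ℝ) ≤ C * Z * (1 + Real.log Z)

/-- **CountNF2.**

Proof.  `a = 0`, so `D = b²(4bd - 3c²)`; `D ≠ 0`, so `b ≠ 0`, `|4bd - 3c²| ≥ 1`, `b² ≤ Z`.  For given `b`
there are at most `2|b|+1 ≤ 3|b|` values of `c`; given `b, c`: `|4bd - 3c²| ≤ Z/b²` leaves at most
`Z/(2|b|³) + 1` values of `d`.  Total `≤ 2 ∑_{1 ≤ b ≤ √Z} 3b (Z/(2b³) + 1) ≤ 3Z ∑ 1/b² + 6 ∑_{b ≤ √Z} b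
≤ 12 Z`. -/
def CountNF2 : Prop := ∃ C : ℝ, 0 < C ∧ ∀ Z : ℝ, 1 ≤ Z → ∀ S : Finset Cub,
  (∀ f ∈ S, Nor2 f ∧ f.D ≠ 0 ∧ |(f.D : ℝ)| ≤ Z) → (S.card : ℝ) ≤ C * Z

/-- **Lattice.**  A set of primitive vectors with pairwise determinants `≤ K` has `≤ 3(2K+1)` elements.

Proof.  If all determinants vanish, `S ⊆ {v, -v}`.  Otherwise let `v, w ∈ S` maximise `|det v w| = k > 0`
(`k ≤ K`).  The map `u ↦ (det v u, det u w)` is injective (`det(v,w) u = det(u,w) v + det(v,u) w`).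
`det v u` takes `≤ 2k+1` values.  For fixed `m = det v u`: two such `u, u'` have `det v (u-u') = 0`, so
`u - u' = j v` (`v` primitive), `det u w - det u' w = j det v w`, so `|j| k ≤ 2k`, `|j| ≤ 2`: at most 3
values (`j` in an interval of length 2: all pairwise differences are `≤ 2` in absolute value). -/
def Lattice : Prop := ∀ (S : Finset (ℤ × ℤ)) (K : ℝ), 0 ≤ K → (∀ v ∈ S, IsCoprime v.1 v.2) →
  (∀ v ∈ S, ∀ w ∈ S, |(det v w : ℝ)| ≤ K) → (S.card : ℝ) ≤ 3 * (2 * K + 1)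

/-- **CountVec** (from `Split`, `Lattice`).

Proof.  Case `D < 0`: `4 H(v) H(w) = polar² + |D| det(v,w)²` (`Cub.four_H_mul_H`), so
`|D| det(v,w)² ≤ 4B²`, `|det v w| ≤ 2B/√|D|`; `Lattice` gives `card ≤ 3(4B/√|D| + 1)`.

Case `D > 0`: `Split`; `X(v) = α v.1 + β v.2`, `X'(v) = α' v.1 + β' v.2`, `Δ = αβ' - α'β`, `Δ⁶ = D`,
`F(v) = X³ + X'³`, `H(v) = Δ² X X'`, `X(v)X'(w) - X'(v)X(w) = Δ det(v,w)`.  Let `b = B/Δ²`: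
`|X(v)X'(v)| ≤ b`.  `S1 = {v ∈ S : X² ≤ 4b ∧ X'² ≤ 4b}`: `|Δ det(v,w)| ≤ 8b` for `v,w ∈ S1`.
`S2 = {v ∈ S \ S1 : |X'| ≤ |X|}`: `X² > 4b`, `|X'| ≤ b/|X| < |X|/4`, so `|F(v)| ∈ [63/64 |X|³, 65/64 |X|³]`;
for `v, w ∈ S2`: `|X(v)|³ ≤ 64/63·2X₀`, `|X(w)|³ ≥ 64/65·X₀`, so `|X(v)| ≤ 2|X(w)|` and
`|X(v)X'(w)| ≤ |X(v)| b/|X(w)| ≤ 2b`: `|Δ det(v,w)| ≤ 4b`.  `S3` (`|X| < |X'|`) symmetric.
In all three sets `|det(v,w)| ≤ 8b/|Δ| = 8B/√D`; `Lattice` gives `card S ≤ 9(16 B/√D + 1)`. -/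
def CountVec : Prop := ∃ C : ℝ, 0 < C ∧ ∀ f : Cub, f.D ≠ 0 → ∀ X B : ℝ, 0 < X → 0 ≤ B →
  ∀ S : Finset (ℤ × ℤ),
    (∀ v ∈ S, IsCoprime v.1 v.2 ∧ X ≤ |(f.F v : ℝ)| ∧ |(f.F v : ℝ)| ≤ 2 * X ∧ |(f.H v : ℝ)| ≤ B) →
    (S.card : ℝ) ≤ C * (1 + B / √|(f.D : ℝ)|)

/-- **CountBlock** (from `ExistsNormal`, `CountNF1`, `CountNF2`, `CountVec`).

Proof.  For `x ∈ S` choose `(f,w,z)` with `x = f.sub w z`, `det w z = 1`, `f` normal.  Then `f.D = x.D`,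
`f.F w = x.a`, `f.H w = x.h0`, `f.tri w w z = x.b`, `w` is primitive.
(1) Fibres of `x ↦ (f,w)`: if `x, x'` have the same `(f,w)` then `det w (z'-z) = 0`, so `z' = z + k w`
(`w` primitive), `x'.a = x.a = f.F w ≠ 0` and `x'.b = f.tri w w z' = x.b + k x.a`, and `|x.b|, |x'.b| ≤ R|x.a|`,
so `|k| ≤ 2R`; `x'` is determined by `k`: the fibre has at most `2·2R+1 ≤ 5R` elements
(or better: the fibre injects by `x' ↦ k`).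
(2) Fibres of `(f,w) ↦ f` on the image: `≤ C2(1 + B/√|D|) ≤ C2(1 + B/√Z)` by `CountVec`.
(3) The number of `f` is `≤ C1·2Z(1 + log(2Z)) + C1'·2Z`.
`Finset.card_le_mul_card_image` twice.  Product `≤ C R Z (1 + log Z)(1 + B/√Z) = C R (Z + B√Z)(1 + log Z)`. -/
def CountBlock : Prop := ∃ C : ℝ, 0 < C ∧ ∀ X B Z R : ℝ, 0 < X → 0 ≤ B → 1 ≤ Z → 1 ≤ R →
  ∀ S : Finset Cub,
    (∀ x ∈ S, X ≤ |(x.a : ℝ)| ∧ |(x.a : ℝ)| ≤ 2 * X ∧ |(x.h0 : ℝ)| ≤ B ∧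
      Z ≤ |(x.D : ℝ)| ∧ |(x.D : ℝ)| ≤ 2 * Z ∧ |(x.b : ℝ)| ≤ R * |(x.a : ℝ)|) →
    (S.card : ℝ) ≤ C * R * (Z + B * √Z) * (1 + Real.log Z)

/-- **Count** (from `CountBlock`).

Proof.  `1 ≤ |D| ≤ T`: cut into the blocks `2^i ≤ |D| ≤ 2^(i+1)`, `0 ≤ i ≤ log₂ T`; each block has at most
`C R (T + B√T)(1 + log T)` elements, and there are at most `1 + log T/log 2 ≤ 2(1+log T)` blocks. -/
def Count : Prop := ∃ C : ℝ, 0 < C ∧ ∀ X B T R : ℝ, 0 < X → 0 ≤ B → 1 ≤ T → 1 ≤ R →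
  ∀ S : Finset Cub,
    (∀ x ∈ S, X ≤ |(x.a : ℝ)| ∧ |(x.a : ℝ)| ≤ 2 * X ∧ |(x.h0 : ℝ)| ≤ B ∧
      x.D ≠ 0 ∧ |(x.D : ℝ)| ≤ T ∧ |(x.b : ℝ)| ≤ R * |(x.a : ℝ)|) →
    (S.card : ℝ) ≤ C * R * (T + B * √T) * (1 + Real.log T) ^ 2

/-- **Deg.**  Structure of the points with `D = 0`, and of the points with `H = 0`.

Proof.  (1) `h1² = 4 h0 h2`, so `h1 = 2m` with `m² = h0 h2`.  If `h0 = h2 = 0`: `κ = 0`, `(m,n) = (1,0)`.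
Otherwise let `g = gcd(h0,h2) > 0`, `h0 = g u`, `h2 = g v`, `u, v` coprime, `m² = g² u v`, so `g ∣ m`,
`uv` is a square and `u, v` are coprime of the same sign: `u = ±a²`, `v = ±b²` (`Int.sq_of_isCoprime`
or similar), `κ = ±g`, and the sign of `b` is chosen with `m = κ a b`; `0 ≤ a`.
(2) `ac = b²`, `ad = bc`, `bd = c²`.  If `a = 0`: `b = 0`, `c = 0`, `κ = d`, `(m,n) = (0,1)`.  If `a ≠ 0`:
`g = ± gcd(a,b)`, `a = g m`, `b = g n`, `m > 0`, `m,n` coprime.  `a c = b²` gives `m c = n² g`, so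
`m ∣ g`, `g = m g'`, `c = n² g'`; `a d = b c` gives `m d = n c = n³ g'`, `m ∣ g'`, `g' = m κ`, `d = n³ κ`. -/
def Deg : Prop :=
  (∀ x : Cub, x.D = 0 → ∃ κ m n : ℤ, IsCoprime m n ∧ 0 ≤ m ∧
    x.h0 = κ * m ^ 2 ∧ x.h1 = 2 * κ * m * n ∧ x.h2 = κ * n ^ 2) ∧
  (∀ x : Cub, x.h0 = 0 → x.h1 = 0 → x.h2 = 0 → ∃ κ m n : ℤ, IsCoprime m n ∧ 0 ≤ m ∧
    x.a = κ * m ^ 3 ∧ x.b = κ * m ^ 2 * n ∧ x.c = κ * m * n ^ 2 ∧ x.d = κ * n ^ 3)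

/-! ## Part B: the upper bound -/

/-- type `D ≠ 0` -/
def PD (x : Cub) : Prop := x.D ≠ 0
/-- type `D = 0`, `H ≠ 0` -/
def PH (x : Cub) : Prop := x.D = 0 ∧ ¬ (x.h0 = 0 ∧ x.h1 = 0 ∧ x.h2 = 0)
/-- type `H = 0`, `x ≠ 0` -/
def P0 (x : Cub) : Prop :=
  (x.h0 = 0 ∧ x.h1 = 0 ∧ x.h2 = 0) ∧ ¬ (x.a = 0 ∧ x.b = 0 ∧ x.c = 0 ∧ x.d = 0)

/-- **Limsup.**  The Hausdorff dimension of a limsup set (Cauchy-Cantelli).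

Proof.  `∑_k ∑_{p ∈ T k} p.2^s < ∞`; for every `K` the balls of the families `T k`, `k ≥ K`, cover `E`, have
diameters `2 p.2 → 0` and `∑ (2 p.2)^s → 0`: `μH[s] E = 0` (e.g. `Measure.mkMetric_le_liminf_tsum`,
`hausdorffMeasure_le_liminf_tsum`), so `dimH E ≤ s` (`dimH_le_of_hausdorffMeasure_ne_top`). -/
def Limsup : Prop := ∀ (s : ℝ) (E : Set ℝ) (T : ℕ → Finset (ℝ × ℝ)), 0 < s →
  (∀ k, ∀ p ∈ T k, 0 ≤ p.2) → Summable (fun k => ∑ p ∈ T k, p.2 ^ s) →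
  (∀ ξ ∈ E, ∀ K : ℕ, ∃ k, K ≤ k ∧ ∃ p ∈ T k, |ξ - p.1| ≤ p.2) → dimH E ≤ ENNReal.ofReal s

/-- **CoverD** (from `Count`).

Proof.  `Q = 2^k`, `δ = Q^(-lam) ≤ 1`, `Y = Q δ = Q^(1-lam)`, `c = 3(1+R)²`.  `Near x ξ δ`, `|ξ| ≤ R` imply
`|y1|, |y2|, |y3| ≤ c δ` (`y2 = -(aξ²-c) + 2ξ(aξ-b)`, `y3 = -(aξ³-d) + 3ξ(aξ²-c) - 3ξ²(aξ-b)`).  By
`Cub.h0_eq_y`, `Cub.D_eq_y` and `|a| ≤ 2Q`: `|h0| ≤ 3c²Y`, `|D| ≤ 33 c⁴ Y² =: T` and `|b| ≤ (R+1)|a|`,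
`|ξ - b/a| ≤ δ/Q = Q^(-1-lam)`.  The set `S_k` of the integer points with `Q ≤ |a| < 2Q`, `|h0| ≤ 3c²Y`,
`D ≠ 0`, `|D| ≤ T`, `|b| ≤ (R+1)|a|` is finite and has at most `C'Y²(1+k)²` elements: empty if `T < 1`
(as `|D| ≥ 1`), else `Count` (every finite subset has at most that many elements, hence the set is
finite).  `T k = image of S_k under x ↦ (b/a, Q^(-1-lam))`.  The sum over `k` of
`C' Q^(2-2lam) (1+k)² Q^(-(1+lam)s)` converges as `(1+lam)s > 2-2lam`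
(`summable_pow_mul_geometric_of_norm_lt_one`). -/
def CoverD : Prop := ∀ lam s R : ℝ, 0 < lam → 0 < s → s ≤ 1 → (2 - 2 * lam) / (1 + lam) < s → 1 ≤ R →
  CoverProp lam s R PD

/-- **CoverH** (from `Deg`).

Proof.  Notation of `CoverD`.  `h0 = κ m²`, `h1 = 2κmn`, `h2 = κn²`, `κ ≠ 0`, so
`κ (mξ - n)² = h0 ξ² - h1 ξ + h2 = y1 y3 - y2²` (`Cub.H_eq_y`), so `|mξ - n| ≤ √2 c δ`, and
`m² ≤ |h0| ≤ 3c²Y`.  If `m = 0` then `|n| = 1 ≤ √2 c δ`, which is false for `k ≥ k₀` (for the finitely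
many `k < k₀` take `T k = {(0,R)}`).  So `1 ≤ m ≤ A := √3 c √Y`, `|n| ≤ R m + √2 c δ ≤ (R+1) m`
(`k ≥ k₀`), `|ξ - n/m| ≤ √2 c δ/m`: `T k = {(n/m, √2 c δ/m) : 1 ≤ m ≤ A, |n| ≤ (R+1)m}`.
`∑_{p ∈ T k} p.2^s ≤ ∑_{m ≤ A} (2(R+1)m+1) (√2 c δ/m)^s ≤ C δ^s ∑_{m ≤ A} m^(1-s) ≤ C δ^s A^(2-s)`
(`s ≤ 1`; the sum is empty if `A < 1`), i.e. `≤ C Q^(-lam s + (1-lam)(2-s)/2)`, and the exponent is
`(1-lam) - s(1+lam)/2 < 0`. -/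
def CoverH : Prop := ∀ lam s R : ℝ, 0 < lam → 0 < s → s ≤ 1 → (2 - 2 * lam) / (1 + lam) < s → 1 ≤ R →
  CoverProp lam s R PH

/-- **Cover0** (from `Deg`).

Proof.  `a = κm³`, `b = κm²n`, so `b/a = n/m`, `m ≥ 1`, `m³ ≤ |a| < 2Q`, `|ξ - n/m| ≤ δ/Q`,
`|n| ≤ (R+1)m`.  `T k = {(n/m, Q^(-1-lam)) : 1 ≤ m ≤ (2Q)^(1/3), |n| ≤ (R+1) m}` has `≤ C Q^(2/3)` elements;
`∑_k Q^(2/3 - (1+lam)s) < ∞`. -/
def Cover0 : Prop := ∀ lam s R : ℝ, 0 < lam → 0 < s → s ≤ 1 → 2 / (3 * (1 + lam)) < s → 1 ≤ R →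
  CoverProp lam s R P0

/-- **Expo.**  Elementary facts on the exponent (all `ξ`, all real `lam`, `lam'`).

Proof.  `Approx` is antitone in `lam` (any solution has `X ≥ |x 0| ≥ 1`).  (1), (2): properties of `sSup` in
`EReal`.  (3): given `M`, `ξ` irrational, `c = min_{1 ≤ q < M, p} |q ξ - p| > 0` (finitely many `q`; distance of
`qξ` to the nearest integer); take `X₀` with `X₀^(-lam) < c` and a solution with `X ≥ max(X₀,1)`: `|x 0| ≥ M`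
and `X^(-lam) ≤ |x 0|^(-lam)`.  (4): take `X = |a|` and `x = ![a,b,c,d]`, `M ≥ X₀`. -/
def Expo : Prop :=
  (∀ (n : ℕ) (ξ lam lam' : ℝ), lambdaExp n ξ = (lam : EReal) → lam' < lam → Approx n ξ lam') ∧
  (∀ (n : ℕ) (ξ lam : ℝ), Approx n ξ lam → (∀ k : ℕ, ¬ Approx n ξ (lam + 1 / (k + 1))) →
    lambdaExp n ξ = (lam : EReal)) ∧
  (∀ ξ lam : ℝ, Irrational ξ → 0 < lam → Approx 3 ξ lam → ∀ M : ℕ, Gd lam M ξ) ∧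
  (∀ ξ lam : ℝ, (∀ M : ℕ, Gd lam M ξ) → Approx 3 ξ lam)

/-- **Upper** (from `Expo`, `Limsup`, `CoverD`, `CoverH`, `Cover0`).

Proof.  `{Approx 3 ξ lam} ⊆ ℚ ∪ ⋃_{R ≥ 1} E_R`, `E_R = {ξ : |ξ| ≤ R, ∀ M, Gd lam M ξ}` (`Expo`);
`dimH` of a countable union is the supremum (`dimH_iUnion`), countable sets have dimension 0.  For `s`
with `gdim lam < s ≤ 1` (`gdim lam < 1` as `lam > 1/3`) let `T k` be the union of the three families of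
`CoverD, CoverH, Cover0`.  For `ξ ∈ E_R` and `K`: take `M = 2^K`, `x` from `Gd`, `k` with
`2^k ≤ |a| < 2^(k+1)`, `k ≥ K`; `Near x ξ (|a|^(-lam))` implies `Near x ξ ((2^k)^(-lam))`, and `a ≠ 0` so `x` is
`PD`, `PH` or `P0`.  `Limsup` gives `dimH E_R ≤ s`; let `s → gdim lam`. -/
def Upper : Prop := ∀ lam : ℝ, 1 / 3 < lam →
  dimH {ξ : ℝ | Approx 3 ξ lam} ≤ ENNReal.ofReal (gdim lam)

/-! ## Part C: the avoidance lemma -/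

/-- **ContentZero.**

Proof.  Take `t` with `dimH N < t < s`, `t > 0`; `hausdorffMeasure_of_dimH_lt`: `μH[t] N = 0`.  Unfold
`hausdorffMeasure_apply`: covers `N ⊆ ⋃ t_n`, `∑ diam(t_n)^t` small.  Replace `t_n` (nonempty, of
diameter `d_n`, contained in a ball of radius `r_n = d_n + ε_n`), centre any point of it, with
`ε_n > 0` so small that `∑ r_n^t ≤ ε` (e.g. `(d+e)^t ≤ d^t + e^t` for `t ≤ 1`, choose `e_n^t ≤ ε/2^(n+2)`;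
empty `t_n`: radius `e_n`).  If `s > 1` one may take `t ≤ 1` as well since `dimH N ≤ 1`... (for the use
here `s ≤ 1`; assume it). -/
def ContentZero : Prop := ∀ (N : Set ℝ) (s : ℝ), 0 < s → s ≤ 1 → dimH N < ENNReal.ofReal s →
  ∃ t : ℝ, 0 < t ∧ t < s ∧ CZ t N

/-- **Avoid.**  If every interval has well distributed families of good children then some point is
good at all stages and avoids a given sequence of sets of content zero in dimensions `< s`.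

Proof.  Put `c_k = 2^(-k-3)/(3K+4)`.  For a cover `𝒞 = (c_i, r_i)_i` and an interval `I = [u,v]` let
`S_t(𝒞, I) = ∑ r_i^t` over the `i` with `[c_i - r_i, c_i + r_i] ∩ I ≠ ∅` (in `ℝ≥0∞`).
State at stage `m`: an interval `I_m = [u,v] ⊆ [0,1]` and for each `k < m` a cover `𝒞_k` of `N_k` with
`S_{τ_k}(𝒞_k, I_m) < c_k |I_m|^{τ_k}`.
Step.  Given a state at stage `m`.  First add a cover `𝒞_m` of `N_m` with total sum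
`< c_m |I_m|^{τ_m}` (`CZ`).  Choose `t < s` with `t ≥ τ_k` for all `k ≤ m`, and `L` with
`L ≥ 16(m+1)`.  Take the children `(l, C)` of `I_m` for `G m`; `#C > 0`, `l ≤ |I_m| ≤ 1`.
Fix `k ≤ m`, `τ = τ_k`, and split the balls of `𝒞_k` which meet `I_m`; each has
`r^τ < c_k|I_m|^τ`, so `r < |I_m|`.
 * big balls, `r ≥ l`: a child `[c,c+l]` meeting `[z-r,z+r]` has `z-r-l ≤ c ≤ z+r`, an interval of length
   `2r+l ≤ 3r`, so the proportion of such children is `≤ 3K r/|I_m| + (3r)^t ≤ 3Kr/|I_m| + 3r^t`.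
   Since `r < |I_m|` and `τ ≤ t ≤ 1`: `r/|I_m| ≤ (r/|I_m|)^τ` and `r^t ≤ r^τ ≤ (r/|I_m|)^τ` (`|I_m| ≤ 1`).
   Summing, the proportion of children meeting some big ball is
   `≤ (3K+3) S_τ(𝒞_k, I_m)/|I_m|^τ ≤ (3K+3) c_k`.
 * small balls, `r < l`: a ball has diameter `< 2l` and the left endpoints of the children are `> 2l`
   apart, so the gaps between children are `> l` and a ball meets at most 3 children (at most 2 in fact: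
   centres `c` with `z-r-l ≤ c ≤ z+r`, an interval of length `< 3l`).  So
   `∑_{c ∈ C} ∑_{small balls meeting [c,c+l]} r^τ ≤ 2 S_τ(𝒞_k, I_m) < 2 c_k`, and the proportion of
   children for which the inner sum is `≥ c_k l^τ` is at most `2/(#C l^τ) ≤ 2/(#C l^t) ≤ 2/L ≤ 1/(8(m+1))`.
The total proportion of bad children over all `k ≤ m` is `≤ ∑ (3K+3)c_k + 1/8 < 1`; a remaining child
`I_{m+1}` satisfies `S_{τ_k}(𝒞_k, I_{m+1}) < c_k |I_{m+1}|^{τ_k}` for all `k ≤ m`, and `G m` on `I_{m+1}`.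
Limit.  `|I_m| → 0`: hmm, not needed: `ξ ∈ ⋂ I_m` exists by compactness; if `ξ ∈ N_k` it lies in a ball
of `𝒞_k` of radius `r > 0`, so `r^{τ_k} ≤ S_{τ_k}(𝒞_k, I_m) < c_k |I_m|^{τ_k}` for all `m > k`.  To have a
contradiction we need `|I_m| → 0`: children satisfy `2l < |c - c'|` and there are at least two
(`#C l^t ≥ L ≥ 16`, `l ≤ 1` give `#C ≥ 16`), so `l ≤ |I_m|/2`.
`∀ M, G M ξ`: `ξ ∈ I_{M+1}`. -/
def Avoid : Prop := ∀ (K s : ℝ), 0 < K → 0 < s → s ≤ 1 → ∀ (G : ℕ → ℝ → Prop),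
  (∀ (u v t L : ℝ) (M : ℕ), 0 ≤ u → u < v → v ≤ 1 → 0 < t → t < s → HasKids K (G M) u v t L) →
  ∀ (N : ℕ → Set ℝ) (τ : ℕ → ℝ), (∀ k, 0 < τ k ∧ τ k < s) → (∀ k, CZ (τ k) (N k)) →
  ∃ ξ : ℝ, 0 ≤ ξ ∧ ξ ≤ 1 ∧ (∀ M, G M ξ) ∧ ∀ k, ξ ∉ N k

/-- children for the exponent `lam` with parameter `s` -/
def KidsFor (s lam : ℝ) : Prop := ∃ K : ℝ, 0 < K ∧
  ∀ (u v t L : ℝ) (M : ℕ), 0 ≤ u → u < v → v ≤ 1 → 0 < t → t < s → HasKids K (Gd lam M) u v t L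

/-- **Lower** (from `Expo`, `Upper`, `ContentZero`, `Avoid`).

Proof.  `s = gdim lam`, `0 < s < 1`.  Suppose `dimH Z < s` for `Z = {lambdaExp 3 ξ = lam}`.  `ContentZero`
gives `τ_0` with `CZ τ_0 Z`.  For `k ≥ 1`, `N_k = {Approx 3 ξ (lam + 1/k)}` has
`dimH ≤ gdim (lam + 1/k) < s` (`Upper`; `gdim` is strictly decreasing), so `CZ τ_k N_k` with `τ_k < s`.
`Avoid` gives `ξ` with `∀ M, Gd lam M ξ`, so `Approx 3 ξ lam`, and `¬ Approx 3 ξ (lam + 1/k)` for all `k ≥ 1`,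
so `lambdaExp 3 ξ = lam`, but `ξ ∉ Z`: contradiction. -/
def Lower : Prop := ∀ lam : ℝ, 1 / 3 < lam → KidsFor (gdim lam) lam →
  ENNReal.ofReal (gdim lam) ≤ dimH {ξ : ℝ | lambdaExp 3 ξ = (lam : EReal)}

/-! ## Part D: the rational points `(a³, a²b, ab², b³)` -/

/-- **Farey.**  Lower bound for the number of reduced fractions in an interval.

Proof.  Let `η = 1/8` (say).  Work in a slightly shrunken interval `[u',v'] = [u + 1/N, v - 1/N]`.  By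
Dirichlet (`Real.exists_int_int_abs_mul_sub_le` or `Real.exists_rat_abs_sub_le_and_den_le`) each
`ξ ∈ [u',v']` has a reduced fraction `b/a`, `1 ≤ a ≤ N`, `|ξ - b/a| ≤ 1/(a(N+1)) ≤ 1/N`.  The measure of the
`ξ` with `a ≤ ηN` is at most `∑_{a ≤ ηN} (a(v-u) + 3)·2/(aN) ≤ 2η(v-u) + 6(1 + log N)/N ≤ (v-u)/2` for
large `N`.  The others are covered by the intervals of radius `1/(ηN²)` around the fractions with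
`ηN < a ≤ N`; so their number is `≥ (v'-u'-(v-u)/2)·ηN²/2 ≥ c(v-u)N²`.  (An alternative: sieve the
pairs `(a,b)`, `N/2 < a ≤ N`, by the primes, `∑_p 1/p² < 1/2`.) -/
def Farey : Prop := ∃ η c : ℝ, 0 < η ∧ η < 1 ∧ 0 < c ∧ ∀ u v : ℝ, u < v → ∃ N₀ : ℕ, ∀ N : ℕ, N₀ ≤ N →
  ∃ P : Finset (ℤ × ℤ), (∀ p ∈ P, η * N < p.1 ∧ p.1 ≤ N ∧ 0 < p.1 ∧ IsCoprime p.1 p.2 ∧
    u * p.1 ≤ p.2 ∧ (p.2 : ℝ) ≤ v * p.1) ∧ c * (v - u) * N ^ 2 ≤ P.card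

/-- **KidsPow** (from `Farey`).

Proof.  `s = 2/(3(1+lam))`, `t < s`, i.e. `3(1+lam)t < 2`.  Let `K = 4/c` or so.  Apply `Farey` to the
interval `[u + (v-u)/4, v - (v-u)/4]`.  `ρ = N^(-3(1+lam))/3`, `l = 2ρ`, `C = {b/a - ρ : (a,b) ∈ P}`.
Points: `x = (a³, a²b, ab², b³)`: for `|ξ - b/a| ≤ ρ`, `ξ, b/a ∈ [0,1]`:
`|a³ξ^j - a^(3-j)b^j| ≤ a³·3ρ ≤ N³·N^(-3(1+lam)) = N^(-3 lam) ≤ (a³)^(-lam)`; `a³ ≥ (ηN)³ ≥ M` for large `N`.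
Separation: distinct reduced fractions with denominators `≤ N` are `≥ 1/N²` apart, and `1/N² > 2l` for
large `N` (`3(1+lam) > 2`).  `#C l^t ≥ (c(v-u)/2) N² (2/3)^t N^(-3(1+lam)t) → ∞`.
Windows: `#{c ∈ C : p ≤ c ≤ p+r} ≤ rN² + 1`, `rN² ≤ (2/c) r/(v-u) #C`, and `1 ≤ l^t #C ≤ r^t #C`. -/
def KidsPow : Prop := ∀ lam : ℝ, 1 / 3 < lam → KidsFor (2 / (3 * (1 + lam))) lam

/-! ## Part E: the secant points -/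

/-- **Fam.**  The points `x = (3m²c, m(2nc+me), n(nc+2me), 3n²e)` with `me - nc = 1`.

Proof.  Let `ζ = n/m + 1/(3mc) = x.b/x.a` (`me = nc+1`).  Exactly: `x.a ζ = x.b`, `x.a ζ² - x.c = 1/(3c)`,
`x.a ζ³ - x.d = n/(mc) + 1/(9mc²)`, so these are `≤ (10/9)/C` in absolute value (`n ≤ m`, `m ≥ 1`, `c ≥ C ≥ 1`).
`x.a = 3m²c ≤ 9N²C`.  `|ζ| ≤ 2`, in fact `0 ≤ ζ ≤ 1 + 1/3`; `|ξ^2 - ζ^2| ≤ (7/3) ρ`, `|ξ³-ζ³| ≤ 5ρ`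
(`ξ ∈ [0,1]`), so the errors at `ξ` are `≤ 9N²C·5ρ + (10/9)/C`; the first is
`≤ (45/90)(9N²C)^(-lam)` by the condition on `ρ`, the second `≤ (1/2)(9N²C)^(-lam)` since
`C^(1-lam) ≥ 20 N^(2lam) ≥ (20/9) 9^lam N^(2lam)` (`lam ≤ 1`).  And `(9N²C)^(-lam) ≤ (x.a)^(-lam)`. -/
def Fam : Prop := ∀ (lam N C ρ ξ : ℝ) (m n c e : ℤ), 0 < lam → lam < 1 → 1 ≤ N → 1 ≤ C →
  20 * N ^ (2 * lam) ≤ C ^ (1 - lam) → 0 < m → (m : ℝ) ≤ N → 0 ≤ n → n ≤ m → m * e - n * c = 1 →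
  C ≤ c → (c : ℝ) ≤ 3 * C → 0 ≤ ρ → 90 * N ^ 2 * C * ρ ≤ (9 * N ^ 2 * C) ^ (-lam) →
  0 ≤ ξ → ξ ≤ 1 → |ξ - ((n : ℝ) / m + 1 / (3 * m * c))| ≤ ρ →
  Near ⟨3 * m ^ 2 * c, m * (2 * n * c + m * e), n * (n * c + 2 * m * e), 3 * n ^ 2 * e⟩ ξ
    (|((3 * m ^ 2 * c : ℤ) : ℝ)| ^ (-lam))

/-- **TwoLevel.**  Counting a two-level set in a window.

Proof.  The `p`'s which occur lie in `[a - ω, a + r]` and are `σ1`-separated: at most `(r+ω)/σ1 + 1`; for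
each `p` the points `p + e p i` in the window are `σ2`-separated in an interval of length `r`: at most
`min m (r/σ2 + 1)`. -/
def TwoLevel : Prop := ∀ (P : Finset ℝ) (m : ℕ) (e : ℝ → ℕ → ℝ) (σ1 σ2 ω : ℝ), 0 < σ1 → 0 < σ2 → 0 ≤ ω →
  (∀ p ∈ P, ∀ p' ∈ P, p ≠ p' → σ1 ≤ |p - p'|) →
  (∀ p ∈ P, ∀ i < m, 0 ≤ e p i ∧ e p i ≤ ω) →
  (∀ p ∈ P, ∀ i < m, ∀ j < m, i ≠ j → σ2 ≤ |e p i - e p j|) →
  ∀ a r : ℝ, 0 ≤ r →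
    (((P ×ˢ Finset.range m).filter fun q => a ≤ q.1 + e q.1 q.2 ∧ q.1 + e q.1 q.2 ≤ a + r).card : ℝ)
      ≤ ((r + ω) / σ1 + 1) * min (m : ℝ) (r / σ2 + 1)

/-- **KidsSec** (from `Farey`, `Fam`, `TwoLevel`).

Proof.  `s = 2(1-lam)/(1+lam) ≤ 1/2`, `t < s`.  `N` large, `C = ⌈(20 N^(2lam))^(1/(1-lam))⌉` (so
`C ≥ 20N³` as `2lam/(1-lam) ≥ 3`, and `C ≤ 2(20N^(2lam))^(1/(1-lam))`), `m₀ = ⌊C/N⌋`.  `P` from `Farey` for the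
interval `[u + (v-u)/4, v - (v-u)/4]`.  For `(a,b) ∈ P` there is `c₀ ∈ [C, C+a)` with `b c₀ ≡ -1 mod a`;
`c_i = c₀ + i a`, `e_i = (1 + b c_i)/a` for `i < m₀`: `C ≤ c_i ≤ 3C`.  Centres
`ζ = b/a + 1/(3 a c_i)`, radius `ρ = (9N²C)^(-lam)/(90N²C)`, `l = 2ρ`, left endpoints `ζ - ρ`.  `Fam` gives
`Gd lam M` on the child (`3a²c ≥ C ≥ M`).
Two-level set: `σ1 = 1/N²`, `ω = 1/(3ηNC) ≤ 1/(3N²)`, `σ2 = 1/(27C²)` (`1/(3ac) - 1/(3a(c+a)) = 1/(3c(c+a))`,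
in general `(c'-c)/(3acc') ≥ a/(27 a C²)`).  All centres are distinct and separated by
`min(σ2, σ1 - ω) > 2l` for large `N`.  `#children = #P·m₀ ≥ c' (v-u) N² · C/(2N)`.
`#children·l^t → ∞`: `l^t ~ (N²C)^(-(1+lam)t)`, `C ~ N^(2lam/(1-lam))`; the condition is
`(1+lam) t · (2/(1-lam)) < (1+lam)/(1-lam)`, i.e. `t < 1/2`.
Windows: `count ≤ ((r+ω)N² + 1) min(m₀, 27rC²+1) ≤ (rN²+2) min(m₀, 27 r C² + 1)`.
If `r ≥ 1/N²`: `≤ 3rN² m₀ ≤ (3/c') r/(v-u) #children`.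
If `r < 1/N²`, `rC² ≥ 1`: `≤ 3 min(m₀, 28rC²) ≤ 3 m₀^(1-t)(28rC²)^t ≤ 84 m₀ r^t (C²/m₀)^t ≤ 168 m₀ r^t (CN)^t`
(`m₀ ≥ C/(2N)`), which is `≤ r^t c'(v-u)N² m₀` for large `N` since `(CN)^t = O(N^(t(1+lam)/(1-lam)))` and
`t(1+lam)/(1-lam) < 2`.
If `rC² < 1`: `≤ 84 ≤ l^t #children ≤ r^t #children` for large `N`. -/
def KidsSec : Prop := ∀ lam : ℝ, 3 / 5 ≤ lam → lam < 1 → KidsFor ((2 - 2 * lam) / (1 + lam)) lam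

/-! ## Part F: the Minkowski argument (`1/3 < lam < 3/5`) -/

/-- **Mink.**  Minkowski's theorem for the box.

Proof.  The linear map `x ↦ (a, y1, y2, y3)` is unipotent (determinant 1); the preimage of the box
`|a| ≤ Q, |y1| ≤ Q^(2lam-1), |y2|, |y3| ≤ Q^(-lam)` is a compact convex symmetric set of volume
`2⁴ Q·Q^(2lam-1)·Q^(-2lam) = 2⁴`: `MeasureTheory.exists_ne_zero_mem_lattice_of_measure_mul_two_pow_le_measure`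
with the standard lattice. -/
def Mink : Prop := ∀ ξ Q lam : ℝ, 1 ≤ Q → ∃ x : Cub, ¬ (x.a = 0 ∧ x.b = 0 ∧ x.c = 0 ∧ x.d = 0) ∧
  |(x.a : ℝ)| ≤ Q ∧ Box x ξ Q lam

/-- **BadD** (from `Count`).

Proof.  `η = Q^(2lam-1)`, `δ = Q^(-lam)`, `Q` large.  By `Cub.D_eq_y`,
`|D| ≤ (|a|δ + ηδ)² + 4(|a|δ + η²)(ηδ + δ²)
     = a²δ² + 2|a|ηδ² + η²δ² + 4|a|ηδ² + 4|a|δ³ + 4η³δ + 4η²δ²`,
and `|a|ηδ² ≤ Q^(-ε)`, `η²δ² = Q^(2lam-2)`, `|a|δ³ ≤ Q^(1-3lam)`, `η³δ = Q^(5lam-3)` are all small, so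
`1 ≤ |D| ≤ a²δ² + 1/2`; so `a²δ² ≥ 1/2` (in particular `a ≠ 0`, and `|a| ≥ Q^lam/√2 ≥ η`, so
`|b| ≤ |a| + η ≤ 2|a|`) and `|D| ≤ 2a²δ²`.  Dyadic `X = 2^j ≤ |a| < 2X`, `X ≤ Q^(1-ε)`: `T = 8X²δ²` (`≥ |D| ≥ 1`),
`B = 2Xδ + η²`, `R = 2`: `Count` bounds the number of `x` by
`2C(8X²δ² + (2Xδ+η²)·3Xδ)(1+log T)² ≤ C'(X²δ² + η²Xδ)(1+log Q)²`.  Each `x` gives a set of `ξ` in the ball
`|ξ - b/a| ≤ η/X` of measure `2η/X`.  The total for `j` is `≤ C''(1+log Q)²(ηXδ² + η³δ)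
≤ C''(1+log Q)²(Q^(-ε) + Q^(5lam-3))`, and there are `≤ 2(1+log Q)` values of `j`.  This tends to 0. -/
def BadD : Prop := ∀ lam ε τ : ℝ, 1 / 3 < lam → lam < 3 / 5 → 0 < ε → ε < 1 → 0 < τ →
  ∃ Q₀ : ℝ, ∀ Q : ℝ, Q₀ ≤ Q → volume (Bad PD lam ε Q) ≤ ENNReal.ofReal τ

/-- **BadH** (from `Deg`).

Proof.  `h0 = κm²`, `h1 = 2κmn`, `h2 = κn²`, `κ ≠ 0`.  `κ(mξ-n)² = y1y3 - y2²`, so
`(mξ-n)² ≤ ηδ + δ² ≤ 2ηδ = 2Q^(lam-1)`; `m² ≤ |h0| = |a y2 - y1²| ≤ Q^(1-ε-lam) + Q^(4lam-2)`, so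
`m ≤ A := Q^((1-ε-lam)/2) + Q^(2lam-1)`.  `m = 0` is impossible for large `Q` (`n = ±1`, `n² ≤ 2Q^(lam-1) < 1`).
For `m ≥ 1` the `ξ ∈ [0,1]` with `|mξ - n| ≤ √2 Q^((lam-1)/2) ≤ 1` for some `n` have measure at most
`(m+3)·2√2 Q^((lam-1)/2)/m ≤ 12 Q^((lam-1)/2)`; total `≤ 12 A Q^((lam-1)/2)
= 12(Q^(-ε/2) + Q^((5lam-3)/2)) → 0`. -/
def BadH : Prop := ∀ lam ε τ : ℝ, 1 / 3 < lam → lam < 3 / 5 → 0 < ε → ε < 1 → 0 < τ →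
  ∃ Q₀ : ℝ, ∀ Q : ℝ, Q₀ ≤ Q → volume (Bad PH lam ε Q) ≤ ENNReal.ofReal τ

/-- **Bad0** (from `Deg`).

Proof.  `x = κ(m³, m²n, mn², n³)`, `κ ≠ 0`; `y2 = κ m (n - mξ)²`, `y3 = κ(n-mξ)³`.  `m = 0`: `|y3| = |κ| ≥ 1 > δ`
impossible.  `m ≥ 1`: `m³ ≤ |a| ≤ Q^(1-ε)`, `m(n-mξ)² ≤ δ`, so `|mξ - n| ≤ (δ/m)^(1/2) ≤ 1`.  Measure of the
`ξ ∈ [0,1]`: `≤ ∑_{m ≤ Q^((1-ε)/3)} (m+3)·2(δ/m)^(1/2)/m ≤ 8 δ^(1/2) ∑ m^(-1/2) ≤ 16 δ^(1/2) Q^((1-ε)/6)`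
`= 16 Q^(-lam/2 + (1-ε)/6) → 0`. -/
def Bad0 : Prop := ∀ lam ε τ : ℝ, 1 / 3 < lam → lam < 3 / 5 → 0 < ε → ε < 1 → 0 < τ →
  ∃ Q₀ : ℝ, ∀ Q : ℝ, Q₀ ≤ Q → volume (Bad P0 lam ε Q) ≤ ENNReal.ofReal τ

/-- **KidsMink** (from `Mink`, `BadD`, `BadH`, `Bad0`).

Proof.  `s = (2-2lam)/(1+lam)`, `t < s`.  Choose `lam1 ∈ (lam, 3/5)` with `(1+lam1)t < 2 - 2lam1`, and then
`ε ∈ (0,1)` with `(1+lam1)t < 2 - 2lam1 - ε` and `ε ≤ 3 - 5lam1` (so `4lam1 - 3 + ε ≤ -lam1`,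
`6lam1 - 5 + 2ε ≤ -lam1`, `2lam1-2+ε ≤ 0`).  `Q` large, `δ = Q^(-lam1)`, `η = Q^(2lam1-1)`, `w = Q^(2lam1-2+ε)`
(small).  The union of the three bad sets has measure `≤ (v-u)/64`.  For a good `ξ ∈ [u,v]` (not bad) `Mink`
gives `x` with `Q^(1-ε) < |a| ≤ Q`, so `|ξ - b/a| ≤ η/|a| ≤ w`.  Cells: `J_j = [u+4wj, u+4w(j+1)]`,
`1 ≤ j < m₀ = ⌊(v-u)/(4w)⌋`; call `j` good if `[u+4wj+w, u+4wj+2w]` contains a `ξ_j` which is not bad: the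
number of `j` which are not good is `≤ ((v-u)/64)/w`, so at least `(v-u)/(8w)` are good (`Q` large).  Let
`ζ_j = b/a` for the point `x_j` of `ξ_j`: `ζ_j ∈ [u+4wj, u+4wj+3w]`; so the `ζ_j` are `≥ w` apart.
Children: `[ζ_j - ρ, ζ_j + ρ]`, `ρ = Q^(-1-lam1)/2`, `l = 2ρ`, contained in `[u,v]` (`ρ ≤ w`, `j ≥ 1`).
`w > 2l` for large `Q` (`3lam1 + ε > 1`).
Errors: at `ζ = ξ + y1(ξ)/a`: `y1(ζ) = 0`; by the shift formulas (`Cub.y2_shift`, ...) with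
`τ = y1/a`: `y2(ζ) = y2 - y1²/a`, `|y2(ζ)| ≤ δ + η²/Q^(1-ε) ≤ 2δ`; `y3(ζ) = y3 - 3y1y2/a + 2y1³/a²`,
`|y3(ζ)| ≤ 6δ`.  At `ξ' = ζ + τ'`, `|τ'| ≤ ρ`: `|y1| ≤ ρQ ≤ δ`, `|y2| ≤ 3δ`, `|y3| ≤ 8δ + ...`; then
`|aξ'^j - x_j| ≤ |y3| + 3|y2| + 3|y1| ≤ 30δ ≤ Q^(-lam) ≤ |a|^(-lam)` for large `Q` (`ξ' ∈ [0,1]`).
`|a| > Q^(1-ε) ≥ M`.
`#C l^t ≥ (v-u)/8 · Q^(2-2lam1-ε-(1+lam1)t) → ∞`.
Windows: `count ≤ r/w + 1 ≤ (8 r/(v-u)) #C + 1` and `1 ≤ l^t #C ≤ r^t #C`. -/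
def KidsMink : Prop := ∀ lam : ℝ, 1 / 3 < lam → lam < 3 / 5 → KidsFor ((2 - 2 * lam) / (1 + lam)) lam

/-! ## Part G: assembly -/

/-- **Dirichlet** (simultaneous approximation, `n = 3`).

Proof.  Pigeonhole: for `N ≥ 1` there is `1 ≤ q ≤ N³` with `‖qξ‖, ‖qξ²‖, ‖qξ³‖ ≤ 1/N` (`N³+1` points of
`[0,1)³`, `N³` cubes of side `1/N`).  Take `X = N³`. -/
def Dirichlet : Prop := ∀ ξ : ℝ, Approx 3 ξ (1 / 3)

/-- **Third** (from `Expo`, `Upper`, `Dirichlet`): the case `lam = 1/3`.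

Proof.  By `Dirichlet` and `Expo` (2) the complement of `Z = {lambdaExp 3 ξ = 1/3}` is contained in
`⋃_k {Approx 3 ξ (1/3 + 1/(k+1))}`; each has dimension `≤ gdim (1/3 + 1/(k+1)) < 1`, hence Lebesgue measure 0
(`μH[1] = volume` on `ℝ`).  So `Z` has full measure, and dimension 1 (`gdim (1/3) = 1`). -/
def Third : Prop :=
  dimH {ξ : ℝ | lambdaExp 3 ξ = ((1 / 3 : ℝ) : EReal)} = ENNReal.ofReal (gdim (1 / 3))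

/-- **Main.** -/
def Main : Prop := ∀ lam : ℝ, 1 / 3 ≤ lam →
  dimH {ξ : ℝ | lambdaExp 3 ξ = (lam : EReal)} = ENNReal.ofReal (gdim lam)

end MP_211f72_nt
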